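import Pool.Agent.Lib.MP_381773_ag.Basis

/-!
# The `a`-number of `M(t,q)` is one
-/

set_option autoImplicit false
set_option linter.unusedSectionVars false

universe u

namespace Pool.Agent.UA

open WittVector

variable {p : ℕ} [Fact p.Prime] {k : Type u} [Field k] [IsAlgClosed k] [CharP k p]

/-- The submodule `FM + VM`. -/
noncomputable def fvSpan (t q : ℕ) : Submodule (WittVector p k) (Fin 12 → WittVector p k) :=
  Submodule.span (WittVector p k) (Set.range (modF p k t q) ∪ Set.range (modV p k t q))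

theorem modF_mem (t q : ℕ) (x : Fin 12 → WittVector p k) : modF p k t q x ∈ fvSpan t q :=
  Submodule.subset_span (Or.inl ⟨x, rfl⟩)

theorem modV_mem (t q : ℕ) (x : Fin 12 → WittVector p k) : modV p k t q x ∈ fvSpan t q :=
  Submodule.subset_span (Or.inr ⟨x, rfl⟩)

theorem sb_mem (t q : ℕ) (i : Fin 12) (hi : i ≠ 6) (c : WittVector p k) :
    sb i c ∈ fvSpan t q := by
  have hV : ∀ c : WittVector p k, ∃ d, frobInv p k d = c := fun c => ⟨frob p k c, frobInv_frob c⟩
  have hF : ∀ c : WittVector p k, ∃ d, frob p k d = c := fun c => ⟨frobInv p k c, frob_frobInv c⟩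
  obtain ⟨d, hd⟩ := hV c
  obtain ⟨d', hd'⟩ := hF c
  fin_cases i
  · rw [← hd]; exact (modV_sb_1 t q d) ▸ modV_mem t q (sb 1 d)
  · rw [← hd]; exact (modV_sb_2 t q d) ▸ modV_mem t q (sb 2 d)
  · rw [← hd]; exact (modV_sb_3 t q d) ▸ modV_mem t q (sb 3 d)
  · rw [← hd]; exact (modV_sb_4 t q d) ▸ modV_mem t q (sb 4 d)
  · rw [← hd]; exact (modV_sb_5 t q d) ▸ modV_mem t q (sb 5 d)
  · rw [← hd]; exact (modV_sb_6 t q d) ▸ modV_mem t q (sb 6 d)
  · exact absurd rfl hi
  · rw [← hd']; exact (modF_sb_6 t q d') ▸ modF_mem t q (sb 6 d')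
  · rw [← hd']; exact (modF_sb_7 t q d') ▸ modF_mem t q (sb 7 d')
  · rw [← hd']; exact (modF_sb_8 t q d') ▸ modF_mem t q (sb 8 d')
  · rw [← hd']; exact (modF_sb_9 t q d') ▸ modF_mem t q (sb 9 d')
  · rw [← hd']; exact (modF_sb_10 t q d') ▸ modF_mem t q (sb 10 d')

theorem sb6_mem (t q : ℕ) (c : WittVector p k) :
    sb 6 ((p : WittVector p k) * c) ∈ fvSpan t q := by
  obtain ⟨d, hd⟩ : ∃ d, frob p k d = c := ⟨frobInv p k c, frob_frobInv c⟩
  rw [← hd]; exact (modF_sb_5 t q d) ▸ modF_mem t q (sb 5 d)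

theorem mem_fvSpan (t q : ℕ) (hq : p ∣ q) (x : Fin 12 → WittVector p k) :
    x ∈ fvSpan t q ↔ (p : WittVector p k) ∣ x 6 := by
  have hq' : (p : WittVector p k) ∣ (q : WittVector p k) := by
    obtain ⟨r, rfl⟩ := hq
    exact ⟨(r : WittVector p k), by push_cast; ring⟩
  constructor
  · intro h
    induction h using Submodule.span_induction with
    | mem y hy =>
      rcases hy with ⟨z, rfl⟩ | ⟨z, rfl⟩
      · rw [modF_6]
        exact dvd_sub (Dvd.intro _ rfl) (dvd_mul_of_dvd_left hq' _)
      · rw [modV_6]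
        exact Dvd.intro _ rfl
    | zero => exact dvd_zero _
    | add y z _ _ hy hz => exact dvd_add hy hz
    | smul c y _ hy => exact dvd_mul_of_dvd_right hy c
  · rintro ⟨c, hc⟩
    rw [sum_sb x]
    refine Submodule.sum_mem _ fun i _ => ?_
    by_cases hi : i = 6
    · subst hi
      rw [hc]
      exact sb6_mem t q c
    · exact sb_mem t q i hi _

theorem modM_aNumber (t q : ℕ) (hq : p ∣ q) : (modM p k t q).aNumber = 1 := by
  have key : IsSimpleModule (WittVector p k)
      ((Fin 12 → WittVector p k) ⧸ (fvSpan t q : Submodule (WittVector p k) _)) := by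
    rw [isSimpleModule_iff_isCoatom]
    constructor
    · intro h
      have : sb 6 (1 : WittVector p k) ∈ fvSpan (p := p) (k := k) t q := by rw [h]; trivial
      rw [mem_fvSpan t q hq, sb_apply, if_pos rfl] at this
      have h2 : (1 : WittVector p k) ∈ Ideal.span {(p : WittVector p k)} :=
        Ideal.mem_span_singleton.mpr this
      rw [WittVector.mem_span_p_iff_coeff_zero_eq_zero, WittVector.one_coeff_zero] at h2
      exact one_ne_zero h2
    · intro T hT
      obtain ⟨hle, x, hxT, hx⟩ := SetLike.lt_iff_le_and_exists.mp hT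
      rw [mem_fvSpan t q hq] at hx
      have hx0 : (x 6).coeff 0 ≠ 0 := by
        intro h0
        exact hx (Ideal.mem_span_singleton.mp
          ((WittVector.mem_span_p_iff_coeff_zero_eq_zero _).mpr h0))
      obtain ⟨w, hw⟩ := (WittVector.isUnit_of_coeff_zero_ne_zero _ hx0).exists_left_inv
      rw [eq_top_iff]
      intro y _
      have h1 : y - (y 6 * w) • x ∈ fvSpan t q := by
        rw [mem_fvSpan t q hq]
        rw [Pi.sub_apply, Pi.smul_apply, smul_eq_mul, mul_assoc, hw]
        simp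
      have h2 := T.add_mem (hle h1) (T.smul_mem (y 6 * w) hxT)
      rwa [sub_add_cancel] at h2
  change Module.length (WittVector p k)
    ((Fin 12 → WittVector p k) ⧸ (fvSpan t q : Submodule (WittVector p k) _)) = 1
  exact Module.length_eq_one_iff.mpr key

end Pool.Agent.UA
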