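import Pool.Agent.Lib.MP_381773_ag.Bdry

/-!
# The bilinear forms attached to a sequence of operators `P n`
-/

set_option autoImplicit false
set_option linter.unusedSectionVars false

universe u

namespace Pool.Agent.UA

open WittVector

variable {p : ℕ} [Fact p.Prime] {k : Type u} [Field k] [IsAlgClosed k] [CharP k p]

/-- The exponent `m` with `F^{(-i)} F^{(j)} = p^m F^{(j-i)}`. -/
def mm (i j : Fin 12) : ℕ :=
  if i.val ≤ 6 ∧ j.val ≤ 6 then min (6 - i.val) (6 - j.val)
  else if 6 ≤ i.val ∧ 6 ≤ j.val then min (i.val - 6) (j.val - 6) else 0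

/-- `σ^n` as an additive map. -/
noncomputable def sgA (n : ℤ) : WittVector p k →+ WittVector p k := (sg n).toAddMonoidHom

theorem sgA_apply (n : ℤ) (c : WittVector p k) : sgA n c = sg n c := rfl

/-- `c ↦ p^m P_{j-i}(σ^{-i} c)`. -/
noncomputable def Bpos (P : ℕ → WittVector p k →+ WittVector p k) (i j : Fin 12) :
    WittVector p k →+ WittVector p k :=
  (AddMonoidHom.mulLeft ((p : WittVector p k) ^ mm i j)).comp
    ((P (j.val - i.val)).comp (sgA (6 - (i.val : ℤ))))

theorem Bpos_apply (P : ℕ → WittVector p k →+ WittVector p k) (i j : Fin 12)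
    (c : WittVector p k) :
    Bpos P i j c = (p : WittVector p k) ^ mm i j * P (j.val - i.val) (sg (6 - (i.val : ℤ)) c) := rfl

/-- The antisymmetric extension. -/
noncomputable def Bf (P : ℕ → WittVector p k →+ WittVector p k) (i j : Fin 12) :
    WittVector p k →+ WittVector p k :=
  if i < j then Bpos P i j else if j < i then -Bpos P j i else 0

theorem Bf_antisymm (P : ℕ → WittVector p k →+ WittVector p k) (i j : Fin 12) :
    Bf P j i = - Bf P i j := by
  unfold Bf
  rcases lt_trichotomy i j with h | h | h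
  · rw [if_neg h.not_gt, if_pos h, if_pos h]
  · subst h; simp
  · rw [if_pos h, if_neg h.not_gt, if_pos h, neg_neg]

theorem Bf_self (P : ℕ → WittVector p k →+ WittVector p k) (i : Fin 12) : Bf P i i = 0 := by
  unfold Bf; simp

theorem modF_sb_gen (t q : ℕ) (j : Fin 12) (hj : j.val + 1 < 12) (c : WittVector p k) :
    modF p k t q (sb j c)
      = sb ⟨j.val + 1, hj⟩ ((p : WittVector p k) ^ (if j.val < 6 then 1 else 0) * sg 1 c) := by
  fin_cases j
  · simpa [frob_eq] using modF_sb_0 t q c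
  · simpa [frob_eq] using modF_sb_1 t q c
  · simpa [frob_eq] using modF_sb_2 t q c
  · simpa [frob_eq] using modF_sb_3 t q c
  · simpa [frob_eq] using modF_sb_4 t q c
  · simpa [frob_eq] using modF_sb_5 t q c
  · simpa [frob_eq] using modF_sb_6 t q c
  · simpa [frob_eq] using modF_sb_7 t q c
  · simpa [frob_eq] using modF_sb_8 t q c
  · simpa [frob_eq] using modF_sb_9 t q c
  · simpa [frob_eq] using modF_sb_10 t q c
  · simp at hj

theorem modV_sb_gen (t q : ℕ) (i : Fin 12) (hi : 0 < i.val) (c : WittVector p k) :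
    modV p k t q (sb i c)
      = sb ⟨i.val - 1, by omega⟩ ((p : WittVector p k) ^ (if 6 < i.val then 1 else 0) *
        sg (-1) c) := by
  fin_cases i
  · simp at hi
  · simpa [frobInv_eq] using modV_sb_1 t q c
  · simpa [frobInv_eq] using modV_sb_2 t q c
  · simpa [frobInv_eq] using modV_sb_3 t q c
  · simpa [frobInv_eq] using modV_sb_4 t q c
  · simpa [frobInv_eq] using modV_sb_5 t q c
  · simpa [frobInv_eq] using modV_sb_6 t q c
  · simpa [frobInv_eq] using modV_sb_7 t q c
  · simpa [frobInv_eq] using modV_sb_8 t q c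
  · simpa [frobInv_eq] using modV_sb_9 t q c
  · simpa [frobInv_eq] using modV_sb_10 t q c
  · simpa [frobInv_eq] using modV_sb_11 t q c

theorem mm_shift : ∀ (i j : Fin 12) (hi : 0 < i.val) (hj : j.val + 1 < 12),
    i ≠ ⟨j.val + 1, hj⟩ →
    mm i ⟨j.val + 1, hj⟩ + (if j.val < 6 then 1 else 0)
      = mm ⟨i.val - 1, by omega⟩ j + (if 6 < i.val then 1 else 0) := by
  decide

theorem mm_symm : ∀ i j : Fin 12, mm i j = mm j i := by decide

theorem generic_case (P : ℕ → WittVector p k →+ WittVector p k) (t q : ℕ) (i j : Fin 12)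
    (hi : 0 < i.val) (hj : j.val + 1 < 12) (a b : WittVector p k) :
    bet (Bf P) (sb i a) (modF p k t q (sb j b)) - bet (Bf P) (modV p k t q (sb i a)) (sb j b)
      = 0 := by
  rw [modF_sb_gen t q j hj, modV_sb_gen t q i hi, bet_sb, bet_sb]
  have e1 : a * ((p : WittVector p k) ^ (if j.val < 6 then 1 else 0) * sg 1 b)
      = (p : WittVector p k) ^ (if j.val < 6 then 1 else 0) * (a * sg 1 b) := by ring
  have e2 : (p : WittVector p k) ^ (if 6 < i.val then 1 else 0) * sg (-1) a * b
      = (p : WittVector p k) ^ (if 6 < i.val then 1 else 0) * (sg (-1) a * b) := by ring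
  rw [e1, e2, map_p_pow_mul, map_p_pow_mul]
  rcases lt_trichotomy i ⟨j.val + 1, hj⟩ with h | h | h
  · have h' : (⟨i.val - 1, by omega⟩ : Fin 12) < j := by
      rw [Fin.lt_def] at h ⊢; simp at h ⊢; omega
    have hm := mm_shift i j hi hj h.ne
    unfold Bf
    rw [if_pos h, if_pos h', Bpos_apply, Bpos_apply]
    have hn : (j.val + 1) - i.val = j.val - (i.val - 1) := by omega
    have hs : (((i.val - 1 : ℕ) : ℤ)) = (i.val : ℤ) - 1 := by omega
    simp only [hn, hs]
    have e3 : sg (6 - ((i.val : ℤ) - 1)) (sg (-1) a * b) = sg (6 - (i.val : ℤ)) (a * sg 1 b) := by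
      rw [map_mul, map_mul, sg_sg, sg_sg]
      congr 2 <;> ring_nf
    rw [e3, ← mul_assoc, ← mul_assoc, ← pow_add, ← pow_add, add_comm, hm, add_comm, sub_self]
  · have h' : (⟨i.val - 1, by omega⟩ : Fin 12) = j := by
      rw [Fin.ext_iff] at h ⊢; simp at h ⊢; omega
    rw [← h, h', Bf_self, Bf_self]
    simp
  · have h' : j < (⟨i.val - 1, by omega⟩ : Fin 12) := by
      rw [Fin.lt_def] at h ⊢; simp at h ⊢; omega
    have hm := mm_shift i j hi hj h.ne'
    rw [Bf_antisymm P ⟨j.val + 1, hj⟩ i, Bf_antisymm P j ⟨i.val - 1, _⟩]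
    unfold Bf
    rw [if_pos h, if_pos h', AddMonoidHom.neg_apply, AddMonoidHom.neg_apply,
      Bpos_apply, Bpos_apply]
    have hn : (i.val - 1) - j.val = i.val - (j.val + 1) := by omega
    simp only [hn]
    have e3 : sg (6 - (j.val : ℤ)) (sg (-1) a * b)
        = sg (6 - ((j.val + 1 : ℕ) : ℤ)) (a * sg 1 b) := by
      rw [map_mul, map_mul, sg_sg, sg_sg]
      push_cast
      congr 2 <;> ring_nf
    rw [e3, mm_symm ⟨j.val + 1, hj⟩ i, mm_symm j ⟨i.val - 1, _⟩]
    rw [mul_neg, mul_neg, ← mul_assoc, ← mul_assoc, ← pow_add, ← pow_add, add_comm, hm,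
      add_comm (mm _ _), sub_self]

end Pool.Agent.UA
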