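import Pool.Agent.Lib.MP_381773_ag.BTab

/-!
# Values of the forms `Bf P`, and the two operator sequences
-/

set_option autoImplicit false
set_option linter.unusedSectionVars false
set_option linter.unusedSimpArgs false

universe u

namespace Pool.Agent.UA

open WittVector

variable {p : ℕ} [Fact p.Prime] {k : Type u} [Field k] [IsAlgClosed k] [CharP k p]

variable (P : ℕ → WittVector p k →+ WittVector p k) (c : WittVector p k)

theorem Bf_0_1 : Bf P 0 1 c = (p : WittVector p k) ^ 5 * P 1 (sg 6 c) := by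
  rw [Bf, if_pos (by decide)]; rfl

theorem Bf_1_0 : Bf P 1 0 c = -((p : WittVector p k) ^ 5 * P 1 (sg 6 c)) := by
  rw [Bf_antisymm P 0 1, AddMonoidHom.neg_apply, Bf_0_1]

theorem Bf_0_2 : Bf P 0 2 c = (p : WittVector p k) ^ 4 * P 2 (sg 6 c) := by
  rw [Bf, if_pos (by decide)]; rfl

theorem Bf_2_0 : Bf P 2 0 c = -((p : WittVector p k) ^ 4 * P 2 (sg 6 c)) := by
  rw [Bf_antisymm P 0 2, AddMonoidHom.neg_apply, Bf_0_2]

theorem Bf_0_3 : Bf P 0 3 c = (p : WittVector p k) ^ 3 * P 3 (sg 6 c) := by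
  rw [Bf, if_pos (by decide)]; rfl

theorem Bf_3_0 : Bf P 3 0 c = -((p : WittVector p k) ^ 3 * P 3 (sg 6 c)) := by
  rw [Bf_antisymm P 0 3, AddMonoidHom.neg_apply, Bf_0_3]

theorem Bf_0_4 : Bf P 0 4 c = (p : WittVector p k) ^ 2 * P 4 (sg 6 c) := by
  rw [Bf, if_pos (by decide)]; rfl

theorem Bf_4_0 : Bf P 4 0 c = -((p : WittVector p k) ^ 2 * P 4 (sg 6 c)) := by
  rw [Bf_antisymm P 0 4, AddMonoidHom.neg_apply, Bf_0_4]

theorem Bf_0_5 : Bf P 0 5 c = (p : WittVector p k) ^ 1 * P 5 (sg 6 c) := by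
  rw [Bf, if_pos (by decide)]; rfl

theorem Bf_5_0 : Bf P 5 0 c = -((p : WittVector p k) ^ 1 * P 5 (sg 6 c)) := by
  rw [Bf_antisymm P 0 5, AddMonoidHom.neg_apply, Bf_0_5]

theorem Bf_0_6 : Bf P 0 6 c = (p : WittVector p k) ^ 0 * P 6 (sg 6 c) := by
  rw [Bf, if_pos (by decide)]; rfl

theorem Bf_6_0 : Bf P 6 0 c = -((p : WittVector p k) ^ 0 * P 6 (sg 6 c)) := by
  rw [Bf_antisymm P 0 6, AddMonoidHom.neg_apply, Bf_0_6]

theorem Bf_0_7 : Bf P 0 7 c = (p : WittVector p k) ^ 0 * P 7 (sg 6 c) := by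
  rw [Bf, if_pos (by decide)]; rfl

theorem Bf_7_0 : Bf P 7 0 c = -((p : WittVector p k) ^ 0 * P 7 (sg 6 c)) := by
  rw [Bf_antisymm P 0 7, AddMonoidHom.neg_apply, Bf_0_7]

theorem Bf_0_8 : Bf P 0 8 c = (p : WittVector p k) ^ 0 * P 8 (sg 6 c) := by
  rw [Bf, if_pos (by decide)]; rfl

theorem Bf_8_0 : Bf P 8 0 c = -((p : WittVector p k) ^ 0 * P 8 (sg 6 c)) := by
  rw [Bf_antisymm P 0 8, AddMonoidHom.neg_apply, Bf_0_8]

theorem Bf_0_9 : Bf P 0 9 c = (p : WittVector p k) ^ 0 * P 9 (sg 6 c) := by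
  rw [Bf, if_pos (by decide)]; rfl

theorem Bf_9_0 : Bf P 9 0 c = -((p : WittVector p k) ^ 0 * P 9 (sg 6 c)) := by
  rw [Bf_antisymm P 0 9, AddMonoidHom.neg_apply, Bf_0_9]

theorem Bf_0_10 : Bf P 0 10 c = (p : WittVector p k) ^ 0 * P 10 (sg 6 c) := by
  rw [Bf, if_pos (by decide)]; rfl

theorem Bf_10_0 : Bf P 10 0 c = -((p : WittVector p k) ^ 0 * P 10 (sg 6 c)) := by
  rw [Bf_antisymm P 0 10, AddMonoidHom.neg_apply, Bf_0_10]

theorem Bf_0_11 : Bf P 0 11 c = (p : WittVector p k) ^ 0 * P 11 (sg 6 c) := by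
  rw [Bf, if_pos (by decide)]; rfl

theorem Bf_11_0 : Bf P 11 0 c = -((p : WittVector p k) ^ 0 * P 11 (sg 6 c)) := by
  rw [Bf_antisymm P 0 11, AddMonoidHom.neg_apply, Bf_0_11]

theorem Bf_1_2 : Bf P 1 2 c = (p : WittVector p k) ^ 4 * P 1 (sg 5 c) := by
  rw [Bf, if_pos (by decide)]; rfl

theorem Bf_2_1 : Bf P 2 1 c = -((p : WittVector p k) ^ 4 * P 1 (sg 5 c)) := by
  rw [Bf_antisymm P 1 2, AddMonoidHom.neg_apply, Bf_1_2]

theorem Bf_1_3 : Bf P 1 3 c = (p : WittVector p k) ^ 3 * P 2 (sg 5 c) := by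
  rw [Bf, if_pos (by decide)]; rfl

theorem Bf_3_1 : Bf P 3 1 c = -((p : WittVector p k) ^ 3 * P 2 (sg 5 c)) := by
  rw [Bf_antisymm P 1 3, AddMonoidHom.neg_apply, Bf_1_3]

theorem Bf_1_4 : Bf P 1 4 c = (p : WittVector p k) ^ 2 * P 3 (sg 5 c) := by
  rw [Bf, if_pos (by decide)]; rfl

theorem Bf_4_1 : Bf P 4 1 c = -((p : WittVector p k) ^ 2 * P 3 (sg 5 c)) := by
  rw [Bf_antisymm P 1 4, AddMonoidHom.neg_apply, Bf_1_4]

theorem Bf_1_5 : Bf P 1 5 c = (p : WittVector p k) ^ 1 * P 4 (sg 5 c) := by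
  rw [Bf, if_pos (by decide)]; rfl

theorem Bf_5_1 : Bf P 5 1 c = -((p : WittVector p k) ^ 1 * P 4 (sg 5 c)) := by
  rw [Bf_antisymm P 1 5, AddMonoidHom.neg_apply, Bf_1_5]

theorem Bf_1_6 : Bf P 1 6 c = (p : WittVector p k) ^ 0 * P 5 (sg 5 c) := by
  rw [Bf, if_pos (by decide)]; rfl

theorem Bf_6_1 : Bf P 6 1 c = -((p : WittVector p k) ^ 0 * P 5 (sg 5 c)) := by
  rw [Bf_antisymm P 1 6, AddMonoidHom.neg_apply, Bf_1_6]

theorem Bf_1_7 : Bf P 1 7 c = (p : WittVector p k) ^ 0 * P 6 (sg 5 c) := by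
  rw [Bf, if_pos (by decide)]; rfl

theorem Bf_7_1 : Bf P 7 1 c = -((p : WittVector p k) ^ 0 * P 6 (sg 5 c)) := by
  rw [Bf_antisymm P 1 7, AddMonoidHom.neg_apply, Bf_1_7]

theorem Bf_1_8 : Bf P 1 8 c = (p : WittVector p k) ^ 0 * P 7 (sg 5 c) := by
  rw [Bf, if_pos (by decide)]; rfl

theorem Bf_8_1 : Bf P 8 1 c = -((p : WittVector p k) ^ 0 * P 7 (sg 5 c)) := by
  rw [Bf_antisymm P 1 8, AddMonoidHom.neg_apply, Bf_1_8]

theorem Bf_1_9 : Bf P 1 9 c = (p : WittVector p k) ^ 0 * P 8 (sg 5 c) := by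
  rw [Bf, if_pos (by decide)]; rfl

theorem Bf_9_1 : Bf P 9 1 c = -((p : WittVector p k) ^ 0 * P 8 (sg 5 c)) := by
  rw [Bf_antisymm P 1 9, AddMonoidHom.neg_apply, Bf_1_9]

theorem Bf_1_10 : Bf P 1 10 c = (p : WittVector p k) ^ 0 * P 9 (sg 5 c) := by
  rw [Bf, if_pos (by decide)]; rfl

theorem Bf_10_1 : Bf P 10 1 c = -((p : WittVector p k) ^ 0 * P 9 (sg 5 c)) := by
  rw [Bf_antisymm P 1 10, AddMonoidHom.neg_apply, Bf_1_10]

theorem Bf_1_11 : Bf P 1 11 c = (p : WittVector p k) ^ 0 * P 10 (sg 5 c) := by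
  rw [Bf, if_pos (by decide)]; rfl

theorem Bf_11_1 : Bf P 11 1 c = -((p : WittVector p k) ^ 0 * P 10 (sg 5 c)) := by
  rw [Bf_antisymm P 1 11, AddMonoidHom.neg_apply, Bf_1_11]

theorem Bf_2_3 : Bf P 2 3 c = (p : WittVector p k) ^ 3 * P 1 (sg 4 c) := by
  rw [Bf, if_pos (by decide)]; rfl

theorem Bf_3_2 : Bf P 3 2 c = -((p : WittVector p k) ^ 3 * P 1 (sg 4 c)) := by
  rw [Bf_antisymm P 2 3, AddMonoidHom.neg_apply, Bf_2_3]

theorem Bf_2_4 : Bf P 2 4 c = (p : WittVector p k) ^ 2 * P 2 (sg 4 c) := by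
  rw [Bf, if_pos (by decide)]; rfl

theorem Bf_4_2 : Bf P 4 2 c = -((p : WittVector p k) ^ 2 * P 2 (sg 4 c)) := by
  rw [Bf_antisymm P 2 4, AddMonoidHom.neg_apply, Bf_2_4]

theorem Bf_2_5 : Bf P 2 5 c = (p : WittVector p k) ^ 1 * P 3 (sg 4 c) := by
  rw [Bf, if_pos (by decide)]; rfl

theorem Bf_5_2 : Bf P 5 2 c = -((p : WittVector p k) ^ 1 * P 3 (sg 4 c)) := by
  rw [Bf_antisymm P 2 5, AddMonoidHom.neg_apply, Bf_2_5]

theorem Bf_2_6 : Bf P 2 6 c = (p : WittVector p k) ^ 0 * P 4 (sg 4 c) := by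
  rw [Bf, if_pos (by decide)]; rfl

theorem Bf_6_2 : Bf P 6 2 c = -((p : WittVector p k) ^ 0 * P 4 (sg 4 c)) := by
  rw [Bf_antisymm P 2 6, AddMonoidHom.neg_apply, Bf_2_6]

theorem Bf_2_7 : Bf P 2 7 c = (p : WittVector p k) ^ 0 * P 5 (sg 4 c) := by
  rw [Bf, if_pos (by decide)]; rfl

theorem Bf_7_2 : Bf P 7 2 c = -((p : WittVector p k) ^ 0 * P 5 (sg 4 c)) := by
  rw [Bf_antisymm P 2 7, AddMonoidHom.neg_apply, Bf_2_7]

theorem Bf_2_8 : Bf P 2 8 c = (p : WittVector p k) ^ 0 * P 6 (sg 4 c) := by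
  rw [Bf, if_pos (by decide)]; rfl

theorem Bf_8_2 : Bf P 8 2 c = -((p : WittVector p k) ^ 0 * P 6 (sg 4 c)) := by
  rw [Bf_antisymm P 2 8, AddMonoidHom.neg_apply, Bf_2_8]

theorem Bf_2_9 : Bf P 2 9 c = (p : WittVector p k) ^ 0 * P 7 (sg 4 c) := by
  rw [Bf, if_pos (by decide)]; rfl

theorem Bf_9_2 : Bf P 9 2 c = -((p : WittVector p k) ^ 0 * P 7 (sg 4 c)) := by
  rw [Bf_antisymm P 2 9, AddMonoidHom.neg_apply, Bf_2_9]

theorem Bf_2_10 : Bf P 2 10 c = (p : WittVector p k) ^ 0 * P 8 (sg 4 c) := by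
  rw [Bf, if_pos (by decide)]; rfl

theorem Bf_10_2 : Bf P 10 2 c = -((p : WittVector p k) ^ 0 * P 8 (sg 4 c)) := by
  rw [Bf_antisymm P 2 10, AddMonoidHom.neg_apply, Bf_2_10]

theorem Bf_2_11 : Bf P 2 11 c = (p : WittVector p k) ^ 0 * P 9 (sg 4 c) := by
  rw [Bf, if_pos (by decide)]; rfl

theorem Bf_11_2 : Bf P 11 2 c = -((p : WittVector p k) ^ 0 * P 9 (sg 4 c)) := by
  rw [Bf_antisymm P 2 11, AddMonoidHom.neg_apply, Bf_2_11]

theorem Bf_3_4 : Bf P 3 4 c = (p : WittVector p k) ^ 2 * P 1 (sg 3 c) := by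
  rw [Bf, if_pos (by decide)]; rfl

theorem Bf_4_3 : Bf P 4 3 c = -((p : WittVector p k) ^ 2 * P 1 (sg 3 c)) := by
  rw [Bf_antisymm P 3 4, AddMonoidHom.neg_apply, Bf_3_4]

theorem Bf_3_5 : Bf P 3 5 c = (p : WittVector p k) ^ 1 * P 2 (sg 3 c) := by
  rw [Bf, if_pos (by decide)]; rfl

theorem Bf_5_3 : Bf P 5 3 c = -((p : WittVector p k) ^ 1 * P 2 (sg 3 c)) := by
  rw [Bf_antisymm P 3 5, AddMonoidHom.neg_apply, Bf_3_5]

theorem Bf_3_6 : Bf P 3 6 c = (p : WittVector p k) ^ 0 * P 3 (sg 3 c) := by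
  rw [Bf, if_pos (by decide)]; rfl

theorem Bf_6_3 : Bf P 6 3 c = -((p : WittVector p k) ^ 0 * P 3 (sg 3 c)) := by
  rw [Bf_antisymm P 3 6, AddMonoidHom.neg_apply, Bf_3_6]

theorem Bf_3_7 : Bf P 3 7 c = (p : WittVector p k) ^ 0 * P 4 (sg 3 c) := by
  rw [Bf, if_pos (by decide)]; rfl

theorem Bf_7_3 : Bf P 7 3 c = -((p : WittVector p k) ^ 0 * P 4 (sg 3 c)) := by
  rw [Bf_antisymm P 3 7, AddMonoidHom.neg_apply, Bf_3_7]

theorem Bf_3_8 : Bf P 3 8 c = (p : WittVector p k) ^ 0 * P 5 (sg 3 c) := by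
  rw [Bf, if_pos (by decide)]; rfl

theorem Bf_8_3 : Bf P 8 3 c = -((p : WittVector p k) ^ 0 * P 5 (sg 3 c)) := by
  rw [Bf_antisymm P 3 8, AddMonoidHom.neg_apply, Bf_3_8]

theorem Bf_3_9 : Bf P 3 9 c = (p : WittVector p k) ^ 0 * P 6 (sg 3 c) := by
  rw [Bf, if_pos (by decide)]; rfl

theorem Bf_9_3 : Bf P 9 3 c = -((p : WittVector p k) ^ 0 * P 6 (sg 3 c)) := by
  rw [Bf_antisymm P 3 9, AddMonoidHom.neg_apply, Bf_3_9]

theorem Bf_3_10 : Bf P 3 10 c = (p : WittVector p k) ^ 0 * P 7 (sg 3 c) := by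
  rw [Bf, if_pos (by decide)]; rfl

theorem Bf_10_3 : Bf P 10 3 c = -((p : WittVector p k) ^ 0 * P 7 (sg 3 c)) := by
  rw [Bf_antisymm P 3 10, AddMonoidHom.neg_apply, Bf_3_10]

theorem Bf_3_11 : Bf P 3 11 c = (p : WittVector p k) ^ 0 * P 8 (sg 3 c) := by
  rw [Bf, if_pos (by decide)]; rfl

theorem Bf_11_3 : Bf P 11 3 c = -((p : WittVector p k) ^ 0 * P 8 (sg 3 c)) := by
  rw [Bf_antisymm P 3 11, AddMonoidHom.neg_apply, Bf_3_11]

theorem Bf_4_5 : Bf P 4 5 c = (p : WittVector p k) ^ 1 * P 1 (sg 2 c) := by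
  rw [Bf, if_pos (by decide)]; rfl

theorem Bf_5_4 : Bf P 5 4 c = -((p : WittVector p k) ^ 1 * P 1 (sg 2 c)) := by
  rw [Bf_antisymm P 4 5, AddMonoidHom.neg_apply, Bf_4_5]

theorem Bf_4_6 : Bf P 4 6 c = (p : WittVector p k) ^ 0 * P 2 (sg 2 c) := by
  rw [Bf, if_pos (by decide)]; rfl

theorem Bf_6_4 : Bf P 6 4 c = -((p : WittVector p k) ^ 0 * P 2 (sg 2 c)) := by
  rw [Bf_antisymm P 4 6, AddMonoidHom.neg_apply, Bf_4_6]

theorem Bf_4_7 : Bf P 4 7 c = (p : WittVector p k) ^ 0 * P 3 (sg 2 c) := by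
  rw [Bf, if_pos (by decide)]; rfl

theorem Bf_7_4 : Bf P 7 4 c = -((p : WittVector p k) ^ 0 * P 3 (sg 2 c)) := by
  rw [Bf_antisymm P 4 7, AddMonoidHom.neg_apply, Bf_4_7]

theorem Bf_4_8 : Bf P 4 8 c = (p : WittVector p k) ^ 0 * P 4 (sg 2 c) := by
  rw [Bf, if_pos (by decide)]; rfl

theorem Bf_8_4 : Bf P 8 4 c = -((p : WittVector p k) ^ 0 * P 4 (sg 2 c)) := by
  rw [Bf_antisymm P 4 8, AddMonoidHom.neg_apply, Bf_4_8]

theorem Bf_4_9 : Bf P 4 9 c = (p : WittVector p k) ^ 0 * P 5 (sg 2 c) := by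
  rw [Bf, if_pos (by decide)]; rfl

theorem Bf_9_4 : Bf P 9 4 c = -((p : WittVector p k) ^ 0 * P 5 (sg 2 c)) := by
  rw [Bf_antisymm P 4 9, AddMonoidHom.neg_apply, Bf_4_9]

theorem Bf_4_10 : Bf P 4 10 c = (p : WittVector p k) ^ 0 * P 6 (sg 2 c) := by
  rw [Bf, if_pos (by decide)]; rfl

theorem Bf_10_4 : Bf P 10 4 c = -((p : WittVector p k) ^ 0 * P 6 (sg 2 c)) := by
  rw [Bf_antisymm P 4 10, AddMonoidHom.neg_apply, Bf_4_10]

theorem Bf_4_11 : Bf P 4 11 c = (p : WittVector p k) ^ 0 * P 7 (sg 2 c) := by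
  rw [Bf, if_pos (by decide)]; rfl

theorem Bf_11_4 : Bf P 11 4 c = -((p : WittVector p k) ^ 0 * P 7 (sg 2 c)) := by
  rw [Bf_antisymm P 4 11, AddMonoidHom.neg_apply, Bf_4_11]

theorem Bf_5_6 : Bf P 5 6 c = (p : WittVector p k) ^ 0 * P 1 (sg 1 c) := by
  rw [Bf, if_pos (by decide)]; rfl

theorem Bf_6_5 : Bf P 6 5 c = -((p : WittVector p k) ^ 0 * P 1 (sg 1 c)) := by
  rw [Bf_antisymm P 5 6, AddMonoidHom.neg_apply, Bf_5_6]

theorem Bf_5_7 : Bf P 5 7 c = (p : WittVector p k) ^ 0 * P 2 (sg 1 c) := by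
  rw [Bf, if_pos (by decide)]; rfl

theorem Bf_7_5 : Bf P 7 5 c = -((p : WittVector p k) ^ 0 * P 2 (sg 1 c)) := by
  rw [Bf_antisymm P 5 7, AddMonoidHom.neg_apply, Bf_5_7]

theorem Bf_5_8 : Bf P 5 8 c = (p : WittVector p k) ^ 0 * P 3 (sg 1 c) := by
  rw [Bf, if_pos (by decide)]; rfl

theorem Bf_8_5 : Bf P 8 5 c = -((p : WittVector p k) ^ 0 * P 3 (sg 1 c)) := by
  rw [Bf_antisymm P 5 8, AddMonoidHom.neg_apply, Bf_5_8]

theorem Bf_5_9 : Bf P 5 9 c = (p : WittVector p k) ^ 0 * P 4 (sg 1 c) := by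
  rw [Bf, if_pos (by decide)]; rfl

theorem Bf_9_5 : Bf P 9 5 c = -((p : WittVector p k) ^ 0 * P 4 (sg 1 c)) := by
  rw [Bf_antisymm P 5 9, AddMonoidHom.neg_apply, Bf_5_9]

theorem Bf_5_10 : Bf P 5 10 c = (p : WittVector p k) ^ 0 * P 5 (sg 1 c) := by
  rw [Bf, if_pos (by decide)]; rfl

theorem Bf_10_5 : Bf P 10 5 c = -((p : WittVector p k) ^ 0 * P 5 (sg 1 c)) := by
  rw [Bf_antisymm P 5 10, AddMonoidHom.neg_apply, Bf_5_10]

theorem Bf_5_11 : Bf P 5 11 c = (p : WittVector p k) ^ 0 * P 6 (sg 1 c) := by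
  rw [Bf, if_pos (by decide)]; rfl

theorem Bf_11_5 : Bf P 11 5 c = -((p : WittVector p k) ^ 0 * P 6 (sg 1 c)) := by
  rw [Bf_antisymm P 5 11, AddMonoidHom.neg_apply, Bf_5_11]

theorem Bf_6_7 : Bf P 6 7 c = (p : WittVector p k) ^ 0 * P 1 (sg 0 c) := by
  rw [Bf, if_pos (by decide)]; rfl

theorem Bf_7_6 : Bf P 7 6 c = -((p : WittVector p k) ^ 0 * P 1 (sg 0 c)) := by
  rw [Bf_antisymm P 6 7, AddMonoidHom.neg_apply, Bf_6_7]

theorem Bf_6_8 : Bf P 6 8 c = (p : WittVector p k) ^ 0 * P 2 (sg 0 c) := by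
  rw [Bf, if_pos (by decide)]; rfl

theorem Bf_8_6 : Bf P 8 6 c = -((p : WittVector p k) ^ 0 * P 2 (sg 0 c)) := by
  rw [Bf_antisymm P 6 8, AddMonoidHom.neg_apply, Bf_6_8]

theorem Bf_6_9 : Bf P 6 9 c = (p : WittVector p k) ^ 0 * P 3 (sg 0 c) := by
  rw [Bf, if_pos (by decide)]; rfl

theorem Bf_9_6 : Bf P 9 6 c = -((p : WittVector p k) ^ 0 * P 3 (sg 0 c)) := by
  rw [Bf_antisymm P 6 9, AddMonoidHom.neg_apply, Bf_6_9]

theorem Bf_6_10 : Bf P 6 10 c = (p : WittVector p k) ^ 0 * P 4 (sg 0 c) := by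
  rw [Bf, if_pos (by decide)]; rfl

theorem Bf_10_6 : Bf P 10 6 c = -((p : WittVector p k) ^ 0 * P 4 (sg 0 c)) := by
  rw [Bf_antisymm P 6 10, AddMonoidHom.neg_apply, Bf_6_10]

theorem Bf_6_11 : Bf P 6 11 c = (p : WittVector p k) ^ 0 * P 5 (sg 0 c) := by
  rw [Bf, if_pos (by decide)]; rfl

theorem Bf_11_6 : Bf P 11 6 c = -((p : WittVector p k) ^ 0 * P 5 (sg 0 c)) := by
  rw [Bf_antisymm P 6 11, AddMonoidHom.neg_apply, Bf_6_11]

theorem Bf_7_8 : Bf P 7 8 c = (p : WittVector p k) ^ 1 * P 1 (sg (-1) c) := by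
  rw [Bf, if_pos (by decide)]; rfl

theorem Bf_8_7 : Bf P 8 7 c = -((p : WittVector p k) ^ 1 * P 1 (sg (-1) c)) := by
  rw [Bf_antisymm P 7 8, AddMonoidHom.neg_apply, Bf_7_8]

theorem Bf_7_9 : Bf P 7 9 c = (p : WittVector p k) ^ 1 * P 2 (sg (-1) c) := by
  rw [Bf, if_pos (by decide)]; rfl

theorem Bf_9_7 : Bf P 9 7 c = -((p : WittVector p k) ^ 1 * P 2 (sg (-1) c)) := by
  rw [Bf_antisymm P 7 9, AddMonoidHom.neg_apply, Bf_7_9]

theorem Bf_7_10 : Bf P 7 10 c = (p : WittVector p k) ^ 1 * P 3 (sg (-1) c) := by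
  rw [Bf, if_pos (by decide)]; rfl

theorem Bf_10_7 : Bf P 10 7 c = -((p : WittVector p k) ^ 1 * P 3 (sg (-1) c)) := by
  rw [Bf_antisymm P 7 10, AddMonoidHom.neg_apply, Bf_7_10]

theorem Bf_7_11 : Bf P 7 11 c = (p : WittVector p k) ^ 1 * P 4 (sg (-1) c) := by
  rw [Bf, if_pos (by decide)]; rfl

theorem Bf_11_7 : Bf P 11 7 c = -((p : WittVector p k) ^ 1 * P 4 (sg (-1) c)) := by
  rw [Bf_antisymm P 7 11, AddMonoidHom.neg_apply, Bf_7_11]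

theorem Bf_8_9 : Bf P 8 9 c = (p : WittVector p k) ^ 2 * P 1 (sg (-2) c) := by
  rw [Bf, if_pos (by decide)]; rfl

theorem Bf_9_8 : Bf P 9 8 c = -((p : WittVector p k) ^ 2 * P 1 (sg (-2) c)) := by
  rw [Bf_antisymm P 8 9, AddMonoidHom.neg_apply, Bf_8_9]

theorem Bf_8_10 : Bf P 8 10 c = (p : WittVector p k) ^ 2 * P 2 (sg (-2) c) := by
  rw [Bf, if_pos (by decide)]; rfl

theorem Bf_10_8 : Bf P 10 8 c = -((p : WittVector p k) ^ 2 * P 2 (sg (-2) c)) := by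
  rw [Bf_antisymm P 8 10, AddMonoidHom.neg_apply, Bf_8_10]

theorem Bf_8_11 : Bf P 8 11 c = (p : WittVector p k) ^ 2 * P 3 (sg (-2) c) := by
  rw [Bf, if_pos (by decide)]; rfl

theorem Bf_11_8 : Bf P 11 8 c = -((p : WittVector p k) ^ 2 * P 3 (sg (-2) c)) := by
  rw [Bf_antisymm P 8 11, AddMonoidHom.neg_apply, Bf_8_11]

theorem Bf_9_10 : Bf P 9 10 c = (p : WittVector p k) ^ 3 * P 1 (sg (-3) c) := by
  rw [Bf, if_pos (by decide)]; rfl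

theorem Bf_10_9 : Bf P 10 9 c = -((p : WittVector p k) ^ 3 * P 1 (sg (-3) c)) := by
  rw [Bf_antisymm P 9 10, AddMonoidHom.neg_apply, Bf_9_10]

theorem Bf_9_11 : Bf P 9 11 c = (p : WittVector p k) ^ 3 * P 2 (sg (-3) c) := by
  rw [Bf, if_pos (by decide)]; rfl

theorem Bf_11_9 : Bf P 11 9 c = -((p : WittVector p k) ^ 3 * P 2 (sg (-3) c)) := by
  rw [Bf_antisymm P 9 11, AddMonoidHom.neg_apply, Bf_9_11]

theorem Bf_10_11 : Bf P 10 11 c = (p : WittVector p k) ^ 4 * P 1 (sg (-4) c) := by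
  rw [Bf, if_pos (by decide)]; rfl

theorem Bf_11_10 : Bf P 11 10 c = -((p : WittVector p k) ^ 4 * P 1 (sg (-4) c)) := by
  rw [Bf_antisymm P 10 11, AddMonoidHom.neg_apply, Bf_10_11]

theorem Bf_0_0 : Bf P 0 0 c = 0 := by rw [Bf_self]; rfl

theorem Bf_1_1 : Bf P 1 1 c = 0 := by rw [Bf_self]; rfl

theorem Bf_2_2 : Bf P 2 2 c = 0 := by rw [Bf_self]; rfl

theorem Bf_3_3 : Bf P 3 3 c = 0 := by rw [Bf_self]; rfl

theorem Bf_4_4 : Bf P 4 4 c = 0 := by rw [Bf_self]; rfl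

theorem Bf_5_5 : Bf P 5 5 c = 0 := by rw [Bf_self]; rfl

theorem Bf_6_6 : Bf P 6 6 c = 0 := by rw [Bf_self]; rfl

theorem Bf_7_7 : Bf P 7 7 c = 0 := by rw [Bf_self]; rfl

theorem Bf_8_8 : Bf P 8 8 c = 0 := by rw [Bf_self]; rfl

theorem Bf_9_9 : Bf P 9 9 c = 0 := by rw [Bf_self]; rfl

theorem Bf_10_10 : Bf P 10 10 c = 0 := by rw [Bf_self]; rfl

theorem Bf_11_11 : Bf P 11 11 c = 0 := by rw [Bf_self]; rfl

/-- The operators of the first character. -/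
noncomputable def PA1 (n : ℕ) : WittVector p k →+ WittVector p k :=
  match n with
  | 1 => sgA 0
  | 4 => (AddMonoidHom.mulLeft (-(p : WittVector p k))).comp (sgA 0 + sgA (-3))
  | 7 => (AddMonoidHom.mulLeft ((p : WittVector p k) ^ 2)).comp (sgA (-3))
  | _ => 0

/-- The operators of the second character. -/
noncomputable def PA2 (n : ℕ) : WittVector p k →+ WittVector p k :=
  match n with
  | 2 => sgA 0
  | 4 => (AddMonoidHom.mulLeft (-(p : WittVector p k))).comp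
      (sgA 5 + sgA 2 + sgA (-1) + sgA (-4) + sgA (-7))
  | 5 => (AddMonoidHom.mulLeft (-(p : WittVector p k))).comp (sgA 0 + sgA (-3))
  | 7 => (AddMonoidHom.mulLeft ((p : WittVector p k) ^ 2)).comp
      (sgA 2 + sgA (-1) + sgA (-4) + sgA (-7))
  | 8 => (AddMonoidHom.mulLeft ((p : WittVector p k) ^ 2)).comp (sgA (-3))
  | _ => 0

theorem PA1_0 : PA1 0 c = 0 := rfl

theorem PA1_1 : PA1 1 c = c := sg_zero c

theorem PA1_2 : PA1 2 c = 0 := rfl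

theorem PA1_3 : PA1 3 c = 0 := rfl

theorem PA1_4 : PA1 4 c = -(p : WittVector p k) * (c + sg (-3) c) := by
  have h : PA1 4 c = -(p : WittVector p k) * (sg 0 c + sg (-3) c) := rfl
  rw [h, sg_zero]

theorem PA1_5 : PA1 5 c = 0 := rfl

theorem PA1_6 : PA1 6 c = 0 := rfl

theorem PA1_7 : PA1 7 c = (p : WittVector p k) ^ 2 * sg (-3) c := rfl

theorem PA1_8 : PA1 8 c = 0 := rfl

theorem PA1_9 : PA1 9 c = 0 := rfl

theorem PA1_10 : PA1 10 c = 0 := rfl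

theorem PA1_11 : PA1 11 c = 0 := rfl

theorem PA2_0 : PA2 0 c = 0 := rfl

theorem PA2_1 : PA2 1 c = 0 := rfl

theorem PA2_2 : PA2 2 c = c := sg_zero c

theorem PA2_3 : PA2 3 c = 0 := rfl

theorem PA2_4 : PA2 4 c = -(p : WittVector p k) * (sg 5 c + sg 2 c + sg (-1) c + sg (-4) c + sg (-7) c) := rfl

theorem PA2_5 : PA2 5 c = -(p : WittVector p k) * (c + sg (-3) c) := by
  have h : PA2 5 c = -(p : WittVector p k) * (sg 0 c + sg (-3) c) := rfl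
  rw [h, sg_zero]

theorem PA2_6 : PA2 6 c = 0 := rfl

theorem PA2_7 : PA2 7 c = (p : WittVector p k) ^ 2 * (sg 2 c + sg (-1) c + sg (-4) c + sg (-7) c) := rfl

theorem PA2_8 : PA2 8 c = (p : WittVector p k) ^ 2 * sg (-3) c := rfl

theorem PA2_9 : PA2 9 c = 0 := rfl

theorem PA2_10 : PA2 10 c = 0 := rfl

theorem PA2_11 : PA2 11 c = 0 := rfl

end Pool.Agent.UA
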