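import Pool.Agent.Lib.MP_381773_ag.Model

/-!
# The basis of `M(t,q)`, its `a`-number
-/

set_option autoImplicit false
set_option linter.unusedSimpArgs false
set_option linter.unusedTactic false
set_option linter.unreachableTactic false
set_option linter.unnecessarySeqFocus false

universe u

namespace Pool.Agent.UA

open WittVector

variable {p : ℕ} [Fact p.Prime] {k : Type u} [Field k] [IsAlgClosed k] [CharP k p]

/-- `c • e_i` (the basis vector of index `i` times `c`). -/
noncomputable def sb (i : Fin 12) (c : WittVector p k) : Fin 12 → WittVector p k := Pi.single i c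

theorem sb_apply (i j : Fin 12) (c : WittVector p k) : sb i c j = if j = i then c else 0 := by
  unfold sb
  rw [Pi.single_apply]

theorem sb_add (i : Fin 12) (c d : WittVector p k) : sb i (c + d) = sb i c + sb i d := by
  ext1 j
  rw [Pi.add_apply, sb_apply, sb_apply, sb_apply]
  split_ifs <;> simp

theorem sb_neg (i : Fin 12) (c : WittVector p k) : sb i (-c) = - sb i c := by
  ext1 j
  rw [Pi.neg_apply, sb_apply, sb_apply]
  split_ifs <;> simp

theorem sb_zero (i : Fin 12) : sb i (0 : WittVector p k) = 0 := by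
  ext1 j
  rw [Pi.zero_apply, sb_apply]
  split_ifs <;> rfl

theorem sb_smul (i : Fin 12) (a c : WittVector p k) : a • sb i c = sb i (a * c) := by
  ext1 j
  rw [Pi.smul_apply, sb_apply, sb_apply]
  split_ifs <;> simp

theorem sb_eq_smul' (i : Fin 12) (c : WittVector p k) : sb i c = c • sb i 1 := by
  rw [sb_smul, mul_one]

theorem sum_sb (x : Fin 12 → WittVector p k) : x = ∑ i, sb i (x i) := by
  ext1 j
  rw [Finset.sum_apply, Finset.sum_eq_single j]
  · rw [sb_apply, if_pos rfl]
  · intro b _ hb
    rw [sb_apply, if_neg (Ne.symm hb)]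
  · intro h; exact absurd (Finset.mem_univ j) h

section Apply
variable (t q : ℕ) (c : WittVector p k)

theorem modF_sb_0 : modF p k t q (sb 0 c) = sb 1 ((p : WittVector p k) * frob p k c) := by
  ext1 j
  fin_cases j
  · change modF p k t q (sb 0 c) 0 = (sb 1 ((p : WittVector p k) * frob p k c) : Fin 12 → WittVector p k) 0
    rw [modF_0]; simp only [Pi.sub_apply, Pi.neg_apply, sb_apply]; simp
  · change modF p k t q (sb 0 c) 1 = (sb 1 ((p : WittVector p k) * frob p k c) : Fin 12 → WittVector p k) 1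
    rw [modF_1]; simp only [Pi.sub_apply, Pi.neg_apply, sb_apply]; simp
  · change modF p k t q (sb 0 c) 2 = (sb 1 ((p : WittVector p k) * frob p k c) : Fin 12 → WittVector p k) 2
    rw [modF_2]; simp only [Pi.sub_apply, Pi.neg_apply, sb_apply]; simp
  · change modF p k t q (sb 0 c) 3 = (sb 1 ((p : WittVector p k) * frob p k c) : Fin 12 → WittVector p k) 3
    rw [modF_3]; simp only [Pi.sub_apply, Pi.neg_apply, sb_apply]; simp
  · change modF p k t q (sb 0 c) 4 = (sb 1 ((p : WittVector p k) * frob p k c) : Fin 12 → WittVector p k) 4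
    rw [modF_4]; simp only [Pi.sub_apply, Pi.neg_apply, sb_apply]; simp
  · change modF p k t q (sb 0 c) 5 = (sb 1 ((p : WittVector p k) * frob p k c) : Fin 12 → WittVector p k) 5
    rw [modF_5]; simp only [Pi.sub_apply, Pi.neg_apply, sb_apply]; simp
  · change modF p k t q (sb 0 c) 6 = (sb 1 ((p : WittVector p k) * frob p k c) : Fin 12 → WittVector p k) 6
    rw [modF_6]; simp only [Pi.sub_apply, Pi.neg_apply, sb_apply]; simp
  · change modF p k t q (sb 0 c) 7 = (sb 1 ((p : WittVector p k) * frob p k c) : Fin 12 → WittVector p k) 7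
    rw [modF_7]; simp only [Pi.sub_apply, Pi.neg_apply, sb_apply]; simp
  · change modF p k t q (sb 0 c) 8 = (sb 1 ((p : WittVector p k) * frob p k c) : Fin 12 → WittVector p k) 8
    rw [modF_8]; simp only [Pi.sub_apply, Pi.neg_apply, sb_apply]; simp
  · change modF p k t q (sb 0 c) 9 = (sb 1 ((p : WittVector p k) * frob p k c) : Fin 12 → WittVector p k) 9
    rw [modF_9]; simp only [Pi.sub_apply, Pi.neg_apply, sb_apply]; simp
  · change modF p k t q (sb 0 c) 10 = (sb 1 ((p : WittVector p k) * frob p k c) : Fin 12 → WittVector p k) 10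
    rw [modF_10]; simp only [Pi.sub_apply, Pi.neg_apply, sb_apply]; simp
  · change modF p k t q (sb 0 c) 11 = (sb 1 ((p : WittVector p k) * frob p k c) : Fin 12 → WittVector p k) 11
    rw [modF_11]; simp only [Pi.sub_apply, Pi.neg_apply, sb_apply]; simp

theorem modF_sb_1 : modF p k t q (sb 1 c) = sb 2 ((p : WittVector p k) * frob p k c) := by
  ext1 j
  fin_cases j
  · change modF p k t q (sb 1 c) 0 = (sb 2 ((p : WittVector p k) * frob p k c) : Fin 12 → WittVector p k) 0
    rw [modF_0]; simp only [Pi.sub_apply, Pi.neg_apply, sb_apply]; simp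
  · change modF p k t q (sb 1 c) 1 = (sb 2 ((p : WittVector p k) * frob p k c) : Fin 12 → WittVector p k) 1
    rw [modF_1]; simp only [Pi.sub_apply, Pi.neg_apply, sb_apply]; simp
  · change modF p k t q (sb 1 c) 2 = (sb 2 ((p : WittVector p k) * frob p k c) : Fin 12 → WittVector p k) 2
    rw [modF_2]; simp only [Pi.sub_apply, Pi.neg_apply, sb_apply]; simp
  · change modF p k t q (sb 1 c) 3 = (sb 2 ((p : WittVector p k) * frob p k c) : Fin 12 → WittVector p k) 3
    rw [modF_3]; simp only [Pi.sub_apply, Pi.neg_apply, sb_apply]; simp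
  · change modF p k t q (sb 1 c) 4 = (sb 2 ((p : WittVector p k) * frob p k c) : Fin 12 → WittVector p k) 4
    rw [modF_4]; simp only [Pi.sub_apply, Pi.neg_apply, sb_apply]; simp
  · change modF p k t q (sb 1 c) 5 = (sb 2 ((p : WittVector p k) * frob p k c) : Fin 12 → WittVector p k) 5
    rw [modF_5]; simp only [Pi.sub_apply, Pi.neg_apply, sb_apply]; simp
  · change modF p k t q (sb 1 c) 6 = (sb 2 ((p : WittVector p k) * frob p k c) : Fin 12 → WittVector p k) 6
    rw [modF_6]; simp only [Pi.sub_apply, Pi.neg_apply, sb_apply]; simp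
  · change modF p k t q (sb 1 c) 7 = (sb 2 ((p : WittVector p k) * frob p k c) : Fin 12 → WittVector p k) 7
    rw [modF_7]; simp only [Pi.sub_apply, Pi.neg_apply, sb_apply]; simp
  · change modF p k t q (sb 1 c) 8 = (sb 2 ((p : WittVector p k) * frob p k c) : Fin 12 → WittVector p k) 8
    rw [modF_8]; simp only [Pi.sub_apply, Pi.neg_apply, sb_apply]; simp
  · change modF p k t q (sb 1 c) 9 = (sb 2 ((p : WittVector p k) * frob p k c) : Fin 12 → WittVector p k) 9
    rw [modF_9]; simp only [Pi.sub_apply, Pi.neg_apply, sb_apply]; simp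
  · change modF p k t q (sb 1 c) 10 = (sb 2 ((p : WittVector p k) * frob p k c) : Fin 12 → WittVector p k) 10
    rw [modF_10]; simp only [Pi.sub_apply, Pi.neg_apply, sb_apply]; simp
  · change modF p k t q (sb 1 c) 11 = (sb 2 ((p : WittVector p k) * frob p k c) : Fin 12 → WittVector p k) 11
    rw [modF_11]; simp only [Pi.sub_apply, Pi.neg_apply, sb_apply]; simp

theorem modF_sb_2 : modF p k t q (sb 2 c) = sb 3 ((p : WittVector p k) * frob p k c) := by
  ext1 j
  fin_cases j
  · change modF p k t q (sb 2 c) 0 = (sb 3 ((p : WittVector p k) * frob p k c) : Fin 12 → WittVector p k) 0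
    rw [modF_0]; simp only [Pi.sub_apply, Pi.neg_apply, sb_apply]; simp
  · change modF p k t q (sb 2 c) 1 = (sb 3 ((p : WittVector p k) * frob p k c) : Fin 12 → WittVector p k) 1
    rw [modF_1]; simp only [Pi.sub_apply, Pi.neg_apply, sb_apply]; simp
  · change modF p k t q (sb 2 c) 2 = (sb 3 ((p : WittVector p k) * frob p k c) : Fin 12 → WittVector p k) 2
    rw [modF_2]; simp only [Pi.sub_apply, Pi.neg_apply, sb_apply]; simp
  · change modF p k t q (sb 2 c) 3 = (sb 3 ((p : WittVector p k) * frob p k c) : Fin 12 → WittVector p k) 3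
    rw [modF_3]; simp only [Pi.sub_apply, Pi.neg_apply, sb_apply]; simp
  · change modF p k t q (sb 2 c) 4 = (sb 3 ((p : WittVector p k) * frob p k c) : Fin 12 → WittVector p k) 4
    rw [modF_4]; simp only [Pi.sub_apply, Pi.neg_apply, sb_apply]; simp
  · change modF p k t q (sb 2 c) 5 = (sb 3 ((p : WittVector p k) * frob p k c) : Fin 12 → WittVector p k) 5
    rw [modF_5]; simp only [Pi.sub_apply, Pi.neg_apply, sb_apply]; simp
  · change modF p k t q (sb 2 c) 6 = (sb 3 ((p : WittVector p k) * frob p k c) : Fin 12 → WittVector p k) 6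
    rw [modF_6]; simp only [Pi.sub_apply, Pi.neg_apply, sb_apply]; simp
  · change modF p k t q (sb 2 c) 7 = (sb 3 ((p : WittVector p k) * frob p k c) : Fin 12 → WittVector p k) 7
    rw [modF_7]; simp only [Pi.sub_apply, Pi.neg_apply, sb_apply]; simp
  · change modF p k t q (sb 2 c) 8 = (sb 3 ((p : WittVector p k) * frob p k c) : Fin 12 → WittVector p k) 8
    rw [modF_8]; simp only [Pi.sub_apply, Pi.neg_apply, sb_apply]; simp
  · change modF p k t q (sb 2 c) 9 = (sb 3 ((p : WittVector p k) * frob p k c) : Fin 12 → WittVector p k) 9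
    rw [modF_9]; simp only [Pi.sub_apply, Pi.neg_apply, sb_apply]; simp
  · change modF p k t q (sb 2 c) 10 = (sb 3 ((p : WittVector p k) * frob p k c) : Fin 12 → WittVector p k) 10
    rw [modF_10]; simp only [Pi.sub_apply, Pi.neg_apply, sb_apply]; simp
  · change modF p k t q (sb 2 c) 11 = (sb 3 ((p : WittVector p k) * frob p k c) : Fin 12 → WittVector p k) 11
    rw [modF_11]; simp only [Pi.sub_apply, Pi.neg_apply, sb_apply]; simp

theorem modF_sb_3 : modF p k t q (sb 3 c) = sb 4 ((p : WittVector p k) * frob p k c) := by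
  ext1 j
  fin_cases j
  · change modF p k t q (sb 3 c) 0 = (sb 4 ((p : WittVector p k) * frob p k c) : Fin 12 → WittVector p k) 0
    rw [modF_0]; simp only [Pi.sub_apply, Pi.neg_apply, sb_apply]; simp
  · change modF p k t q (sb 3 c) 1 = (sb 4 ((p : WittVector p k) * frob p k c) : Fin 12 → WittVector p k) 1
    rw [modF_1]; simp only [Pi.sub_apply, Pi.neg_apply, sb_apply]; simp
  · change modF p k t q (sb 3 c) 2 = (sb 4 ((p : WittVector p k) * frob p k c) : Fin 12 → WittVector p k) 2
    rw [modF_2]; simp only [Pi.sub_apply, Pi.neg_apply, sb_apply]; simp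
  · change modF p k t q (sb 3 c) 3 = (sb 4 ((p : WittVector p k) * frob p k c) : Fin 12 → WittVector p k) 3
    rw [modF_3]; simp only [Pi.sub_apply, Pi.neg_apply, sb_apply]; simp
  · change modF p k t q (sb 3 c) 4 = (sb 4 ((p : WittVector p k) * frob p k c) : Fin 12 → WittVector p k) 4
    rw [modF_4]; simp only [Pi.sub_apply, Pi.neg_apply, sb_apply]; simp
  · change modF p k t q (sb 3 c) 5 = (sb 4 ((p : WittVector p k) * frob p k c) : Fin 12 → WittVector p k) 5
    rw [modF_5]; simp only [Pi.sub_apply, Pi.neg_apply, sb_apply]; simp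
  · change modF p k t q (sb 3 c) 6 = (sb 4 ((p : WittVector p k) * frob p k c) : Fin 12 → WittVector p k) 6
    rw [modF_6]; simp only [Pi.sub_apply, Pi.neg_apply, sb_apply]; simp
  · change modF p k t q (sb 3 c) 7 = (sb 4 ((p : WittVector p k) * frob p k c) : Fin 12 → WittVector p k) 7
    rw [modF_7]; simp only [Pi.sub_apply, Pi.neg_apply, sb_apply]; simp
  · change modF p k t q (sb 3 c) 8 = (sb 4 ((p : WittVector p k) * frob p k c) : Fin 12 → WittVector p k) 8
    rw [modF_8]; simp only [Pi.sub_apply, Pi.neg_apply, sb_apply]; simp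
  · change modF p k t q (sb 3 c) 9 = (sb 4 ((p : WittVector p k) * frob p k c) : Fin 12 → WittVector p k) 9
    rw [modF_9]; simp only [Pi.sub_apply, Pi.neg_apply, sb_apply]; simp
  · change modF p k t q (sb 3 c) 10 = (sb 4 ((p : WittVector p k) * frob p k c) : Fin 12 → WittVector p k) 10
    rw [modF_10]; simp only [Pi.sub_apply, Pi.neg_apply, sb_apply]; simp
  · change modF p k t q (sb 3 c) 11 = (sb 4 ((p : WittVector p k) * frob p k c) : Fin 12 → WittVector p k) 11
    rw [modF_11]; simp only [Pi.sub_apply, Pi.neg_apply, sb_apply]; simp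

theorem modF_sb_4 : modF p k t q (sb 4 c) = sb 5 ((p : WittVector p k) * frob p k c) := by
  ext1 j
  fin_cases j
  · change modF p k t q (sb 4 c) 0 = (sb 5 ((p : WittVector p k) * frob p k c) : Fin 12 → WittVector p k) 0
    rw [modF_0]; simp only [Pi.sub_apply, Pi.neg_apply, sb_apply]; simp
  · change modF p k t q (sb 4 c) 1 = (sb 5 ((p : WittVector p k) * frob p k c) : Fin 12 → WittVector p k) 1
    rw [modF_1]; simp only [Pi.sub_apply, Pi.neg_apply, sb_apply]; simp
  · change modF p k t q (sb 4 c) 2 = (sb 5 ((p : WittVector p k) * frob p k c) : Fin 12 → WittVector p k) 2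
    rw [modF_2]; simp only [Pi.sub_apply, Pi.neg_apply, sb_apply]; simp
  · change modF p k t q (sb 4 c) 3 = (sb 5 ((p : WittVector p k) * frob p k c) : Fin 12 → WittVector p k) 3
    rw [modF_3]; simp only [Pi.sub_apply, Pi.neg_apply, sb_apply]; simp
  · change modF p k t q (sb 4 c) 4 = (sb 5 ((p : WittVector p k) * frob p k c) : Fin 12 → WittVector p k) 4
    rw [modF_4]; simp only [Pi.sub_apply, Pi.neg_apply, sb_apply]; simp
  · change modF p k t q (sb 4 c) 5 = (sb 5 ((p : WittVector p k) * frob p k c) : Fin 12 → WittVector p k) 5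
    rw [modF_5]; simp only [Pi.sub_apply, Pi.neg_apply, sb_apply]; simp
  · change modF p k t q (sb 4 c) 6 = (sb 5 ((p : WittVector p k) * frob p k c) : Fin 12 → WittVector p k) 6
    rw [modF_6]; simp only [Pi.sub_apply, Pi.neg_apply, sb_apply]; simp
  · change modF p k t q (sb 4 c) 7 = (sb 5 ((p : WittVector p k) * frob p k c) : Fin 12 → WittVector p k) 7
    rw [modF_7]; simp only [Pi.sub_apply, Pi.neg_apply, sb_apply]; simp
  · change modF p k t q (sb 4 c) 8 = (sb 5 ((p : WittVector p k) * frob p k c) : Fin 12 → WittVector p k) 8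
    rw [modF_8]; simp only [Pi.sub_apply, Pi.neg_apply, sb_apply]; simp
  · change modF p k t q (sb 4 c) 9 = (sb 5 ((p : WittVector p k) * frob p k c) : Fin 12 → WittVector p k) 9
    rw [modF_9]; simp only [Pi.sub_apply, Pi.neg_apply, sb_apply]; simp
  · change modF p k t q (sb 4 c) 10 = (sb 5 ((p : WittVector p k) * frob p k c) : Fin 12 → WittVector p k) 10
    rw [modF_10]; simp only [Pi.sub_apply, Pi.neg_apply, sb_apply]; simp
  · change modF p k t q (sb 4 c) 11 = (sb 5 ((p : WittVector p k) * frob p k c) : Fin 12 → WittVector p k) 11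
    rw [modF_11]; simp only [Pi.sub_apply, Pi.neg_apply, sb_apply]; simp

theorem modF_sb_5 : modF p k t q (sb 5 c) = sb 6 ((p : WittVector p k) * frob p k c) := by
  ext1 j
  fin_cases j
  · change modF p k t q (sb 5 c) 0 = (sb 6 ((p : WittVector p k) * frob p k c) : Fin 12 → WittVector p k) 0
    rw [modF_0]; simp only [Pi.sub_apply, Pi.neg_apply, sb_apply]; simp
  · change modF p k t q (sb 5 c) 1 = (sb 6 ((p : WittVector p k) * frob p k c) : Fin 12 → WittVector p k) 1
    rw [modF_1]; simp only [Pi.sub_apply, Pi.neg_apply, sb_apply]; simp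
  · change modF p k t q (sb 5 c) 2 = (sb 6 ((p : WittVector p k) * frob p k c) : Fin 12 → WittVector p k) 2
    rw [modF_2]; simp only [Pi.sub_apply, Pi.neg_apply, sb_apply]; simp
  · change modF p k t q (sb 5 c) 3 = (sb 6 ((p : WittVector p k) * frob p k c) : Fin 12 → WittVector p k) 3
    rw [modF_3]; simp only [Pi.sub_apply, Pi.neg_apply, sb_apply]; simp
  · change modF p k t q (sb 5 c) 4 = (sb 6 ((p : WittVector p k) * frob p k c) : Fin 12 → WittVector p k) 4
    rw [modF_4]; simp only [Pi.sub_apply, Pi.neg_apply, sb_apply]; simp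
  · change modF p k t q (sb 5 c) 5 = (sb 6 ((p : WittVector p k) * frob p k c) : Fin 12 → WittVector p k) 5
    rw [modF_5]; simp only [Pi.sub_apply, Pi.neg_apply, sb_apply]; simp
  · change modF p k t q (sb 5 c) 6 = (sb 6 ((p : WittVector p k) * frob p k c) : Fin 12 → WittVector p k) 6
    rw [modF_6]; simp only [Pi.sub_apply, Pi.neg_apply, sb_apply]; simp
  · change modF p k t q (sb 5 c) 7 = (sb 6 ((p : WittVector p k) * frob p k c) : Fin 12 → WittVector p k) 7
    rw [modF_7]; simp only [Pi.sub_apply, Pi.neg_apply, sb_apply]; simp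
  · change modF p k t q (sb 5 c) 8 = (sb 6 ((p : WittVector p k) * frob p k c) : Fin 12 → WittVector p k) 8
    rw [modF_8]; simp only [Pi.sub_apply, Pi.neg_apply, sb_apply]; simp
  · change modF p k t q (sb 5 c) 9 = (sb 6 ((p : WittVector p k) * frob p k c) : Fin 12 → WittVector p k) 9
    rw [modF_9]; simp only [Pi.sub_apply, Pi.neg_apply, sb_apply]; simp
  · change modF p k t q (sb 5 c) 10 = (sb 6 ((p : WittVector p k) * frob p k c) : Fin 12 → WittVector p k) 10
    rw [modF_10]; simp only [Pi.sub_apply, Pi.neg_apply, sb_apply]; simp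
  · change modF p k t q (sb 5 c) 11 = (sb 6 ((p : WittVector p k) * frob p k c) : Fin 12 → WittVector p k) 11
    rw [modF_11]; simp only [Pi.sub_apply, Pi.neg_apply, sb_apply]; simp

theorem modF_sb_6 : modF p k t q (sb 6 c) = sb 7 (frob p k c) := by
  ext1 j
  fin_cases j
  · change modF p k t q (sb 6 c) 0 = (sb 7 (frob p k c) : Fin 12 → WittVector p k) 0
    rw [modF_0]; simp only [Pi.sub_apply, Pi.neg_apply, sb_apply]; simp
  · change modF p k t q (sb 6 c) 1 = (sb 7 (frob p k c) : Fin 12 → WittVector p k) 1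
    rw [modF_1]; simp only [Pi.sub_apply, Pi.neg_apply, sb_apply]; simp
  · change modF p k t q (sb 6 c) 2 = (sb 7 (frob p k c) : Fin 12 → WittVector p k) 2
    rw [modF_2]; simp only [Pi.sub_apply, Pi.neg_apply, sb_apply]; simp
  · change modF p k t q (sb 6 c) 3 = (sb 7 (frob p k c) : Fin 12 → WittVector p k) 3
    rw [modF_3]; simp only [Pi.sub_apply, Pi.neg_apply, sb_apply]; simp
  · change modF p k t q (sb 6 c) 4 = (sb 7 (frob p k c) : Fin 12 → WittVector p k) 4
    rw [modF_4]; simp only [Pi.sub_apply, Pi.neg_apply, sb_apply]; simp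
  · change modF p k t q (sb 6 c) 5 = (sb 7 (frob p k c) : Fin 12 → WittVector p k) 5
    rw [modF_5]; simp only [Pi.sub_apply, Pi.neg_apply, sb_apply]; simp
  · change modF p k t q (sb 6 c) 6 = (sb 7 (frob p k c) : Fin 12 → WittVector p k) 6
    rw [modF_6]; simp only [Pi.sub_apply, Pi.neg_apply, sb_apply]; simp
  · change modF p k t q (sb 6 c) 7 = (sb 7 (frob p k c) : Fin 12 → WittVector p k) 7
    rw [modF_7]; simp only [Pi.sub_apply, Pi.neg_apply, sb_apply]; simp
  · change modF p k t q (sb 6 c) 8 = (sb 7 (frob p k c) : Fin 12 → WittVector p k) 8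
    rw [modF_8]; simp only [Pi.sub_apply, Pi.neg_apply, sb_apply]; simp
  · change modF p k t q (sb 6 c) 9 = (sb 7 (frob p k c) : Fin 12 → WittVector p k) 9
    rw [modF_9]; simp only [Pi.sub_apply, Pi.neg_apply, sb_apply]; simp
  · change modF p k t q (sb 6 c) 10 = (sb 7 (frob p k c) : Fin 12 → WittVector p k) 10
    rw [modF_10]; simp only [Pi.sub_apply, Pi.neg_apply, sb_apply]; simp
  · change modF p k t q (sb 6 c) 11 = (sb 7 (frob p k c) : Fin 12 → WittVector p k) 11
    rw [modF_11]; simp only [Pi.sub_apply, Pi.neg_apply, sb_apply]; simp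

theorem modF_sb_7 : modF p k t q (sb 7 c) = sb 8 (frob p k c) := by
  ext1 j
  fin_cases j
  · change modF p k t q (sb 7 c) 0 = (sb 8 (frob p k c) : Fin 12 → WittVector p k) 0
    rw [modF_0]; simp only [Pi.sub_apply, Pi.neg_apply, sb_apply]; simp
  · change modF p k t q (sb 7 c) 1 = (sb 8 (frob p k c) : Fin 12 → WittVector p k) 1
    rw [modF_1]; simp only [Pi.sub_apply, Pi.neg_apply, sb_apply]; simp
  · change modF p k t q (sb 7 c) 2 = (sb 8 (frob p k c) : Fin 12 → WittVector p k) 2
    rw [modF_2]; simp only [Pi.sub_apply, Pi.neg_apply, sb_apply]; simp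
  · change modF p k t q (sb 7 c) 3 = (sb 8 (frob p k c) : Fin 12 → WittVector p k) 3
    rw [modF_3]; simp only [Pi.sub_apply, Pi.neg_apply, sb_apply]; simp
  · change modF p k t q (sb 7 c) 4 = (sb 8 (frob p k c) : Fin 12 → WittVector p k) 4
    rw [modF_4]; simp only [Pi.sub_apply, Pi.neg_apply, sb_apply]; simp
  · change modF p k t q (sb 7 c) 5 = (sb 8 (frob p k c) : Fin 12 → WittVector p k) 5
    rw [modF_5]; simp only [Pi.sub_apply, Pi.neg_apply, sb_apply]; simp
  · change modF p k t q (sb 7 c) 6 = (sb 8 (frob p k c) : Fin 12 → WittVector p k) 6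
    rw [modF_6]; simp only [Pi.sub_apply, Pi.neg_apply, sb_apply]; simp
  · change modF p k t q (sb 7 c) 7 = (sb 8 (frob p k c) : Fin 12 → WittVector p k) 7
    rw [modF_7]; simp only [Pi.sub_apply, Pi.neg_apply, sb_apply]; simp
  · change modF p k t q (sb 7 c) 8 = (sb 8 (frob p k c) : Fin 12 → WittVector p k) 8
    rw [modF_8]; simp only [Pi.sub_apply, Pi.neg_apply, sb_apply]; simp
  · change modF p k t q (sb 7 c) 9 = (sb 8 (frob p k c) : Fin 12 → WittVector p k) 9
    rw [modF_9]; simp only [Pi.sub_apply, Pi.neg_apply, sb_apply]; simp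
  · change modF p k t q (sb 7 c) 10 = (sb 8 (frob p k c) : Fin 12 → WittVector p k) 10
    rw [modF_10]; simp only [Pi.sub_apply, Pi.neg_apply, sb_apply]; simp
  · change modF p k t q (sb 7 c) 11 = (sb 8 (frob p k c) : Fin 12 → WittVector p k) 11
    rw [modF_11]; simp only [Pi.sub_apply, Pi.neg_apply, sb_apply]; simp

theorem modF_sb_8 : modF p k t q (sb 8 c) = sb 9 (frob p k c) := by
  ext1 j
  fin_cases j
  · change modF p k t q (sb 8 c) 0 = (sb 9 (frob p k c) : Fin 12 → WittVector p k) 0
    rw [modF_0]; simp only [Pi.sub_apply, Pi.neg_apply, sb_apply]; simp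
  · change modF p k t q (sb 8 c) 1 = (sb 9 (frob p k c) : Fin 12 → WittVector p k) 1
    rw [modF_1]; simp only [Pi.sub_apply, Pi.neg_apply, sb_apply]; simp
  · change modF p k t q (sb 8 c) 2 = (sb 9 (frob p k c) : Fin 12 → WittVector p k) 2
    rw [modF_2]; simp only [Pi.sub_apply, Pi.neg_apply, sb_apply]; simp
  · change modF p k t q (sb 8 c) 3 = (sb 9 (frob p k c) : Fin 12 → WittVector p k) 3
    rw [modF_3]; simp only [Pi.sub_apply, Pi.neg_apply, sb_apply]; simp
  · change modF p k t q (sb 8 c) 4 = (sb 9 (frob p k c) : Fin 12 → WittVector p k) 4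
    rw [modF_4]; simp only [Pi.sub_apply, Pi.neg_apply, sb_apply]; simp
  · change modF p k t q (sb 8 c) 5 = (sb 9 (frob p k c) : Fin 12 → WittVector p k) 5
    rw [modF_5]; simp only [Pi.sub_apply, Pi.neg_apply, sb_apply]; simp
  · change modF p k t q (sb 8 c) 6 = (sb 9 (frob p k c) : Fin 12 → WittVector p k) 6
    rw [modF_6]; simp only [Pi.sub_apply, Pi.neg_apply, sb_apply]; simp
  · change modF p k t q (sb 8 c) 7 = (sb 9 (frob p k c) : Fin 12 → WittVector p k) 7
    rw [modF_7]; simp only [Pi.sub_apply, Pi.neg_apply, sb_apply]; simp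
  · change modF p k t q (sb 8 c) 8 = (sb 9 (frob p k c) : Fin 12 → WittVector p k) 8
    rw [modF_8]; simp only [Pi.sub_apply, Pi.neg_apply, sb_apply]; simp
  · change modF p k t q (sb 8 c) 9 = (sb 9 (frob p k c) : Fin 12 → WittVector p k) 9
    rw [modF_9]; simp only [Pi.sub_apply, Pi.neg_apply, sb_apply]; simp
  · change modF p k t q (sb 8 c) 10 = (sb 9 (frob p k c) : Fin 12 → WittVector p k) 10
    rw [modF_10]; simp only [Pi.sub_apply, Pi.neg_apply, sb_apply]; simp
  · change modF p k t q (sb 8 c) 11 = (sb 9 (frob p k c) : Fin 12 → WittVector p k) 11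
    rw [modF_11]; simp only [Pi.sub_apply, Pi.neg_apply, sb_apply]; simp

theorem modF_sb_9 : modF p k t q (sb 9 c) = sb 10 (frob p k c) := by
  ext1 j
  fin_cases j
  · change modF p k t q (sb 9 c) 0 = (sb 10 (frob p k c) : Fin 12 → WittVector p k) 0
    rw [modF_0]; simp only [Pi.sub_apply, Pi.neg_apply, sb_apply]; simp
  · change modF p k t q (sb 9 c) 1 = (sb 10 (frob p k c) : Fin 12 → WittVector p k) 1
    rw [modF_1]; simp only [Pi.sub_apply, Pi.neg_apply, sb_apply]; simp
  · change modF p k t q (sb 9 c) 2 = (sb 10 (frob p k c) : Fin 12 → WittVector p k) 2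
    rw [modF_2]; simp only [Pi.sub_apply, Pi.neg_apply, sb_apply]; simp
  · change modF p k t q (sb 9 c) 3 = (sb 10 (frob p k c) : Fin 12 → WittVector p k) 3
    rw [modF_3]; simp only [Pi.sub_apply, Pi.neg_apply, sb_apply]; simp
  · change modF p k t q (sb 9 c) 4 = (sb 10 (frob p k c) : Fin 12 → WittVector p k) 4
    rw [modF_4]; simp only [Pi.sub_apply, Pi.neg_apply, sb_apply]; simp
  · change modF p k t q (sb 9 c) 5 = (sb 10 (frob p k c) : Fin 12 → WittVector p k) 5
    rw [modF_5]; simp only [Pi.sub_apply, Pi.neg_apply, sb_apply]; simp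
  · change modF p k t q (sb 9 c) 6 = (sb 10 (frob p k c) : Fin 12 → WittVector p k) 6
    rw [modF_6]; simp only [Pi.sub_apply, Pi.neg_apply, sb_apply]; simp
  · change modF p k t q (sb 9 c) 7 = (sb 10 (frob p k c) : Fin 12 → WittVector p k) 7
    rw [modF_7]; simp only [Pi.sub_apply, Pi.neg_apply, sb_apply]; simp
  · change modF p k t q (sb 9 c) 8 = (sb 10 (frob p k c) : Fin 12 → WittVector p k) 8
    rw [modF_8]; simp only [Pi.sub_apply, Pi.neg_apply, sb_apply]; simp
  · change modF p k t q (sb 9 c) 9 = (sb 10 (frob p k c) : Fin 12 → WittVector p k) 9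
    rw [modF_9]; simp only [Pi.sub_apply, Pi.neg_apply, sb_apply]; simp
  · change modF p k t q (sb 9 c) 10 = (sb 10 (frob p k c) : Fin 12 → WittVector p k) 10
    rw [modF_10]; simp only [Pi.sub_apply, Pi.neg_apply, sb_apply]; simp
  · change modF p k t q (sb 9 c) 11 = (sb 10 (frob p k c) : Fin 12 → WittVector p k) 11
    rw [modF_11]; simp only [Pi.sub_apply, Pi.neg_apply, sb_apply]; simp

theorem modF_sb_10 : modF p k t q (sb 10 c) = sb 11 (frob p k c) := by
  ext1 j
  fin_cases j
  · change modF p k t q (sb 10 c) 0 = (sb 11 (frob p k c) : Fin 12 → WittVector p k) 0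
    rw [modF_0]; simp only [Pi.sub_apply, Pi.neg_apply, sb_apply]; simp
  · change modF p k t q (sb 10 c) 1 = (sb 11 (frob p k c) : Fin 12 → WittVector p k) 1
    rw [modF_1]; simp only [Pi.sub_apply, Pi.neg_apply, sb_apply]; simp
  · change modF p k t q (sb 10 c) 2 = (sb 11 (frob p k c) : Fin 12 → WittVector p k) 2
    rw [modF_2]; simp only [Pi.sub_apply, Pi.neg_apply, sb_apply]; simp
  · change modF p k t q (sb 10 c) 3 = (sb 11 (frob p k c) : Fin 12 → WittVector p k) 3
    rw [modF_3]; simp only [Pi.sub_apply, Pi.neg_apply, sb_apply]; simp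
  · change modF p k t q (sb 10 c) 4 = (sb 11 (frob p k c) : Fin 12 → WittVector p k) 4
    rw [modF_4]; simp only [Pi.sub_apply, Pi.neg_apply, sb_apply]; simp
  · change modF p k t q (sb 10 c) 5 = (sb 11 (frob p k c) : Fin 12 → WittVector p k) 5
    rw [modF_5]; simp only [Pi.sub_apply, Pi.neg_apply, sb_apply]; simp
  · change modF p k t q (sb 10 c) 6 = (sb 11 (frob p k c) : Fin 12 → WittVector p k) 6
    rw [modF_6]; simp only [Pi.sub_apply, Pi.neg_apply, sb_apply]; simp
  · change modF p k t q (sb 10 c) 7 = (sb 11 (frob p k c) : Fin 12 → WittVector p k) 7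
    rw [modF_7]; simp only [Pi.sub_apply, Pi.neg_apply, sb_apply]; simp
  · change modF p k t q (sb 10 c) 8 = (sb 11 (frob p k c) : Fin 12 → WittVector p k) 8
    rw [modF_8]; simp only [Pi.sub_apply, Pi.neg_apply, sb_apply]; simp
  · change modF p k t q (sb 10 c) 9 = (sb 11 (frob p k c) : Fin 12 → WittVector p k) 9
    rw [modF_9]; simp only [Pi.sub_apply, Pi.neg_apply, sb_apply]; simp
  · change modF p k t q (sb 10 c) 10 = (sb 11 (frob p k c) : Fin 12 → WittVector p k) 10
    rw [modF_10]; simp only [Pi.sub_apply, Pi.neg_apply, sb_apply]; simp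
  · change modF p k t q (sb 10 c) 11 = (sb 11 (frob p k c) : Fin 12 → WittVector p k) 11
    rw [modF_11]; simp only [Pi.sub_apply, Pi.neg_apply, sb_apply]; simp

theorem modF_sb_11 : modF p k t q (sb 11 c) = -sb 0 (frob p k c) - sb 3 ((t : WittVector p k) * frob p k c)
      - sb 6 ((q : WittVector p k) * frob p k c) - sb 9 ((t : WittVector p k) * frob p k c) := by
  ext1 j
  fin_cases j
  · change modF p k t q (sb 11 c) 0 = (-sb 0 (frob p k c) - sb 3 ((t : WittVector p k) * frob p k c)
      - sb 6 ((q : WittVector p k) * frob p k c) - sb 9 ((t : WittVector p k) * frob p k c) : Fin 12 → WittVector p k) 0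
    rw [modF_0]; simp only [Pi.sub_apply, Pi.neg_apply, sb_apply]; simp
  · change modF p k t q (sb 11 c) 1 = (-sb 0 (frob p k c) - sb 3 ((t : WittVector p k) * frob p k c)
      - sb 6 ((q : WittVector p k) * frob p k c) - sb 9 ((t : WittVector p k) * frob p k c) : Fin 12 → WittVector p k) 1
    rw [modF_1]; simp only [Pi.sub_apply, Pi.neg_apply, sb_apply]; simp
  · change modF p k t q (sb 11 c) 2 = (-sb 0 (frob p k c) - sb 3 ((t : WittVector p k) * frob p k c)
      - sb 6 ((q : WittVector p k) * frob p k c) - sb 9 ((t : WittVector p k) * frob p k c) : Fin 12 → WittVector p k) 2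
    rw [modF_2]; simp only [Pi.sub_apply, Pi.neg_apply, sb_apply]; simp
  · change modF p k t q (sb 11 c) 3 = (-sb 0 (frob p k c) - sb 3 ((t : WittVector p k) * frob p k c)
      - sb 6 ((q : WittVector p k) * frob p k c) - sb 9 ((t : WittVector p k) * frob p k c) : Fin 12 → WittVector p k) 3
    rw [modF_3]; simp only [Pi.sub_apply, Pi.neg_apply, sb_apply]; simp
  · change modF p k t q (sb 11 c) 4 = (-sb 0 (frob p k c) - sb 3 ((t : WittVector p k) * frob p k c)
      - sb 6 ((q : WittVector p k) * frob p k c) - sb 9 ((t : WittVector p k) * frob p k c) : Fin 12 → WittVector p k) 4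
    rw [modF_4]; simp only [Pi.sub_apply, Pi.neg_apply, sb_apply]; simp
  · change modF p k t q (sb 11 c) 5 = (-sb 0 (frob p k c) - sb 3 ((t : WittVector p k) * frob p k c)
      - sb 6 ((q : WittVector p k) * frob p k c) - sb 9 ((t : WittVector p k) * frob p k c) : Fin 12 → WittVector p k) 5
    rw [modF_5]; simp only [Pi.sub_apply, Pi.neg_apply, sb_apply]; simp
  · change modF p k t q (sb 11 c) 6 = (-sb 0 (frob p k c) - sb 3 ((t : WittVector p k) * frob p k c)
      - sb 6 ((q : WittVector p k) * frob p k c) - sb 9 ((t : WittVector p k) * frob p k c) : Fin 12 → WittVector p k) 6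
    rw [modF_6]; simp only [Pi.sub_apply, Pi.neg_apply, sb_apply]; simp
  · change modF p k t q (sb 11 c) 7 = (-sb 0 (frob p k c) - sb 3 ((t : WittVector p k) * frob p k c)
      - sb 6 ((q : WittVector p k) * frob p k c) - sb 9 ((t : WittVector p k) * frob p k c) : Fin 12 → WittVector p k) 7
    rw [modF_7]; simp only [Pi.sub_apply, Pi.neg_apply, sb_apply]; simp
  · change modF p k t q (sb 11 c) 8 = (-sb 0 (frob p k c) - sb 3 ((t : WittVector p k) * frob p k c)
      - sb 6 ((q : WittVector p k) * frob p k c) - sb 9 ((t : WittVector p k) * frob p k c) : Fin 12 → WittVector p k) 8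
    rw [modF_8]; simp only [Pi.sub_apply, Pi.neg_apply, sb_apply]; simp
  · change modF p k t q (sb 11 c) 9 = (-sb 0 (frob p k c) - sb 3 ((t : WittVector p k) * frob p k c)
      - sb 6 ((q : WittVector p k) * frob p k c) - sb 9 ((t : WittVector p k) * frob p k c) : Fin 12 → WittVector p k) 9
    rw [modF_9]; simp only [Pi.sub_apply, Pi.neg_apply, sb_apply]; simp
  · change modF p k t q (sb 11 c) 10 = (-sb 0 (frob p k c) - sb 3 ((t : WittVector p k) * frob p k c)
      - sb 6 ((q : WittVector p k) * frob p k c) - sb 9 ((t : WittVector p k) * frob p k c) : Fin 12 → WittVector p k) 10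
    rw [modF_10]; simp only [Pi.sub_apply, Pi.neg_apply, sb_apply]; simp
  · change modF p k t q (sb 11 c) 11 = (-sb 0 (frob p k c) - sb 3 ((t : WittVector p k) * frob p k c)
      - sb 6 ((q : WittVector p k) * frob p k c) - sb 9 ((t : WittVector p k) * frob p k c) : Fin 12 → WittVector p k) 11
    rw [modF_11]; simp only [Pi.sub_apply, Pi.neg_apply, sb_apply]; simp

theorem modV_sb_1 : modV p k t q (sb 1 c) = sb 0 (frobInv p k c) := by
  ext1 j
  fin_cases j
  · change modV p k t q (sb 1 c) 0 = (sb 0 (frobInv p k c) : Fin 12 → WittVector p k) 0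
    rw [modV_0]; simp only [Pi.sub_apply, Pi.neg_apply, sb_apply]; simp
  · change modV p k t q (sb 1 c) 1 = (sb 0 (frobInv p k c) : Fin 12 → WittVector p k) 1
    rw [modV_1]; simp only [Pi.sub_apply, Pi.neg_apply, sb_apply]; simp
  · change modV p k t q (sb 1 c) 2 = (sb 0 (frobInv p k c) : Fin 12 → WittVector p k) 2
    rw [modV_2]; simp only [Pi.sub_apply, Pi.neg_apply, sb_apply]; simp
  · change modV p k t q (sb 1 c) 3 = (sb 0 (frobInv p k c) : Fin 12 → WittVector p k) 3
    rw [modV_3]; simp only [Pi.sub_apply, Pi.neg_apply, sb_apply]; simp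
  · change modV p k t q (sb 1 c) 4 = (sb 0 (frobInv p k c) : Fin 12 → WittVector p k) 4
    rw [modV_4]; simp only [Pi.sub_apply, Pi.neg_apply, sb_apply]; simp
  · change modV p k t q (sb 1 c) 5 = (sb 0 (frobInv p k c) : Fin 12 → WittVector p k) 5
    rw [modV_5]; simp only [Pi.sub_apply, Pi.neg_apply, sb_apply]; simp
  · change modV p k t q (sb 1 c) 6 = (sb 0 (frobInv p k c) : Fin 12 → WittVector p k) 6
    rw [modV_6]; simp only [Pi.sub_apply, Pi.neg_apply, sb_apply]; simp
  · change modV p k t q (sb 1 c) 7 = (sb 0 (frobInv p k c) : Fin 12 → WittVector p k) 7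
    rw [modV_7]; simp only [Pi.sub_apply, Pi.neg_apply, sb_apply]; simp
  · change modV p k t q (sb 1 c) 8 = (sb 0 (frobInv p k c) : Fin 12 → WittVector p k) 8
    rw [modV_8]; simp only [Pi.sub_apply, Pi.neg_apply, sb_apply]; simp
  · change modV p k t q (sb 1 c) 9 = (sb 0 (frobInv p k c) : Fin 12 → WittVector p k) 9
    rw [modV_9]; simp only [Pi.sub_apply, Pi.neg_apply, sb_apply]; simp
  · change modV p k t q (sb 1 c) 10 = (sb 0 (frobInv p k c) : Fin 12 → WittVector p k) 10
    rw [modV_10]; simp only [Pi.sub_apply, Pi.neg_apply, sb_apply]; simp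
  · change modV p k t q (sb 1 c) 11 = (sb 0 (frobInv p k c) : Fin 12 → WittVector p k) 11
    rw [modV_11]; simp only [Pi.sub_apply, Pi.neg_apply, sb_apply]; simp

theorem modV_sb_2 : modV p k t q (sb 2 c) = sb 1 (frobInv p k c) := by
  ext1 j
  fin_cases j
  · change modV p k t q (sb 2 c) 0 = (sb 1 (frobInv p k c) : Fin 12 → WittVector p k) 0
    rw [modV_0]; simp only [Pi.sub_apply, Pi.neg_apply, sb_apply]; simp
  · change modV p k t q (sb 2 c) 1 = (sb 1 (frobInv p k c) : Fin 12 → WittVector p k) 1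
    rw [modV_1]; simp only [Pi.sub_apply, Pi.neg_apply, sb_apply]; simp
  · change modV p k t q (sb 2 c) 2 = (sb 1 (frobInv p k c) : Fin 12 → WittVector p k) 2
    rw [modV_2]; simp only [Pi.sub_apply, Pi.neg_apply, sb_apply]; simp
  · change modV p k t q (sb 2 c) 3 = (sb 1 (frobInv p k c) : Fin 12 → WittVector p k) 3
    rw [modV_3]; simp only [Pi.sub_apply, Pi.neg_apply, sb_apply]; simp
  · change modV p k t q (sb 2 c) 4 = (sb 1 (frobInv p k c) : Fin 12 → WittVector p k) 4
    rw [modV_4]; simp only [Pi.sub_apply, Pi.neg_apply, sb_apply]; simp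
  · change modV p k t q (sb 2 c) 5 = (sb 1 (frobInv p k c) : Fin 12 → WittVector p k) 5
    rw [modV_5]; simp only [Pi.sub_apply, Pi.neg_apply, sb_apply]; simp
  · change modV p k t q (sb 2 c) 6 = (sb 1 (frobInv p k c) : Fin 12 → WittVector p k) 6
    rw [modV_6]; simp only [Pi.sub_apply, Pi.neg_apply, sb_apply]; simp
  · change modV p k t q (sb 2 c) 7 = (sb 1 (frobInv p k c) : Fin 12 → WittVector p k) 7
    rw [modV_7]; simp only [Pi.sub_apply, Pi.neg_apply, sb_apply]; simp
  · change modV p k t q (sb 2 c) 8 = (sb 1 (frobInv p k c) : Fin 12 → WittVector p k) 8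
    rw [modV_8]; simp only [Pi.sub_apply, Pi.neg_apply, sb_apply]; simp
  · change modV p k t q (sb 2 c) 9 = (sb 1 (frobInv p k c) : Fin 12 → WittVector p k) 9
    rw [modV_9]; simp only [Pi.sub_apply, Pi.neg_apply, sb_apply]; simp
  · change modV p k t q (sb 2 c) 10 = (sb 1 (frobInv p k c) : Fin 12 → WittVector p k) 10
    rw [modV_10]; simp only [Pi.sub_apply, Pi.neg_apply, sb_apply]; simp
  · change modV p k t q (sb 2 c) 11 = (sb 1 (frobInv p k c) : Fin 12 → WittVector p k) 11
    rw [modV_11]; simp only [Pi.sub_apply, Pi.neg_apply, sb_apply]; simp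

theorem modV_sb_3 : modV p k t q (sb 3 c) = sb 2 (frobInv p k c) := by
  ext1 j
  fin_cases j
  · change modV p k t q (sb 3 c) 0 = (sb 2 (frobInv p k c) : Fin 12 → WittVector p k) 0
    rw [modV_0]; simp only [Pi.sub_apply, Pi.neg_apply, sb_apply]; simp
  · change modV p k t q (sb 3 c) 1 = (sb 2 (frobInv p k c) : Fin 12 → WittVector p k) 1
    rw [modV_1]; simp only [Pi.sub_apply, Pi.neg_apply, sb_apply]; simp
  · change modV p k t q (sb 3 c) 2 = (sb 2 (frobInv p k c) : Fin 12 → WittVector p k) 2
    rw [modV_2]; simp only [Pi.sub_apply, Pi.neg_apply, sb_apply]; simp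
  · change modV p k t q (sb 3 c) 3 = (sb 2 (frobInv p k c) : Fin 12 → WittVector p k) 3
    rw [modV_3]; simp only [Pi.sub_apply, Pi.neg_apply, sb_apply]; simp
  · change modV p k t q (sb 3 c) 4 = (sb 2 (frobInv p k c) : Fin 12 → WittVector p k) 4
    rw [modV_4]; simp only [Pi.sub_apply, Pi.neg_apply, sb_apply]; simp
  · change modV p k t q (sb 3 c) 5 = (sb 2 (frobInv p k c) : Fin 12 → WittVector p k) 5
    rw [modV_5]; simp only [Pi.sub_apply, Pi.neg_apply, sb_apply]; simp
  · change modV p k t q (sb 3 c) 6 = (sb 2 (frobInv p k c) : Fin 12 → WittVector p k) 6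
    rw [modV_6]; simp only [Pi.sub_apply, Pi.neg_apply, sb_apply]; simp
  · change modV p k t q (sb 3 c) 7 = (sb 2 (frobInv p k c) : Fin 12 → WittVector p k) 7
    rw [modV_7]; simp only [Pi.sub_apply, Pi.neg_apply, sb_apply]; simp
  · change modV p k t q (sb 3 c) 8 = (sb 2 (frobInv p k c) : Fin 12 → WittVector p k) 8
    rw [modV_8]; simp only [Pi.sub_apply, Pi.neg_apply, sb_apply]; simp
  · change modV p k t q (sb 3 c) 9 = (sb 2 (frobInv p k c) : Fin 12 → WittVector p k) 9
    rw [modV_9]; simp only [Pi.sub_apply, Pi.neg_apply, sb_apply]; simp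
  · change modV p k t q (sb 3 c) 10 = (sb 2 (frobInv p k c) : Fin 12 → WittVector p k) 10
    rw [modV_10]; simp only [Pi.sub_apply, Pi.neg_apply, sb_apply]; simp
  · change modV p k t q (sb 3 c) 11 = (sb 2 (frobInv p k c) : Fin 12 → WittVector p k) 11
    rw [modV_11]; simp only [Pi.sub_apply, Pi.neg_apply, sb_apply]; simp

theorem modV_sb_4 : modV p k t q (sb 4 c) = sb 3 (frobInv p k c) := by
  ext1 j
  fin_cases j
  · change modV p k t q (sb 4 c) 0 = (sb 3 (frobInv p k c) : Fin 12 → WittVector p k) 0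
    rw [modV_0]; simp only [Pi.sub_apply, Pi.neg_apply, sb_apply]; simp
  · change modV p k t q (sb 4 c) 1 = (sb 3 (frobInv p k c) : Fin 12 → WittVector p k) 1
    rw [modV_1]; simp only [Pi.sub_apply, Pi.neg_apply, sb_apply]; simp
  · change modV p k t q (sb 4 c) 2 = (sb 3 (frobInv p k c) : Fin 12 → WittVector p k) 2
    rw [modV_2]; simp only [Pi.sub_apply, Pi.neg_apply, sb_apply]; simp
  · change modV p k t q (sb 4 c) 3 = (sb 3 (frobInv p k c) : Fin 12 → WittVector p k) 3
    rw [modV_3]; simp only [Pi.sub_apply, Pi.neg_apply, sb_apply]; simp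
  · change modV p k t q (sb 4 c) 4 = (sb 3 (frobInv p k c) : Fin 12 → WittVector p k) 4
    rw [modV_4]; simp only [Pi.sub_apply, Pi.neg_apply, sb_apply]; simp
  · change modV p k t q (sb 4 c) 5 = (sb 3 (frobInv p k c) : Fin 12 → WittVector p k) 5
    rw [modV_5]; simp only [Pi.sub_apply, Pi.neg_apply, sb_apply]; simp
  · change modV p k t q (sb 4 c) 6 = (sb 3 (frobInv p k c) : Fin 12 → WittVector p k) 6
    rw [modV_6]; simp only [Pi.sub_apply, Pi.neg_apply, sb_apply]; simp
  · change modV p k t q (sb 4 c) 7 = (sb 3 (frobInv p k c) : Fin 12 → WittVector p k) 7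
    rw [modV_7]; simp only [Pi.sub_apply, Pi.neg_apply, sb_apply]; simp
  · change modV p k t q (sb 4 c) 8 = (sb 3 (frobInv p k c) : Fin 12 → WittVector p k) 8
    rw [modV_8]; simp only [Pi.sub_apply, Pi.neg_apply, sb_apply]; simp
  · change modV p k t q (sb 4 c) 9 = (sb 3 (frobInv p k c) : Fin 12 → WittVector p k) 9
    rw [modV_9]; simp only [Pi.sub_apply, Pi.neg_apply, sb_apply]; simp
  · change modV p k t q (sb 4 c) 10 = (sb 3 (frobInv p k c) : Fin 12 → WittVector p k) 10
    rw [modV_10]; simp only [Pi.sub_apply, Pi.neg_apply, sb_apply]; simp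
  · change modV p k t q (sb 4 c) 11 = (sb 3 (frobInv p k c) : Fin 12 → WittVector p k) 11
    rw [modV_11]; simp only [Pi.sub_apply, Pi.neg_apply, sb_apply]; simp

theorem modV_sb_5 : modV p k t q (sb 5 c) = sb 4 (frobInv p k c) := by
  ext1 j
  fin_cases j
  · change modV p k t q (sb 5 c) 0 = (sb 4 (frobInv p k c) : Fin 12 → WittVector p k) 0
    rw [modV_0]; simp only [Pi.sub_apply, Pi.neg_apply, sb_apply]; simp
  · change modV p k t q (sb 5 c) 1 = (sb 4 (frobInv p k c) : Fin 12 → WittVector p k) 1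
    rw [modV_1]; simp only [Pi.sub_apply, Pi.neg_apply, sb_apply]; simp
  · change modV p k t q (sb 5 c) 2 = (sb 4 (frobInv p k c) : Fin 12 → WittVector p k) 2
    rw [modV_2]; simp only [Pi.sub_apply, Pi.neg_apply, sb_apply]; simp
  · change modV p k t q (sb 5 c) 3 = (sb 4 (frobInv p k c) : Fin 12 → WittVector p k) 3
    rw [modV_3]; simp only [Pi.sub_apply, Pi.neg_apply, sb_apply]; simp
  · change modV p k t q (sb 5 c) 4 = (sb 4 (frobInv p k c) : Fin 12 → WittVector p k) 4
    rw [modV_4]; simp only [Pi.sub_apply, Pi.neg_apply, sb_apply]; simp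
  · change modV p k t q (sb 5 c) 5 = (sb 4 (frobInv p k c) : Fin 12 → WittVector p k) 5
    rw [modV_5]; simp only [Pi.sub_apply, Pi.neg_apply, sb_apply]; simp
  · change modV p k t q (sb 5 c) 6 = (sb 4 (frobInv p k c) : Fin 12 → WittVector p k) 6
    rw [modV_6]; simp only [Pi.sub_apply, Pi.neg_apply, sb_apply]; simp
  · change modV p k t q (sb 5 c) 7 = (sb 4 (frobInv p k c) : Fin 12 → WittVector p k) 7
    rw [modV_7]; simp only [Pi.sub_apply, Pi.neg_apply, sb_apply]; simp
  · change modV p k t q (sb 5 c) 8 = (sb 4 (frobInv p k c) : Fin 12 → WittVector p k) 8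
    rw [modV_8]; simp only [Pi.sub_apply, Pi.neg_apply, sb_apply]; simp
  · change modV p k t q (sb 5 c) 9 = (sb 4 (frobInv p k c) : Fin 12 → WittVector p k) 9
    rw [modV_9]; simp only [Pi.sub_apply, Pi.neg_apply, sb_apply]; simp
  · change modV p k t q (sb 5 c) 10 = (sb 4 (frobInv p k c) : Fin 12 → WittVector p k) 10
    rw [modV_10]; simp only [Pi.sub_apply, Pi.neg_apply, sb_apply]; simp
  · change modV p k t q (sb 5 c) 11 = (sb 4 (frobInv p k c) : Fin 12 → WittVector p k) 11
    rw [modV_11]; simp only [Pi.sub_apply, Pi.neg_apply, sb_apply]; simp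

theorem modV_sb_6 : modV p k t q (sb 6 c) = sb 5 (frobInv p k c) := by
  ext1 j
  fin_cases j
  · change modV p k t q (sb 6 c) 0 = (sb 5 (frobInv p k c) : Fin 12 → WittVector p k) 0
    rw [modV_0]; simp only [Pi.sub_apply, Pi.neg_apply, sb_apply]; simp
  · change modV p k t q (sb 6 c) 1 = (sb 5 (frobInv p k c) : Fin 12 → WittVector p k) 1
    rw [modV_1]; simp only [Pi.sub_apply, Pi.neg_apply, sb_apply]; simp
  · change modV p k t q (sb 6 c) 2 = (sb 5 (frobInv p k c) : Fin 12 → WittVector p k) 2
    rw [modV_2]; simp only [Pi.sub_apply, Pi.neg_apply, sb_apply]; simp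
  · change modV p k t q (sb 6 c) 3 = (sb 5 (frobInv p k c) : Fin 12 → WittVector p k) 3
    rw [modV_3]; simp only [Pi.sub_apply, Pi.neg_apply, sb_apply]; simp
  · change modV p k t q (sb 6 c) 4 = (sb 5 (frobInv p k c) : Fin 12 → WittVector p k) 4
    rw [modV_4]; simp only [Pi.sub_apply, Pi.neg_apply, sb_apply]; simp
  · change modV p k t q (sb 6 c) 5 = (sb 5 (frobInv p k c) : Fin 12 → WittVector p k) 5
    rw [modV_5]; simp only [Pi.sub_apply, Pi.neg_apply, sb_apply]; simp
  · change modV p k t q (sb 6 c) 6 = (sb 5 (frobInv p k c) : Fin 12 → WittVector p k) 6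
    rw [modV_6]; simp only [Pi.sub_apply, Pi.neg_apply, sb_apply]; simp
  · change modV p k t q (sb 6 c) 7 = (sb 5 (frobInv p k c) : Fin 12 → WittVector p k) 7
    rw [modV_7]; simp only [Pi.sub_apply, Pi.neg_apply, sb_apply]; simp
  · change modV p k t q (sb 6 c) 8 = (sb 5 (frobInv p k c) : Fin 12 → WittVector p k) 8
    rw [modV_8]; simp only [Pi.sub_apply, Pi.neg_apply, sb_apply]; simp
  · change modV p k t q (sb 6 c) 9 = (sb 5 (frobInv p k c) : Fin 12 → WittVector p k) 9
    rw [modV_9]; simp only [Pi.sub_apply, Pi.neg_apply, sb_apply]; simp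
  · change modV p k t q (sb 6 c) 10 = (sb 5 (frobInv p k c) : Fin 12 → WittVector p k) 10
    rw [modV_10]; simp only [Pi.sub_apply, Pi.neg_apply, sb_apply]; simp
  · change modV p k t q (sb 6 c) 11 = (sb 5 (frobInv p k c) : Fin 12 → WittVector p k) 11
    rw [modV_11]; simp only [Pi.sub_apply, Pi.neg_apply, sb_apply]; simp

theorem modV_sb_7 : modV p k t q (sb 7 c) = sb 6 ((p : WittVector p k) * frobInv p k c) := by
  ext1 j
  fin_cases j
  · change modV p k t q (sb 7 c) 0 = (sb 6 ((p : WittVector p k) * frobInv p k c) : Fin 12 → WittVector p k) 0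
    rw [modV_0]; simp only [Pi.sub_apply, Pi.neg_apply, sb_apply]; simp
  · change modV p k t q (sb 7 c) 1 = (sb 6 ((p : WittVector p k) * frobInv p k c) : Fin 12 → WittVector p k) 1
    rw [modV_1]; simp only [Pi.sub_apply, Pi.neg_apply, sb_apply]; simp
  · change modV p k t q (sb 7 c) 2 = (sb 6 ((p : WittVector p k) * frobInv p k c) : Fin 12 → WittVector p k) 2
    rw [modV_2]; simp only [Pi.sub_apply, Pi.neg_apply, sb_apply]; simp
  · change modV p k t q (sb 7 c) 3 = (sb 6 ((p : WittVector p k) * frobInv p k c) : Fin 12 → WittVector p k) 3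
    rw [modV_3]; simp only [Pi.sub_apply, Pi.neg_apply, sb_apply]; simp
  · change modV p k t q (sb 7 c) 4 = (sb 6 ((p : WittVector p k) * frobInv p k c) : Fin 12 → WittVector p k) 4
    rw [modV_4]; simp only [Pi.sub_apply, Pi.neg_apply, sb_apply]; simp
  · change modV p k t q (sb 7 c) 5 = (sb 6 ((p : WittVector p k) * frobInv p k c) : Fin 12 → WittVector p k) 5
    rw [modV_5]; simp only [Pi.sub_apply, Pi.neg_apply, sb_apply]; simp
  · change modV p k t q (sb 7 c) 6 = (sb 6 ((p : WittVector p k) * frobInv p k c) : Fin 12 → WittVector p k) 6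
    rw [modV_6]; simp only [Pi.sub_apply, Pi.neg_apply, sb_apply]; simp
  · change modV p k t q (sb 7 c) 7 = (sb 6 ((p : WittVector p k) * frobInv p k c) : Fin 12 → WittVector p k) 7
    rw [modV_7]; simp only [Pi.sub_apply, Pi.neg_apply, sb_apply]; simp
  · change modV p k t q (sb 7 c) 8 = (sb 6 ((p : WittVector p k) * frobInv p k c) : Fin 12 → WittVector p k) 8
    rw [modV_8]; simp only [Pi.sub_apply, Pi.neg_apply, sb_apply]; simp
  · change modV p k t q (sb 7 c) 9 = (sb 6 ((p : WittVector p k) * frobInv p k c) : Fin 12 → WittVector p k) 9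
    rw [modV_9]; simp only [Pi.sub_apply, Pi.neg_apply, sb_apply]; simp
  · change modV p k t q (sb 7 c) 10 = (sb 6 ((p : WittVector p k) * frobInv p k c) : Fin 12 → WittVector p k) 10
    rw [modV_10]; simp only [Pi.sub_apply, Pi.neg_apply, sb_apply]; simp
  · change modV p k t q (sb 7 c) 11 = (sb 6 ((p : WittVector p k) * frobInv p k c) : Fin 12 → WittVector p k) 11
    rw [modV_11]; simp only [Pi.sub_apply, Pi.neg_apply, sb_apply]; simp

theorem modV_sb_8 : modV p k t q (sb 8 c) = sb 7 ((p : WittVector p k) * frobInv p k c) := by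
  ext1 j
  fin_cases j
  · change modV p k t q (sb 8 c) 0 = (sb 7 ((p : WittVector p k) * frobInv p k c) : Fin 12 → WittVector p k) 0
    rw [modV_0]; simp only [Pi.sub_apply, Pi.neg_apply, sb_apply]; simp
  · change modV p k t q (sb 8 c) 1 = (sb 7 ((p : WittVector p k) * frobInv p k c) : Fin 12 → WittVector p k) 1
    rw [modV_1]; simp only [Pi.sub_apply, Pi.neg_apply, sb_apply]; simp
  · change modV p k t q (sb 8 c) 2 = (sb 7 ((p : WittVector p k) * frobInv p k c) : Fin 12 → WittVector p k) 2
    rw [modV_2]; simp only [Pi.sub_apply, Pi.neg_apply, sb_apply]; simp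
  · change modV p k t q (sb 8 c) 3 = (sb 7 ((p : WittVector p k) * frobInv p k c) : Fin 12 → WittVector p k) 3
    rw [modV_3]; simp only [Pi.sub_apply, Pi.neg_apply, sb_apply]; simp
  · change modV p k t q (sb 8 c) 4 = (sb 7 ((p : WittVector p k) * frobInv p k c) : Fin 12 → WittVector p k) 4
    rw [modV_4]; simp only [Pi.sub_apply, Pi.neg_apply, sb_apply]; simp
  · change modV p k t q (sb 8 c) 5 = (sb 7 ((p : WittVector p k) * frobInv p k c) : Fin 12 → WittVector p k) 5
    rw [modV_5]; simp only [Pi.sub_apply, Pi.neg_apply, sb_apply]; simp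
  · change modV p k t q (sb 8 c) 6 = (sb 7 ((p : WittVector p k) * frobInv p k c) : Fin 12 → WittVector p k) 6
    rw [modV_6]; simp only [Pi.sub_apply, Pi.neg_apply, sb_apply]; simp
  · change modV p k t q (sb 8 c) 7 = (sb 7 ((p : WittVector p k) * frobInv p k c) : Fin 12 → WittVector p k) 7
    rw [modV_7]; simp only [Pi.sub_apply, Pi.neg_apply, sb_apply]; simp
  · change modV p k t q (sb 8 c) 8 = (sb 7 ((p : WittVector p k) * frobInv p k c) : Fin 12 → WittVector p k) 8
    rw [modV_8]; simp only [Pi.sub_apply, Pi.neg_apply, sb_apply]; simp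
  · change modV p k t q (sb 8 c) 9 = (sb 7 ((p : WittVector p k) * frobInv p k c) : Fin 12 → WittVector p k) 9
    rw [modV_9]; simp only [Pi.sub_apply, Pi.neg_apply, sb_apply]; simp
  · change modV p k t q (sb 8 c) 10 = (sb 7 ((p : WittVector p k) * frobInv p k c) : Fin 12 → WittVector p k) 10
    rw [modV_10]; simp only [Pi.sub_apply, Pi.neg_apply, sb_apply]; simp
  · change modV p k t q (sb 8 c) 11 = (sb 7 ((p : WittVector p k) * frobInv p k c) : Fin 12 → WittVector p k) 11
    rw [modV_11]; simp only [Pi.sub_apply, Pi.neg_apply, sb_apply]; simp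

theorem modV_sb_9 : modV p k t q (sb 9 c) = sb 8 ((p : WittVector p k) * frobInv p k c) := by
  ext1 j
  fin_cases j
  · change modV p k t q (sb 9 c) 0 = (sb 8 ((p : WittVector p k) * frobInv p k c) : Fin 12 → WittVector p k) 0
    rw [modV_0]; simp only [Pi.sub_apply, Pi.neg_apply, sb_apply]; simp
  · change modV p k t q (sb 9 c) 1 = (sb 8 ((p : WittVector p k) * frobInv p k c) : Fin 12 → WittVector p k) 1
    rw [modV_1]; simp only [Pi.sub_apply, Pi.neg_apply, sb_apply]; simp
  · change modV p k t q (sb 9 c) 2 = (sb 8 ((p : WittVector p k) * frobInv p k c) : Fin 12 → WittVector p k) 2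
    rw [modV_2]; simp only [Pi.sub_apply, Pi.neg_apply, sb_apply]; simp
  · change modV p k t q (sb 9 c) 3 = (sb 8 ((p : WittVector p k) * frobInv p k c) : Fin 12 → WittVector p k) 3
    rw [modV_3]; simp only [Pi.sub_apply, Pi.neg_apply, sb_apply]; simp
  · change modV p k t q (sb 9 c) 4 = (sb 8 ((p : WittVector p k) * frobInv p k c) : Fin 12 → WittVector p k) 4
    rw [modV_4]; simp only [Pi.sub_apply, Pi.neg_apply, sb_apply]; simp
  · change modV p k t q (sb 9 c) 5 = (sb 8 ((p : WittVector p k) * frobInv p k c) : Fin 12 → WittVector p k) 5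
    rw [modV_5]; simp only [Pi.sub_apply, Pi.neg_apply, sb_apply]; simp
  · change modV p k t q (sb 9 c) 6 = (sb 8 ((p : WittVector p k) * frobInv p k c) : Fin 12 → WittVector p k) 6
    rw [modV_6]; simp only [Pi.sub_apply, Pi.neg_apply, sb_apply]; simp
  · change modV p k t q (sb 9 c) 7 = (sb 8 ((p : WittVector p k) * frobInv p k c) : Fin 12 → WittVector p k) 7
    rw [modV_7]; simp only [Pi.sub_apply, Pi.neg_apply, sb_apply]; simp
  · change modV p k t q (sb 9 c) 8 = (sb 8 ((p : WittVector p k) * frobInv p k c) : Fin 12 → WittVector p k) 8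
    rw [modV_8]; simp only [Pi.sub_apply, Pi.neg_apply, sb_apply]; simp
  · change modV p k t q (sb 9 c) 9 = (sb 8 ((p : WittVector p k) * frobInv p k c) : Fin 12 → WittVector p k) 9
    rw [modV_9]; simp only [Pi.sub_apply, Pi.neg_apply, sb_apply]; simp
  · change modV p k t q (sb 9 c) 10 = (sb 8 ((p : WittVector p k) * frobInv p k c) : Fin 12 → WittVector p k) 10
    rw [modV_10]; simp only [Pi.sub_apply, Pi.neg_apply, sb_apply]; simp
  · change modV p k t q (sb 9 c) 11 = (sb 8 ((p : WittVector p k) * frobInv p k c) : Fin 12 → WittVector p k) 11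
    rw [modV_11]; simp only [Pi.sub_apply, Pi.neg_apply, sb_apply]; simp

theorem modV_sb_10 : modV p k t q (sb 10 c) = sb 9 ((p : WittVector p k) * frobInv p k c) := by
  ext1 j
  fin_cases j
  · change modV p k t q (sb 10 c) 0 = (sb 9 ((p : WittVector p k) * frobInv p k c) : Fin 12 → WittVector p k) 0
    rw [modV_0]; simp only [Pi.sub_apply, Pi.neg_apply, sb_apply]; simp
  · change modV p k t q (sb 10 c) 1 = (sb 9 ((p : WittVector p k) * frobInv p k c) : Fin 12 → WittVector p k) 1
    rw [modV_1]; simp only [Pi.sub_apply, Pi.neg_apply, sb_apply]; simp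
  · change modV p k t q (sb 10 c) 2 = (sb 9 ((p : WittVector p k) * frobInv p k c) : Fin 12 → WittVector p k) 2
    rw [modV_2]; simp only [Pi.sub_apply, Pi.neg_apply, sb_apply]; simp
  · change modV p k t q (sb 10 c) 3 = (sb 9 ((p : WittVector p k) * frobInv p k c) : Fin 12 → WittVector p k) 3
    rw [modV_3]; simp only [Pi.sub_apply, Pi.neg_apply, sb_apply]; simp
  · change modV p k t q (sb 10 c) 4 = (sb 9 ((p : WittVector p k) * frobInv p k c) : Fin 12 → WittVector p k) 4
    rw [modV_4]; simp only [Pi.sub_apply, Pi.neg_apply, sb_apply]; simp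
  · change modV p k t q (sb 10 c) 5 = (sb 9 ((p : WittVector p k) * frobInv p k c) : Fin 12 → WittVector p k) 5
    rw [modV_5]; simp only [Pi.sub_apply, Pi.neg_apply, sb_apply]; simp
  · change modV p k t q (sb 10 c) 6 = (sb 9 ((p : WittVector p k) * frobInv p k c) : Fin 12 → WittVector p k) 6
    rw [modV_6]; simp only [Pi.sub_apply, Pi.neg_apply, sb_apply]; simp
  · change modV p k t q (sb 10 c) 7 = (sb 9 ((p : WittVector p k) * frobInv p k c) : Fin 12 → WittVector p k) 7
    rw [modV_7]; simp only [Pi.sub_apply, Pi.neg_apply, sb_apply]; simp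
  · change modV p k t q (sb 10 c) 8 = (sb 9 ((p : WittVector p k) * frobInv p k c) : Fin 12 → WittVector p k) 8
    rw [modV_8]; simp only [Pi.sub_apply, Pi.neg_apply, sb_apply]; simp
  · change modV p k t q (sb 10 c) 9 = (sb 9 ((p : WittVector p k) * frobInv p k c) : Fin 12 → WittVector p k) 9
    rw [modV_9]; simp only [Pi.sub_apply, Pi.neg_apply, sb_apply]; simp
  · change modV p k t q (sb 10 c) 10 = (sb 9 ((p : WittVector p k) * frobInv p k c) : Fin 12 → WittVector p k) 10
    rw [modV_10]; simp only [Pi.sub_apply, Pi.neg_apply, sb_apply]; simp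
  · change modV p k t q (sb 10 c) 11 = (sb 9 ((p : WittVector p k) * frobInv p k c) : Fin 12 → WittVector p k) 11
    rw [modV_11]; simp only [Pi.sub_apply, Pi.neg_apply, sb_apply]; simp

theorem modV_sb_11 : modV p k t q (sb 11 c) = sb 10 ((p : WittVector p k) * frobInv p k c) := by
  ext1 j
  fin_cases j
  · change modV p k t q (sb 11 c) 0 = (sb 10 ((p : WittVector p k) * frobInv p k c) : Fin 12 → WittVector p k) 0
    rw [modV_0]; simp only [Pi.sub_apply, Pi.neg_apply, sb_apply]; simp
  · change modV p k t q (sb 11 c) 1 = (sb 10 ((p : WittVector p k) * frobInv p k c) : Fin 12 → WittVector p k) 1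
    rw [modV_1]; simp only [Pi.sub_apply, Pi.neg_apply, sb_apply]; simp
  · change modV p k t q (sb 11 c) 2 = (sb 10 ((p : WittVector p k) * frobInv p k c) : Fin 12 → WittVector p k) 2
    rw [modV_2]; simp only [Pi.sub_apply, Pi.neg_apply, sb_apply]; simp
  · change modV p k t q (sb 11 c) 3 = (sb 10 ((p : WittVector p k) * frobInv p k c) : Fin 12 → WittVector p k) 3
    rw [modV_3]; simp only [Pi.sub_apply, Pi.neg_apply, sb_apply]; simp
  · change modV p k t q (sb 11 c) 4 = (sb 10 ((p : WittVector p k) * frobInv p k c) : Fin 12 → WittVector p k) 4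
    rw [modV_4]; simp only [Pi.sub_apply, Pi.neg_apply, sb_apply]; simp
  · change modV p k t q (sb 11 c) 5 = (sb 10 ((p : WittVector p k) * frobInv p k c) : Fin 12 → WittVector p k) 5
    rw [modV_5]; simp only [Pi.sub_apply, Pi.neg_apply, sb_apply]; simp
  · change modV p k t q (sb 11 c) 6 = (sb 10 ((p : WittVector p k) * frobInv p k c) : Fin 12 → WittVector p k) 6
    rw [modV_6]; simp only [Pi.sub_apply, Pi.neg_apply, sb_apply]; simp
  · change modV p k t q (sb 11 c) 7 = (sb 10 ((p : WittVector p k) * frobInv p k c) : Fin 12 → WittVector p k) 7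
    rw [modV_7]; simp only [Pi.sub_apply, Pi.neg_apply, sb_apply]; simp
  · change modV p k t q (sb 11 c) 8 = (sb 10 ((p : WittVector p k) * frobInv p k c) : Fin 12 → WittVector p k) 8
    rw [modV_8]; simp only [Pi.sub_apply, Pi.neg_apply, sb_apply]; simp
  · change modV p k t q (sb 11 c) 9 = (sb 10 ((p : WittVector p k) * frobInv p k c) : Fin 12 → WittVector p k) 9
    rw [modV_9]; simp only [Pi.sub_apply, Pi.neg_apply, sb_apply]; simp
  · change modV p k t q (sb 11 c) 10 = (sb 10 ((p : WittVector p k) * frobInv p k c) : Fin 12 → WittVector p k) 10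
    rw [modV_10]; simp only [Pi.sub_apply, Pi.neg_apply, sb_apply]; simp
  · change modV p k t q (sb 11 c) 11 = (sb 10 ((p : WittVector p k) * frobInv p k c) : Fin 12 → WittVector p k) 11
    rw [modV_11]; simp only [Pi.sub_apply, Pi.neg_apply, sb_apply]; simp

theorem modV_sb_0 : modV p k t q (sb 0 c) = -sb 2 ((t : WittVector p k) * frobInv p k c) - sb 5 ((q : WittVector p k) * frobInv p k c)
      - sb 8 ((p : WittVector p k) * ((t : WittVector p k) * frobInv p k c))
      - sb 11 ((p : WittVector p k) * frobInv p k c) := by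
  ext1 j
  fin_cases j
  · change modV p k t q (sb 0 c) 0 = (-sb 2 ((t : WittVector p k) * frobInv p k c) - sb 5 ((q : WittVector p k) * frobInv p k c)
      - sb 8 ((p : WittVector p k) * ((t : WittVector p k) * frobInv p k c))
      - sb 11 ((p : WittVector p k) * frobInv p k c) : Fin 12 → WittVector p k) 0
    rw [modV_0]; simp only [Pi.sub_apply, Pi.neg_apply, sb_apply]; simp
  · change modV p k t q (sb 0 c) 1 = (-sb 2 ((t : WittVector p k) * frobInv p k c) - sb 5 ((q : WittVector p k) * frobInv p k c)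
      - sb 8 ((p : WittVector p k) * ((t : WittVector p k) * frobInv p k c))
      - sb 11 ((p : WittVector p k) * frobInv p k c) : Fin 12 → WittVector p k) 1
    rw [modV_1]; simp only [Pi.sub_apply, Pi.neg_apply, sb_apply]; simp
  · change modV p k t q (sb 0 c) 2 = (-sb 2 ((t : WittVector p k) * frobInv p k c) - sb 5 ((q : WittVector p k) * frobInv p k c)
      - sb 8 ((p : WittVector p k) * ((t : WittVector p k) * frobInv p k c))
      - sb 11 ((p : WittVector p k) * frobInv p k c) : Fin 12 → WittVector p k) 2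
    rw [modV_2]; simp only [Pi.sub_apply, Pi.neg_apply, sb_apply]; simp
  · change modV p k t q (sb 0 c) 3 = (-sb 2 ((t : WittVector p k) * frobInv p k c) - sb 5 ((q : WittVector p k) * frobInv p k c)
      - sb 8 ((p : WittVector p k) * ((t : WittVector p k) * frobInv p k c))
      - sb 11 ((p : WittVector p k) * frobInv p k c) : Fin 12 → WittVector p k) 3
    rw [modV_3]; simp only [Pi.sub_apply, Pi.neg_apply, sb_apply]; simp
  · change modV p k t q (sb 0 c) 4 = (-sb 2 ((t : WittVector p k) * frobInv p k c) - sb 5 ((q : WittVector p k) * frobInv p k c)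
      - sb 8 ((p : WittVector p k) * ((t : WittVector p k) * frobInv p k c))
      - sb 11 ((p : WittVector p k) * frobInv p k c) : Fin 12 → WittVector p k) 4
    rw [modV_4]; simp only [Pi.sub_apply, Pi.neg_apply, sb_apply]; simp
  · change modV p k t q (sb 0 c) 5 = (-sb 2 ((t : WittVector p k) * frobInv p k c) - sb 5 ((q : WittVector p k) * frobInv p k c)
      - sb 8 ((p : WittVector p k) * ((t : WittVector p k) * frobInv p k c))
      - sb 11 ((p : WittVector p k) * frobInv p k c) : Fin 12 → WittVector p k) 5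
    rw [modV_5]; simp only [Pi.sub_apply, Pi.neg_apply, sb_apply]; simp
  · change modV p k t q (sb 0 c) 6 = (-sb 2 ((t : WittVector p k) * frobInv p k c) - sb 5 ((q : WittVector p k) * frobInv p k c)
      - sb 8 ((p : WittVector p k) * ((t : WittVector p k) * frobInv p k c))
      - sb 11 ((p : WittVector p k) * frobInv p k c) : Fin 12 → WittVector p k) 6
    rw [modV_6]; simp only [Pi.sub_apply, Pi.neg_apply, sb_apply]; simp
  · change modV p k t q (sb 0 c) 7 = (-sb 2 ((t : WittVector p k) * frobInv p k c) - sb 5 ((q : WittVector p k) * frobInv p k c)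
      - sb 8 ((p : WittVector p k) * ((t : WittVector p k) * frobInv p k c))
      - sb 11 ((p : WittVector p k) * frobInv p k c) : Fin 12 → WittVector p k) 7
    rw [modV_7]; simp only [Pi.sub_apply, Pi.neg_apply, sb_apply]; simp
  · change modV p k t q (sb 0 c) 8 = (-sb 2 ((t : WittVector p k) * frobInv p k c) - sb 5 ((q : WittVector p k) * frobInv p k c)
      - sb 8 ((p : WittVector p k) * ((t : WittVector p k) * frobInv p k c))
      - sb 11 ((p : WittVector p k) * frobInv p k c) : Fin 12 → WittVector p k) 8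
    rw [modV_8]; simp only [Pi.sub_apply, Pi.neg_apply, sb_apply]; simp
  · change modV p k t q (sb 0 c) 9 = (-sb 2 ((t : WittVector p k) * frobInv p k c) - sb 5 ((q : WittVector p k) * frobInv p k c)
      - sb 8 ((p : WittVector p k) * ((t : WittVector p k) * frobInv p k c))
      - sb 11 ((p : WittVector p k) * frobInv p k c) : Fin 12 → WittVector p k) 9
    rw [modV_9]; simp only [Pi.sub_apply, Pi.neg_apply, sb_apply]; simp
  · change modV p k t q (sb 0 c) 10 = (-sb 2 ((t : WittVector p k) * frobInv p k c) - sb 5 ((q : WittVector p k) * frobInv p k c)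
      - sb 8 ((p : WittVector p k) * ((t : WittVector p k) * frobInv p k c))
      - sb 11 ((p : WittVector p k) * frobInv p k c) : Fin 12 → WittVector p k) 10
    rw [modV_10]; simp only [Pi.sub_apply, Pi.neg_apply, sb_apply]; simp
  · change modV p k t q (sb 0 c) 11 = (-sb 2 ((t : WittVector p k) * frobInv p k c) - sb 5 ((q : WittVector p k) * frobInv p k c)
      - sb 8 ((p : WittVector p k) * ((t : WittVector p k) * frobInv p k c))
      - sb 11 ((p : WittVector p k) * frobInv p k c) : Fin 12 → WittVector p k) 11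
    rw [modV_11]; simp only [Pi.sub_apply, Pi.neg_apply, sb_apply]; simp

end Apply

end Pool.Agent.UA
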