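import Pool.Agent.Lib.MP_381773_ag.Ell

/-!
# Characters of `∧² M(t,q)` vanishing on the boundary modulo `p³`
-/

set_option autoImplicit false
set_option linter.unusedSectionVars false

universe u

namespace Pool.Agent.UA

open WittVector

variable {p : ℕ} [Fact p.Prime] {k : Type u} [Field k] [IsAlgClosed k] [CharP k p]

/-- The index of the unit coefficient of `F e_i`, `6 ≤ i`. -/
def rr (i : Fin 12) : Fin 12 := if i = 11 then 0 else i + 1

/-- The unit coefficient of `F e_i`, `6 ≤ i`. -/
noncomputable def ss (p : ℕ) [Fact p.Prime] (k : Type u) [Field k] (i : Fin 12) :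
    WittVector p k := if i = 11 then -1 else 1

theorem modF_rr {t : ℕ} (q : ℕ) (ht : p ∣ t) (i : Fin 12) (hi : 6 ≤ i.val)
    (x : Fin 12 → WittVector p k) :
    ∃ w, modF p k t q x (rr i) = ss p k i * frob p k (x i) + (p : WittVector p k) * w := by
  obtain ⟨t', rfl⟩ := ht
  fin_cases i <;> simp only [] at hi ⊢
  any_goals (exfalso; revert hi; decide)
  · exact ⟨0, by change modF p k (p * t') q x 7 = _; rw [modF_7]; simp [ss]⟩
  · exact ⟨0, by change modF p k (p * t') q x 8 = _; rw [modF_8]; simp [ss]⟩
  · exact ⟨-((t' : WittVector p k) * frob p k (x 11)), by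
      change modF p k (p * t') q x 9 = _; rw [modF_9]; simp [ss]; ring⟩
  · exact ⟨0, by change modF p k (p * t') q x 10 = _; rw [modF_10]; simp [ss]⟩
  · exact ⟨0, by change modF p k (p * t') q x 11 = _; rw [modF_11]; simp [ss]⟩
  · exact ⟨0, by change modF p k (p * t') q x 0 = _; rw [modF_0]; simp [ss]⟩

theorem ss_sq (i : Fin 12) : ss p k i * ss p k i = 1 := by
  unfold ss; split_ifs <;> ring

theorem ell_F {t : ℕ} (q : ℕ) (ht : p ∣ t) (i j : Fin 12) (hi : 6 ≤ i.val) (hj : 6 ≤ j.val)
    (z : ⋀[WittVector p k]^2 (Fin 12 → WittVector p k)) :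
    (p : WittVector p k) ∣ ell (rr i) (rr j) (extMap (frob p k) 2 (modF p k t q) z)
      - ss p k i * ss p k j * frob p k (ell i j z) := by
  induction z using wedge_induction with
  | h0 => simp
  | hadd a b ha hb =>
    have := dvd_add ha hb
    convert this using 1
    simp only [map_add]
    ring
  | hw x y =>
    rw [extMap_wedge, ell_wedge, ell_wedge]
    obtain ⟨a, ha⟩ := modF_rr q ht i hi x
    obtain ⟨b, hb⟩ := modF_rr q ht j hj x
    obtain ⟨c, hc⟩ := modF_rr q ht i hi y
    obtain ⟨d, hd⟩ := modF_rr q ht j hj y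
    rw [ha, hb, hc, hd, map_sub, map_mul, map_mul]
    exact ⟨a * (ss p k j * frob p k (y j)) + (ss p k i * frob p k (x i)) * d
      + (p : WittVector p k) * a * d
      - b * (ss p k i * frob p k (y i)) - (ss p k j * frob p k (x j)) * c
      - (p : WittVector p k) * b * c, by ring⟩

theorem frob_dvd {x : WittVector p k} (h : (p : WittVector p k) ∣ frob p k x) :
    (p : WittVector p k) ∣ x := by
  obtain ⟨c, hc⟩ := h
  refine ⟨frobInv p k c, ?_⟩
  have := congrArg (frobInv p k) hc
  rwa [frobInv_frob, map_mul, map_natCast] at this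

theorem mem_vSpan_of_F {t : ℕ} (q : ℕ) (ht : p ∣ t)
    (z z' : ⋀[WittVector p k]^2 (Fin 12 → WittVector p k))
    (h : extMap (frob p k) 2 (modF p k t q) z = (p : WittVector p k) • z') :
    z ∈ vSpan t q := by
  have h1 := sub_mem_vSpan (t := t) (q := q) z
  have h2 : (∑ i, ∑ j, (if i < j then (if 6 ≤ i.val then
      ell i j z • wedge p k (sb i (1 : WittVector p k)) (sb j (1 : WittVector p k)) else 0)
        else 0)) ∈ vSpan (p := p) (k := k) t q := by
    refine AddSubgroup.sum_mem _ fun i _ => AddSubgroup.sum_mem _ fun j _ => ?_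
    split_ifs with hij hi
    · have hj : 6 ≤ j.val := le_trans hi (le_of_lt hij)
      have h3 := ell_F (p := p) (k := k) q ht i j hi hj z
      rw [h, map_smul, smul_eq_mul] at h3
      have h4 : (p : WittVector p k) ∣ ss p k i * ss p k j * frob p k (ell i j z) := by
        have := dvd_sub (Dvd.intro (ell (rr i) (rr j) z') rfl) h3
        simpa using this
      have h5 : (p : WittVector p k) ∣ frob p k (ell i j z) := by
        have := Dvd.dvd.mul_left h4 (ss p k i * ss p k j)
        have e : ss p k i * ss p k j * (ss p k i * ss p k j * frob p k (ell i j z))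
            = (ss p k i * ss p k i) * (ss p k j * ss p k j) * frob p k (ell i j z) := by ring
        rwa [e, ss_sq, ss_sq, one_mul, one_mul] at this
      obtain ⟨c, hc⟩ := frob_dvd h5
      rw [hc, mul_smul, ← wedge_smul_left]
      exact p_wedge_mem _ _
    · exact AddSubgroup.zero_mem _
    · exact AddSubgroup.zero_mem _
  have := AddSubgroup.add_mem _ h1 h2
  rwa [sub_add_cancel] at this

theorem chi_boundary {t : ℕ} (q : ℕ) (ht : p ∣ t)
    (B : Fin 12 → Fin 12 → WittVector p k →+ WittVector p k)
    (hB : ∀ i j, B j i = - B i j) (hB0 : ∀ i, B i i = 0)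
    (hc : ∀ x y, (p : WittVector p k) ^ 3 ∣ bet B x (modF p k t q y) - bet B (modV p k t q x) y)
    (z z' : ⋀[WittVector p k]^2 (Fin 12 → WittVector p k))
    (h : extMap (frob p k) 2 (modF p k t q) z = (p : WittVector p k) • z') :
    (p : WittVector p k) ^ 3 ∣ chiOf B z' - chiOf B z := by
  have hz := mem_vSpan_of_F q ht z z' h
  have key : ∃ z'', extMap (frob p k) 2 (modF p k t q) z = (p : WittVector p k) • z'' ∧
      (p : WittVector p k) ^ 3 ∣ chiOf B z'' - chiOf B z := by
    clear h
    unfold vSpan at hz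
    induction hz using AddSubgroup.closure_induction with
    | mem z hz =>
      obtain ⟨x, y, rfl⟩ := hz
      refine ⟨wedge p k x (modF p k t q y), ?_, ?_⟩
      · rw [extMap_wedge, modF_modV, wedge_smul_left]
      · rw [chiOf_wedge B hB hB0, chiOf_wedge B hB hB0]
        exact hc x y
    | zero => exact ⟨0, by simp, by simp⟩
    | add a b _ _ ha hb =>
      obtain ⟨a'', h1, h2⟩ := ha
      obtain ⟨b'', h3, h4⟩ := hb
      refine ⟨a'' + b'', by rw [map_add, h1, h3, smul_add], ?_⟩
      have := dvd_add h2 h4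
      convert this using 1
      simp only [map_add]; ring
    | neg a _ ha =>
      obtain ⟨a'', h1, h2⟩ := ha
      refine ⟨-a'', by rw [map_neg, h1, smul_neg], ?_⟩
      have := dvd_neg.mpr h2
      convert this using 1
      simp only [map_neg]; ring
  obtain ⟨z'', h1, h2⟩ := key
  rw [h] at h1
  have h3 : z' - z'' = 0 := by
    apply natp_smul_cancel (p := p) (k := k) (n := 1)
    rw [pow_one, smul_sub, h1, sub_self]
  rw [sub_eq_zero.mp h3]
  exact h2

end Pool.Agent.UA
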