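import Pool.Agent.Lib.MP_381773_ag.Iter

/-!
# The pairing `[x,y]` for the modules `M(t,q)`
-/

set_option autoImplicit false
set_option linter.unusedSectionVars false

universe u

namespace Pool.Agent.UA

open WittVector

variable {p : ℕ} [Fact p.Prime] {k : Type u} [Field k] [IsAlgClosed k] [CharP k p]

/-- The group `U` of `M(t,q)`. -/
noncomputable abbrev UU (p : ℕ) [Fact p.Prime] (k : Type u) [Field k] [IsAlgClosed k] [CharP k p]
    (t q : ℕ) : FunGroup k := U (wedgeSq (modM p k t q))

/-- The class of `x ∧ y` in `U`. -/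
noncomputable def brM (t q : ℕ) (x y : Fin 12 → WittVector p k) : (UU p k t q).carrier :=
  br (modM p k t q) x y

variable {t q : ℕ}

theorem brM_add_left (x x' y : Fin 12 → WittVector p k) :
    brM t q (x + x') y = brM t q x y + brM t q x' y := br_add_left (M := modM p k t q) x x' y

theorem brM_add_right (x y y' : Fin 12 → WittVector p k) :
    brM t q x (y + y') = brM t q x y + brM t q x y' := br_add_right (M := modM p k t q) x y y'

theorem brM_smul (c : WittVector p k) (x y : Fin 12 → WittVector p k) :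
    brM t q (c • x) y = brM t q x (c • y) := br_smul (M := modM p k t q) c x y

theorem brM_self (x : Fin 12 → WittVector p k) : brM t q x x = 0 :=
  br_self (M := modM p k t q) x

theorem brM_smul_self (c : WittVector p k) (x : Fin 12 → WittVector p k) :
    brM t q (c • x) x = 0 := br_smul_self (M := modM p k t q) c x

theorem brM_antisymm (x y : Fin 12 → WittVector p k) : brM t q x y = - brM t q y x :=
  br_antisymm (M := modM p k t q) x y

theorem brM_zero_right (x : Fin 12 → WittVector p k) : brM t q x 0 = 0 :=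
  br_zero_right (M := modM p k t q) x

theorem brM_zero_left (x : Fin 12 → WittVector p k) : brM t q 0 x = 0 :=
  br_zero_left (M := modM p k t q) x

theorem brM_neg_right (x y : Fin 12 → WittVector p k) : brM t q x (-y) = - brM t q x y :=
  br_neg_right (M := modM p k t q) x y

theorem brM_neg_left (x y : Fin 12 → WittVector p k) : brM t q (-x) y = - brM t q x y :=
  br_neg_left (M := modM p k t q) x y

theorem brM_sub_right (x y y' : Fin 12 → WittVector p k) :
    brM t q x (y - y') = brM t q x y - brM t q x y' :=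
  br_sub_right (M := modM p k t q) x y y'

theorem brM_V (x y : Fin 12 → WittVector p k) :
    brM t q (modV p k t q x) y = brM t q x (modF p k t q y) := br_V (M := modM p k t q) x y

theorem brM_F (x y : Fin 12 → WittVector p k) :
    brM t q (modF p k t q x) y = brM t q x (modV p k t q y) := br_F (M := modM p k t q) x y

theorem brM_V_iter (n : ℕ) (x y : Fin 12 → WittVector p k) :
    brM t q ((modV p k t q)^[n] x) y = brM t q x ((modF p k t q)^[n] y) :=
  br_V_iter (M := modM p k t q) n x y

theorem brM_F_iter (n : ℕ) (x y : Fin 12 → WittVector p k) :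
    brM t q ((modF p k t q)^[n] x) y = brM t q x ((modV p k t q)^[n] y) :=
  br_F_iter (M := modM p k t q) n x y

theorem brM_sum_right {ι : Type} (s : Finset ι) (x : Fin 12 → WittVector p k)
    (f : ι → Fin 12 → WittVector p k) :
    brM t q x (∑ i ∈ s, f i) = ∑ i ∈ s, brM t q x (f i) :=
  br_sum_right (M := modM p k t q) s x f

theorem UU_induction {P : (UU p k t q).carrier → Prop} (h0 : P 0)
    (hadd : ∀ a b, P a → P b → P (a + b))
    (hw : ∀ x y : Fin 12 → WittVector p k, P (brM t q x y)) (z : (UU p k t q).carrier) : P z :=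
  U_induction (M := modM p k t q) h0 hadd hw z

theorem sb_eq_smul (i : Fin 12) (c : WittVector p k) :
    (sb i c : Fin 12 → WittVector p k) = c • sb i 1 := by
  rw [sb_smul, mul_one]

/-- `c ↦ [e, c e_i]`. -/
noncomputable def hh (t q : ℕ) (i : Fin 12) : WittVector p k →+ (UU p k t q).carrier :=
  AddMonoidHom.mk' (fun c => brM t q (sb 6 1) (sb i c)) (by
    intro a b
    rw [sb_add, brM_add_right])

theorem hh_apply (i : Fin 12) (c : WittVector p k) :
    hh t q i c = brM t q (sb 6 1) (sb i c) := rfl

theorem hh_6 (c : WittVector p k) : hh t q 6 c = 0 := by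
  rw [hh_apply, sb_eq_smul 6 c, ← brM_smul, brM_smul_self]

/-- Common computation: `[e, V^n (c e)] = -[e, c F^n e]`. -/
theorem brM_e_V (n : ℕ) (c : WittVector p k) :
    brM t q (sb 6 1) ((modV p k t q)^[n] (sb 6 c))
      = - brM t q (sb 6 1) (c • (modF p k t q)^[n] (sb 6 1)) := by
  rw [← brM_F_iter, sb_eq_smul 6 c, ← brM_smul, brM_antisymm]

/-- Every element of `U` is of the form `[e, z]`. -/
theorem exists_br_e (x y : Fin 12 → WittVector p k) :
    ∃ z, brM t q x y = brM t q (sb 6 1) z := by
  -- first for multiples of basis vectors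
  have h1 : ∀ (i : Fin 12) (a : WittVector p k), ∃ z, brM t q (sb i a) y = brM t q (sb 6 1) z := by
    intro i a
    have hV : ∀ (n : ℕ) (b : WittVector p k), (modV p k t q)^[n] (sb 6 b) = sb i a →
        ∃ z, brM t q (sb i a) y = brM t q (sb 6 1) z := by
      intro n b hb
      refine ⟨b • (modF p k t q)^[n] y, ?_⟩
      rw [← hb, brM_V_iter, sb_eq_smul 6 b, brM_smul]
    have hF : ∀ (n : ℕ) (b : WittVector p k), (modF p k t q)^[n] (sb 6 b) = sb i a →
        ∃ z, brM t q (sb i a) y = brM t q (sb 6 1) z := by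
      intro n b hb
      refine ⟨b • (modV p k t q)^[n] y, ?_⟩
      rw [← hb, brM_F_iter, sb_eq_smul 6 b, brM_smul]
    have s : ∀ m n : ℤ, m + n = 0 → sg m (sg n a) = a := by
      intro m n h; rw [sg_sg, h, sg_zero]
    fin_cases i
    · exact hV 6 (sg 6 a) (by rw [itV_6_6, s _ _ (by norm_num)]; rfl)
    · exact hV 5 (sg 5 a) (by rw [itV_6_5, s _ _ (by norm_num)]; rfl)
    · exact hV 4 (sg 4 a) (by rw [itV_6_4, s _ _ (by norm_num)]; rfl)
    · exact hV 3 (sg 3 a) (by rw [itV_6_3, s _ _ (by norm_num)]; rfl)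
    · exact hV 2 (sg 2 a) (by rw [itV_6_2, s _ _ (by norm_num)]; rfl)
    · exact hV 1 (sg 1 a) (by rw [itV_6_1, s _ _ (by norm_num)]; rfl)
    · exact hV 0 a rfl
    · exact hF 1 (sg (-1) a) (by rw [itF_6_1, s _ _ (by norm_num)]; rfl)
    · exact hF 2 (sg (-2) a) (by rw [itF_6_2, s _ _ (by norm_num)]; rfl)
    · exact hF 3 (sg (-3) a) (by rw [itF_6_3, s _ _ (by norm_num)]; rfl)
    · exact hF 4 (sg (-4) a) (by rw [itF_6_4, s _ _ (by norm_num)]; rfl)
    · exact hF 5 (sg (-5) a) (by rw [itF_6_5, s _ _ (by norm_num)]; rfl)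
  choose g hg using h1
  refine ⟨∑ i, g i (x i), ?_⟩
  rw [brM_sum_right]
  have h2 : ∀ s : Finset (Fin 12), brM t q (∑ i ∈ s, sb i (x i)) y
      = ∑ i ∈ s, brM t q (sb 6 1) (g i (x i)) := by
    intro s
    induction s using Finset.induction_on with
    | empty => simp [brM_zero_left]
    | insert a s ha ih => rw [Finset.sum_insert ha, Finset.sum_insert ha, brM_add_left, ih, hg]
  have h3 := h2 Finset.univ
  rw [← sum_sb x] at h3
  exact h3

theorem exists_e (z : (UU p k t q).carrier) : ∃ y, z = brM t q (sb 6 1) y := by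
  induction z using UU_induction with
  | h0 => exact ⟨0, (brM_zero_right _).symm⟩
  | hadd a b ha hb =>
    obtain ⟨y, rfl⟩ := ha
    obtain ⟨y', rfl⟩ := hb
    exact ⟨y + y', (brM_add_right _ _ _).symm⟩
  | hw x y => exact exists_br_e x y

/-- `[e, Θ y] = 0` in the form: if `A = F^6 y`, `B = V^6 y`. -/
theorem theta_rel (n : ℕ) (y : Fin 12 → WittVector p k)
    (h : (modV p k t q)^[n] (sb 6 1) + (q : WittVector p k) • sb 6 1
      + (modF p k t q)^[n] (sb 6 1) = 0) :
    brM t q (sb 6 1) ((modF p k t q)^[n] y) + brM t q (sb 6 1) ((q : WittVector p k) • y)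
      + brM t q (sb 6 1) ((modV p k t q)^[n] y) = 0 := by
  rw [← brM_V_iter, ← brM_F_iter, ← brM_smul, ← brM_add_left, ← brM_add_left, h, brM_zero_left]

end Pool.Agent.UA
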