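import Pool.Agent.Lib.MP_381773_ag.Model

/-!
# Additive endomorphisms of `W(k)` that are surjective modulo `p` are surjective
-/

set_option autoImplicit false
set_option linter.unusedSectionVars false

universe u

namespace Pool.Agent.UA

open WittVector

variable {p : ℕ} [Fact p.Prime] {k : Type u} [Field k] [IsAlgClosed k] [CharP k p]

theorem eq_zero_of_forall_dvd {w : WittVector p k} (h : ∀ n : ℕ, (p : WittVector p k) ^ n ∣ w) :
    w = 0 := by
  ext n
  have h1 : w ∈ Ideal.span {((p : WittVector p k) ^ (n + 1))} := Ideal.mem_span_singleton.mpr (h _)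
  rw [WittVector.mem_span_p_pow_iff_le_coeff_eq_zero] at h1
  rw [h1 n (Nat.lt_succ_self n), WittVector.zero_coeff]

theorem map_p_pow_mul (S : WittVector p k →+ WittVector p k) (n : ℕ) (x : WittVector p k) :
    S ((p : WittVector p k) ^ n * x) = (p : WittVector p k) ^ n * S x := by
  have h1 : (p : WittVector p k) ^ n * x = (p ^ n) • x := by
    rw [nsmul_eq_mul]; push_cast; rfl
  have h2 : (p : WittVector p k) ^ n * S x = (p ^ n) • S x := by
    rw [nsmul_eq_mul]; push_cast; rfl
  rw [h1, h2, map_nsmul]

theorem surjective_of_mod_p (S : WittVector p k →+ WittVector p k)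
    (h : ∀ w, ∃ x w', w = S x + (p : WittVector p k) * w') : Function.Surjective S := by
  intro w
  choose f g hfg using h
  -- the sequence of remainders
  let r : ℕ → WittVector p k := fun n => Nat.rec w (fun _ v => g v) n
  have hr0 : r 0 = w := rfl
  have hrs : ∀ n, r (n + 1) = g (r n) := fun n => rfl
  let X : ℕ → WittVector p k := fun n => ∑ i ∈ Finset.range n, (p : WittVector p k) ^ i * f (r i)
  have hX : ∀ n, w = S (X n) + (p : WittVector p k) ^ n * r n := by
    intro n
    induction n with
    | zero => simp [X, hr0]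
    | succ n ih =>
      have h1 : X (n + 1) = X n + (p : WittVector p k) ^ n * f (r n) := by
        simp only [X]; rw [Finset.sum_range_succ]
      rw [h1, map_add, map_p_pow_mul, hrs]
      calc w = S (X n) + (p : WittVector p k) ^ n * r n := ih
        _ = S (X n) + (p : WittVector p k) ^ n * (S (f (r n)) + (p : WittVector p k) * g (r n)) := by
            rw [← hfg]
        _ = _ := by ring
  have hcauchy : ∀ {m n : ℕ}, m ≤ n → X m ≡ X n [SMOD (Ideal.span {(p : WittVector p k)} ^ m •
      (⊤ : Submodule (WittVector p k) (WittVector p k)))] := by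
    intro m n hmn
    rw [SModEq.sub_mem, Ideal.span_singleton_pow, smul_eq_mul, Ideal.mul_top,
      Ideal.mem_span_singleton]
    have : X m - X n = - ∑ i ∈ Finset.Ico m n, (p : WittVector p k) ^ i * f (r i) := by
      rw [Finset.sum_Ico_eq_sub _ hmn]; simp only [X]; ring
    rw [this]
    refine dvd_neg.mpr (Finset.dvd_sum fun i hi => ?_)
    exact Dvd.dvd.mul_right (pow_dvd_pow _ (Finset.mem_Ico.mp hi).1) _
  obtain ⟨L, hL⟩ := IsPrecomplete.prec
    (IsAdicComplete.toIsPrecomplete (I := Ideal.span {(p : WittVector p k)})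
      (M := WittVector p k)) (f := X) hcauchy
  refine ⟨L, ?_⟩
  have : w - S L = 0 := by
    apply eq_zero_of_forall_dvd
    intro n
    have h1 := hL n
    rw [SModEq.sub_mem, Ideal.span_singleton_pow, smul_eq_mul, Ideal.mul_top,
      Ideal.mem_span_singleton] at h1
    obtain ⟨y, hy⟩ := h1
    have h2 : w - S L = S (X n - L) + (p : WittVector p k) ^ n * r n := by
      rw [map_sub]
      linear_combination hX n
    rw [h2, hy, map_p_pow_mul]
    exact dvd_add (Dvd.intro _ rfl) (Dvd.intro _ rfl)
  exact (sub_eq_zero.mp this).symm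

end Pool.Agent.UA
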