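import Pool.Agent.Lib.MP_381773_ag.Basis
import Pool.Agent.Lib.MP_381773_ag.Surj

/-!
# The pairing `[x,y]`, the class of `x ∧ y` in `U`, and powers of Frobenius
-/

set_option autoImplicit false
set_option linter.unusedSectionVars false

universe u

namespace Pool.Agent.UA

open WittVector

variable {p : ℕ} [Fact p.Prime] {k : Type u} [Field k] [IsAlgClosed k] [CharP k p]

section Wedge
variable {N : Type u} [AddCommGroup N] [Module (WittVector p k) N]

theorem vec2_update0 (x y z : N) : Function.update ![x, y] 0 z = ![z, y] := by
  ext i; fin_cases i <;> simp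

theorem vec2_update1 (x y z : N) : Function.update ![x, y] 1 z = ![x, z] := by
  ext i; fin_cases i <;> simp

theorem wedge_add_left (x x' y : N) :
    wedge p k (x + x') y = wedge p k x y + wedge p k x' y := by
  have := (exteriorPower.ιMulti (WittVector p k) 2 (M := N)).map_update_add ![x, y] 0 x x'
  simp only [vec2_update0] at this
  exact this

theorem wedge_add_right (x y y' : N) :
    wedge p k x (y + y') = wedge p k x y + wedge p k x y' := by
  have := (exteriorPower.ιMulti (WittVector p k) 2 (M := N)).map_update_add ![x, y] 1 y y'
  simp only [vec2_update1] at this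
  exact this

theorem wedge_smul_left (c : WittVector p k) (x y : N) :
    wedge p k (c • x) y = c • wedge p k x y := by
  have := (exteriorPower.ιMulti (WittVector p k) 2 (M := N)).map_update_smul ![x, y] 0 c x
  simp only [vec2_update0] at this
  exact this

theorem wedge_smul_right (c : WittVector p k) (x y : N) :
    wedge p k x (c • y) = c • wedge p k x y := by
  have := (exteriorPower.ιMulti (WittVector p k) 2 (M := N)).map_update_smul ![x, y] 1 c y
  simp only [vec2_update1] at this
  exact this

theorem wedge_self (x : N) : wedge p k x x = 0 :=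
  (exteriorPower.ιMulti (WittVector p k) 2 (M := N)).map_eq_zero_of_eq ![x, x]
    (i := 0) (j := 1) (by simp) (by decide)

theorem wedge_antisymm (x y : N) : wedge p k x y = - wedge p k y x := by
  have h := wedge_self (p := p) (k := k) (x + y)
  rw [wedge_add_left, wedge_add_right, wedge_add_right, wedge_self, wedge_self] at h
  rw [eq_neg_iff_add_eq_zero]
  simpa using h

end Wedge

section Bracket
variable (M : DieudonneModule p k)

/-- The class of `x ∧ y` in `U_{∧² M}`. -/
noncomputable def br (x y : M.carrier) : (U (wedgeSq M)).carrier :=
  QuotientAddGroup.mk (s := boundary (wedgeSq M)) (wedge p k x y)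

variable {M}

theorem br_add_left (x x' y : M.carrier) : br M (x + x') y = br M x y + br M x' y := by
  unfold br; rw [wedge_add_left]; rfl

theorem br_add_right (x y y' : M.carrier) : br M x (y + y') = br M x y + br M x y' := by
  unfold br; rw [wedge_add_right]; rfl

theorem br_smul (c : WittVector p k) (x y : M.carrier) : br M (c • x) y = br M x (c • y) := by
  unfold br; rw [wedge_smul_left, wedge_smul_right]

theorem br_self (x : M.carrier) : br M x x = 0 := by
  unfold br; rw [wedge_self]; rfl

theorem br_smul_self (c : WittVector p k) (x : M.carrier) : br M (c • x) x = 0 := by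
  unfold br; rw [wedge_smul_left, wedge_self, smul_zero]; rfl

theorem br_antisymm (x y : M.carrier) : br M x y = - br M y x := by
  unfold br; rw [wedge_antisymm x y]; rfl

theorem br_zero_right (x : M.carrier) : br M x 0 = 0 := by
  have := br_add_right x 0 0
  rw [add_zero] at this
  exact left_eq_add.mp this

theorem br_zero_left (x : M.carrier) : br M 0 x = 0 := by
  rw [br_antisymm, br_zero_right, neg_zero]

theorem br_neg_right (x y : M.carrier) : br M x (-y) = - br M x y := by
  rw [eq_neg_iff_add_eq_zero, ← br_add_right, neg_add_cancel, br_zero_right]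

theorem br_neg_left (x y : M.carrier) : br M (-x) y = - br M x y := by
  rw [br_antisymm (-x) y, br_neg_right, ← br_antisymm x y]

theorem br_sub_right (x y y' : M.carrier) : br M x (y - y') = br M x y - br M x y' := by
  rw [sub_eq_add_neg, br_add_right, br_neg_right, ← sub_eq_add_neg]

theorem br_V (x y : M.carrier) : br M (M.V x) y = br M x (M.F y) := by
  refine (QuotientAddGroup.eq (s := boundary (wedgeSq M))).mpr ?_
  refine ⟨wedge p k (M.V x) y, wedge p k x (M.F y), ?_, by abel⟩
  change extMap (frob p k) 2 M.F (wedge p k (M.V x) y) = _
  rw [extMap_wedge, M.FV, wedge_smul_left]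
  rfl

theorem br_F (x y : M.carrier) : br M (M.F x) y = br M x (M.V y) := by
  rw [br_antisymm (M.F x) y, ← br_V, br_antisymm (M.V y) x, neg_neg]

theorem br_V_iter (n : ℕ) (x y : M.carrier) : br M (M.V^[n] x) y = br M x (M.F^[n] y) := by
  induction n generalizing y with
  | zero => rfl
  | succ n ih =>
    rw [Function.iterate_succ_apply', br_V, ih, ← Function.iterate_succ_apply]

theorem br_F_iter (n : ℕ) (x y : M.carrier) : br M (M.F^[n] x) y = br M x (M.V^[n] y) := by
  induction n generalizing y with
  | zero => rfl
  | succ n ih =>
    rw [Function.iterate_succ_apply', br_F, ih, ← Function.iterate_succ_apply]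

theorem br_sum_right {ι : Type} (s : Finset ι) (x : M.carrier) (f : ι → M.carrier) :
    br M x (∑ i ∈ s, f i) = ∑ i ∈ s, br M x (f i) := by
  classical
  induction s using Finset.induction_on with
  | empty => simp [br_zero_right]
  | insert a s ha ih => rw [Finset.sum_insert ha, Finset.sum_insert ha, br_add_right, ih]

theorem U_induction {P : (U (wedgeSq M)).carrier → Prop} (h0 : P 0)
    (hadd : ∀ a b, P a → P b → P (a + b)) (hw : ∀ x y, P (br M x y))
    (z : (U (wedgeSq M)).carrier) : P z := by
  obtain ⟨z, rfl⟩ := QuotientAddGroup.mk_surjective z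
  have := wedge_induction (p := p) (k := k) (N := M.carrier)
    (P := fun z => P (QuotientAddGroup.mk (s := boundary (wedgeSq M)) z)) h0
    (fun a b ha hb => hadd _ _ ha hb) hw
  exact this z

end Bracket

section Sigma

/-- The power `σ^n`, `n ∈ ℤ`, of the Frobenius lift of `W(k)`. -/
noncomputable def sg (n : ℤ) : WittVector p k →+* WittVector p k :=
  (((WittVector.frobeniusEquiv p k : RingAut (WittVector p k)) ^ n : RingAut (WittVector p k)) :
    WittVector p k →+* WittVector p k)

theorem sg_sg (m n : ℤ) (c : WittVector p k) : sg m (sg n c) = sg (m + n) c := by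
  unfold sg
  rw [zpow_add]; rfl

theorem sg_zero (c : WittVector p k) : sg 0 c = c := by
  unfold sg
  rw [zpow_zero]; rfl

theorem sg_one (c : WittVector p k) : sg 1 c = frob p k c := by
  unfold sg
  rw [zpow_one]; rfl

theorem sg_neg_one (c : WittVector p k) : sg (-1) c = frobInv p k c := by
  unfold sg
  rw [zpow_neg_one]; rfl

theorem frob_eq (c : WittVector p k) : frob p k c = sg 1 c := (sg_one c).symm

theorem frobInv_eq (c : WittVector p k) : frobInv p k c = sg (-1) c := (sg_neg_one c).symm

end Sigma

end Pool.Agent.UA
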