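import Mathlib

/-!
# Definitions for problem MP_381773_ag

Throughout, `k` is an algebraically closed field of characteristic `p` and `W = WittVector p k`.

* `FCrystal`, `DieudonneModule`: F-crystals and (contravariant) Dieudonne modules over `W`.
* `DieudonneModule.aNumber`, `DieudonneModule.HasNewtonPolygon`, `IsAbelianNewtonPolygon`.
* `wedgeSq M`: the F-crystal `∧² M` with `F(x ∧ y) = F x ∧ F y`.
* `FunGroup`: a commutative group together with a `k`-algebra of `k`-valued functions on it.  A
  quasi-algebraic (or pro-algebraic) group `G` in Serre's sense is determined by the pair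
  (group `G(k)`, algebra of regular functions `G(k) → k`), and this is how we record it.
* `U L`: the cokernel of `F/p - 1 : F¹_N(L) → L`, as such a pair.
* `Isogenous`: linked by a chain of surjective homomorphisms with finite kernel.
-/

set_option autoImplicit false

universe u

namespace Pool.Agent.UA

open WittVector

/-! ### Semilinear maps and exterior powers -/

section Exterior

/-- The module `N` with scalars acting through the ring endomorphism `σ`. -/
def Tw {R : Type u} [CommRing R] (_σ : R →+* R) (N : Type u) : Type u := N

instance {R : Type u} [CommRing R] (σ : R →+* R) (N : Type u) [AddCommGroup N] :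
    AddCommGroup (Tw σ N) := inferInstanceAs (AddCommGroup N)

instance {R : Type u} [CommRing R] (σ : R →+* R) (N : Type u) [AddCommGroup N] [Module R N] :
    Module R (Tw σ N) := Module.compHom N σ

variable {R : Type u} [CommRing R] (σ : R →+* R) {M : Type u} [AddCommGroup M] [Module R M]

theorem comp_update {n : ℕ} (f : M →ₛₗ[σ] M) (v : Fin n → M) (i : Fin n) (z : M) :
    (fun j => f (Function.update v i z j)) = Function.update (fun j => f (v j)) i (f z) := by
  ext j
  by_cases hj : j = i
  · subst hj; simp
  · simp [Function.update_of_ne hj]

/-- `v ↦ f v₁ ∧ ... ∧ f vₙ` as an alternating map to the twisted exterior power. -/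
noncomputable def twAlt (n : ℕ) (f : M →ₛₗ[σ] M) :
    M [⋀^Fin n]→ₗ[R] Tw σ (⋀[R]^n M) where
  toFun v := (exteriorPower.ιMulti R n (fun i => f (v i)) : ⋀[R]^n M)
  map_update_add' := by
    intro inst v i x y
    obtain rfl : inst = instDecidableEqFin n := Subsingleton.elim _ _
    have h1 := (exteriorPower.ιMulti R n (M := M)).map_update_add (fun j => f (v j)) i (f x) (f y)
    have h2 : exteriorPower.ιMulti R n (fun j => f (Function.update v i (x + y) j))
        = exteriorPower.ιMulti R n (fun j => f (Function.update v i x j))
        + exteriorPower.ιMulti R n (fun j => f (Function.update v i y j)) := by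
      rw [comp_update, comp_update, comp_update, map_add, h1]
    exact h2
  map_update_smul' := by
    intro inst v i c x
    obtain rfl : inst = instDecidableEqFin n := Subsingleton.elim _ _
    have h1 := (exteriorPower.ιMulti R n (M := M)).map_update_smul
      (fun j => f (v j)) i (σ c) (f x)
    have h2 : exteriorPower.ιMulti R n (fun j => f (Function.update v i (c • x) j))
        = σ c • exteriorPower.ιMulti R n (fun j => f (Function.update v i x j)) := by
      rw [comp_update, comp_update, LinearMap.map_smulₛₗ, h1]
    exact h2
  map_eq_zero_of_eq' := by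
    intro v i j hij hne
    exact (exteriorPower.ιMulti R n (M := M)).map_eq_zero_of_eq (fun j => f (v j))
      (by simp [hij]) hne

/-- The `σ`-linear endomorphism `∧ⁿ f` of `∧ⁿ M` induced by a `σ`-linear `f : M → M`. -/
noncomputable def extMap (n : ℕ) (f : M →ₛₗ[σ] M) : ⋀[R]^n M →ₛₗ[σ] ⋀[R]^n M where
  toFun := exteriorPower.alternatingMapLinearEquiv (twAlt σ n f)
  map_add' x y := map_add (exteriorPower.alternatingMapLinearEquiv (twAlt σ n f)) x y
  map_smul' c x := map_smul (exteriorPower.alternatingMapLinearEquiv (twAlt σ n f)) c x

theorem extMap_ιMulti (n : ℕ) (f : M →ₛₗ[σ] M) (v : Fin n → M) :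
    extMap σ n f (exteriorPower.ιMulti R n v) = exteriorPower.ιMulti R n (fun i => f (v i)) :=
  exteriorPower.alternatingMapLinearEquiv_apply_ιMulti (twAlt σ n f) v

end Exterior

/-! ### F-crystals and Dieudonne modules -/

section Crystals

variable (p : ℕ) [Fact p.Prime] (k : Type u) [Field k] [IsAlgClosed k] [CharP k p]

/-- The Frobenius lift `σ` of `W(k)`. -/
noncomputable abbrev frob : WittVector p k →+* WittVector p k := WittVector.frobenius

/-- The inverse `σ⁻¹` of the Frobenius lift of `W(k)` (the field `k` is perfect). -/
noncomputable abbrev frobInv : WittVector p k →+* WittVector p k :=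
  ((WittVector.frobeniusEquiv p k).symm : WittVector p k →+* WittVector p k)

/-- An F-crystal: a finitely generated free `W(k)`-module with an injective
`σ`-linear endomorphism `F`. -/
structure FCrystal where
  carrier : Type u
  [grp : AddCommGroup carrier]
  [mod : Module (WittVector p k) carrier]
  [free : Module.Free (WittVector p k) carrier]
  [fin : Module.Finite (WittVector p k) carrier]
  F : carrier →ₛₗ[frob p k] carrier
  F_injective : Function.Injective F

attribute [instance] FCrystal.grp FCrystal.mod FCrystal.free FCrystal.fin

/-- A (contravariant) Dieudonne module: a finitely generated free `W(k)`-module with a `σ`-linear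
`F` and a `σ⁻¹`-linear `V` such that `FV = VF = p`.  This is the structure carried by
`H¹_cris(A/W)` for an abelian variety `A` over `k`. -/
structure DieudonneModule where
  carrier : Type u
  [grp : AddCommGroup carrier]
  [mod : Module (WittVector p k) carrier]
  [free : Module.Free (WittVector p k) carrier]
  [fin : Module.Finite (WittVector p k) carrier]
  F : carrier →ₛₗ[frob p k] carrier
  V : carrier →ₛₗ[frobInv p k] carrier
  FV : ∀ x, F (V x) = (p : WittVector p k) • x
  VF : ∀ x, V (F x) = (p : WittVector p k) • x

attribute [instance] DieudonneModule.grp DieudonneModule.mod DieudonneModule.free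
  DieudonneModule.fin

variable {p k}

/-- The rank of a Dieudonne module (equal to `2 g` for an abelian variety of dimension `g`). -/
noncomputable def DieudonneModule.rank (M : DieudonneModule p k) : ℕ :=
  Module.finrank (WittVector p k) M.carrier

/-- The `a`-number `dim_k M/(FM + VM)`: the quotient is killed by `p`, and its dimension over
`k = W/p` is its length over `W`. -/
noncomputable def DieudonneModule.aNumber (M : DieudonneModule p k) : ℕ∞ :=
  Module.length (WittVector p k)
    (M.carrier ⧸ Submodule.span (WittVector p k) (Set.range M.F ∪ Set.range M.V))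

/-- `M` has Newton polygon with slopes `λ` of multiplicity `ν λ`: up to `p`-power index, `M` is the
direct sum of `F`-stable submodules `N λ` of rank `ν λ`, where `N λ` is isoclinic of slope
`λ = r/s` in the strong sense that `F^s (N λ) = p^r (N λ)`. -/
def DieudonneModule.HasNewtonPolygon (M : DieudonneModule p k) (ν : ℚ →₀ ℕ) : Prop :=
  ∃ N : ℚ → Submodule (WittVector p k) M.carrier,
    (∀ l, ∀ x ∈ N l, M.F x ∈ N l) ∧
    iSupIndep N ∧
    (∃ c : ℕ, ∀ x : M.carrier, ((p : WittVector p k) ^ c) • x ∈ ⨆ l, N l) ∧
    (∀ l, Module.finrank (WittVector p k) (N l) = ν l) ∧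
    (∀ l, ν l ≠ 0 → ∃ r s : ℕ, 0 < s ∧ l = (r : ℚ) / (s : ℚ) ∧
      (∀ x ∈ N l, ∃ y ∈ N l, M.F^[s] x = ((p : WittVector p k) ^ r) • y) ∧
      (∀ y ∈ N l, ∃ x ∈ N l, M.F^[s] x = ((p : WittVector p k) ^ r) • y))

/-- `ν` is the Newton polygon of a `g`-dimensional abelian variety: slopes in `[0,1]`, symmetric
under `λ ↦ 1 - λ`, total multiplicity `2 g`, integral break points.  (By the theorem of Serre
and Honda, conjectured by Manin, these are exactly the Newton polygons of abelian varieties.) -/
def IsAbelianNewtonPolygon (g : ℕ) (ν : ℚ →₀ ℕ) : Prop :=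
  (∀ l ∈ ν.support, 0 ≤ l ∧ l ≤ 1) ∧ (∀ l, ν l = ν (1 - l)) ∧
    (ν.sum fun _ m => m) = 2 * g ∧ (∀ l, ∃ n : ℤ, l * (ν l : ℚ) = n)

theorem natp_smul_cancel {N : Type u} [AddCommGroup N] [Module (WittVector p k) N]
    [Module.Free (WittVector p k) N] {x : N} {n : ℕ}
    (h : ((p : WittVector p k) ^ n) • x = 0) : x = 0 := by
  have hp : ((p : WittVector p k) ^ n) ≠ 0 := pow_ne_zero _ (WittVector.p_nonzero p k)
  exact (smul_eq_zero.mp h).resolve_left hp

/-- The exterior square `x ∧ y`. -/
noncomputable def wedge (p : ℕ) [Fact p.Prime] (k : Type u) [Field k] {N : Type u}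
    [AddCommGroup N] [Module (WittVector p k) N] (x y : N) : ⋀[WittVector p k]^2 N :=
  exteriorPower.ιMulti (WittVector p k) 2 ![x, y]

theorem extMap_wedge {N : Type u} [AddCommGroup N] [Module (WittVector p k) N]
    (σ : WittVector p k →+* WittVector p k) (f : N →ₛₗ[σ] N) (x y : N) :
    extMap σ 2 f (wedge p k x y) = wedge p k (f x) (f y) := by
  unfold wedge
  rw [extMap_ιMulti]
  congr 1
  ext i
  fin_cases i <;> rfl

theorem wedge_induction {N : Type u} [AddCommGroup N] [Module (WittVector p k) N]
    {P : (⋀[WittVector p k]^2 N) → Prop} (h0 : P 0) (hadd : ∀ a b, P a → P b → P (a + b))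
    (hw : ∀ x y, P (wedge p k x y)) (z : ⋀[WittVector p k]^2 N) : P z := by
  have hz : z ∈ Submodule.span (WittVector p k)
      (Set.range (exteriorPower.ιMulti (WittVector p k) 2 (M := N))) := by
    rw [exteriorPower.ιMulti_span]; trivial
  induction hz using Submodule.closure_induction with
  | zero => exact h0
  | add a b _ _ ha hb => exact hadd a b ha hb
  | smul_mem c x hx =>
    obtain ⟨v, rfl⟩ := hx
    have : c • exteriorPower.ιMulti (WittVector p k) 2 v = wedge p k (c • v 0) (v 1) := by
      unfold wedge
      have h1 := (exteriorPower.ιMulti (WittVector p k) 2 (M := N)).map_update_smul v 0 c (v 0)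
      rw [Function.update_eq_self] at h1
      rw [← h1]
      congr 1
      ext i
      fin_cases i <;> simp
    rw [this]
    exact hw _ _

theorem extMap_injective (M : DieudonneModule p k) :
    Function.Injective (extMap (frob p k) 2 M.F) := by
  rw [injective_iff_map_eq_zero]
  intro z hz
  have key : ∀ z : ⋀[WittVector p k]^2 M.carrier,
      extMap (frobInv p k) 2 M.V (extMap (frob p k) 2 M.F z) = ((p : WittVector p k) ^ 2) • z := by
    intro z
    induction z using wedge_induction with
    | h0 => simp
    | hadd a b ha hb => simp only [map_add, ha, hb, smul_add]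
    | hw x y =>
      rw [extMap_wedge, extMap_wedge, M.VF, M.VF]
      unfold wedge
      have h1 := (exteriorPower.ιMulti (WittVector p k) 2 (M := M.carrier)).map_smul_univ
        (fun _ => (p : WittVector p k)) ![x, y]
      simp only [Finset.prod_const, Finset.card_univ, Fintype.card_fin] at h1
      rw [← h1]
      congr 1
      ext i
      fin_cases i <;> simp
  have := key z
  rw [hz, map_zero] at this
  exact natp_smul_cancel this.symm

/-- The F-crystal `∧² M`, with `F(x ∧ y) = F x ∧ F y`. -/
noncomputable def wedgeSq (M : DieudonneModule p k) : FCrystal p k where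
  carrier := ⋀[WittVector p k]^2 M.carrier
  F := extMap (frob p k) 2 M.F
  F_injective := extMap_injective M

end Crystals

/-! ### Groups with functions, `U_L`, isogenies -/

section Groups

/-- A commutative group with a `k`-algebra of functions.  A quasi-algebraic or pro-algebraic group
`G` over the algebraically closed field `k`, in Serre's sense, is recorded by its group of points
`G(k)` and its algebra of regular functions `G(k) → k`. -/
structure FunGroup (k : Type u) [Field k] where
  carrier : Type u
  [grp : AddCommGroup carrier]
  reg : Subalgebra k (carrier → k)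

attribute [instance] FunGroup.grp

/-- One isogeny `G → H`: a surjective homomorphism of groups `φ : G(k) → H(k)` with finite kernel
such that the regular functions of `H` are exactly the functions whose pull-back along `φ` is
regular on `G` (that is, `φ` is a morphism and it identifies `H` with the quotient of `G`
by `ker φ`; for quasi-algebraic groups in Serre's sense the second part is automatic). -/
def IsogenyStep {k : Type u} [Field k] (G H : FunGroup k) : Prop :=
  ∃ φ : G.carrier →+ H.carrier, Function.Surjective φ ∧ (φ.ker : Set G.carrier).Finite ∧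
    ∀ f : H.carrier → k, f ∈ H.reg ↔ f ∘ φ ∈ G.reg

/-- Two groups are isogenous if they are linked by a chain of surjective homomorphisms with finite
kernel, in either direction. -/
def Isogenous {k : Type u} [Field k] (G H : FunGroup k) : Prop :=
  Relation.EqvGen IsogenyStep G H

variable {p : ℕ} [Fact p.Prime] {k : Type u} [Field k] [IsAlgClosed k] [CharP k p]

/-- The regular functions on the pro-algebraic group of points `L ≅ W(k)^r`: the `k`-algebra
generated by the `p^m`-th roots of the Witt components of the `W`-linear forms on `L`. -/
def regularFunctions (p : ℕ) [Fact p.Prime] {k : Type u} [Field k] [IsAlgClosed k] [CharP k p]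
    (L : Type u) [AddCommGroup L] [Module (WittVector p k) L] : Subalgebra k (L → k) :=
  Algebra.adjoin k {f | ∃ (l : L →ₗ[WittVector p k] WittVector p k) (n m : ℕ),
    ∀ x, f x ^ p ^ m = (l x).coeff n}

/-- The image of `F/p - 1 : F¹_N(L) → L`, where `F¹_N(L) = {x ∈ L : p ∣ F x}`. -/
def boundary (L : FCrystal p k) : AddSubgroup L.carrier where
  carrier := {y | ∃ x z : L.carrier, L.F x = (p : WittVector p k) • z ∧ y = z - x}
  zero_mem' := ⟨0, 0, by simp, by simp⟩
  add_mem' := by
    rintro a b ⟨x, z, h, rfl⟩ ⟨x', z', h', rfl⟩
    exact ⟨x + x', z + z', by rw [map_add, h, h', smul_add], by abel⟩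
  neg_mem' := by
    rintro a ⟨x, z, h, rfl⟩
    exact ⟨-x, -z, by rw [map_neg, h, smul_neg], by abel⟩

/-- The quasi-algebraic group `U_L`, the cokernel of `F/p - 1 : F¹_N(L) → L`: its points are the
quotient group, its regular functions are the functions whose pull-back to `L` is regular. -/
def U (L : FCrystal p k) : FunGroup k where
  carrier := L.carrier ⧸ boundary L
  reg :=
    { carrier := {f | (fun x : L.carrier => f (QuotientAddGroup.mk x)) ∈
        regularFunctions p L.carrier}
      mul_mem' := fun {_ _} ha hb => (regularFunctions p L.carrier).mul_mem ha hb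
      add_mem' := fun {_ _} ha hb => (regularFunctions p L.carrier).add_mem ha hb
      algebraMap_mem' := fun r => (regularFunctions p L.carrier).algebraMap_mem r }

end Groups

end Pool.Agent.UA
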