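import Pool.Agent.Lib.MP_381773_ag.Surj

/-!
# An isogeny invariant: two independent `W₃`-valued characters
-/

set_option autoImplicit false
set_option linter.unusedSectionVars false

universe u

namespace Pool.Agent.UA

open WittVector

variable {p : ℕ} [Fact p.Prime] {k : Type u} [Field k] [IsAlgClosed k] [CharP k p]

section Reg
variable {X : Type u} (A : Subalgebra k (X → k))

/-- All Witt components of `x : X → W(k)` belong to the algebra `A`. -/
def RegW (x : X → WittVector p k) : Prop := ∀ n, (fun g => (x g).coeff n) ∈ A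

theorem peval_mem {m : ℕ} (P : MvPolynomial (Fin m × ℕ) ℤ) (a : X → Fin m → ℕ → k)
    (ha : ∀ i n, (fun g => a g i n) ∈ A) : (fun g => WittVector.peval P (a g)) ∈ A := by
  induction P using MvPolynomial.induction_on with
  | C z =>
    have : (fun g : X => WittVector.peval (MvPolynomial.C z) (a g)) = ((z : ℤ) : X → k) := by
      ext g
      unfold WittVector.peval
      rw [MvPolynomial.aeval_C]
      simp
    rw [this]
    exact intCast_mem A z
  | add P Q hP hQ =>
    have : (fun g : X => WittVector.peval (P + Q) (a g))
        = (fun g => WittVector.peval P (a g)) + fun g => WittVector.peval Q (a g) := by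
      ext g
      unfold WittVector.peval
      rw [map_add]; rfl
    rw [this]
    exact A.add_mem hP hQ
  | mul_X P i hP =>
    have : (fun g : X => WittVector.peval (P * MvPolynomial.X i) (a g))
        = (fun g => WittVector.peval P (a g)) * fun g => a g i.1 i.2 := by
      ext g
      unfold WittVector.peval
      rw [map_mul, MvPolynomial.aeval_X]; rfl
    rw [this]
    exact A.mul_mem hP (ha i.1 i.2)

variable {A}

theorem RegW.frob {x : X → WittVector p k} (hx : RegW A x) :
    RegW A (fun g => Pool.Agent.UA.frob p k (x g)) := by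
  intro n
  have : (fun g => (Pool.Agent.UA.frob p k (x g)).coeff n) = (fun g => (x g).coeff n) ^ p := by
    ext g
    change (WittVector.frobenius (x g)).coeff n = (x g).coeff n ^ p
    rw [WittVector.coeff_frobenius_charP]
  rw [this]
  exact A.pow_mem (hx n) p

theorem RegW.const (a : WittVector p k) : RegW A (fun _ => a) := fun n =>
  A.algebraMap_mem (a.coeff n)

theorem regW_aux {x y : X → WittVector p k} (hx : RegW A x) (hy : RegW A y) (i : Fin 2) (n : ℕ) :
    (fun g => (![(x g).coeff, (y g).coeff] : Fin 2 → ℕ → k) i n) ∈ A := by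
  fin_cases i
  · exact hx n
  · exact hy n

theorem RegW.mul {x y : X → WittVector p k} (hx : RegW A x) (hy : RegW A y) :
    RegW A (fun g => x g * y g) := by
  intro n
  have : (fun g => (x g * y g).coeff n)
      = fun g => WittVector.peval (WittVector.wittMul p n) ![(x g).coeff, (y g).coeff] := by
    ext g; exact WittVector.mul_coeff _ _ _
  rw [this]
  exact peval_mem A _ _ (regW_aux hx hy)

theorem RegW.sub {x y : X → WittVector p k} (hx : RegW A x) (hy : RegW A y) :
    RegW A (fun g => x g - y g) := by
  intro n
  have : (fun g => (x g - y g).coeff n)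
      = fun g => WittVector.peval (WittVector.wittSub p n) ![(x g).coeff, (y g).coeff] := by
    ext g; exact WittVector.sub_coeff _ _ _
  rw [this]
  exact peval_mem A _ _ (regW_aux hx hy)

theorem RegW.add {x y : X → WittVector p k} (hx : RegW A x) (hy : RegW A y) :
    RegW A (fun g => x g + y g) := by
  intro n
  have : (fun g => (x g + y g).coeff n)
      = fun g => WittVector.peval (WittVector.wittAdd p n) ![(x g).coeff, (y g).coeff] := by
    ext g; exact WittVector.add_coeff _ _ _
  rw [this]
  exact peval_mem A _ _ (regW_aux hx hy)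

end Reg

/-- The operators obtained by composing operators `σ - a`. -/
inductive IsOp : (WittVector p k →+ WittVector p k) → Prop
  | id : IsOp (AddMonoidHom.id _)
  | step (a : WittVector p k) (e : WittVector p k →+ WittVector p k) (he : IsOp e) :
      IsOp (AddMonoidHom.mk' (fun w => frob p k (e w) - a * e w)
        (by intro x y; simp only [map_add]; ring))

theorem IsOp.regW {X : Type u} {A : Subalgebra k (X → k)} {e : WittVector p k →+ WittVector p k}
    (he : IsOp e) {x : X → WittVector p k} (hx : RegW A x) : RegW A (fun g => e (x g)) := by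
  induction he with
  | id => exact hx
  | step a e _ ih => exact ih.frob.sub ((RegW.const a).mul ih)

theorem sub_coeff_zero' (a b : WittVector p k) : (a - b).coeff 0 = a.coeff 0 - b.coeff 0 := by
  change WittVector.constantCoeff (a - b) = _
  rw [map_sub]; rfl

theorem IsOp.coeff_zero {e : WittVector p k →+ WittVector p k} (he : IsOp e) :
    ∃ Q : Polynomial k, 0 < Q.natDegree ∧ ∀ w, (e w).coeff 0 = Q.eval (w.coeff 0) := by
  induction he with
  | id => exact ⟨Polynomial.X, by simp, fun w => by simp⟩
  | step a e _ ih =>
    obtain ⟨Q, hQ, hw⟩ := ih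
    have hp : 1 < p := (Fact.out : p.Prime).one_lt
    have hd : (Polynomial.X ^ p - Polynomial.C (a.coeff 0) * Polynomial.X :
        Polynomial k).natDegree = p := by
      have hlt : (-(Polynomial.C (a.coeff 0) * Polynomial.X) : Polynomial k).degree
          < (Polynomial.X ^ p : Polynomial k).degree := by
        rw [Polynomial.degree_neg, Polynomial.degree_X_pow]
        refine lt_of_le_of_lt (Polynomial.degree_C_mul_X_le _) ?_
        exact_mod_cast hp
      rw [sub_eq_add_neg]
      apply Polynomial.natDegree_eq_of_degree_eq_some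
      rw [Polynomial.degree_add_eq_left_of_degree_lt hlt, Polynomial.degree_X_pow]
    refine ⟨(Polynomial.X ^ p - Polynomial.C (a.coeff 0) * Polynomial.X).comp Q, ?_, ?_⟩
    · rw [Polynomial.natDegree_comp, hd]
      exact Nat.mul_pos (by omega) hQ
    · intro w
      change (frob p k (e w) - a * e w).coeff 0 = _
      rw [sub_coeff_zero', WittVector.coeff_frobenius_charP, WittVector.mul_coeff_zero, hw,
        Polynomial.eval_comp]
      simp

theorem exists_op_kill (S : Set (WittVector p k)) (hS : S.Finite) :
    ∃ e : WittVector p k →+ WittVector p k, IsOp e ∧ ∀ s ∈ S, e s = 0 := by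
  induction S, hS using Set.Finite.induction_on with
  | empty => exact ⟨_, IsOp.id, by simp⟩
  | insert _ _ ih =>
    rename_i s S _ _
    obtain ⟨e, he, hk⟩ := ih
    by_cases hs : e s = 0
    · refine ⟨e, he, ?_⟩
      rintro x (rfl | hx)
      · exact hs
      · exact hk x hx
    · obtain ⟨m, b, hb0, hb⟩ := WittVector.exists_eq_pow_p_mul (e s) hs
      obtain ⟨b', hb'⟩ := (WittVector.isUnit_of_coeff_zero_ne_zero b hb0).exists_left_inv
      refine ⟨_, IsOp.step (frob p k b * b') e he, ?_⟩
      rintro x (rfl | hx)
      · change frob p k (e x) - frob p k b * b' * e x = 0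
        rw [hb, map_mul, map_pow, map_natCast]
        linear_combination (-(frob p k b * (p : WittVector p k) ^ m)) * hb'
      · change frob p k (e x) - frob p k b * b' * e x = 0
        rw [hk x hx, map_zero, mul_zero, sub_zero]

/-- `G` has two characters with values in `W/p³` whose reductions modulo `p` are algebraically
independent. -/
def HasTwo (p : ℕ) [Fact p.Prime] {k : Type u} [Field k] [IsAlgClosed k] [CharP k p]
    (G : FunGroup k) : Prop :=
  ∃ χ : Fin 2 → G.carrier → WittVector p k,
    (∀ i, RegW G.reg (χ i)) ∧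
    (∀ i x y, (p : WittVector p k) ^ 3 ∣ χ i (x + y) - χ i x - χ i y) ∧
    (∀ P : MvPolynomial (Fin 2) k,
      (∀ x, MvPolynomial.eval (fun i => (χ i x).coeff 0) P = 0) → P = 0)

theorem coeff_eq_of_dvd {a b : WittVector p k} {n : ℕ} (h : (p : WittVector p k) ^ n ∣ a - b)
    {m : ℕ} (hm : m < n) : a.coeff m = b.coeff m := by
  have h1 : ∀ i < n, (a - b).coeff i = 0 :=
    (WittVector.mem_span_p_pow_iff_le_coeff_eq_zero _ _).mp (Ideal.mem_span_singleton.mpr h)
  exact (WittVector.le_coeff_eq_iff_le_sub_coeff_eq_zero.mpr h1) m hm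

theorem dvd_of_coeff_eq {a b : WittVector p k} {n : ℕ} (h : ∀ m < n, a.coeff m = b.coeff m) :
    (p : WittVector p k) ^ n ∣ a - b := by
  have h1 := WittVector.le_coeff_eq_iff_le_sub_coeff_eq_zero.mp h
  exact Ideal.mem_span_singleton.mp
    ((WittVector.mem_span_p_pow_iff_le_coeff_eq_zero _ _).mpr h1)

/-- Truncation of a Witt vector to its first three components. -/
noncomputable def tr3 (w : WittVector p k) : WittVector p k :=
  WittVector.mk p (fun n => if n < 3 then w.coeff n else 0)

theorem tr3_coeff (w : WittVector p k) (n : ℕ) :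
    (tr3 w).coeff n = if n < 3 then w.coeff n else 0 := rfl

theorem tr3_dvd (w : WittVector p k) : (p : WittVector p k) ^ 3 ∣ tr3 w - w :=
  dvd_of_coeff_eq (fun m hm => by rw [tr3_coeff, if_pos hm])

theorem HasTwo.backward {G H : FunGroup k} (h : IsogenyStep G H) (hH : HasTwo p H) :
    HasTwo p G := by
  obtain ⟨φ, hs, _, hreg⟩ := h
  obtain ⟨χ, h1, h2, h3⟩ := hH
  refine ⟨fun i x => χ i (φ x), ?_, ?_, ?_⟩
  · intro i n
    exact (hreg _).mp (h1 i n)
  · intro i x y
    simpa only [map_add] using h2 i (φ x) (φ y)
  · intro P hP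
    apply h3
    intro x
    obtain ⟨g, rfl⟩ := hs x
    exact hP g

theorem HasTwo.forward {G H : FunGroup k} (h : IsogenyStep G H) (hG : HasTwo p G) :
    HasTwo p H := by
  obtain ⟨φ, hs, hfin, hreg⟩ := h
  obtain ⟨χ, h1, h2, h3⟩ := hG
  -- operators killing the values on the kernel
  have hex : ∀ i, ∃ e : WittVector p k →+ WittVector p k, IsOp e ∧
      ∀ ν ∈ φ.ker, e (χ i ν) = 0 := by
    intro i
    obtain ⟨e, he, hk⟩ := exists_op_kill (χ i '' (φ.ker : Set G.carrier)) (hfin.image _)
    exact ⟨e, he, fun ν hν => hk _ ⟨ν, hν, rfl⟩⟩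
  choose e he hk using hex
  choose g hg using hs
  have hdvd : ∀ (i : Fin 2) (w : WittVector p k), (p : WittVector p k) ^ 3 ∣ w →
      (p : WittVector p k) ^ 3 ∣ e i w := by
    rintro i _ ⟨v, rfl⟩
    rw [map_p_pow_mul]
    exact Dvd.intro _ rfl
  -- the key congruence
  have key : ∀ (i : Fin 2) (x y : G.carrier), φ x = φ y →
      (p : WittVector p k) ^ 3 ∣ e i (χ i x) - e i (χ i y) := by
    intro i x y hxy
    have hν : x - y ∈ φ.ker := by
      rw [AddMonoidHom.mem_ker, map_sub, hxy, sub_self]
    have h4 := h2 i (x - y) y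
    rw [sub_add_cancel] at h4
    have h5 := hdvd i _ h4
    rw [map_sub, map_sub, hk i _ hν, sub_zero] at h5
    exact h5
  refine ⟨fun i x => tr3 (e i (χ i (g x))), ?_, ?_, ?_⟩
  · intro i n
    rw [hreg]
    by_cases hn : n < 3
    · have : ((fun x => (tr3 (e i (χ i (g x)))).coeff n) ∘ φ) = fun x => (e i (χ i x)).coeff n := by
        ext x
        change (tr3 (e i (χ i (g (φ x))))).coeff n = _
        rw [tr3_coeff, if_pos hn]
        exact coeff_eq_of_dvd (key i _ _ (hg _)) hn
      rw [this]
      exact (he i).regW (h1 i) n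
    · have : ((fun x => (tr3 (e i (χ i (g x)))).coeff n) ∘ φ) = 0 := by
        ext x
        change (tr3 (e i (χ i (g (φ x))))).coeff n = _
        rw [tr3_coeff, if_neg hn]; rfl
      rw [this]
      exact G.reg.zero_mem
  · intro i x y
    have h4 : (p : WittVector p k) ^ 3 ∣ e i (χ i (g (x + y))) - e i (χ i (g x + g y)) :=
      key i _ _ (by rw [hg, map_add, hg, hg])
    have h5 : (p : WittVector p k) ^ 3 ∣ e i (χ i (g x + g y)) - e i (χ i (g x))
        - e i (χ i (g y)) := by
      have := hdvd i _ (h2 i (g x) (g y))
      rwa [map_sub, map_sub] at this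
    have h6 := tr3_dvd (p := p) (e i (χ i (g (x + y))))
    have h7 := tr3_dvd (p := p) (e i (χ i (g x)))
    have h8 := tr3_dvd (p := p) (e i (χ i (g y)))
    have : tr3 (e i (χ i (g (x + y)))) - tr3 (e i (χ i (g x))) - tr3 (e i (χ i (g y)))
        = (tr3 (e i (χ i (g (x + y)))) - e i (χ i (g (x + y))))
          + (e i (χ i (g (x + y))) - e i (χ i (g x + g y)))
          + (e i (χ i (g x + g y)) - e i (χ i (g x)) - e i (χ i (g y)))
          - (tr3 (e i (χ i (g x))) - e i (χ i (g x)))
          - (tr3 (e i (χ i (g y))) - e i (χ i (g y))) := by ring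
    rw [this]
    exact dvd_sub (dvd_sub (dvd_add (dvd_add h6 h4) h5) h7) h8
  · intro P hP
    choose Q hQd hQ using fun i => (he i).coeff_zero
    have h4 : MvPolynomial.bind₁ (fun i => (Polynomial.aeval (MvPolynomial.X i)) (Q i) :
        Fin 2 → MvPolynomial (Fin 2) k) P = 0 := by
      apply h3
      intro x
      have h5 := hP (φ x)
      have h6 : (fun i => (tr3 (e i (χ i (g (φ x))))).coeff 0)
          = fun i => (Q i).eval ((χ i x).coeff 0) := by
        ext i
        rw [tr3_coeff, if_pos (by norm_num), ← hQ]
        exact coeff_eq_of_dvd (key i _ _ (hg _)) (by norm_num)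
      have h7 : MvPolynomial.eval (fun i => (χ i x).coeff 0)
          (MvPolynomial.bind₁ (fun i => (Polynomial.aeval (MvPolynomial.X i)) (Q i)) P)
          = MvPolynomial.eval (fun i => (Q i).eval ((χ i x).coeff 0)) P := by
        have h8 := MvPolynomial.eval₂Hom_bind₁ (RingHom.id k) (fun i => (χ i x).coeff 0)
          (fun i => (Polynomial.aeval (MvPolynomial.X i)) (Q i)) P
        have h9 : ∀ i : Fin 2, MvPolynomial.eval (fun i => (χ i x).coeff 0)
            ((Polynomial.aeval (MvPolynomial.X i : MvPolynomial (Fin 2) k)) (Q i))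
            = (Q i).eval ((χ i x).coeff 0) := by
          intro i
          rw [Polynomial.aeval_def, Polynomial.hom_eval₂, MvPolynomial.eval_X]
          have : ((MvPolynomial.eval fun i => (χ i x).coeff 0).comp
              (algebraMap k (MvPolynomial (Fin 2) k))) = RingHom.id k := by
            ext a; simp
          rw [this, Polynomial.eval₂_id]
        have h10 : (fun i => MvPolynomial.eval₂Hom (RingHom.id k) (fun i => (χ i x).coeff 0)
            ((Polynomial.aeval (MvPolynomial.X i : MvPolynomial (Fin 2) k)) (Q i)))
            = fun i => (Q i).eval ((χ i x).coeff 0) := funext h9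
        rw [h10] at h8
        exact h8
      rw [h7, ← h6]
      exact h5
    apply MvPolynomial.funext
    intro a
    rw [map_zero]
    have hroot : ∀ i, ∃ x : k, (Q i).eval x = a i := by
      intro i
      obtain ⟨x, hx⟩ := IsAlgClosed.exists_root (Q i - Polynomial.C (a i)) (by
        intro h0
        have : (Q i - Polynomial.C (a i)).natDegree = 0 :=
          Polynomial.natDegree_eq_of_degree_eq_some h0
        rw [Polynomial.natDegree_sub_C] at this
        exact absurd this (hQd i).ne')
      refine ⟨x, ?_⟩
      simpa [Polynomial.IsRoot.def, sub_eq_zero] using hx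
    choose x hx using hroot
    have h11 : MvPolynomial.eval x (MvPolynomial.bind₁
        (fun i => (Polynomial.aeval (MvPolynomial.X i)) (Q i)) P) = MvPolynomial.eval a P := by
      have h8 := MvPolynomial.eval₂Hom_bind₁ (RingHom.id k) x
        (fun i => (Polynomial.aeval (MvPolynomial.X i)) (Q i)) P
      have h9 : ∀ i : Fin 2, MvPolynomial.eval x
          ((Polynomial.aeval (MvPolynomial.X i : MvPolynomial (Fin 2) k)) (Q i)) = a i := by
        intro i
        rw [Polynomial.aeval_def, Polynomial.hom_eval₂, MvPolynomial.eval_X]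
        have : ((MvPolynomial.eval x).comp
            (algebraMap k (MvPolynomial (Fin 2) k))) = RingHom.id k := by
          ext a; simp
        rw [this, Polynomial.eval₂_id, hx]
      have h10 : (fun i => MvPolynomial.eval₂Hom (RingHom.id k) x
          ((Polynomial.aeval (MvPolynomial.X i : MvPolynomial (Fin 2) k)) (Q i))) = a :=
        funext h9
      rw [h10] at h8
      exact h8
    rw [← h11, h4, map_zero]

theorem hasTwo_iff_of_isogenous {G H : FunGroup k} (h : Isogenous G H) :
    HasTwo p G ↔ HasTwo p H := by
  induction h with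
  | rel x y h => exact ⟨HasTwo.forward h, HasTwo.backward h⟩
  | refl x => exact Iff.rfl
  | symm x y _ ih => exact ih.symm
  | trans x y z _ _ ih1 ih2 => exact ih1.trans ih2

end Pool.Agent.UA
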