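import Pool.Agent.Lib.MP_381773_ag.Bracket
import Pool.Agent.Lib.MP_381773_ag.Inv

/-!
# Coordinates on `∧² W^12`, and the description of `F¹_N(∧² M) = VM ∧ M`
-/

set_option autoImplicit false
set_option linter.unusedSectionVars false

universe u

namespace Pool.Agent.UA

open WittVector

variable {p : ℕ} [Fact p.Prime] {k : Type u} [Field k] [IsAlgClosed k] [CharP k p]

/-- The coordinate function `ℓ_{ij}(x ∧ y) = x_i y_j - x_j y_i`. -/
noncomputable def ell (i j : Fin 12) :
    (⋀[WittVector p k]^2 (Fin 12 → WittVector p k)) →ₗ[WittVector p k] WittVector p k :=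
  exteriorPower.pairingDual (WittVector p k) (Fin 12 → WittVector p k) 2
    (exteriorPower.ιMulti (WittVector p k) 2 ![LinearMap.proj i, LinearMap.proj j])

theorem ell_wedge (i j : Fin 12) (x y : Fin 12 → WittVector p k) :
    ell i j (wedge p k x y) = x i * y j - x j * y i := by
  unfold ell wedge
  rw [exteriorPower.pairingDual_ιMulti_ιMulti, Matrix.det_fin_two]
  simp

theorem sum_sum_lt {A : Type u} [AddCommGroup A] (f : Fin 12 → Fin 12 → A) :
    ∑ i, ∑ j, f i j = (∑ i, ∑ j, if i < j then f i j + f j i else 0) + ∑ i, f i i := by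
  have h1 : ∀ i j, f i j = (if i < j then f i j else 0) + (if j < i then f i j else 0)
      + (if i = j then f i j else 0) := by
    intro i j
    rcases lt_trichotomy i j with h | h | h
    · simp [h, h.ne, h.not_gt]
    · subst h; simp
    · simp [h, h.ne', h.not_gt]
  have h2 : ∀ i, ∑ j, f i j = (∑ j, if i < j then f i j else 0)
      + (∑ j, if j < i then f i j else 0) + f i i := by
    intro i
    rw [Finset.sum_congr rfl fun j _ => h1 i j, Finset.sum_add_distrib, Finset.sum_add_distrib]
    congr 1
    simp
  rw [Finset.sum_congr rfl fun i _ => h2 i, Finset.sum_add_distrib, Finset.sum_add_distrib]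
  congr 1
  rw [Finset.sum_comm (f := fun i j => if j < i then f i j else 0), ← Finset.sum_add_distrib]
  refine Finset.sum_congr rfl fun i _ => ?_
  rw [← Finset.sum_add_distrib]
  refine Finset.sum_congr rfl fun j _ => ?_
  split_ifs <;> simp

section Bi
/-- The bi-additive form `∑ B_ij (x_i y_j)`. -/
noncomputable def bet (B : Fin 12 → Fin 12 → WittVector p k →+ WittVector p k)
    (x y : Fin 12 → WittVector p k) : WittVector p k := ∑ i, ∑ j, B i j (x i * y j)

variable (B : Fin 12 → Fin 12 → WittVector p k →+ WittVector p k)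

theorem bet_add_left (x x' y : Fin 12 → WittVector p k) :
    bet B (x + x') y = bet B x y + bet B x' y := by
  unfold bet
  rw [← Finset.sum_add_distrib]
  refine Finset.sum_congr rfl fun i _ => ?_
  rw [← Finset.sum_add_distrib]
  refine Finset.sum_congr rfl fun j _ => ?_
  rw [Pi.add_apply, add_mul, map_add]

theorem bet_add_right (x y y' : Fin 12 → WittVector p k) :
    bet B x (y + y') = bet B x y + bet B x y' := by
  unfold bet
  rw [← Finset.sum_add_distrib]
  refine Finset.sum_congr rfl fun i _ => ?_
  rw [← Finset.sum_add_distrib]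
  refine Finset.sum_congr rfl fun j _ => ?_
  rw [Pi.add_apply, mul_add, map_add]

theorem bet_neg_left (x y : Fin 12 → WittVector p k) : bet B (-x) y = - bet B x y := by
  have h := bet_add_left B (-x) x y
  have h0 : bet B 0 y = 0 := by
    have := bet_add_left B 0 0 y
    rw [add_zero] at this
    exact left_eq_add.mp this
  rw [neg_add_cancel, h0] at h
  exact eq_neg_of_add_eq_zero_left h.symm

theorem bet_neg_right (x y : Fin 12 → WittVector p k) : bet B x (-y) = - bet B x y := by
  have h := bet_add_right B x (-y) y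
  have h0 : bet B x 0 = 0 := by
    have := bet_add_right B x 0 0
    rw [add_zero] at this
    exact left_eq_add.mp this
  rw [neg_add_cancel, h0] at h
  exact eq_neg_of_add_eq_zero_left h.symm

theorem bet_sub_left (x x' y : Fin 12 → WittVector p k) :
    bet B (x - x') y = bet B x y - bet B x' y := by
  rw [sub_eq_add_neg, bet_add_left, bet_neg_left, ← sub_eq_add_neg]

theorem bet_sub_right (x y y' : Fin 12 → WittVector p k) :
    bet B x (y - y') = bet B x y - bet B x y' := by
  rw [sub_eq_add_neg, bet_add_right, bet_neg_right, ← sub_eq_add_neg]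

theorem bet_sb (i j : Fin 12) (a b : WittVector p k) :
    bet B (sb i a) (sb j b) = B i j (a * b) := by
  unfold bet
  rw [Finset.sum_eq_single i]
  · rw [Finset.sum_eq_single j]
    · rw [sb_apply, sb_apply, if_pos rfl, if_pos rfl]
    · intro l _ hl
      rw [sb_apply j l, if_neg hl, mul_zero, map_zero]
    · intro h; exact absurd (Finset.mem_univ j) h
  · intro l _ hl
    refine Finset.sum_eq_zero fun j' _ => ?_
    rw [sb_apply i l, if_neg hl, zero_mul, map_zero]
  · intro h; exact absurd (Finset.mem_univ i) h

/-- The additive map `∑_{i<j} B_ij ∘ ℓ_ij` on `∧² M`. -/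
noncomputable def chiOf : (⋀[WittVector p k]^2 (Fin 12 → WittVector p k)) →+ WittVector p k :=
  ∑ i, ∑ j, if i < j then (B i j).comp (ell i j).toAddMonoidHom else 0

theorem chiOf_apply (z : ⋀[WittVector p k]^2 (Fin 12 → WittVector p k)) :
    chiOf B z = ∑ i, ∑ j, if i < j then B i j (ell i j z) else 0 := by
  unfold chiOf
  rw [AddMonoidHom.finsetSum_apply]
  refine Finset.sum_congr rfl fun i _ => ?_
  rw [AddMonoidHom.finsetSum_apply]
  refine Finset.sum_congr rfl fun j _ => ?_
  split_ifs <;> rfl

theorem chiOf_wedge (hB : ∀ i j, B j i = - B i j) (hB0 : ∀ i, B i i = 0)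
    (x y : Fin 12 → WittVector p k) : chiOf B (wedge p k x y) = bet B x y := by
  rw [chiOf_apply]
  unfold bet
  rw [sum_sum_lt (fun i j => B i j (x i * y j))]
  have h0 : ∑ i, B i i (x i * y i) = 0 :=
    Finset.sum_eq_zero fun i _ => by rw [hB0]; rfl
  rw [h0, add_zero]
  refine Finset.sum_congr rfl fun i _ => ?_
  refine Finset.sum_congr rfl fun j _ => ?_
  split_ifs with h
  · rw [ell_wedge, map_sub, hB i j, AddMonoidHom.neg_apply, sub_eq_add_neg]
  · rfl

end Bi

section FN1

variable (t q : ℕ)

/-- The additive subgroup of `∧² M` generated by the elements `V x ∧ y`. -/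
noncomputable def vSpan : AddSubgroup (⋀[WittVector p k]^2 (Fin 12 → WittVector p k)) :=
  AddSubgroup.closure {z | ∃ x y, z = wedge p k (modV p k t q x) y}

variable {t q}

theorem wedge_V_mem (x y : Fin 12 → WittVector p k) :
    wedge p k (modV p k t q x) y ∈ vSpan t q := AddSubgroup.subset_closure ⟨x, y, rfl⟩

theorem wedge_mem_of_left {x y : Fin 12 → WittVector p k} (h : ∃ x', modV p k t q x' = x) :
    wedge p k x y ∈ vSpan t q := by
  obtain ⟨x', rfl⟩ := h
  exact wedge_V_mem x' y

theorem exists_V (i : Fin 12) (hi : i.val < 6) (c : WittVector p k) :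
    ∃ x', modV p k t q x' = sb i c := by
  have h : ∀ c : WittVector p k, frobInv p k (frob p k c) = c := frobInv_frob
  fin_cases i <;> simp at hi
  · exact ⟨sb 1 (frob p k c), by rw [modV_sb_1, h]; rfl⟩
  · exact ⟨sb 2 (frob p k c), by rw [modV_sb_2, h]; rfl⟩
  · exact ⟨sb 3 (frob p k c), by rw [modV_sb_3, h]; rfl⟩
  · exact ⟨sb 4 (frob p k c), by rw [modV_sb_4, h]; rfl⟩
  · exact ⟨sb 5 (frob p k c), by rw [modV_sb_5, h]; rfl⟩
  · exact ⟨sb 6 (frob p k c), by rw [modV_sb_6, h]; rfl⟩

theorem p_wedge_mem (x y : Fin 12 → WittVector p k) :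
    (p : WittVector p k) • wedge p k x y ∈ vSpan t q := by
  rw [← wedge_smul_left, ← modV_modF t q x]
  exact wedge_V_mem _ _

theorem wedge_eq_sum (x y : Fin 12 → WittVector p k) :
    wedge p k x y = ∑ i, ∑ j, wedge p k (sb i (x i)) (sb j (y j)) := by
  have h1 : ∀ (s : Finset (Fin 12)) (f : Fin 12 → Fin 12 → WittVector p k)
      (y : Fin 12 → WittVector p k),
      wedge p k (∑ i ∈ s, f i) y = ∑ i ∈ s, wedge p k (f i) y := by
    intro s f y
    induction s using Finset.induction_on with
    | empty =>
      have := wedge_add_left (p := p) (k := k) (0 : Fin 12 → WittVector p k) 0 y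
      rw [add_zero] at this
      simpa using this
    | insert a s ha ih => rw [Finset.sum_insert ha, Finset.sum_insert ha, wedge_add_left, ih]
  have h2 : ∀ (s : Finset (Fin 12)) (f : Fin 12 → Fin 12 → WittVector p k)
      (x : Fin 12 → WittVector p k),
      wedge p k x (∑ i ∈ s, f i) = ∑ i ∈ s, wedge p k x (f i) := by
    intro s f x
    rw [wedge_antisymm, h1, ← Finset.sum_neg_distrib]
    exact Finset.sum_congr rfl fun i _ => by rw [← wedge_antisymm]
  conv_lhs => rw [sum_sb x, sum_sb y]
  rw [h1]
  exact Finset.sum_congr rfl fun i _ => h2 _ _ _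

/-- Modulo `VM ∧ M`, every element is `∑ ℓ_ij e_i ∧ e_j` over `6 ≤ i < j`. -/
theorem sub_mem_vSpan (z : ⋀[WittVector p k]^2 (Fin 12 → WittVector p k)) :
    z - ∑ i, ∑ j, (if i < j then (if 6 ≤ i.val then
      ell i j z • wedge p k (sb i (1 : WittVector p k)) (sb j (1 : WittVector p k)) else 0) else 0) ∈ vSpan t q := by
  induction z using wedge_induction with
  | h0 => simp [AddSubgroup.zero_mem]
  | hadd a b ha hb =>
    have := (vSpan t q).add_mem ha hb
    convert this using 1
    have h : ∀ i j : Fin 12, (if i < j then (if 6 ≤ i.val then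
        ell i j (a + b) • wedge p k (sb i (1 : WittVector p k)) (sb j (1 : WittVector p k)) else 0) else 0)
        = (if i < j then (if 6 ≤ i.val then
        ell i j a • wedge p k (sb i (1 : WittVector p k)) (sb j (1 : WittVector p k)) else 0) else 0)
        + (if i < j then (if 6 ≤ i.val then
        ell i j b • wedge p k (sb i (1 : WittVector p k)) (sb j (1 : WittVector p k)) else 0) else 0) := by
      intro i j
      split_ifs
      · rw [map_add, add_smul]
      · rw [add_zero]
      · rw [add_zero]
    simp only [h, Finset.sum_add_distrib]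
    abel
  | hw x y =>
    have h0 : ∑ i, wedge p k (sb i (x i)) (sb i (y i)) = 0 := by
      refine Finset.sum_eq_zero fun i _ => ?_
      rw [sb_eq_smul' i (x i), wedge_smul_left, sb_eq_smul' i (y i), wedge_smul_right, wedge_self,
        smul_zero, smul_zero]
    have hE := wedge_eq_sum x y
    rw [sum_sum_lt, h0, add_zero] at hE
    simp only [ell_wedge]
    rw [hE, ← Finset.sum_sub_distrib]
    refine AddSubgroup.sum_mem _ fun i _ => ?_
    rw [← Finset.sum_sub_distrib]
    refine AddSubgroup.sum_mem _ fun j _ => ?_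
    by_cases hij : i < j
    · rw [if_pos hij, if_pos hij]
      by_cases hi : 6 ≤ i.val
      · rw [if_pos hi]
        have e : wedge p k (sb i (x i)) (sb j (y j)) + wedge p k (sb j (x j)) (sb i (y i))
            - (x i * y j - x j * y i) •
              wedge p k (sb i (1 : WittVector p k)) (sb j (1 : WittVector p k)) = 0 := by
          rw [sb_eq_smul' i (x i), sb_eq_smul' j (y j), sb_eq_smul' j (x j), sb_eq_smul' i (y i)]
          simp only [wedge_smul_left, wedge_smul_right]
          rw [wedge_antisymm (sb j 1) (sb i 1)]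
          module
        rw [e]
        exact AddSubgroup.zero_mem _
      · rw [if_neg hi, sub_zero]
        refine AddSubgroup.add_mem _ (wedge_mem_of_left (exists_V i (by omega) _)) ?_
        rw [wedge_antisymm]
        exact AddSubgroup.neg_mem _ (wedge_mem_of_left (exists_V i (by omega) _))
    · rw [if_neg hij, if_neg hij, sub_zero]
      exact AddSubgroup.zero_mem _

end FN1

end Pool.Agent.UA
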