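import Pool.Agent.Lib.MP_381773_ag.Bracket

/-!
# The exterior square of a Dieudonne module, characterised by its universal property
-/

set_option autoImplicit false
set_option linter.unusedSectionVars false

universe u

namespace Pool.Agent.UA

open WittVector

section General

variable (R : Type u) [CommRing R] {M N : Type u} [AddCommGroup M] [Module R M]
  [AddCommGroup N] [Module R N]

/-- The map `w : M × M → N` is bilinear and alternating. -/
def IsAltBilinear (w : M → M → N) : Prop :=
  (∀ x x' y, w (x + x') y = w x y + w x' y) ∧ (∀ (c : R) (x y : M), w (c • x) y = c • w x y) ∧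
  (∀ x y y', w x (y + y') = w x y + w x y') ∧ (∀ (c : R) (x y : M), w x (c • y) = c • w x y) ∧
  ∀ x, w x x = 0

/-- The map `w(x, y) = x ∧ y` makes `N` the exterior square of `M`: it is bilinear and alternating,
and every bilinear alternating map from `M` to a module `Q` factors through `w` by a unique linear
map `N → Q`. -/
def IsWedge (w : M → M → N) : Prop :=
  IsAltBilinear R w ∧
  ∀ (Q : Type u) [AddCommGroup Q] [Module R Q] (b : M → M → Q), IsAltBilinear R b →
    ∃! f : N →ₗ[R] Q, ∀ x y, f (w x y) = b x y

variable {R}

/-- An alternating bilinear map as an alternating map on `Fin 2`. -/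
def toAlt (b : M → M → N) (hb : IsAltBilinear R b) : M [⋀^Fin 2]→ₗ[R] N where
  toFun v := b (v 0) (v 1)
  map_update_add' := by
    intro inst v i x y
    obtain rfl : inst = instDecidableEqFin 2 := Subsingleton.elim _ _
    fin_cases i
    · simpa using hb.1 x y (v 1)
    · simpa using hb.2.2.1 (v 0) x y
  map_update_smul' := by
    intro inst v i c x
    obtain rfl : inst = instDecidableEqFin 2 := Subsingleton.elim _ _
    fin_cases i
    · simpa using hb.2.1 c x (v 1)
    · simpa using hb.2.2.2.1 c (v 0) x
  map_eq_zero_of_eq' := by
    intro v i j hij hne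
    have h : v 0 = v 1 := by
      fin_cases i <;> fin_cases j
      · exact absurd rfl hne
      · exact hij
      · exact hij.symm
      · exact absurd rfl hne
    rw [h, hb.2.2.2.2]

theorem toAlt_apply (b : M → M → N) (hb : IsAltBilinear R b)
    (x y : M) : toAlt b hb ![x, y] = b x y := rfl

end General

variable {p : ℕ} [Fact p.Prime] {k : Type u} [Field k] [IsAlgClosed k] [CharP k p]

/-- The F-crystal `L` is `∧² M` with `F(x ∧ y) = F x ∧ F y`. -/
def IsExteriorSquare (M : DieudonneModule p k) (L : FCrystal p k) : Prop :=
  ∃ w : M.carrier → M.carrier → L.carrier, IsWedge (WittVector p k) w ∧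
    ∀ x y, L.F (w x y) = w (M.F x) (M.F y)

theorem isExteriorSquare_wedgeSq (M : DieudonneModule p k) :
    IsExteriorSquare M (wedgeSq M) := by
  refine ⟨(fun x y : M.carrier => (wedge p k x y : ⋀[WittVector p k]^2 M.carrier)),
    ⟨⟨wedge_add_left, wedge_smul_left, wedge_add_right, wedge_smul_right, wedge_self⟩, ?_⟩, ?_⟩
  · intro N _ _ b hb
    refine ⟨exteriorPower.alternatingMapLinearEquiv (toAlt b hb), ?_, ?_⟩
    · intro x y
      exact exteriorPower.alternatingMapLinearEquiv_apply_ιMulti (toAlt b hb) ![x, y]
    · intro f hf
      refine LinearMap.ext fun z => ?_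
      have key : ∀ z : ⋀[WittVector p k]^2 M.carrier,
          f z = exteriorPower.alternatingMapLinearEquiv (toAlt b hb) z := by
        intro z
        induction z using wedge_induction with
        | h0 => exact (map_zero f).trans (map_zero _).symm
        | hadd x y hx hy =>
          exact ((map_add f x y).trans (congrArg₂ _ hx hy)).trans (map_add _ x y).symm
        | hw x y =>
          exact (hf x y).trans
            (exteriorPower.alternatingMapLinearEquiv_apply_ιMulti (toAlt b hb) ![x, y]).symm
      exact key z
  · intro x y
    exact extMap_wedge (frob p k) M.F x y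

end Pool.Agent.UA
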