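import Pool.Agent.Lib.MP_381773_ag.Bracket

/-!
# Iterates of `F` and `V` on basis vectors of `M(t,q)`; surjectivity of `1 - σ^6`
-/

set_option autoImplicit false
set_option linter.unusedSectionVars false
set_option linter.unusedSimpArgs false

universe u

namespace Pool.Agent.UA

open WittVector

variable {p : ℕ} [Fact p.Prime] {k : Type u} [Field k] [IsAlgClosed k] [CharP k p]

section Iter
variable (t q : ℕ) (c : WittVector p k)

theorem itF_0_0 : (modF p k t q)^[0] (sb 0 c) = sb 0 c := rfl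

theorem itF_0_1 : (modF p k t q)^[1] (sb 0 c) = sb 1 ((p : WittVector p k) ^ 1 * sg 1 c) := by
  rw [Function.iterate_succ_apply', itF_0_0, modF_sb_0, frob_eq]
  try simp only [map_mul, map_pow, map_natCast, sg_sg]
  try rw [← mul_assoc, ← pow_succ']
  try norm_num

theorem itF_0_2 : (modF p k t q)^[2] (sb 0 c) = sb 2 ((p : WittVector p k) ^ 2 * sg 2 c) := by
  rw [Function.iterate_succ_apply', itF_0_1, modF_sb_1, frob_eq]
  try simp only [map_mul, map_pow, map_natCast, sg_sg]
  try rw [← mul_assoc, ← pow_succ']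
  try norm_num

theorem itF_0_3 : (modF p k t q)^[3] (sb 0 c) = sb 3 ((p : WittVector p k) ^ 3 * sg 3 c) := by
  rw [Function.iterate_succ_apply', itF_0_2, modF_sb_2, frob_eq]
  try simp only [map_mul, map_pow, map_natCast, sg_sg]
  try rw [← mul_assoc, ← pow_succ']
  try norm_num

theorem itF_0_4 : (modF p k t q)^[4] (sb 0 c) = sb 4 ((p : WittVector p k) ^ 4 * sg 4 c) := by
  rw [Function.iterate_succ_apply', itF_0_3, modF_sb_3, frob_eq]
  try simp only [map_mul, map_pow, map_natCast, sg_sg]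
  try rw [← mul_assoc, ← pow_succ']
  try norm_num

theorem itF_0_5 : (modF p k t q)^[5] (sb 0 c) = sb 5 ((p : WittVector p k) ^ 5 * sg 5 c) := by
  rw [Function.iterate_succ_apply', itF_0_4, modF_sb_4, frob_eq]
  try simp only [map_mul, map_pow, map_natCast, sg_sg]
  try rw [← mul_assoc, ← pow_succ']
  try norm_num

theorem itF_0_6 : (modF p k t q)^[6] (sb 0 c) = sb 6 ((p : WittVector p k) ^ 6 * sg 6 c) := by
  rw [Function.iterate_succ_apply', itF_0_5, modF_sb_5, frob_eq]
  try simp only [map_mul, map_pow, map_natCast, sg_sg]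
  try rw [← mul_assoc, ← pow_succ']
  try norm_num

theorem itF_0_7 : (modF p k t q)^[7] (sb 0 c) = sb 7 ((p : WittVector p k) ^ 6 * sg 7 c) := by
  rw [Function.iterate_succ_apply', itF_0_6, modF_sb_6, frob_eq]
  try simp only [map_mul, map_pow, map_natCast, sg_sg]
  try rw [← mul_assoc, ← pow_succ']
  try norm_num

theorem itF_0_8 : (modF p k t q)^[8] (sb 0 c) = sb 8 ((p : WittVector p k) ^ 6 * sg 8 c) := by
  rw [Function.iterate_succ_apply', itF_0_7, modF_sb_7, frob_eq]
  try simp only [map_mul, map_pow, map_natCast, sg_sg]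
  try rw [← mul_assoc, ← pow_succ']
  try norm_num

theorem itF_0_9 : (modF p k t q)^[9] (sb 0 c) = sb 9 ((p : WittVector p k) ^ 6 * sg 9 c) := by
  rw [Function.iterate_succ_apply', itF_0_8, modF_sb_8, frob_eq]
  try simp only [map_mul, map_pow, map_natCast, sg_sg]
  try rw [← mul_assoc, ← pow_succ']
  try norm_num

theorem itF_0_10 : (modF p k t q)^[10] (sb 0 c) = sb 10 ((p : WittVector p k) ^ 6 * sg 10 c) := by
  rw [Function.iterate_succ_apply', itF_0_9, modF_sb_9, frob_eq]
  try simp only [map_mul, map_pow, map_natCast, sg_sg]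
  try rw [← mul_assoc, ← pow_succ']
  try norm_num

theorem itF_0_11 : (modF p k t q)^[11] (sb 0 c) = sb 11 ((p : WittVector p k) ^ 6 * sg 11 c) := by
  rw [Function.iterate_succ_apply', itF_0_10, modF_sb_10, frob_eq]
  try simp only [map_mul, map_pow, map_natCast, sg_sg]
  try rw [← mul_assoc, ← pow_succ']
  try norm_num

theorem itV_0_0 : (modV p k t q)^[0] (sb 0 c) = sb 0 c := rfl

theorem itF_1_0 : (modF p k t q)^[0] (sb 1 c) = sb 1 c := rfl

theorem itF_1_1 : (modF p k t q)^[1] (sb 1 c) = sb 2 ((p : WittVector p k) ^ 1 * sg 1 c) := by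
  rw [Function.iterate_succ_apply', itF_1_0, modF_sb_1, frob_eq]
  try simp only [map_mul, map_pow, map_natCast, sg_sg]
  try rw [← mul_assoc, ← pow_succ']
  try norm_num

theorem itF_1_2 : (modF p k t q)^[2] (sb 1 c) = sb 3 ((p : WittVector p k) ^ 2 * sg 2 c) := by
  rw [Function.iterate_succ_apply', itF_1_1, modF_sb_2, frob_eq]
  try simp only [map_mul, map_pow, map_natCast, sg_sg]
  try rw [← mul_assoc, ← pow_succ']
  try norm_num

theorem itF_1_3 : (modF p k t q)^[3] (sb 1 c) = sb 4 ((p : WittVector p k) ^ 3 * sg 3 c) := by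
  rw [Function.iterate_succ_apply', itF_1_2, modF_sb_3, frob_eq]
  try simp only [map_mul, map_pow, map_natCast, sg_sg]
  try rw [← mul_assoc, ← pow_succ']
  try norm_num

theorem itF_1_4 : (modF p k t q)^[4] (sb 1 c) = sb 5 ((p : WittVector p k) ^ 4 * sg 4 c) := by
  rw [Function.iterate_succ_apply', itF_1_3, modF_sb_4, frob_eq]
  try simp only [map_mul, map_pow, map_natCast, sg_sg]
  try rw [← mul_assoc, ← pow_succ']
  try norm_num

theorem itF_1_5 : (modF p k t q)^[5] (sb 1 c) = sb 6 ((p : WittVector p k) ^ 5 * sg 5 c) := by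
  rw [Function.iterate_succ_apply', itF_1_4, modF_sb_5, frob_eq]
  try simp only [map_mul, map_pow, map_natCast, sg_sg]
  try rw [← mul_assoc, ← pow_succ']
  try norm_num

theorem itF_1_6 : (modF p k t q)^[6] (sb 1 c) = sb 7 ((p : WittVector p k) ^ 5 * sg 6 c) := by
  rw [Function.iterate_succ_apply', itF_1_5, modF_sb_6, frob_eq]
  try simp only [map_mul, map_pow, map_natCast, sg_sg]
  try rw [← mul_assoc, ← pow_succ']
  try norm_num

theorem itF_1_7 : (modF p k t q)^[7] (sb 1 c) = sb 8 ((p : WittVector p k) ^ 5 * sg 7 c) := by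
  rw [Function.iterate_succ_apply', itF_1_6, modF_sb_7, frob_eq]
  try simp only [map_mul, map_pow, map_natCast, sg_sg]
  try rw [← mul_assoc, ← pow_succ']
  try norm_num

theorem itF_1_8 : (modF p k t q)^[8] (sb 1 c) = sb 9 ((p : WittVector p k) ^ 5 * sg 8 c) := by
  rw [Function.iterate_succ_apply', itF_1_7, modF_sb_8, frob_eq]
  try simp only [map_mul, map_pow, map_natCast, sg_sg]
  try rw [← mul_assoc, ← pow_succ']
  try norm_num

theorem itF_1_9 : (modF p k t q)^[9] (sb 1 c) = sb 10 ((p : WittVector p k) ^ 5 * sg 9 c) := by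
  rw [Function.iterate_succ_apply', itF_1_8, modF_sb_9, frob_eq]
  try simp only [map_mul, map_pow, map_natCast, sg_sg]
  try rw [← mul_assoc, ← pow_succ']
  try norm_num

theorem itF_1_10 : (modF p k t q)^[10] (sb 1 c) = sb 11 ((p : WittVector p k) ^ 5 * sg 10 c) := by
  rw [Function.iterate_succ_apply', itF_1_9, modF_sb_10, frob_eq]
  try simp only [map_mul, map_pow, map_natCast, sg_sg]
  try rw [← mul_assoc, ← pow_succ']
  try norm_num

theorem itV_1_0 : (modV p k t q)^[0] (sb 1 c) = sb 1 c := rfl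

theorem itV_1_1 : (modV p k t q)^[1] (sb 1 c) = sb 0 (sg (-1) c) := by
  rw [Function.iterate_succ_apply', itV_1_0, modV_sb_1, frobInv_eq]
  try simp only [map_mul, map_pow, map_natCast, sg_sg]
  try rw [← mul_assoc, ← pow_succ']
  try norm_num

theorem itF_2_0 : (modF p k t q)^[0] (sb 2 c) = sb 2 c := rfl

theorem itF_2_1 : (modF p k t q)^[1] (sb 2 c) = sb 3 ((p : WittVector p k) ^ 1 * sg 1 c) := by
  rw [Function.iterate_succ_apply', itF_2_0, modF_sb_2, frob_eq]
  try simp only [map_mul, map_pow, map_natCast, sg_sg]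
  try rw [← mul_assoc, ← pow_succ']
  try norm_num

theorem itF_2_2 : (modF p k t q)^[2] (sb 2 c) = sb 4 ((p : WittVector p k) ^ 2 * sg 2 c) := by
  rw [Function.iterate_succ_apply', itF_2_1, modF_sb_3, frob_eq]
  try simp only [map_mul, map_pow, map_natCast, sg_sg]
  try rw [← mul_assoc, ← pow_succ']
  try norm_num

theorem itF_2_3 : (modF p k t q)^[3] (sb 2 c) = sb 5 ((p : WittVector p k) ^ 3 * sg 3 c) := by
  rw [Function.iterate_succ_apply', itF_2_2, modF_sb_4, frob_eq]
  try simp only [map_mul, map_pow, map_natCast, sg_sg]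
  try rw [← mul_assoc, ← pow_succ']
  try norm_num

theorem itF_2_4 : (modF p k t q)^[4] (sb 2 c) = sb 6 ((p : WittVector p k) ^ 4 * sg 4 c) := by
  rw [Function.iterate_succ_apply', itF_2_3, modF_sb_5, frob_eq]
  try simp only [map_mul, map_pow, map_natCast, sg_sg]
  try rw [← mul_assoc, ← pow_succ']
  try norm_num

theorem itF_2_5 : (modF p k t q)^[5] (sb 2 c) = sb 7 ((p : WittVector p k) ^ 4 * sg 5 c) := by
  rw [Function.iterate_succ_apply', itF_2_4, modF_sb_6, frob_eq]
  try simp only [map_mul, map_pow, map_natCast, sg_sg]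
  try rw [← mul_assoc, ← pow_succ']
  try norm_num

theorem itF_2_6 : (modF p k t q)^[6] (sb 2 c) = sb 8 ((p : WittVector p k) ^ 4 * sg 6 c) := by
  rw [Function.iterate_succ_apply', itF_2_5, modF_sb_7, frob_eq]
  try simp only [map_mul, map_pow, map_natCast, sg_sg]
  try rw [← mul_assoc, ← pow_succ']
  try norm_num

theorem itF_2_7 : (modF p k t q)^[7] (sb 2 c) = sb 9 ((p : WittVector p k) ^ 4 * sg 7 c) := by
  rw [Function.iterate_succ_apply', itF_2_6, modF_sb_8, frob_eq]
  try simp only [map_mul, map_pow, map_natCast, sg_sg]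
  try rw [← mul_assoc, ← pow_succ']
  try norm_num

theorem itF_2_8 : (modF p k t q)^[8] (sb 2 c) = sb 10 ((p : WittVector p k) ^ 4 * sg 8 c) := by
  rw [Function.iterate_succ_apply', itF_2_7, modF_sb_9, frob_eq]
  try simp only [map_mul, map_pow, map_natCast, sg_sg]
  try rw [← mul_assoc, ← pow_succ']
  try norm_num

theorem itF_2_9 : (modF p k t q)^[9] (sb 2 c) = sb 11 ((p : WittVector p k) ^ 4 * sg 9 c) := by
  rw [Function.iterate_succ_apply', itF_2_8, modF_sb_10, frob_eq]
  try simp only [map_mul, map_pow, map_natCast, sg_sg]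
  try rw [← mul_assoc, ← pow_succ']
  try norm_num

theorem itV_2_0 : (modV p k t q)^[0] (sb 2 c) = sb 2 c := rfl

theorem itV_2_1 : (modV p k t q)^[1] (sb 2 c) = sb 1 (sg (-1) c) := by
  rw [Function.iterate_succ_apply', itV_2_0, modV_sb_2, frobInv_eq]
  try simp only [map_mul, map_pow, map_natCast, sg_sg]
  try rw [← mul_assoc, ← pow_succ']
  try norm_num

theorem itV_2_2 : (modV p k t q)^[2] (sb 2 c) = sb 0 (sg (-2) c) := by
  rw [Function.iterate_succ_apply', itV_2_1, modV_sb_1, frobInv_eq]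
  try simp only [map_mul, map_pow, map_natCast, sg_sg]
  try rw [← mul_assoc, ← pow_succ']
  try norm_num

theorem itF_3_0 : (modF p k t q)^[0] (sb 3 c) = sb 3 c := rfl

theorem itF_3_1 : (modF p k t q)^[1] (sb 3 c) = sb 4 ((p : WittVector p k) ^ 1 * sg 1 c) := by
  rw [Function.iterate_succ_apply', itF_3_0, modF_sb_3, frob_eq]
  try simp only [map_mul, map_pow, map_natCast, sg_sg]
  try rw [← mul_assoc, ← pow_succ']
  try norm_num

theorem itF_3_2 : (modF p k t q)^[2] (sb 3 c) = sb 5 ((p : WittVector p k) ^ 2 * sg 2 c) := by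
  rw [Function.iterate_succ_apply', itF_3_1, modF_sb_4, frob_eq]
  try simp only [map_mul, map_pow, map_natCast, sg_sg]
  try rw [← mul_assoc, ← pow_succ']
  try norm_num

theorem itF_3_3 : (modF p k t q)^[3] (sb 3 c) = sb 6 ((p : WittVector p k) ^ 3 * sg 3 c) := by
  rw [Function.iterate_succ_apply', itF_3_2, modF_sb_5, frob_eq]
  try simp only [map_mul, map_pow, map_natCast, sg_sg]
  try rw [← mul_assoc, ← pow_succ']
  try norm_num

theorem itF_3_4 : (modF p k t q)^[4] (sb 3 c) = sb 7 ((p : WittVector p k) ^ 3 * sg 4 c) := by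
  rw [Function.iterate_succ_apply', itF_3_3, modF_sb_6, frob_eq]
  try simp only [map_mul, map_pow, map_natCast, sg_sg]
  try rw [← mul_assoc, ← pow_succ']
  try norm_num

theorem itF_3_5 : (modF p k t q)^[5] (sb 3 c) = sb 8 ((p : WittVector p k) ^ 3 * sg 5 c) := by
  rw [Function.iterate_succ_apply', itF_3_4, modF_sb_7, frob_eq]
  try simp only [map_mul, map_pow, map_natCast, sg_sg]
  try rw [← mul_assoc, ← pow_succ']
  try norm_num

theorem itF_3_6 : (modF p k t q)^[6] (sb 3 c) = sb 9 ((p : WittVector p k) ^ 3 * sg 6 c) := by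
  rw [Function.iterate_succ_apply', itF_3_5, modF_sb_8, frob_eq]
  try simp only [map_mul, map_pow, map_natCast, sg_sg]
  try rw [← mul_assoc, ← pow_succ']
  try norm_num

theorem itF_3_7 : (modF p k t q)^[7] (sb 3 c) = sb 10 ((p : WittVector p k) ^ 3 * sg 7 c) := by
  rw [Function.iterate_succ_apply', itF_3_6, modF_sb_9, frob_eq]
  try simp only [map_mul, map_pow, map_natCast, sg_sg]
  try rw [← mul_assoc, ← pow_succ']
  try norm_num

theorem itF_3_8 : (modF p k t q)^[8] (sb 3 c) = sb 11 ((p : WittVector p k) ^ 3 * sg 8 c) := by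
  rw [Function.iterate_succ_apply', itF_3_7, modF_sb_10, frob_eq]
  try simp only [map_mul, map_pow, map_natCast, sg_sg]
  try rw [← mul_assoc, ← pow_succ']
  try norm_num

theorem itV_3_0 : (modV p k t q)^[0] (sb 3 c) = sb 3 c := rfl

theorem itV_3_1 : (modV p k t q)^[1] (sb 3 c) = sb 2 (sg (-1) c) := by
  rw [Function.iterate_succ_apply', itV_3_0, modV_sb_3, frobInv_eq]
  try simp only [map_mul, map_pow, map_natCast, sg_sg]
  try rw [← mul_assoc, ← pow_succ']
  try norm_num

theorem itV_3_2 : (modV p k t q)^[2] (sb 3 c) = sb 1 (sg (-2) c) := by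
  rw [Function.iterate_succ_apply', itV_3_1, modV_sb_2, frobInv_eq]
  try simp only [map_mul, map_pow, map_natCast, sg_sg]
  try rw [← mul_assoc, ← pow_succ']
  try norm_num

theorem itV_3_3 : (modV p k t q)^[3] (sb 3 c) = sb 0 (sg (-3) c) := by
  rw [Function.iterate_succ_apply', itV_3_2, modV_sb_1, frobInv_eq]
  try simp only [map_mul, map_pow, map_natCast, sg_sg]
  try rw [← mul_assoc, ← pow_succ']
  try norm_num

theorem itF_4_0 : (modF p k t q)^[0] (sb 4 c) = sb 4 c := rfl

theorem itF_4_1 : (modF p k t q)^[1] (sb 4 c) = sb 5 ((p : WittVector p k) ^ 1 * sg 1 c) := by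
  rw [Function.iterate_succ_apply', itF_4_0, modF_sb_4, frob_eq]
  try simp only [map_mul, map_pow, map_natCast, sg_sg]
  try rw [← mul_assoc, ← pow_succ']
  try norm_num

theorem itF_4_2 : (modF p k t q)^[2] (sb 4 c) = sb 6 ((p : WittVector p k) ^ 2 * sg 2 c) := by
  rw [Function.iterate_succ_apply', itF_4_1, modF_sb_5, frob_eq]
  try simp only [map_mul, map_pow, map_natCast, sg_sg]
  try rw [← mul_assoc, ← pow_succ']
  try norm_num

theorem itF_4_3 : (modF p k t q)^[3] (sb 4 c) = sb 7 ((p : WittVector p k) ^ 2 * sg 3 c) := by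
  rw [Function.iterate_succ_apply', itF_4_2, modF_sb_6, frob_eq]
  try simp only [map_mul, map_pow, map_natCast, sg_sg]
  try rw [← mul_assoc, ← pow_succ']
  try norm_num

theorem itF_4_4 : (modF p k t q)^[4] (sb 4 c) = sb 8 ((p : WittVector p k) ^ 2 * sg 4 c) := by
  rw [Function.iterate_succ_apply', itF_4_3, modF_sb_7, frob_eq]
  try simp only [map_mul, map_pow, map_natCast, sg_sg]
  try rw [← mul_assoc, ← pow_succ']
  try norm_num

theorem itF_4_5 : (modF p k t q)^[5] (sb 4 c) = sb 9 ((p : WittVector p k) ^ 2 * sg 5 c) := by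
  rw [Function.iterate_succ_apply', itF_4_4, modF_sb_8, frob_eq]
  try simp only [map_mul, map_pow, map_natCast, sg_sg]
  try rw [← mul_assoc, ← pow_succ']
  try norm_num

theorem itF_4_6 : (modF p k t q)^[6] (sb 4 c) = sb 10 ((p : WittVector p k) ^ 2 * sg 6 c) := by
  rw [Function.iterate_succ_apply', itF_4_5, modF_sb_9, frob_eq]
  try simp only [map_mul, map_pow, map_natCast, sg_sg]
  try rw [← mul_assoc, ← pow_succ']
  try norm_num

theorem itF_4_7 : (modF p k t q)^[7] (sb 4 c) = sb 11 ((p : WittVector p k) ^ 2 * sg 7 c) := by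
  rw [Function.iterate_succ_apply', itF_4_6, modF_sb_10, frob_eq]
  try simp only [map_mul, map_pow, map_natCast, sg_sg]
  try rw [← mul_assoc, ← pow_succ']
  try norm_num

theorem itV_4_0 : (modV p k t q)^[0] (sb 4 c) = sb 4 c := rfl

theorem itV_4_1 : (modV p k t q)^[1] (sb 4 c) = sb 3 (sg (-1) c) := by
  rw [Function.iterate_succ_apply', itV_4_0, modV_sb_4, frobInv_eq]
  try simp only [map_mul, map_pow, map_natCast, sg_sg]
  try rw [← mul_assoc, ← pow_succ']
  try norm_num

theorem itV_4_2 : (modV p k t q)^[2] (sb 4 c) = sb 2 (sg (-2) c) := by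
  rw [Function.iterate_succ_apply', itV_4_1, modV_sb_3, frobInv_eq]
  try simp only [map_mul, map_pow, map_natCast, sg_sg]
  try rw [← mul_assoc, ← pow_succ']
  try norm_num

theorem itV_4_3 : (modV p k t q)^[3] (sb 4 c) = sb 1 (sg (-3) c) := by
  rw [Function.iterate_succ_apply', itV_4_2, modV_sb_2, frobInv_eq]
  try simp only [map_mul, map_pow, map_natCast, sg_sg]
  try rw [← mul_assoc, ← pow_succ']
  try norm_num

theorem itV_4_4 : (modV p k t q)^[4] (sb 4 c) = sb 0 (sg (-4) c) := by
  rw [Function.iterate_succ_apply', itV_4_3, modV_sb_1, frobInv_eq]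
  try simp only [map_mul, map_pow, map_natCast, sg_sg]
  try rw [← mul_assoc, ← pow_succ']
  try norm_num

theorem itF_5_0 : (modF p k t q)^[0] (sb 5 c) = sb 5 c := rfl

theorem itF_5_1 : (modF p k t q)^[1] (sb 5 c) = sb 6 ((p : WittVector p k) ^ 1 * sg 1 c) := by
  rw [Function.iterate_succ_apply', itF_5_0, modF_sb_5, frob_eq]
  try simp only [map_mul, map_pow, map_natCast, sg_sg]
  try rw [← mul_assoc, ← pow_succ']
  try norm_num

theorem itF_5_2 : (modF p k t q)^[2] (sb 5 c) = sb 7 ((p : WittVector p k) ^ 1 * sg 2 c) := by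
  rw [Function.iterate_succ_apply', itF_5_1, modF_sb_6, frob_eq]
  try simp only [map_mul, map_pow, map_natCast, sg_sg]
  try rw [← mul_assoc, ← pow_succ']
  try norm_num

theorem itF_5_3 : (modF p k t q)^[3] (sb 5 c) = sb 8 ((p : WittVector p k) ^ 1 * sg 3 c) := by
  rw [Function.iterate_succ_apply', itF_5_2, modF_sb_7, frob_eq]
  try simp only [map_mul, map_pow, map_natCast, sg_sg]
  try rw [← mul_assoc, ← pow_succ']
  try norm_num

theorem itF_5_4 : (modF p k t q)^[4] (sb 5 c) = sb 9 ((p : WittVector p k) ^ 1 * sg 4 c) := by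
  rw [Function.iterate_succ_apply', itF_5_3, modF_sb_8, frob_eq]
  try simp only [map_mul, map_pow, map_natCast, sg_sg]
  try rw [← mul_assoc, ← pow_succ']
  try norm_num

theorem itF_5_5 : (modF p k t q)^[5] (sb 5 c) = sb 10 ((p : WittVector p k) ^ 1 * sg 5 c) := by
  rw [Function.iterate_succ_apply', itF_5_4, modF_sb_9, frob_eq]
  try simp only [map_mul, map_pow, map_natCast, sg_sg]
  try rw [← mul_assoc, ← pow_succ']
  try norm_num

theorem itF_5_6 : (modF p k t q)^[6] (sb 5 c) = sb 11 ((p : WittVector p k) ^ 1 * sg 6 c) := by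
  rw [Function.iterate_succ_apply', itF_5_5, modF_sb_10, frob_eq]
  try simp only [map_mul, map_pow, map_natCast, sg_sg]
  try rw [← mul_assoc, ← pow_succ']
  try norm_num

theorem itV_5_0 : (modV p k t q)^[0] (sb 5 c) = sb 5 c := rfl

theorem itV_5_1 : (modV p k t q)^[1] (sb 5 c) = sb 4 (sg (-1) c) := by
  rw [Function.iterate_succ_apply', itV_5_0, modV_sb_5, frobInv_eq]
  try simp only [map_mul, map_pow, map_natCast, sg_sg]
  try rw [← mul_assoc, ← pow_succ']
  try norm_num

theorem itV_5_2 : (modV p k t q)^[2] (sb 5 c) = sb 3 (sg (-2) c) := by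
  rw [Function.iterate_succ_apply', itV_5_1, modV_sb_4, frobInv_eq]
  try simp only [map_mul, map_pow, map_natCast, sg_sg]
  try rw [← mul_assoc, ← pow_succ']
  try norm_num

theorem itV_5_3 : (modV p k t q)^[3] (sb 5 c) = sb 2 (sg (-3) c) := by
  rw [Function.iterate_succ_apply', itV_5_2, modV_sb_3, frobInv_eq]
  try simp only [map_mul, map_pow, map_natCast, sg_sg]
  try rw [← mul_assoc, ← pow_succ']
  try norm_num

theorem itV_5_4 : (modV p k t q)^[4] (sb 5 c) = sb 1 (sg (-4) c) := by
  rw [Function.iterate_succ_apply', itV_5_3, modV_sb_2, frobInv_eq]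
  try simp only [map_mul, map_pow, map_natCast, sg_sg]
  try rw [← mul_assoc, ← pow_succ']
  try norm_num

theorem itV_5_5 : (modV p k t q)^[5] (sb 5 c) = sb 0 (sg (-5) c) := by
  rw [Function.iterate_succ_apply', itV_5_4, modV_sb_1, frobInv_eq]
  try simp only [map_mul, map_pow, map_natCast, sg_sg]
  try rw [← mul_assoc, ← pow_succ']
  try norm_num

theorem itF_6_0 : (modF p k t q)^[0] (sb 6 c) = sb 6 c := rfl

theorem itF_6_1 : (modF p k t q)^[1] (sb 6 c) = sb 7 (sg 1 c) := by
  rw [Function.iterate_succ_apply', itF_6_0, modF_sb_6, frob_eq]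
  try simp only [map_mul, map_pow, map_natCast, sg_sg]
  try rw [← mul_assoc, ← pow_succ']
  try norm_num

theorem itF_6_2 : (modF p k t q)^[2] (sb 6 c) = sb 8 (sg 2 c) := by
  rw [Function.iterate_succ_apply', itF_6_1, modF_sb_7, frob_eq]
  try simp only [map_mul, map_pow, map_natCast, sg_sg]
  try rw [← mul_assoc, ← pow_succ']
  try norm_num

theorem itF_6_3 : (modF p k t q)^[3] (sb 6 c) = sb 9 (sg 3 c) := by
  rw [Function.iterate_succ_apply', itF_6_2, modF_sb_8, frob_eq]
  try simp only [map_mul, map_pow, map_natCast, sg_sg]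
  try rw [← mul_assoc, ← pow_succ']
  try norm_num

theorem itF_6_4 : (modF p k t q)^[4] (sb 6 c) = sb 10 (sg 4 c) := by
  rw [Function.iterate_succ_apply', itF_6_3, modF_sb_9, frob_eq]
  try simp only [map_mul, map_pow, map_natCast, sg_sg]
  try rw [← mul_assoc, ← pow_succ']
  try norm_num

theorem itF_6_5 : (modF p k t q)^[5] (sb 6 c) = sb 11 (sg 5 c) := by
  rw [Function.iterate_succ_apply', itF_6_4, modF_sb_10, frob_eq]
  try simp only [map_mul, map_pow, map_natCast, sg_sg]
  try rw [← mul_assoc, ← pow_succ']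
  try norm_num

theorem itV_6_0 : (modV p k t q)^[0] (sb 6 c) = sb 6 c := rfl

theorem itV_6_1 : (modV p k t q)^[1] (sb 6 c) = sb 5 (sg (-1) c) := by
  rw [Function.iterate_succ_apply', itV_6_0, modV_sb_6, frobInv_eq]
  try simp only [map_mul, map_pow, map_natCast, sg_sg]
  try rw [← mul_assoc, ← pow_succ']
  try norm_num

theorem itV_6_2 : (modV p k t q)^[2] (sb 6 c) = sb 4 (sg (-2) c) := by
  rw [Function.iterate_succ_apply', itV_6_1, modV_sb_5, frobInv_eq]
  try simp only [map_mul, map_pow, map_natCast, sg_sg]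
  try rw [← mul_assoc, ← pow_succ']
  try norm_num

theorem itV_6_3 : (modV p k t q)^[3] (sb 6 c) = sb 3 (sg (-3) c) := by
  rw [Function.iterate_succ_apply', itV_6_2, modV_sb_4, frobInv_eq]
  try simp only [map_mul, map_pow, map_natCast, sg_sg]
  try rw [← mul_assoc, ← pow_succ']
  try norm_num

theorem itV_6_4 : (modV p k t q)^[4] (sb 6 c) = sb 2 (sg (-4) c) := by
  rw [Function.iterate_succ_apply', itV_6_3, modV_sb_3, frobInv_eq]
  try simp only [map_mul, map_pow, map_natCast, sg_sg]
  try rw [← mul_assoc, ← pow_succ']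
  try norm_num

theorem itV_6_5 : (modV p k t q)^[5] (sb 6 c) = sb 1 (sg (-5) c) := by
  rw [Function.iterate_succ_apply', itV_6_4, modV_sb_2, frobInv_eq]
  try simp only [map_mul, map_pow, map_natCast, sg_sg]
  try rw [← mul_assoc, ← pow_succ']
  try norm_num

theorem itV_6_6 : (modV p k t q)^[6] (sb 6 c) = sb 0 (sg (-6) c) := by
  rw [Function.iterate_succ_apply', itV_6_5, modV_sb_1, frobInv_eq]
  try simp only [map_mul, map_pow, map_natCast, sg_sg]
  try rw [← mul_assoc, ← pow_succ']
  try norm_num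

theorem itF_7_0 : (modF p k t q)^[0] (sb 7 c) = sb 7 c := rfl

theorem itF_7_1 : (modF p k t q)^[1] (sb 7 c) = sb 8 (sg 1 c) := by
  rw [Function.iterate_succ_apply', itF_7_0, modF_sb_7, frob_eq]
  try simp only [map_mul, map_pow, map_natCast, sg_sg]
  try rw [← mul_assoc, ← pow_succ']
  try norm_num

theorem itF_7_2 : (modF p k t q)^[2] (sb 7 c) = sb 9 (sg 2 c) := by
  rw [Function.iterate_succ_apply', itF_7_1, modF_sb_8, frob_eq]
  try simp only [map_mul, map_pow, map_natCast, sg_sg]
  try rw [← mul_assoc, ← pow_succ']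
  try norm_num

theorem itF_7_3 : (modF p k t q)^[3] (sb 7 c) = sb 10 (sg 3 c) := by
  rw [Function.iterate_succ_apply', itF_7_2, modF_sb_9, frob_eq]
  try simp only [map_mul, map_pow, map_natCast, sg_sg]
  try rw [← mul_assoc, ← pow_succ']
  try norm_num

theorem itF_7_4 : (modF p k t q)^[4] (sb 7 c) = sb 11 (sg 4 c) := by
  rw [Function.iterate_succ_apply', itF_7_3, modF_sb_10, frob_eq]
  try simp only [map_mul, map_pow, map_natCast, sg_sg]
  try rw [← mul_assoc, ← pow_succ']
  try norm_num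

theorem itV_7_0 : (modV p k t q)^[0] (sb 7 c) = sb 7 c := rfl

theorem itV_7_1 : (modV p k t q)^[1] (sb 7 c) = sb 6 ((p : WittVector p k) ^ 1 * sg (-1) c) := by
  rw [Function.iterate_succ_apply', itV_7_0, modV_sb_7, frobInv_eq]
  try simp only [map_mul, map_pow, map_natCast, sg_sg]
  try rw [← mul_assoc, ← pow_succ']
  try norm_num

theorem itV_7_2 : (modV p k t q)^[2] (sb 7 c) = sb 5 ((p : WittVector p k) ^ 1 * sg (-2) c) := by
  rw [Function.iterate_succ_apply', itV_7_1, modV_sb_6, frobInv_eq]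
  try simp only [map_mul, map_pow, map_natCast, sg_sg]
  try rw [← mul_assoc, ← pow_succ']
  try norm_num

theorem itV_7_3 : (modV p k t q)^[3] (sb 7 c) = sb 4 ((p : WittVector p k) ^ 1 * sg (-3) c) := by
  rw [Function.iterate_succ_apply', itV_7_2, modV_sb_5, frobInv_eq]
  try simp only [map_mul, map_pow, map_natCast, sg_sg]
  try rw [← mul_assoc, ← pow_succ']
  try norm_num

theorem itV_7_4 : (modV p k t q)^[4] (sb 7 c) = sb 3 ((p : WittVector p k) ^ 1 * sg (-4) c) := by
  rw [Function.iterate_succ_apply', itV_7_3, modV_sb_4, frobInv_eq]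
  try simp only [map_mul, map_pow, map_natCast, sg_sg]
  try rw [← mul_assoc, ← pow_succ']
  try norm_num

theorem itV_7_5 : (modV p k t q)^[5] (sb 7 c) = sb 2 ((p : WittVector p k) ^ 1 * sg (-5) c) := by
  rw [Function.iterate_succ_apply', itV_7_4, modV_sb_3, frobInv_eq]
  try simp only [map_mul, map_pow, map_natCast, sg_sg]
  try rw [← mul_assoc, ← pow_succ']
  try norm_num

theorem itV_7_6 : (modV p k t q)^[6] (sb 7 c) = sb 1 ((p : WittVector p k) ^ 1 * sg (-6) c) := by
  rw [Function.iterate_succ_apply', itV_7_5, modV_sb_2, frobInv_eq]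
  try simp only [map_mul, map_pow, map_natCast, sg_sg]
  try rw [← mul_assoc, ← pow_succ']
  try norm_num

theorem itV_7_7 : (modV p k t q)^[7] (sb 7 c) = sb 0 ((p : WittVector p k) ^ 1 * sg (-7) c) := by
  rw [Function.iterate_succ_apply', itV_7_6, modV_sb_1, frobInv_eq]
  try simp only [map_mul, map_pow, map_natCast, sg_sg]
  try rw [← mul_assoc, ← pow_succ']
  try norm_num

theorem itF_8_0 : (modF p k t q)^[0] (sb 8 c) = sb 8 c := rfl

theorem itF_8_1 : (modF p k t q)^[1] (sb 8 c) = sb 9 (sg 1 c) := by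
  rw [Function.iterate_succ_apply', itF_8_0, modF_sb_8, frob_eq]
  try simp only [map_mul, map_pow, map_natCast, sg_sg]
  try rw [← mul_assoc, ← pow_succ']
  try norm_num

theorem itF_8_2 : (modF p k t q)^[2] (sb 8 c) = sb 10 (sg 2 c) := by
  rw [Function.iterate_succ_apply', itF_8_1, modF_sb_9, frob_eq]
  try simp only [map_mul, map_pow, map_natCast, sg_sg]
  try rw [← mul_assoc, ← pow_succ']
  try norm_num

theorem itF_8_3 : (modF p k t q)^[3] (sb 8 c) = sb 11 (sg 3 c) := by
  rw [Function.iterate_succ_apply', itF_8_2, modF_sb_10, frob_eq]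
  try simp only [map_mul, map_pow, map_natCast, sg_sg]
  try rw [← mul_assoc, ← pow_succ']
  try norm_num

theorem itV_8_0 : (modV p k t q)^[0] (sb 8 c) = sb 8 c := rfl

theorem itV_8_1 : (modV p k t q)^[1] (sb 8 c) = sb 7 ((p : WittVector p k) ^ 1 * sg (-1) c) := by
  rw [Function.iterate_succ_apply', itV_8_0, modV_sb_8, frobInv_eq]
  try simp only [map_mul, map_pow, map_natCast, sg_sg]
  try rw [← mul_assoc, ← pow_succ']
  try norm_num

theorem itV_8_2 : (modV p k t q)^[2] (sb 8 c) = sb 6 ((p : WittVector p k) ^ 2 * sg (-2) c) := by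
  rw [Function.iterate_succ_apply', itV_8_1, modV_sb_7, frobInv_eq]
  try simp only [map_mul, map_pow, map_natCast, sg_sg]
  try rw [← mul_assoc, ← pow_succ']
  try norm_num

theorem itV_8_3 : (modV p k t q)^[3] (sb 8 c) = sb 5 ((p : WittVector p k) ^ 2 * sg (-3) c) := by
  rw [Function.iterate_succ_apply', itV_8_2, modV_sb_6, frobInv_eq]
  try simp only [map_mul, map_pow, map_natCast, sg_sg]
  try rw [← mul_assoc, ← pow_succ']
  try norm_num

theorem itV_8_4 : (modV p k t q)^[4] (sb 8 c) = sb 4 ((p : WittVector p k) ^ 2 * sg (-4) c) := by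
  rw [Function.iterate_succ_apply', itV_8_3, modV_sb_5, frobInv_eq]
  try simp only [map_mul, map_pow, map_natCast, sg_sg]
  try rw [← mul_assoc, ← pow_succ']
  try norm_num

theorem itV_8_5 : (modV p k t q)^[5] (sb 8 c) = sb 3 ((p : WittVector p k) ^ 2 * sg (-5) c) := by
  rw [Function.iterate_succ_apply', itV_8_4, modV_sb_4, frobInv_eq]
  try simp only [map_mul, map_pow, map_natCast, sg_sg]
  try rw [← mul_assoc, ← pow_succ']
  try norm_num

theorem itV_8_6 : (modV p k t q)^[6] (sb 8 c) = sb 2 ((p : WittVector p k) ^ 2 * sg (-6) c) := by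
  rw [Function.iterate_succ_apply', itV_8_5, modV_sb_3, frobInv_eq]
  try simp only [map_mul, map_pow, map_natCast, sg_sg]
  try rw [← mul_assoc, ← pow_succ']
  try norm_num

theorem itV_8_7 : (modV p k t q)^[7] (sb 8 c) = sb 1 ((p : WittVector p k) ^ 2 * sg (-7) c) := by
  rw [Function.iterate_succ_apply', itV_8_6, modV_sb_2, frobInv_eq]
  try simp only [map_mul, map_pow, map_natCast, sg_sg]
  try rw [← mul_assoc, ← pow_succ']
  try norm_num

theorem itV_8_8 : (modV p k t q)^[8] (sb 8 c) = sb 0 ((p : WittVector p k) ^ 2 * sg (-8) c) := by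
  rw [Function.iterate_succ_apply', itV_8_7, modV_sb_1, frobInv_eq]
  try simp only [map_mul, map_pow, map_natCast, sg_sg]
  try rw [← mul_assoc, ← pow_succ']
  try norm_num

theorem itF_9_0 : (modF p k t q)^[0] (sb 9 c) = sb 9 c := rfl

theorem itF_9_1 : (modF p k t q)^[1] (sb 9 c) = sb 10 (sg 1 c) := by
  rw [Function.iterate_succ_apply', itF_9_0, modF_sb_9, frob_eq]
  try simp only [map_mul, map_pow, map_natCast, sg_sg]
  try rw [← mul_assoc, ← pow_succ']
  try norm_num

theorem itF_9_2 : (modF p k t q)^[2] (sb 9 c) = sb 11 (sg 2 c) := by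
  rw [Function.iterate_succ_apply', itF_9_1, modF_sb_10, frob_eq]
  try simp only [map_mul, map_pow, map_natCast, sg_sg]
  try rw [← mul_assoc, ← pow_succ']
  try norm_num

theorem itV_9_0 : (modV p k t q)^[0] (sb 9 c) = sb 9 c := rfl

theorem itV_9_1 : (modV p k t q)^[1] (sb 9 c) = sb 8 ((p : WittVector p k) ^ 1 * sg (-1) c) := by
  rw [Function.iterate_succ_apply', itV_9_0, modV_sb_9, frobInv_eq]
  try simp only [map_mul, map_pow, map_natCast, sg_sg]
  try rw [← mul_assoc, ← pow_succ']
  try norm_num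

theorem itV_9_2 : (modV p k t q)^[2] (sb 9 c) = sb 7 ((p : WittVector p k) ^ 2 * sg (-2) c) := by
  rw [Function.iterate_succ_apply', itV_9_1, modV_sb_8, frobInv_eq]
  try simp only [map_mul, map_pow, map_natCast, sg_sg]
  try rw [← mul_assoc, ← pow_succ']
  try norm_num

theorem itV_9_3 : (modV p k t q)^[3] (sb 9 c) = sb 6 ((p : WittVector p k) ^ 3 * sg (-3) c) := by
  rw [Function.iterate_succ_apply', itV_9_2, modV_sb_7, frobInv_eq]
  try simp only [map_mul, map_pow, map_natCast, sg_sg]
  try rw [← mul_assoc, ← pow_succ']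
  try norm_num

theorem itV_9_4 : (modV p k t q)^[4] (sb 9 c) = sb 5 ((p : WittVector p k) ^ 3 * sg (-4) c) := by
  rw [Function.iterate_succ_apply', itV_9_3, modV_sb_6, frobInv_eq]
  try simp only [map_mul, map_pow, map_natCast, sg_sg]
  try rw [← mul_assoc, ← pow_succ']
  try norm_num

theorem itV_9_5 : (modV p k t q)^[5] (sb 9 c) = sb 4 ((p : WittVector p k) ^ 3 * sg (-5) c) := by
  rw [Function.iterate_succ_apply', itV_9_4, modV_sb_5, frobInv_eq]
  try simp only [map_mul, map_pow, map_natCast, sg_sg]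
  try rw [← mul_assoc, ← pow_succ']
  try norm_num

theorem itV_9_6 : (modV p k t q)^[6] (sb 9 c) = sb 3 ((p : WittVector p k) ^ 3 * sg (-6) c) := by
  rw [Function.iterate_succ_apply', itV_9_5, modV_sb_4, frobInv_eq]
  try simp only [map_mul, map_pow, map_natCast, sg_sg]
  try rw [← mul_assoc, ← pow_succ']
  try norm_num

theorem itV_9_7 : (modV p k t q)^[7] (sb 9 c) = sb 2 ((p : WittVector p k) ^ 3 * sg (-7) c) := by
  rw [Function.iterate_succ_apply', itV_9_6, modV_sb_3, frobInv_eq]
  try simp only [map_mul, map_pow, map_natCast, sg_sg]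
  try rw [← mul_assoc, ← pow_succ']
  try norm_num

theorem itV_9_8 : (modV p k t q)^[8] (sb 9 c) = sb 1 ((p : WittVector p k) ^ 3 * sg (-8) c) := by
  rw [Function.iterate_succ_apply', itV_9_7, modV_sb_2, frobInv_eq]
  try simp only [map_mul, map_pow, map_natCast, sg_sg]
  try rw [← mul_assoc, ← pow_succ']
  try norm_num

theorem itV_9_9 : (modV p k t q)^[9] (sb 9 c) = sb 0 ((p : WittVector p k) ^ 3 * sg (-9) c) := by
  rw [Function.iterate_succ_apply', itV_9_8, modV_sb_1, frobInv_eq]
  try simp only [map_mul, map_pow, map_natCast, sg_sg]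
  try rw [← mul_assoc, ← pow_succ']
  try norm_num

theorem itF_10_0 : (modF p k t q)^[0] (sb 10 c) = sb 10 c := rfl

theorem itF_10_1 : (modF p k t q)^[1] (sb 10 c) = sb 11 (sg 1 c) := by
  rw [Function.iterate_succ_apply', itF_10_0, modF_sb_10, frob_eq]
  try simp only [map_mul, map_pow, map_natCast, sg_sg]
  try rw [← mul_assoc, ← pow_succ']
  try norm_num

theorem itV_10_0 : (modV p k t q)^[0] (sb 10 c) = sb 10 c := rfl

theorem itV_10_1 : (modV p k t q)^[1] (sb 10 c) = sb 9 ((p : WittVector p k) ^ 1 * sg (-1) c) := by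
  rw [Function.iterate_succ_apply', itV_10_0, modV_sb_10, frobInv_eq]
  try simp only [map_mul, map_pow, map_natCast, sg_sg]
  try rw [← mul_assoc, ← pow_succ']
  try norm_num

theorem itV_10_2 : (modV p k t q)^[2] (sb 10 c) = sb 8 ((p : WittVector p k) ^ 2 * sg (-2) c) := by
  rw [Function.iterate_succ_apply', itV_10_1, modV_sb_9, frobInv_eq]
  try simp only [map_mul, map_pow, map_natCast, sg_sg]
  try rw [← mul_assoc, ← pow_succ']
  try norm_num

theorem itV_10_3 : (modV p k t q)^[3] (sb 10 c) = sb 7 ((p : WittVector p k) ^ 3 * sg (-3) c) := by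
  rw [Function.iterate_succ_apply', itV_10_2, modV_sb_8, frobInv_eq]
  try simp only [map_mul, map_pow, map_natCast, sg_sg]
  try rw [← mul_assoc, ← pow_succ']
  try norm_num

theorem itV_10_4 : (modV p k t q)^[4] (sb 10 c) = sb 6 ((p : WittVector p k) ^ 4 * sg (-4) c) := by
  rw [Function.iterate_succ_apply', itV_10_3, modV_sb_7, frobInv_eq]
  try simp only [map_mul, map_pow, map_natCast, sg_sg]
  try rw [← mul_assoc, ← pow_succ']
  try norm_num

theorem itV_10_5 : (modV p k t q)^[5] (sb 10 c) = sb 5 ((p : WittVector p k) ^ 4 * sg (-5) c) := by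
  rw [Function.iterate_succ_apply', itV_10_4, modV_sb_6, frobInv_eq]
  try simp only [map_mul, map_pow, map_natCast, sg_sg]
  try rw [← mul_assoc, ← pow_succ']
  try norm_num

theorem itV_10_6 : (modV p k t q)^[6] (sb 10 c) = sb 4 ((p : WittVector p k) ^ 4 * sg (-6) c) := by
  rw [Function.iterate_succ_apply', itV_10_5, modV_sb_5, frobInv_eq]
  try simp only [map_mul, map_pow, map_natCast, sg_sg]
  try rw [← mul_assoc, ← pow_succ']
  try norm_num

theorem itV_10_7 : (modV p k t q)^[7] (sb 10 c) = sb 3 ((p : WittVector p k) ^ 4 * sg (-7) c) := by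
  rw [Function.iterate_succ_apply', itV_10_6, modV_sb_4, frobInv_eq]
  try simp only [map_mul, map_pow, map_natCast, sg_sg]
  try rw [← mul_assoc, ← pow_succ']
  try norm_num

theorem itV_10_8 : (modV p k t q)^[8] (sb 10 c) = sb 2 ((p : WittVector p k) ^ 4 * sg (-8) c) := by
  rw [Function.iterate_succ_apply', itV_10_7, modV_sb_3, frobInv_eq]
  try simp only [map_mul, map_pow, map_natCast, sg_sg]
  try rw [← mul_assoc, ← pow_succ']
  try norm_num

theorem itV_10_9 : (modV p k t q)^[9] (sb 10 c) = sb 1 ((p : WittVector p k) ^ 4 * sg (-9) c) := by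
  rw [Function.iterate_succ_apply', itV_10_8, modV_sb_2, frobInv_eq]
  try simp only [map_mul, map_pow, map_natCast, sg_sg]
  try rw [← mul_assoc, ← pow_succ']
  try norm_num

theorem itV_10_10 : (modV p k t q)^[10] (sb 10 c) = sb 0 ((p : WittVector p k) ^ 4 * sg (-10) c) := by
  rw [Function.iterate_succ_apply', itV_10_9, modV_sb_1, frobInv_eq]
  try simp only [map_mul, map_pow, map_natCast, sg_sg]
  try rw [← mul_assoc, ← pow_succ']
  try norm_num

theorem itF_11_0 : (modF p k t q)^[0] (sb 11 c) = sb 11 c := rfl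

theorem itV_11_0 : (modV p k t q)^[0] (sb 11 c) = sb 11 c := rfl

theorem itV_11_1 : (modV p k t q)^[1] (sb 11 c) = sb 10 ((p : WittVector p k) ^ 1 * sg (-1) c) := by
  rw [Function.iterate_succ_apply', itV_11_0, modV_sb_11, frobInv_eq]
  try simp only [map_mul, map_pow, map_natCast, sg_sg]
  try rw [← mul_assoc, ← pow_succ']
  try norm_num

theorem itV_11_2 : (modV p k t q)^[2] (sb 11 c) = sb 9 ((p : WittVector p k) ^ 2 * sg (-2) c) := by
  rw [Function.iterate_succ_apply', itV_11_1, modV_sb_10, frobInv_eq]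
  try simp only [map_mul, map_pow, map_natCast, sg_sg]
  try rw [← mul_assoc, ← pow_succ']
  try norm_num

theorem itV_11_3 : (modV p k t q)^[3] (sb 11 c) = sb 8 ((p : WittVector p k) ^ 3 * sg (-3) c) := by
  rw [Function.iterate_succ_apply', itV_11_2, modV_sb_9, frobInv_eq]
  try simp only [map_mul, map_pow, map_natCast, sg_sg]
  try rw [← mul_assoc, ← pow_succ']
  try norm_num

theorem itV_11_4 : (modV p k t q)^[4] (sb 11 c) = sb 7 ((p : WittVector p k) ^ 4 * sg (-4) c) := by
  rw [Function.iterate_succ_apply', itV_11_3, modV_sb_8, frobInv_eq]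
  try simp only [map_mul, map_pow, map_natCast, sg_sg]
  try rw [← mul_assoc, ← pow_succ']
  try norm_num

theorem itV_11_5 : (modV p k t q)^[5] (sb 11 c) = sb 6 ((p : WittVector p k) ^ 5 * sg (-5) c) := by
  rw [Function.iterate_succ_apply', itV_11_4, modV_sb_7, frobInv_eq]
  try simp only [map_mul, map_pow, map_natCast, sg_sg]
  try rw [← mul_assoc, ← pow_succ']
  try norm_num

theorem itV_11_6 : (modV p k t q)^[6] (sb 11 c) = sb 5 ((p : WittVector p k) ^ 5 * sg (-6) c) := by
  rw [Function.iterate_succ_apply', itV_11_5, modV_sb_6, frobInv_eq]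
  try simp only [map_mul, map_pow, map_natCast, sg_sg]
  try rw [← mul_assoc, ← pow_succ']
  try norm_num

theorem itV_11_7 : (modV p k t q)^[7] (sb 11 c) = sb 4 ((p : WittVector p k) ^ 5 * sg (-7) c) := by
  rw [Function.iterate_succ_apply', itV_11_6, modV_sb_5, frobInv_eq]
  try simp only [map_mul, map_pow, map_natCast, sg_sg]
  try rw [← mul_assoc, ← pow_succ']
  try norm_num

theorem itV_11_8 : (modV p k t q)^[8] (sb 11 c) = sb 3 ((p : WittVector p k) ^ 5 * sg (-8) c) := by
  rw [Function.iterate_succ_apply', itV_11_7, modV_sb_4, frobInv_eq]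
  try simp only [map_mul, map_pow, map_natCast, sg_sg]
  try rw [← mul_assoc, ← pow_succ']
  try norm_num

theorem itV_11_9 : (modV p k t q)^[9] (sb 11 c) = sb 2 ((p : WittVector p k) ^ 5 * sg (-9) c) := by
  rw [Function.iterate_succ_apply', itV_11_8, modV_sb_3, frobInv_eq]
  try simp only [map_mul, map_pow, map_natCast, sg_sg]
  try rw [← mul_assoc, ← pow_succ']
  try norm_num

theorem itV_11_10 : (modV p k t q)^[10] (sb 11 c) = sb 1 ((p : WittVector p k) ^ 5 * sg (-10) c) := by
  rw [Function.iterate_succ_apply', itV_11_9, modV_sb_2, frobInv_eq]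
  try simp only [map_mul, map_pow, map_natCast, sg_sg]
  try rw [← mul_assoc, ← pow_succ']
  try norm_num

theorem itV_11_11 : (modV p k t q)^[11] (sb 11 c) = sb 0 ((p : WittVector p k) ^ 5 * sg (-11) c) := by
  rw [Function.iterate_succ_apply', itV_11_10, modV_sb_1, frobInv_eq]
  try simp only [map_mul, map_pow, map_natCast, sg_sg]
  try rw [← mul_assoc, ← pow_succ']
  try norm_num

end Iter

theorem sg_natCast (n : ℤ) (m : ℕ) : sg n (m : WittVector p k) = m := map_natCast _ _

theorem sg_nat_coeff (n m : ℕ) (c : WittVector p k) :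
    (sg (n : ℤ) c).coeff m = c.coeff m ^ p ^ n := by
  induction n generalizing c with
  | zero => simp [sg_zero]
  | succ n ih =>
    have : ((n + 1 : ℕ) : ℤ) = 1 + (n : ℤ) := by push_cast; ring
    rw [this, ← sg_sg, sg_one, WittVector.coeff_frobenius_charP, ih, ← pow_mul, pow_succ]

/-- `1 - σ^6` as an additive map. -/
noncomputable def oneSub6 : WittVector p k →+ WittVector p k :=
  AddMonoidHom.mk' (fun c => c - sg 6 c) (by intro a b; simp only [map_add]; ring)

theorem oneSub6_surj : Function.Surjective (oneSub6 (p := p) (k := k)) := by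
  apply surjective_of_mod_p
  intro w
  obtain ⟨x0, hx0⟩ : ∃ x : k, x - x ^ p ^ 6 = w.coeff 0 := by
    have hdeg : (Polynomial.X ^ p ^ 6 - Polynomial.X + Polynomial.C (w.coeff 0) :
        Polynomial k).degree ≠ 0 := by
      have h1 : 1 < p ^ 6 := Nat.one_lt_pow (by norm_num) (Fact.out : p.Prime).one_lt
      have hlt : (Polynomial.C (w.coeff 0) - Polynomial.X : Polynomial k).degree
          < (Polynomial.X ^ p ^ 6 : Polynomial k).degree := by
        refine lt_of_le_of_lt (Polynomial.degree_sub_le _ _) ?_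
        rw [Polynomial.degree_X_pow]
        refine max_lt (lt_of_le_of_lt Polynomial.degree_C_le ?_) ?_
        · exact_mod_cast (by omega : 0 < p ^ 6)
        · rw [Polynomial.degree_X]; exact_mod_cast h1
      rw [show (Polynomial.X ^ p ^ 6 - Polynomial.X + Polynomial.C (w.coeff 0) :
        Polynomial k) = Polynomial.X ^ p ^ 6 + (Polynomial.C (w.coeff 0) - Polynomial.X) by ring,
        Polynomial.degree_add_eq_left_of_degree_lt hlt, Polynomial.degree_X_pow]
      exact_mod_cast (by omega : p ^ 6 ≠ 0)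
    obtain ⟨x, hx⟩ := IsAlgClosed.exists_root _ hdeg
    refine ⟨x, ?_⟩
    simp only [Polynomial.IsRoot.def, Polynomial.eval_add, Polynomial.eval_sub,
      Polynomial.eval_pow, Polynomial.eval_X, Polynomial.eval_C] at hx
    linear_combination -hx
  have h6 : ∀ c : WittVector p k, (sg 6 c).coeff 0 = c.coeff 0 ^ p ^ 6 := fun c =>
    sg_nat_coeff 6 0 c
  have hc : (w - oneSub6 (WittVector.teichmuller p x0)).coeff 0 = 0 := by
    have h0 : ∀ a b : WittVector p k, (a - b).coeff 0 = a.coeff 0 - b.coeff 0 := fun a b => by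
      change WittVector.constantCoeff (a - b) = _
      rw [map_sub]; rfl
    change (w - (WittVector.teichmuller p x0 - sg 6 (WittVector.teichmuller p x0))).coeff 0 = 0
    rw [h0, h0, h6, WittVector.teichmuller_coeff_zero, hx0, sub_self]
  obtain ⟨w', hw'⟩ := Ideal.mem_span_singleton.mp
    ((WittVector.mem_span_p_iff_coeff_zero_eq_zero _).mpr hc)
  exact ⟨WittVector.teichmuller p x0, w', by rw [← hw']; ring⟩

end Pool.Agent.UA
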