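import Pool.Agent.Lib.MP_381773_ag.Defs

/-!
# The Dieudonne modules `M(t,q)`

`M(t,q)` is generated by `e` over the Dieudonne ring with the single relation
`(F^6 + t F^3 + q + t V^3 + V^6) e = 0`.  Its basis is `V^6 e, ..., V e, e, F e, ..., F^5 e`,
listed in this order (so `e` has index `6`).
-/

set_option autoImplicit false
set_option linter.unusedSimpArgs false

universe u

namespace Pool.Agent.UA

open WittVector

variable {p : ℕ} [Fact p.Prime] {k : Type u} [Field k] [IsAlgClosed k] [CharP k p]

theorem frob_frobInv (x : WittVector p k) : frob p k (frobInv p k x) = x :=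
  (WittVector.frobeniusEquiv p k).apply_symm_apply x

theorem frobInv_frob (x : WittVector p k) : frobInv p k (frob p k x) = x :=
  (WittVector.frobeniusEquiv p k).symm_apply_apply x

/-- The Frobenius of `M(t,q)` in coordinates. -/
noncomputable def modF (p : ℕ) [Fact p.Prime] (k : Type u) [Field k] [IsAlgClosed k] [CharP k p]
    (t q : ℕ) : (Fin 12 → WittVector p k) →ₛₗ[frob p k] (Fin 12 → WittVector p k) where
  toFun x :=
    ![-frob p k (x 11),
      (p : WittVector p k) * frob p k (x 0),
      (p : WittVector p k) * frob p k (x 1),
      (p : WittVector p k) * frob p k (x 2) - (t : WittVector p k) * frob p k (x 11),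
      (p : WittVector p k) * frob p k (x 3),
      (p : WittVector p k) * frob p k (x 4),
      (p : WittVector p k) * frob p k (x 5) - (q : WittVector p k) * frob p k (x 11),
      frob p k (x 6),
      frob p k (x 7),
      frob p k (x 8) - (t : WittVector p k) * frob p k (x 11),
      frob p k (x 9),
      frob p k (x 10)]
  map_add' x y := by
    ext1 i
    fin_cases i <;> simp only [Pi.add_apply, map_add] <;> simp <;> ring
  map_smul' c x := by
    ext1 i
    fin_cases i <;> simp only [Pi.smul_apply, smul_eq_mul, map_mul] <;> simp <;> ring

/-- The Verschiebung of `M(t,q)` in coordinates. -/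
noncomputable def modV (p : ℕ) [Fact p.Prime] (k : Type u) [Field k] [IsAlgClosed k] [CharP k p]
    (t q : ℕ) : (Fin 12 → WittVector p k) →ₛₗ[frobInv p k] (Fin 12 → WittVector p k) where
  toFun x :=
    ![frobInv p k (x 1),
      frobInv p k (x 2),
      frobInv p k (x 3) - (t : WittVector p k) * frobInv p k (x 0),
      frobInv p k (x 4),
      frobInv p k (x 5),
      frobInv p k (x 6) - (q : WittVector p k) * frobInv p k (x 0),
      (p : WittVector p k) * frobInv p k (x 7),
      (p : WittVector p k) * frobInv p k (x 8),
      (p : WittVector p k) * frobInv p k (x 9)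
        - (p : WittVector p k) * ((t : WittVector p k) * frobInv p k (x 0)),
      (p : WittVector p k) * frobInv p k (x 10),
      (p : WittVector p k) * frobInv p k (x 11),
      -((p : WittVector p k) * frobInv p k (x 0))]
  map_add' x y := by
    ext1 i
    fin_cases i <;> simp only [Pi.add_apply, map_add] <;> simp <;> ring
  map_smul' c x := by
    ext1 i
    fin_cases i <;> simp only [Pi.smul_apply, smul_eq_mul, map_mul] <;> simp <;> ring

section Apply
variable (t q : ℕ) (x : Fin 12 → WittVector p k)

theorem modF_0 : modF p k t q x 0 = -frob p k (x 11) := rfl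
theorem modF_1 : modF p k t q x 1 = (p : WittVector p k) * frob p k (x 0) := rfl
theorem modF_2 : modF p k t q x 2 = (p : WittVector p k) * frob p k (x 1) := rfl
theorem modF_3 : modF p k t q x 3 = (p : WittVector p k) * frob p k (x 2) - (t : WittVector p k) * frob p k (x 11) := rfl
theorem modF_4 : modF p k t q x 4 = (p : WittVector p k) * frob p k (x 3) := rfl
theorem modF_5 : modF p k t q x 5 = (p : WittVector p k) * frob p k (x 4) := rfl
theorem modF_6 : modF p k t q x 6 = (p : WittVector p k) * frob p k (x 5) - (q : WittVector p k) * frob p k (x 11) := rfl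
theorem modF_7 : modF p k t q x 7 = frob p k (x 6) := rfl
theorem modF_8 : modF p k t q x 8 = frob p k (x 7) := rfl
theorem modF_9 : modF p k t q x 9 = frob p k (x 8) - (t : WittVector p k) * frob p k (x 11) := rfl
theorem modF_10 : modF p k t q x 10 = frob p k (x 9) := rfl
theorem modF_11 : modF p k t q x 11 = frob p k (x 10) := rfl
theorem modV_0 : modV p k t q x 0 = frobInv p k (x 1) := rfl
theorem modV_1 : modV p k t q x 1 = frobInv p k (x 2) := rfl
theorem modV_2 : modV p k t q x 2 = frobInv p k (x 3) - (t : WittVector p k) * frobInv p k (x 0) := rfl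
theorem modV_3 : modV p k t q x 3 = frobInv p k (x 4) := rfl
theorem modV_4 : modV p k t q x 4 = frobInv p k (x 5) := rfl
theorem modV_5 : modV p k t q x 5 = frobInv p k (x 6) - (q : WittVector p k) * frobInv p k (x 0) := rfl
theorem modV_6 : modV p k t q x 6 = (p : WittVector p k) * frobInv p k (x 7) := rfl
theorem modV_7 : modV p k t q x 7 = (p : WittVector p k) * frobInv p k (x 8) := rfl
theorem modV_8 : modV p k t q x 8 = (p : WittVector p k) * frobInv p k (x 9)
      - (p : WittVector p k) * ((t : WittVector p k) * frobInv p k (x 0)) := rfl
theorem modV_9 : modV p k t q x 9 = (p : WittVector p k) * frobInv p k (x 10) := rfl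
theorem modV_10 : modV p k t q x 10 = (p : WittVector p k) * frobInv p k (x 11) := rfl
theorem modV_11 : modV p k t q x 11 = -((p : WittVector p k) * frobInv p k (x 0)) := rfl

end Apply

theorem modF_modV (t q : ℕ) (x : Fin 12 → WittVector p k) :
    modF p k t q (modV p k t q x) = (p : WittVector p k) • x := by
  ext1 i
  rw [Pi.smul_apply, smul_eq_mul]
  fin_cases i
  · change modF p k t q (modV p k t q x) 0 = (p : WittVector p k) * x 0
    simp only [modF_0, modV_11, map_sub, map_mul, map_neg, map_natCast, frob_frobInv] <;> ring
  · change modF p k t q (modV p k t q x) 1 = (p : WittVector p k) * x 1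
    simp only [modF_1, modV_0, map_sub, map_mul, map_neg, map_natCast, frob_frobInv] <;> ring
  · change modF p k t q (modV p k t q x) 2 = (p : WittVector p k) * x 2
    simp only [modF_2, modV_1, map_sub, map_mul, map_neg, map_natCast, frob_frobInv] <;> ring
  · change modF p k t q (modV p k t q x) 3 = (p : WittVector p k) * x 3
    simp only [modF_3, modV_2, modV_11, map_sub, map_mul, map_neg, map_natCast, frob_frobInv] <;> ring
  · change modF p k t q (modV p k t q x) 4 = (p : WittVector p k) * x 4
    simp only [modF_4, modV_3, map_sub, map_mul, map_neg, map_natCast, frob_frobInv] <;> ring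
  · change modF p k t q (modV p k t q x) 5 = (p : WittVector p k) * x 5
    simp only [modF_5, modV_4, map_sub, map_mul, map_neg, map_natCast, frob_frobInv] <;> ring
  · change modF p k t q (modV p k t q x) 6 = (p : WittVector p k) * x 6
    simp only [modF_6, modV_5, modV_11, map_sub, map_mul, map_neg, map_natCast, frob_frobInv] <;> ring
  · change modF p k t q (modV p k t q x) 7 = (p : WittVector p k) * x 7
    simp only [modF_7, modV_6, map_sub, map_mul, map_neg, map_natCast, frob_frobInv] <;> ring
  · change modF p k t q (modV p k t q x) 8 = (p : WittVector p k) * x 8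
    simp only [modF_8, modV_7, map_sub, map_mul, map_neg, map_natCast, frob_frobInv] <;> ring
  · change modF p k t q (modV p k t q x) 9 = (p : WittVector p k) * x 9
    simp only [modF_9, modV_8, modV_11, map_sub, map_mul, map_neg, map_natCast, frob_frobInv] <;> ring
  · change modF p k t q (modV p k t q x) 10 = (p : WittVector p k) * x 10
    simp only [modF_10, modV_9, map_sub, map_mul, map_neg, map_natCast, frob_frobInv] <;> ring
  · change modF p k t q (modV p k t q x) 11 = (p : WittVector p k) * x 11
    simp only [modF_11, modV_10, map_sub, map_mul, map_neg, map_natCast, frob_frobInv] <;> ring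

theorem modV_modF (t q : ℕ) (x : Fin 12 → WittVector p k) :
    modV p k t q (modF p k t q x) = (p : WittVector p k) • x := by
  ext1 i
  rw [Pi.smul_apply, smul_eq_mul]
  fin_cases i
  · change modV p k t q (modF p k t q x) 0 = (p : WittVector p k) * x 0
    simp only [modV_0, modF_1, map_sub, map_mul, map_neg, map_natCast, frobInv_frob] <;> ring
  · change modV p k t q (modF p k t q x) 1 = (p : WittVector p k) * x 1
    simp only [modV_1, modF_2, map_sub, map_mul, map_neg, map_natCast, frobInv_frob] <;> ring
  · change modV p k t q (modF p k t q x) 2 = (p : WittVector p k) * x 2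
    simp only [modV_2, modF_3, modF_0, map_sub, map_mul, map_neg, map_natCast, frobInv_frob] <;> ring
  · change modV p k t q (modF p k t q x) 3 = (p : WittVector p k) * x 3
    simp only [modV_3, modF_4, map_sub, map_mul, map_neg, map_natCast, frobInv_frob] <;> ring
  · change modV p k t q (modF p k t q x) 4 = (p : WittVector p k) * x 4
    simp only [modV_4, modF_5, map_sub, map_mul, map_neg, map_natCast, frobInv_frob] <;> ring
  · change modV p k t q (modF p k t q x) 5 = (p : WittVector p k) * x 5
    simp only [modV_5, modF_6, modF_0, map_sub, map_mul, map_neg, map_natCast, frobInv_frob] <;> ring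
  · change modV p k t q (modF p k t q x) 6 = (p : WittVector p k) * x 6
    simp only [modV_6, modF_7, map_sub, map_mul, map_neg, map_natCast, frobInv_frob] <;> ring
  · change modV p k t q (modF p k t q x) 7 = (p : WittVector p k) * x 7
    simp only [modV_7, modF_8, map_sub, map_mul, map_neg, map_natCast, frobInv_frob] <;> ring
  · change modV p k t q (modF p k t q x) 8 = (p : WittVector p k) * x 8
    simp only [modV_8, modF_9, modF_0, map_sub, map_mul, map_neg, map_natCast, frobInv_frob] <;> ring
  · change modV p k t q (modF p k t q x) 9 = (p : WittVector p k) * x 9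
    simp only [modV_9, modF_10, map_sub, map_mul, map_neg, map_natCast, frobInv_frob] <;> ring
  · change modV p k t q (modF p k t q x) 10 = (p : WittVector p k) * x 10
    simp only [modV_10, modF_11, map_sub, map_mul, map_neg, map_natCast, frobInv_frob] <;> ring
  · change modV p k t q (modF p k t q x) 11 = (p : WittVector p k) * x 11
    simp only [modV_11, modF_0, map_sub, map_mul, map_neg, map_natCast, frobInv_frob] <;> ring

/-- The Dieudonne module `M(t,q)`, of rank `12`. -/
noncomputable def modM (p : ℕ) [Fact p.Prime] (k : Type u) [Field k] [IsAlgClosed k] [CharP k p]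
    (t q : ℕ) : DieudonneModule p k where
  carrier := Fin 12 → WittVector p k
  F := modF p k t q
  V := modV p k t q
  FV := modF_modV t q
  VF := modV_modF t q

theorem modM_rank (t q : ℕ) : (modM p k t q).rank = 12 := by
  change Module.finrank (WittVector p k) (Fin 12 → WittVector p k) = 12
  rw [Module.finrank_fin_fun]

end Pool.Agent.UA
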