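import Pool.Agent.Lib.MP_381773_ag.Basis

/-!
# The linear maps underlying `F` and `V`, and the Newton polygon of `M(t,q)`
-/

set_option autoImplicit false
set_option linter.unusedSectionVars false
set_option linter.unusedSimpArgs false
set_option linter.all false

universe u

namespace Pool.Agent.UA

open WittVector

variable {p : ℕ} [Fact p.Prime] {k : Type u} [Field k] [IsAlgClosed k] [CharP k p]

/-- `σ` applied to the coordinates. -/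
noncomputable def cS (x : Fin 12 → WittVector p k) : Fin 12 → WittVector p k :=
  fun i => frob p k (x i)

/-- `σ⁻¹` applied to the coordinates. -/
noncomputable def cT (x : Fin 12 → WittVector p k) : Fin 12 → WittVector p k :=
  fun i => frobInv p k (x i)

theorem cS_cT (x : Fin 12 → WittVector p k) : cS (cT x) = x := by
  ext1 i; exact frob_frobInv _

theorem cT_cS (x : Fin 12 → WittVector p k) : cT (cS x) = x := by
  ext1 i; exact frobInv_frob _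

theorem cS_add (x y : Fin 12 → WittVector p k) : cS (x + y) = cS x + cS y := by
  ext1 i; exact map_add _ _ _

theorem cT_add (x y : Fin 12 → WittVector p k) : cT (x + y) = cT x + cT y := by
  ext1 i; exact map_add _ _ _

theorem cS_neg (x : Fin 12 → WittVector p k) : cS (-x) = -cS x := by
  ext1 i; exact map_neg _ _

theorem cS_sub (x y : Fin 12 → WittVector p k) : cS (x - y) = cS x - cS y := by
  ext1 i; exact map_sub _ _ _

theorem cS_smul (c : WittVector p k) (x : Fin 12 → WittVector p k) :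
    cS (c • x) = frob p k c • cS x := by
  ext1 i; exact map_mul _ _ _

theorem cT_smul (c : WittVector p k) (x : Fin 12 → WittVector p k) :
    cT (c • x) = frobInv p k c • cT x := by
  ext1 i; exact map_mul _ _ _

theorem cS_sb (i : Fin 12) (c : WittVector p k) : cS (sb i c) = sb i (frob p k c) := by
  ext1 j
  change frob p k (sb i c j) = sb i (frob p k c) j
  rw [sb_apply, sb_apply]
  split_ifs
  · rfl
  · exact map_zero _

theorem cT_sb (i : Fin 12) (c : WittVector p k) : cT (sb i c) = sb i (frobInv p k c) := by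
  ext1 j
  change frobInv p k (sb i c j) = sb i (frobInv p k c) j
  rw [sb_apply, sb_apply]
  split_ifs
  · rfl
  · exact map_zero _

/-- The linear map `F ∘ σ⁻¹`. -/
noncomputable def lF (t q : ℕ) :
    (Fin 12 → WittVector p k) →ₗ[WittVector p k] (Fin 12 → WittVector p k) where
  toFun x := modF p k t q (cT x)
  map_add' x y := by rw [cT_add, map_add]
  map_smul' c x := by
    rw [cT_smul, LinearMap.map_smulₛₗ, frob_frobInv]; rfl

/-- The linear map `V ∘ σ`. -/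
noncomputable def lV (t q : ℕ) :
    (Fin 12 → WittVector p k) →ₗ[WittVector p k] (Fin 12 → WittVector p k) where
  toFun x := modV p k t q (cS x)
  map_add' x y := by rw [cS_add, map_add]
  map_smul' c x := by
    rw [cS_smul, LinearMap.map_smulₛₗ, frobInv_frob]; rfl

/-- The linear map exchanging `F^i e` and `V^i e`. -/
noncomputable def lT (t q : ℕ) :
    (Fin 12 → WittVector p k) →ₗ[WittVector p k] (Fin 12 → WittVector p k) where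
  toFun x :=
    ![-x 0, x 11, x 10, x 9 - (t : WittVector p k) * x 0, x 8, x 7,
      x 6 - (q : WittVector p k) * x 0, x 5, x 4, x 3 - (t : WittVector p k) * x 0, x 2, x 1]
  map_add' x y := by
    ext1 i
    fin_cases i <;> simp only [Pi.add_apply, map_add] <;> simp <;> ring
  map_smul' c x := by
    ext1 i
    fin_cases i <;> simp only [Pi.smul_apply, smul_eq_mul, map_mul] <;> simp <;> ring

theorem lF_apply (t q : ℕ) (x : Fin 12 → WittVector p k) :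
    lF t q x = modF p k t q (cT x) := rfl

theorem lV_apply (t q : ℕ) (x : Fin 12 → WittVector p k) :
    lV t q x = modV p k t q (cS x) := rfl

theorem modF_eq (t q : ℕ) (x : Fin 12 → WittVector p k) :
    modF p k t q x = lF t q (cS x) := by
  rw [lF_apply, cT_cS]

section Values
variable (t q : ℕ) (c : WittVector p k)

theorem lF_sb_0 : lF t q (sb 0 c) = sb 1 ((p : WittVector p k) * c) := by
  rw [lF_apply, cT_sb, modF_sb_0, frob_frobInv]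

theorem lF_sb_1 : lF t q (sb 1 c) = sb 2 ((p : WittVector p k) * c) := by
  rw [lF_apply, cT_sb, modF_sb_1, frob_frobInv]

theorem lF_sb_2 : lF t q (sb 2 c) = sb 3 ((p : WittVector p k) * c) := by
  rw [lF_apply, cT_sb, modF_sb_2, frob_frobInv]

theorem lF_sb_3 : lF t q (sb 3 c) = sb 4 ((p : WittVector p k) * c) := by
  rw [lF_apply, cT_sb, modF_sb_3, frob_frobInv]

theorem lF_sb_4 : lF t q (sb 4 c) = sb 5 ((p : WittVector p k) * c) := by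
  rw [lF_apply, cT_sb, modF_sb_4, frob_frobInv]

theorem lF_sb_5 : lF t q (sb 5 c) = sb 6 ((p : WittVector p k) * c) := by
  rw [lF_apply, cT_sb, modF_sb_5, frob_frobInv]

theorem lF_sb_6 : lF t q (sb 6 c) = sb 7 (c) := by
  rw [lF_apply, cT_sb, modF_sb_6, frob_frobInv]

theorem lF_sb_7 : lF t q (sb 7 c) = sb 8 (c) := by
  rw [lF_apply, cT_sb, modF_sb_7, frob_frobInv]

theorem lF_sb_8 : lF t q (sb 8 c) = sb 9 (c) := by
  rw [lF_apply, cT_sb, modF_sb_8, frob_frobInv]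

theorem lF_sb_9 : lF t q (sb 9 c) = sb 10 (c) := by
  rw [lF_apply, cT_sb, modF_sb_9, frob_frobInv]

theorem lF_sb_10 : lF t q (sb 10 c) = sb 11 (c) := by
  rw [lF_apply, cT_sb, modF_sb_10, frob_frobInv]

theorem lF_sb_11 : lF t q (sb 11 c) = -sb 0 c - sb 3 ((t : WittVector p k) * c)
      - sb 6 ((q : WittVector p k) * c) - sb 9 ((t : WittVector p k) * c) := by
  rw [lF_apply, cT_sb, modF_sb_11, frob_frobInv]

theorem lV_sb_1 : lV t q (sb 1 c) = sb 0 (c) := by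
  rw [lV_apply, cS_sb, modV_sb_1, frobInv_frob]

theorem lV_sb_2 : lV t q (sb 2 c) = sb 1 (c) := by
  rw [lV_apply, cS_sb, modV_sb_2, frobInv_frob]

theorem lV_sb_3 : lV t q (sb 3 c) = sb 2 (c) := by
  rw [lV_apply, cS_sb, modV_sb_3, frobInv_frob]

theorem lV_sb_4 : lV t q (sb 4 c) = sb 3 (c) := by
  rw [lV_apply, cS_sb, modV_sb_4, frobInv_frob]

theorem lV_sb_5 : lV t q (sb 5 c) = sb 4 (c) := by
  rw [lV_apply, cS_sb, modV_sb_5, frobInv_frob]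

theorem lV_sb_6 : lV t q (sb 6 c) = sb 5 (c) := by
  rw [lV_apply, cS_sb, modV_sb_6, frobInv_frob]

theorem lV_sb_7 : lV t q (sb 7 c) = sb 6 ((p : WittVector p k) * c) := by
  rw [lV_apply, cS_sb, modV_sb_7, frobInv_frob]

theorem lV_sb_8 : lV t q (sb 8 c) = sb 7 ((p : WittVector p k) * c) := by
  rw [lV_apply, cS_sb, modV_sb_8, frobInv_frob]

theorem lV_sb_9 : lV t q (sb 9 c) = sb 8 ((p : WittVector p k) * c) := by
  rw [lV_apply, cS_sb, modV_sb_9, frobInv_frob]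

theorem lV_sb_10 : lV t q (sb 10 c) = sb 9 ((p : WittVector p k) * c) := by
  rw [lV_apply, cS_sb, modV_sb_10, frobInv_frob]

theorem lV_sb_11 : lV t q (sb 11 c) = sb 10 ((p : WittVector p k) * c) := by
  rw [lV_apply, cS_sb, modV_sb_11, frobInv_frob]

theorem lV_sb_0 : lV t q (sb 0 c) = -sb 2 ((t : WittVector p k) * c)
      - sb 5 ((q : WittVector p k) * c)
      - sb 8 ((p : WittVector p k) * ((t : WittVector p k) * c))
      - sb 11 ((p : WittVector p k) * c) := by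
  rw [lV_apply, cS_sb, modV_sb_0, frobInv_frob]

theorem lT_sb_1 : lT t q (sb 1 c) = sb 11 c := by
  ext1 i
  fin_cases i
  · change -(sb 1 c 0) = sb 11 c 0
    simp only [sb_apply] <;> simp
  · change sb 1 c 11 = sb 11 c 1
    simp only [sb_apply] <;> simp
  · change sb 1 c 10 = sb 11 c 2
    simp only [sb_apply] <;> simp
  · change sb 1 c 9 - (t : WittVector p k) * sb 1 c 0 = sb 11 c 3
    simp only [sb_apply] <;> simp
  · change sb 1 c 8 = sb 11 c 4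
    simp only [sb_apply] <;> simp
  · change sb 1 c 7 = sb 11 c 5
    simp only [sb_apply] <;> simp
  · change sb 1 c 6 - (q : WittVector p k) * sb 1 c 0 = sb 11 c 6
    simp only [sb_apply] <;> simp
  · change sb 1 c 5 = sb 11 c 7
    simp only [sb_apply] <;> simp
  · change sb 1 c 4 = sb 11 c 8
    simp only [sb_apply] <;> simp
  · change sb 1 c 3 - (t : WittVector p k) * sb 1 c 0 = sb 11 c 9
    simp only [sb_apply] <;> simp
  · change sb 1 c 2 = sb 11 c 10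
    simp only [sb_apply] <;> simp
  · change sb 1 c 1 = sb 11 c 11
    simp only [sb_apply] <;> simp

theorem lT_sb_2 : lT t q (sb 2 c) = sb 10 c := by
  ext1 i
  fin_cases i
  · change -(sb 2 c 0) = sb 10 c 0
    simp only [sb_apply] <;> simp
  · change sb 2 c 11 = sb 10 c 1
    simp only [sb_apply] <;> simp
  · change sb 2 c 10 = sb 10 c 2
    simp only [sb_apply] <;> simp
  · change sb 2 c 9 - (t : WittVector p k) * sb 2 c 0 = sb 10 c 3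
    simp only [sb_apply] <;> simp
  · change sb 2 c 8 = sb 10 c 4
    simp only [sb_apply] <;> simp
  · change sb 2 c 7 = sb 10 c 5
    simp only [sb_apply] <;> simp
  · change sb 2 c 6 - (q : WittVector p k) * sb 2 c 0 = sb 10 c 6
    simp only [sb_apply] <;> simp
  · change sb 2 c 5 = sb 10 c 7
    simp only [sb_apply] <;> simp
  · change sb 2 c 4 = sb 10 c 8
    simp only [sb_apply] <;> simp
  · change sb 2 c 3 - (t : WittVector p k) * sb 2 c 0 = sb 10 c 9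
    simp only [sb_apply] <;> simp
  · change sb 2 c 2 = sb 10 c 10
    simp only [sb_apply] <;> simp
  · change sb 2 c 1 = sb 10 c 11
    simp only [sb_apply] <;> simp

theorem lT_sb_3 : lT t q (sb 3 c) = sb 9 c := by
  ext1 i
  fin_cases i
  · change -(sb 3 c 0) = sb 9 c 0
    simp only [sb_apply] <;> simp
  · change sb 3 c 11 = sb 9 c 1
    simp only [sb_apply] <;> simp
  · change sb 3 c 10 = sb 9 c 2
    simp only [sb_apply] <;> simp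
  · change sb 3 c 9 - (t : WittVector p k) * sb 3 c 0 = sb 9 c 3
    simp only [sb_apply] <;> simp
  · change sb 3 c 8 = sb 9 c 4
    simp only [sb_apply] <;> simp
  · change sb 3 c 7 = sb 9 c 5
    simp only [sb_apply] <;> simp
  · change sb 3 c 6 - (q : WittVector p k) * sb 3 c 0 = sb 9 c 6
    simp only [sb_apply] <;> simp
  · change sb 3 c 5 = sb 9 c 7
    simp only [sb_apply] <;> simp
  · change sb 3 c 4 = sb 9 c 8
    simp only [sb_apply] <;> simp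
  · change sb 3 c 3 - (t : WittVector p k) * sb 3 c 0 = sb 9 c 9
    simp only [sb_apply] <;> simp
  · change sb 3 c 2 = sb 9 c 10
    simp only [sb_apply] <;> simp
  · change sb 3 c 1 = sb 9 c 11
    simp only [sb_apply] <;> simp

theorem lT_sb_4 : lT t q (sb 4 c) = sb 8 c := by
  ext1 i
  fin_cases i
  · change -(sb 4 c 0) = sb 8 c 0
    simp only [sb_apply] <;> simp
  · change sb 4 c 11 = sb 8 c 1
    simp only [sb_apply] <;> simp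
  · change sb 4 c 10 = sb 8 c 2
    simp only [sb_apply] <;> simp
  · change sb 4 c 9 - (t : WittVector p k) * sb 4 c 0 = sb 8 c 3
    simp only [sb_apply] <;> simp
  · change sb 4 c 8 = sb 8 c 4
    simp only [sb_apply] <;> simp
  · change sb 4 c 7 = sb 8 c 5
    simp only [sb_apply] <;> simp
  · change sb 4 c 6 - (q : WittVector p k) * sb 4 c 0 = sb 8 c 6
    simp only [sb_apply] <;> simp
  · change sb 4 c 5 = sb 8 c 7
    simp only [sb_apply] <;> simp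
  · change sb 4 c 4 = sb 8 c 8
    simp only [sb_apply] <;> simp
  · change sb 4 c 3 - (t : WittVector p k) * sb 4 c 0 = sb 8 c 9
    simp only [sb_apply] <;> simp
  · change sb 4 c 2 = sb 8 c 10
    simp only [sb_apply] <;> simp
  · change sb 4 c 1 = sb 8 c 11
    simp only [sb_apply] <;> simp

theorem lT_sb_5 : lT t q (sb 5 c) = sb 7 c := by
  ext1 i
  fin_cases i
  · change -(sb 5 c 0) = sb 7 c 0
    simp only [sb_apply] <;> simp
  · change sb 5 c 11 = sb 7 c 1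
    simp only [sb_apply] <;> simp
  · change sb 5 c 10 = sb 7 c 2
    simp only [sb_apply] <;> simp
  · change sb 5 c 9 - (t : WittVector p k) * sb 5 c 0 = sb 7 c 3
    simp only [sb_apply] <;> simp
  · change sb 5 c 8 = sb 7 c 4
    simp only [sb_apply] <;> simp
  · change sb 5 c 7 = sb 7 c 5
    simp only [sb_apply] <;> simp
  · change sb 5 c 6 - (q : WittVector p k) * sb 5 c 0 = sb 7 c 6
    simp only [sb_apply] <;> simp
  · change sb 5 c 5 = sb 7 c 7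
    simp only [sb_apply] <;> simp
  · change sb 5 c 4 = sb 7 c 8
    simp only [sb_apply] <;> simp
  · change sb 5 c 3 - (t : WittVector p k) * sb 5 c 0 = sb 7 c 9
    simp only [sb_apply] <;> simp
  · change sb 5 c 2 = sb 7 c 10
    simp only [sb_apply] <;> simp
  · change sb 5 c 1 = sb 7 c 11
    simp only [sb_apply] <;> simp

theorem lT_sb_6 : lT t q (sb 6 c) = sb 6 c := by
  ext1 i
  fin_cases i
  · change -(sb 6 c 0) = sb 6 c 0
    simp only [sb_apply] <;> simp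
  · change sb 6 c 11 = sb 6 c 1
    simp only [sb_apply] <;> simp
  · change sb 6 c 10 = sb 6 c 2
    simp only [sb_apply] <;> simp
  · change sb 6 c 9 - (t : WittVector p k) * sb 6 c 0 = sb 6 c 3
    simp only [sb_apply] <;> simp
  · change sb 6 c 8 = sb 6 c 4
    simp only [sb_apply] <;> simp
  · change sb 6 c 7 = sb 6 c 5
    simp only [sb_apply] <;> simp
  · change sb 6 c 6 - (q : WittVector p k) * sb 6 c 0 = sb 6 c 6
    simp only [sb_apply] <;> simp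
  · change sb 6 c 5 = sb 6 c 7
    simp only [sb_apply] <;> simp
  · change sb 6 c 4 = sb 6 c 8
    simp only [sb_apply] <;> simp
  · change sb 6 c 3 - (t : WittVector p k) * sb 6 c 0 = sb 6 c 9
    simp only [sb_apply] <;> simp
  · change sb 6 c 2 = sb 6 c 10
    simp only [sb_apply] <;> simp
  · change sb 6 c 1 = sb 6 c 11
    simp only [sb_apply] <;> simp

theorem lT_sb_7 : lT t q (sb 7 c) = sb 5 c := by
  ext1 i
  fin_cases i
  · change -(sb 7 c 0) = sb 5 c 0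
    simp only [sb_apply] <;> simp
  · change sb 7 c 11 = sb 5 c 1
    simp only [sb_apply] <;> simp
  · change sb 7 c 10 = sb 5 c 2
    simp only [sb_apply] <;> simp
  · change sb 7 c 9 - (t : WittVector p k) * sb 7 c 0 = sb 5 c 3
    simp only [sb_apply] <;> simp
  · change sb 7 c 8 = sb 5 c 4
    simp only [sb_apply] <;> simp
  · change sb 7 c 7 = sb 5 c 5
    simp only [sb_apply] <;> simp
  · change sb 7 c 6 - (q : WittVector p k) * sb 7 c 0 = sb 5 c 6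
    simp only [sb_apply] <;> simp
  · change sb 7 c 5 = sb 5 c 7
    simp only [sb_apply] <;> simp
  · change sb 7 c 4 = sb 5 c 8
    simp only [sb_apply] <;> simp
  · change sb 7 c 3 - (t : WittVector p k) * sb 7 c 0 = sb 5 c 9
    simp only [sb_apply] <;> simp
  · change sb 7 c 2 = sb 5 c 10
    simp only [sb_apply] <;> simp
  · change sb 7 c 1 = sb 5 c 11
    simp only [sb_apply] <;> simp

theorem lT_sb_8 : lT t q (sb 8 c) = sb 4 c := by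
  ext1 i
  fin_cases i
  · change -(sb 8 c 0) = sb 4 c 0
    simp only [sb_apply] <;> simp
  · change sb 8 c 11 = sb 4 c 1
    simp only [sb_apply] <;> simp
  · change sb 8 c 10 = sb 4 c 2
    simp only [sb_apply] <;> simp
  · change sb 8 c 9 - (t : WittVector p k) * sb 8 c 0 = sb 4 c 3
    simp only [sb_apply] <;> simp
  · change sb 8 c 8 = sb 4 c 4
    simp only [sb_apply] <;> simp
  · change sb 8 c 7 = sb 4 c 5
    simp only [sb_apply] <;> simp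
  · change sb 8 c 6 - (q : WittVector p k) * sb 8 c 0 = sb 4 c 6
    simp only [sb_apply] <;> simp
  · change sb 8 c 5 = sb 4 c 7
    simp only [sb_apply] <;> simp
  · change sb 8 c 4 = sb 4 c 8
    simp only [sb_apply] <;> simp
  · change sb 8 c 3 - (t : WittVector p k) * sb 8 c 0 = sb 4 c 9
    simp only [sb_apply] <;> simp
  · change sb 8 c 2 = sb 4 c 10
    simp only [sb_apply] <;> simp
  · change sb 8 c 1 = sb 4 c 11
    simp only [sb_apply] <;> simp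

theorem lT_sb_9 : lT t q (sb 9 c) = sb 3 c := by
  ext1 i
  fin_cases i
  · change -(sb 9 c 0) = sb 3 c 0
    simp only [sb_apply] <;> simp
  · change sb 9 c 11 = sb 3 c 1
    simp only [sb_apply] <;> simp
  · change sb 9 c 10 = sb 3 c 2
    simp only [sb_apply] <;> simp
  · change sb 9 c 9 - (t : WittVector p k) * sb 9 c 0 = sb 3 c 3
    simp only [sb_apply] <;> simp
  · change sb 9 c 8 = sb 3 c 4
    simp only [sb_apply] <;> simp
  · change sb 9 c 7 = sb 3 c 5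
    simp only [sb_apply] <;> simp
  · change sb 9 c 6 - (q : WittVector p k) * sb 9 c 0 = sb 3 c 6
    simp only [sb_apply] <;> simp
  · change sb 9 c 5 = sb 3 c 7
    simp only [sb_apply] <;> simp
  · change sb 9 c 4 = sb 3 c 8
    simp only [sb_apply] <;> simp
  · change sb 9 c 3 - (t : WittVector p k) * sb 9 c 0 = sb 3 c 9
    simp only [sb_apply] <;> simp
  · change sb 9 c 2 = sb 3 c 10
    simp only [sb_apply] <;> simp
  · change sb 9 c 1 = sb 3 c 11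
    simp only [sb_apply] <;> simp

theorem lT_sb_10 : lT t q (sb 10 c) = sb 2 c := by
  ext1 i
  fin_cases i
  · change -(sb 10 c 0) = sb 2 c 0
    simp only [sb_apply] <;> simp
  · change sb 10 c 11 = sb 2 c 1
    simp only [sb_apply] <;> simp
  · change sb 10 c 10 = sb 2 c 2
    simp only [sb_apply] <;> simp
  · change sb 10 c 9 - (t : WittVector p k) * sb 10 c 0 = sb 2 c 3
    simp only [sb_apply] <;> simp
  · change sb 10 c 8 = sb 2 c 4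
    simp only [sb_apply] <;> simp
  · change sb 10 c 7 = sb 2 c 5
    simp only [sb_apply] <;> simp
  · change sb 10 c 6 - (q : WittVector p k) * sb 10 c 0 = sb 2 c 6
    simp only [sb_apply] <;> simp
  · change sb 10 c 5 = sb 2 c 7
    simp only [sb_apply] <;> simp
  · change sb 10 c 4 = sb 2 c 8
    simp only [sb_apply] <;> simp
  · change sb 10 c 3 - (t : WittVector p k) * sb 10 c 0 = sb 2 c 9
    simp only [sb_apply] <;> simp
  · change sb 10 c 2 = sb 2 c 10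
    simp only [sb_apply] <;> simp
  · change sb 10 c 1 = sb 2 c 11
    simp only [sb_apply] <;> simp

theorem lT_sb_11 : lT t q (sb 11 c) = sb 1 c := by
  ext1 i
  fin_cases i
  · change -(sb 11 c 0) = sb 1 c 0
    simp only [sb_apply] <;> simp
  · change sb 11 c 11 = sb 1 c 1
    simp only [sb_apply] <;> simp
  · change sb 11 c 10 = sb 1 c 2
    simp only [sb_apply] <;> simp
  · change sb 11 c 9 - (t : WittVector p k) * sb 11 c 0 = sb 1 c 3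
    simp only [sb_apply] <;> simp
  · change sb 11 c 8 = sb 1 c 4
    simp only [sb_apply] <;> simp
  · change sb 11 c 7 = sb 1 c 5
    simp only [sb_apply] <;> simp
  · change sb 11 c 6 - (q : WittVector p k) * sb 11 c 0 = sb 1 c 6
    simp only [sb_apply] <;> simp
  · change sb 11 c 5 = sb 1 c 7
    simp only [sb_apply] <;> simp
  · change sb 11 c 4 = sb 1 c 8
    simp only [sb_apply] <;> simp
  · change sb 11 c 3 - (t : WittVector p k) * sb 11 c 0 = sb 1 c 9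
    simp only [sb_apply] <;> simp
  · change sb 11 c 2 = sb 1 c 10
    simp only [sb_apply] <;> simp
  · change sb 11 c 1 = sb 1 c 11
    simp only [sb_apply] <;> simp

theorem lT_sb_0 : lT t q (sb 0 c) = -sb 0 c - sb 3 ((t : WittVector p k) * c)
      - sb 6 ((q : WittVector p k) * c) - sb 9 ((t : WittVector p k) * c) := by
  ext1 i
  fin_cases i
  · change -(sb 0 c 0) = (-sb 0 c - sb 3 ((t : WittVector p k) * c)
      - sb 6 ((q : WittVector p k) * c) - sb 9 ((t : WittVector p k) * c) : Fin 12 → WittVector p k) 0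
    simp only [Pi.sub_apply, Pi.neg_apply, sb_apply]; simp
  · change sb 0 c 11 = (-sb 0 c - sb 3 ((t : WittVector p k) * c)
      - sb 6 ((q : WittVector p k) * c) - sb 9 ((t : WittVector p k) * c) : Fin 12 → WittVector p k) 1
    simp only [Pi.sub_apply, Pi.neg_apply, sb_apply]; simp
  · change sb 0 c 10 = (-sb 0 c - sb 3 ((t : WittVector p k) * c)
      - sb 6 ((q : WittVector p k) * c) - sb 9 ((t : WittVector p k) * c) : Fin 12 → WittVector p k) 2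
    simp only [Pi.sub_apply, Pi.neg_apply, sb_apply]; simp
  · change sb 0 c 9 - (t : WittVector p k) * sb 0 c 0 = (-sb 0 c - sb 3 ((t : WittVector p k) * c)
      - sb 6 ((q : WittVector p k) * c) - sb 9 ((t : WittVector p k) * c) : Fin 12 → WittVector p k) 3
    simp only [Pi.sub_apply, Pi.neg_apply, sb_apply]; simp
  · change sb 0 c 8 = (-sb 0 c - sb 3 ((t : WittVector p k) * c)
      - sb 6 ((q : WittVector p k) * c) - sb 9 ((t : WittVector p k) * c) : Fin 12 → WittVector p k) 4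
    simp only [Pi.sub_apply, Pi.neg_apply, sb_apply]; simp
  · change sb 0 c 7 = (-sb 0 c - sb 3 ((t : WittVector p k) * c)
      - sb 6 ((q : WittVector p k) * c) - sb 9 ((t : WittVector p k) * c) : Fin 12 → WittVector p k) 5
    simp only [Pi.sub_apply, Pi.neg_apply, sb_apply]; simp
  · change sb 0 c 6 - (q : WittVector p k) * sb 0 c 0 = (-sb 0 c - sb 3 ((t : WittVector p k) * c)
      - sb 6 ((q : WittVector p k) * c) - sb 9 ((t : WittVector p k) * c) : Fin 12 → WittVector p k) 6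
    simp only [Pi.sub_apply, Pi.neg_apply, sb_apply]; simp
  · change sb 0 c 5 = (-sb 0 c - sb 3 ((t : WittVector p k) * c)
      - sb 6 ((q : WittVector p k) * c) - sb 9 ((t : WittVector p k) * c) : Fin 12 → WittVector p k) 7
    simp only [Pi.sub_apply, Pi.neg_apply, sb_apply]; simp
  · change sb 0 c 4 = (-sb 0 c - sb 3 ((t : WittVector p k) * c)
      - sb 6 ((q : WittVector p k) * c) - sb 9 ((t : WittVector p k) * c) : Fin 12 → WittVector p k) 8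
    simp only [Pi.sub_apply, Pi.neg_apply, sb_apply]; simp
  · change sb 0 c 3 - (t : WittVector p k) * sb 0 c 0 = (-sb 0 c - sb 3 ((t : WittVector p k) * c)
      - sb 6 ((q : WittVector p k) * c) - sb 9 ((t : WittVector p k) * c) : Fin 12 → WittVector p k) 9
    simp only [Pi.sub_apply, Pi.neg_apply, sb_apply]; simp
  · change sb 0 c 2 = (-sb 0 c - sb 3 ((t : WittVector p k) * c)
      - sb 6 ((q : WittVector p k) * c) - sb 9 ((t : WittVector p k) * c) : Fin 12 → WittVector p k) 10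
    simp only [Pi.sub_apply, Pi.neg_apply, sb_apply]; simp
  · change sb 0 c 1 = (-sb 0 c - sb 3 ((t : WittVector p k) * c)
      - sb 6 ((q : WittVector p k) * c) - sb 9 ((t : WittVector p k) * c) : Fin 12 → WittVector p k) 11
    simp only [Pi.sub_apply, Pi.neg_apply, sb_apply]; simp

end Values

theorem add_ext {A B : (Fin 12 → WittVector p k) → (Fin 12 → WittVector p k)}
    (hA : ∀ x y, A (x + y) = A x + A y) (hB : ∀ x y, B (x + y) = B x + B y)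
    (h : ∀ i c, A (sb i c) = B (sb i c)) (x : Fin 12 → WittVector p k) : A x = B x := by
  have h0 : ∀ {A : (Fin 12 → WittVector p k) → (Fin 12 → WittVector p k)},
      (∀ x y, A (x + y) = A x + A y) → ∀ (s : Finset (Fin 12))
      (f : Fin 12 → Fin 12 → WittVector p k), A (∑ i ∈ s, f i) = ∑ i ∈ s, A (f i) := by
    intro A hA s f
    induction s using Finset.induction_on with
    | empty =>
      have := hA 0 0
      rw [add_zero] at this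
      simpa using this
    | insert a s ha ih => rw [Finset.sum_insert ha, Finset.sum_insert ha, hA, ih]
  rw [sum_sb x, h0 hA, h0 hB]
  exact Finset.sum_congr rfl fun i _ => h i _

theorem sb_nat_mul (i : Fin 12) (a c : WittVector p k) : sb i (a * c) = a • sb i c := by
  rw [sb_smul]

theorem lF_lV_aux0 (t q : ℕ) (c : WittVector p k) : lF t q (lV t q (sb 0 c)) = (p : WittVector p k) • (sb 0 c) := by
  simp only [lF_sb_0, lF_sb_1, lF_sb_2, lF_sb_3, lF_sb_4, lF_sb_5, lF_sb_6, lF_sb_7, lF_sb_8, lF_sb_9, lF_sb_10, lF_sb_11,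
      lV_sb_0, lV_sb_1, lV_sb_2, lV_sb_3, lV_sb_4, lV_sb_5, lV_sb_6, lV_sb_7, lV_sb_8, lV_sb_9, lV_sb_10, lV_sb_11,
      lT_sb_0, lT_sb_1, lT_sb_2, lT_sb_3, lT_sb_4, lT_sb_5, lT_sb_6, lT_sb_7, lT_sb_8, lT_sb_9, lT_sb_10, lT_sb_11, map_sub, map_neg, map_smul, sb_nat_mul]
  try module

theorem lF_lV_aux1 (t q : ℕ) (c : WittVector p k) : lF t q (lV t q (sb 1 c)) = (p : WittVector p k) • (sb 1 c) := by
  simp only [lF_sb_0, lF_sb_1, lF_sb_2, lF_sb_3, lF_sb_4, lF_sb_5, lF_sb_6, lF_sb_7, lF_sb_8, lF_sb_9, lF_sb_10, lF_sb_11,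
      lV_sb_0, lV_sb_1, lV_sb_2, lV_sb_3, lV_sb_4, lV_sb_5, lV_sb_6, lV_sb_7, lV_sb_8, lV_sb_9, lV_sb_10, lV_sb_11,
      lT_sb_0, lT_sb_1, lT_sb_2, lT_sb_3, lT_sb_4, lT_sb_5, lT_sb_6, lT_sb_7, lT_sb_8, lT_sb_9, lT_sb_10, lT_sb_11, map_sub, map_neg, map_smul, sb_nat_mul]
  try module

theorem lF_lV_aux2 (t q : ℕ) (c : WittVector p k) : lF t q (lV t q (sb 2 c)) = (p : WittVector p k) • (sb 2 c) := by
  simp only [lF_sb_0, lF_sb_1, lF_sb_2, lF_sb_3, lF_sb_4, lF_sb_5, lF_sb_6, lF_sb_7, lF_sb_8, lF_sb_9, lF_sb_10, lF_sb_11,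
      lV_sb_0, lV_sb_1, lV_sb_2, lV_sb_3, lV_sb_4, lV_sb_5, lV_sb_6, lV_sb_7, lV_sb_8, lV_sb_9, lV_sb_10, lV_sb_11,
      lT_sb_0, lT_sb_1, lT_sb_2, lT_sb_3, lT_sb_4, lT_sb_5, lT_sb_6, lT_sb_7, lT_sb_8, lT_sb_9, lT_sb_10, lT_sb_11, map_sub, map_neg, map_smul, sb_nat_mul]
  try module

theorem lF_lV_aux3 (t q : ℕ) (c : WittVector p k) : lF t q (lV t q (sb 3 c)) = (p : WittVector p k) • (sb 3 c) := by
  simp only [lF_sb_0, lF_sb_1, lF_sb_2, lF_sb_3, lF_sb_4, lF_sb_5, lF_sb_6, lF_sb_7, lF_sb_8, lF_sb_9, lF_sb_10, lF_sb_11,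
      lV_sb_0, lV_sb_1, lV_sb_2, lV_sb_3, lV_sb_4, lV_sb_5, lV_sb_6, lV_sb_7, lV_sb_8, lV_sb_9, lV_sb_10, lV_sb_11,
      lT_sb_0, lT_sb_1, lT_sb_2, lT_sb_3, lT_sb_4, lT_sb_5, lT_sb_6, lT_sb_7, lT_sb_8, lT_sb_9, lT_sb_10, lT_sb_11, map_sub, map_neg, map_smul, sb_nat_mul]
  try module

theorem lF_lV_aux4 (t q : ℕ) (c : WittVector p k) : lF t q (lV t q (sb 4 c)) = (p : WittVector p k) • (sb 4 c) := by
  simp only [lF_sb_0, lF_sb_1, lF_sb_2, lF_sb_3, lF_sb_4, lF_sb_5, lF_sb_6, lF_sb_7, lF_sb_8, lF_sb_9, lF_sb_10, lF_sb_11,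
      lV_sb_0, lV_sb_1, lV_sb_2, lV_sb_3, lV_sb_4, lV_sb_5, lV_sb_6, lV_sb_7, lV_sb_8, lV_sb_9, lV_sb_10, lV_sb_11,
      lT_sb_0, lT_sb_1, lT_sb_2, lT_sb_3, lT_sb_4, lT_sb_5, lT_sb_6, lT_sb_7, lT_sb_8, lT_sb_9, lT_sb_10, lT_sb_11, map_sub, map_neg, map_smul, sb_nat_mul]
  try module

theorem lF_lV_aux5 (t q : ℕ) (c : WittVector p k) : lF t q (lV t q (sb 5 c)) = (p : WittVector p k) • (sb 5 c) := by
  simp only [lF_sb_0, lF_sb_1, lF_sb_2, lF_sb_3, lF_sb_4, lF_sb_5, lF_sb_6, lF_sb_7, lF_sb_8, lF_sb_9, lF_sb_10, lF_sb_11,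
      lV_sb_0, lV_sb_1, lV_sb_2, lV_sb_3, lV_sb_4, lV_sb_5, lV_sb_6, lV_sb_7, lV_sb_8, lV_sb_9, lV_sb_10, lV_sb_11,
      lT_sb_0, lT_sb_1, lT_sb_2, lT_sb_3, lT_sb_4, lT_sb_5, lT_sb_6, lT_sb_7, lT_sb_8, lT_sb_9, lT_sb_10, lT_sb_11, map_sub, map_neg, map_smul, sb_nat_mul]
  try module

theorem lF_lV_aux6 (t q : ℕ) (c : WittVector p k) : lF t q (lV t q (sb 6 c)) = (p : WittVector p k) • (sb 6 c) := by
  simp only [lF_sb_0, lF_sb_1, lF_sb_2, lF_sb_3, lF_sb_4, lF_sb_5, lF_sb_6, lF_sb_7, lF_sb_8, lF_sb_9, lF_sb_10, lF_sb_11,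
      lV_sb_0, lV_sb_1, lV_sb_2, lV_sb_3, lV_sb_4, lV_sb_5, lV_sb_6, lV_sb_7, lV_sb_8, lV_sb_9, lV_sb_10, lV_sb_11,
      lT_sb_0, lT_sb_1, lT_sb_2, lT_sb_3, lT_sb_4, lT_sb_5, lT_sb_6, lT_sb_7, lT_sb_8, lT_sb_9, lT_sb_10, lT_sb_11, map_sub, map_neg, map_smul, sb_nat_mul]
  try module

theorem lF_lV_aux7 (t q : ℕ) (c : WittVector p k) : lF t q (lV t q (sb 7 c)) = (p : WittVector p k) • (sb 7 c) := by
  simp only [lF_sb_0, lF_sb_1, lF_sb_2, lF_sb_3, lF_sb_4, lF_sb_5, lF_sb_6, lF_sb_7, lF_sb_8, lF_sb_9, lF_sb_10, lF_sb_11,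
      lV_sb_0, lV_sb_1, lV_sb_2, lV_sb_3, lV_sb_4, lV_sb_5, lV_sb_6, lV_sb_7, lV_sb_8, lV_sb_9, lV_sb_10, lV_sb_11,
      lT_sb_0, lT_sb_1, lT_sb_2, lT_sb_3, lT_sb_4, lT_sb_5, lT_sb_6, lT_sb_7, lT_sb_8, lT_sb_9, lT_sb_10, lT_sb_11, map_sub, map_neg, map_smul, sb_nat_mul]
  try module

theorem lF_lV_aux8 (t q : ℕ) (c : WittVector p k) : lF t q (lV t q (sb 8 c)) = (p : WittVector p k) • (sb 8 c) := by
  simp only [lF_sb_0, lF_sb_1, lF_sb_2, lF_sb_3, lF_sb_4, lF_sb_5, lF_sb_6, lF_sb_7, lF_sb_8, lF_sb_9, lF_sb_10, lF_sb_11,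
      lV_sb_0, lV_sb_1, lV_sb_2, lV_sb_3, lV_sb_4, lV_sb_5, lV_sb_6, lV_sb_7, lV_sb_8, lV_sb_9, lV_sb_10, lV_sb_11,
      lT_sb_0, lT_sb_1, lT_sb_2, lT_sb_3, lT_sb_4, lT_sb_5, lT_sb_6, lT_sb_7, lT_sb_8, lT_sb_9, lT_sb_10, lT_sb_11, map_sub, map_neg, map_smul, sb_nat_mul]
  try module

theorem lF_lV_aux9 (t q : ℕ) (c : WittVector p k) : lF t q (lV t q (sb 9 c)) = (p : WittVector p k) • (sb 9 c) := by
  simp only [lF_sb_0, lF_sb_1, lF_sb_2, lF_sb_3, lF_sb_4, lF_sb_5, lF_sb_6, lF_sb_7, lF_sb_8, lF_sb_9, lF_sb_10, lF_sb_11,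
      lV_sb_0, lV_sb_1, lV_sb_2, lV_sb_3, lV_sb_4, lV_sb_5, lV_sb_6, lV_sb_7, lV_sb_8, lV_sb_9, lV_sb_10, lV_sb_11,
      lT_sb_0, lT_sb_1, lT_sb_2, lT_sb_3, lT_sb_4, lT_sb_5, lT_sb_6, lT_sb_7, lT_sb_8, lT_sb_9, lT_sb_10, lT_sb_11, map_sub, map_neg, map_smul, sb_nat_mul]
  try module

theorem lF_lV_aux10 (t q : ℕ) (c : WittVector p k) : lF t q (lV t q (sb 10 c)) = (p : WittVector p k) • (sb 10 c) := by
  simp only [lF_sb_0, lF_sb_1, lF_sb_2, lF_sb_3, lF_sb_4, lF_sb_5, lF_sb_6, lF_sb_7, lF_sb_8, lF_sb_9, lF_sb_10, lF_sb_11,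
      lV_sb_0, lV_sb_1, lV_sb_2, lV_sb_3, lV_sb_4, lV_sb_5, lV_sb_6, lV_sb_7, lV_sb_8, lV_sb_9, lV_sb_10, lV_sb_11,
      lT_sb_0, lT_sb_1, lT_sb_2, lT_sb_3, lT_sb_4, lT_sb_5, lT_sb_6, lT_sb_7, lT_sb_8, lT_sb_9, lT_sb_10, lT_sb_11, map_sub, map_neg, map_smul, sb_nat_mul]
  try module

theorem lF_lV_aux11 (t q : ℕ) (c : WittVector p k) : lF t q (lV t q (sb 11 c)) = (p : WittVector p k) • (sb 11 c) := by
  simp only [lF_sb_0, lF_sb_1, lF_sb_2, lF_sb_3, lF_sb_4, lF_sb_5, lF_sb_6, lF_sb_7, lF_sb_8, lF_sb_9, lF_sb_10, lF_sb_11,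
      lV_sb_0, lV_sb_1, lV_sb_2, lV_sb_3, lV_sb_4, lV_sb_5, lV_sb_6, lV_sb_7, lV_sb_8, lV_sb_9, lV_sb_10, lV_sb_11,
      lT_sb_0, lT_sb_1, lT_sb_2, lT_sb_3, lT_sb_4, lT_sb_5, lT_sb_6, lT_sb_7, lT_sb_8, lT_sb_9, lT_sb_10, lT_sb_11, map_sub, map_neg, map_smul, sb_nat_mul]
  try module

theorem lF_lV (t q : ℕ) (x : Fin 12 → WittVector p k) : lF t q (lV t q x) = (p : WittVector p k) • x := by
  refine add_ext (A := fun x => lF t q (lV t q x)) (B := fun x => (p : WittVector p k) • x) ?_ ?_ (fun i c => ?_) x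
  · intro x y; simp only [map_add, smul_add]
  · intro x y; simp only [map_add, smul_add]
  · fin_cases i
    · exact lF_lV_aux0 t q c
    · exact lF_lV_aux1 t q c
    · exact lF_lV_aux2 t q c
    · exact lF_lV_aux3 t q c
    · exact lF_lV_aux4 t q c
    · exact lF_lV_aux5 t q c
    · exact lF_lV_aux6 t q c
    · exact lF_lV_aux7 t q c
    · exact lF_lV_aux8 t q c
    · exact lF_lV_aux9 t q c
    · exact lF_lV_aux10 t q c
    · exact lF_lV_aux11 t q c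

theorem lV_lF_aux0 (t q : ℕ) (c : WittVector p k) : lV t q (lF t q (sb 0 c)) = (p : WittVector p k) • (sb 0 c) := by
  simp only [lF_sb_0, lF_sb_1, lF_sb_2, lF_sb_3, lF_sb_4, lF_sb_5, lF_sb_6, lF_sb_7, lF_sb_8, lF_sb_9, lF_sb_10, lF_sb_11,
      lV_sb_0, lV_sb_1, lV_sb_2, lV_sb_3, lV_sb_4, lV_sb_5, lV_sb_6, lV_sb_7, lV_sb_8, lV_sb_9, lV_sb_10, lV_sb_11,
      lT_sb_0, lT_sb_1, lT_sb_2, lT_sb_3, lT_sb_4, lT_sb_5, lT_sb_6, lT_sb_7, lT_sb_8, lT_sb_9, lT_sb_10, lT_sb_11, map_sub, map_neg, map_smul, sb_nat_mul]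
  try module

theorem lV_lF_aux1 (t q : ℕ) (c : WittVector p k) : lV t q (lF t q (sb 1 c)) = (p : WittVector p k) • (sb 1 c) := by
  simp only [lF_sb_0, lF_sb_1, lF_sb_2, lF_sb_3, lF_sb_4, lF_sb_5, lF_sb_6, lF_sb_7, lF_sb_8, lF_sb_9, lF_sb_10, lF_sb_11,
      lV_sb_0, lV_sb_1, lV_sb_2, lV_sb_3, lV_sb_4, lV_sb_5, lV_sb_6, lV_sb_7, lV_sb_8, lV_sb_9, lV_sb_10, lV_sb_11,
      lT_sb_0, lT_sb_1, lT_sb_2, lT_sb_3, lT_sb_4, lT_sb_5, lT_sb_6, lT_sb_7, lT_sb_8, lT_sb_9, lT_sb_10, lT_sb_11, map_sub, map_neg, map_smul, sb_nat_mul]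
  try module

theorem lV_lF_aux2 (t q : ℕ) (c : WittVector p k) : lV t q (lF t q (sb 2 c)) = (p : WittVector p k) • (sb 2 c) := by
  simp only [lF_sb_0, lF_sb_1, lF_sb_2, lF_sb_3, lF_sb_4, lF_sb_5, lF_sb_6, lF_sb_7, lF_sb_8, lF_sb_9, lF_sb_10, lF_sb_11,
      lV_sb_0, lV_sb_1, lV_sb_2, lV_sb_3, lV_sb_4, lV_sb_5, lV_sb_6, lV_sb_7, lV_sb_8, lV_sb_9, lV_sb_10, lV_sb_11,
      lT_sb_0, lT_sb_1, lT_sb_2, lT_sb_3, lT_sb_4, lT_sb_5, lT_sb_6, lT_sb_7, lT_sb_8, lT_sb_9, lT_sb_10, lT_sb_11, map_sub, map_neg, map_smul, sb_nat_mul]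
  try module

theorem lV_lF_aux3 (t q : ℕ) (c : WittVector p k) : lV t q (lF t q (sb 3 c)) = (p : WittVector p k) • (sb 3 c) := by
  simp only [lF_sb_0, lF_sb_1, lF_sb_2, lF_sb_3, lF_sb_4, lF_sb_5, lF_sb_6, lF_sb_7, lF_sb_8, lF_sb_9, lF_sb_10, lF_sb_11,
      lV_sb_0, lV_sb_1, lV_sb_2, lV_sb_3, lV_sb_4, lV_sb_5, lV_sb_6, lV_sb_7, lV_sb_8, lV_sb_9, lV_sb_10, lV_sb_11,
      lT_sb_0, lT_sb_1, lT_sb_2, lT_sb_3, lT_sb_4, lT_sb_5, lT_sb_6, lT_sb_7, lT_sb_8, lT_sb_9, lT_sb_10, lT_sb_11, map_sub, map_neg, map_smul, sb_nat_mul]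
  try module

theorem lV_lF_aux4 (t q : ℕ) (c : WittVector p k) : lV t q (lF t q (sb 4 c)) = (p : WittVector p k) • (sb 4 c) := by
  simp only [lF_sb_0, lF_sb_1, lF_sb_2, lF_sb_3, lF_sb_4, lF_sb_5, lF_sb_6, lF_sb_7, lF_sb_8, lF_sb_9, lF_sb_10, lF_sb_11,
      lV_sb_0, lV_sb_1, lV_sb_2, lV_sb_3, lV_sb_4, lV_sb_5, lV_sb_6, lV_sb_7, lV_sb_8, lV_sb_9, lV_sb_10, lV_sb_11,
      lT_sb_0, lT_sb_1, lT_sb_2, lT_sb_3, lT_sb_4, lT_sb_5, lT_sb_6, lT_sb_7, lT_sb_8, lT_sb_9, lT_sb_10, lT_sb_11, map_sub, map_neg, map_smul, sb_nat_mul]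
  try module

theorem lV_lF_aux5 (t q : ℕ) (c : WittVector p k) : lV t q (lF t q (sb 5 c)) = (p : WittVector p k) • (sb 5 c) := by
  simp only [lF_sb_0, lF_sb_1, lF_sb_2, lF_sb_3, lF_sb_4, lF_sb_5, lF_sb_6, lF_sb_7, lF_sb_8, lF_sb_9, lF_sb_10, lF_sb_11,
      lV_sb_0, lV_sb_1, lV_sb_2, lV_sb_3, lV_sb_4, lV_sb_5, lV_sb_6, lV_sb_7, lV_sb_8, lV_sb_9, lV_sb_10, lV_sb_11,
      lT_sb_0, lT_sb_1, lT_sb_2, lT_sb_3, lT_sb_4, lT_sb_5, lT_sb_6, lT_sb_7, lT_sb_8, lT_sb_9, lT_sb_10, lT_sb_11, map_sub, map_neg, map_smul, sb_nat_mul]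
  try module

theorem lV_lF_aux6 (t q : ℕ) (c : WittVector p k) : lV t q (lF t q (sb 6 c)) = (p : WittVector p k) • (sb 6 c) := by
  simp only [lF_sb_0, lF_sb_1, lF_sb_2, lF_sb_3, lF_sb_4, lF_sb_5, lF_sb_6, lF_sb_7, lF_sb_8, lF_sb_9, lF_sb_10, lF_sb_11,
      lV_sb_0, lV_sb_1, lV_sb_2, lV_sb_3, lV_sb_4, lV_sb_5, lV_sb_6, lV_sb_7, lV_sb_8, lV_sb_9, lV_sb_10, lV_sb_11,
      lT_sb_0, lT_sb_1, lT_sb_2, lT_sb_3, lT_sb_4, lT_sb_5, lT_sb_6, lT_sb_7, lT_sb_8, lT_sb_9, lT_sb_10, lT_sb_11, map_sub, map_neg, map_smul, sb_nat_mul]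
  try module

theorem lV_lF_aux7 (t q : ℕ) (c : WittVector p k) : lV t q (lF t q (sb 7 c)) = (p : WittVector p k) • (sb 7 c) := by
  simp only [lF_sb_0, lF_sb_1, lF_sb_2, lF_sb_3, lF_sb_4, lF_sb_5, lF_sb_6, lF_sb_7, lF_sb_8, lF_sb_9, lF_sb_10, lF_sb_11,
      lV_sb_0, lV_sb_1, lV_sb_2, lV_sb_3, lV_sb_4, lV_sb_5, lV_sb_6, lV_sb_7, lV_sb_8, lV_sb_9, lV_sb_10, lV_sb_11,
      lT_sb_0, lT_sb_1, lT_sb_2, lT_sb_3, lT_sb_4, lT_sb_5, lT_sb_6, lT_sb_7, lT_sb_8, lT_sb_9, lT_sb_10, lT_sb_11, map_sub, map_neg, map_smul, sb_nat_mul]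
  try module

theorem lV_lF_aux8 (t q : ℕ) (c : WittVector p k) : lV t q (lF t q (sb 8 c)) = (p : WittVector p k) • (sb 8 c) := by
  simp only [lF_sb_0, lF_sb_1, lF_sb_2, lF_sb_3, lF_sb_4, lF_sb_5, lF_sb_6, lF_sb_7, lF_sb_8, lF_sb_9, lF_sb_10, lF_sb_11,
      lV_sb_0, lV_sb_1, lV_sb_2, lV_sb_3, lV_sb_4, lV_sb_5, lV_sb_6, lV_sb_7, lV_sb_8, lV_sb_9, lV_sb_10, lV_sb_11,
      lT_sb_0, lT_sb_1, lT_sb_2, lT_sb_3, lT_sb_4, lT_sb_5, lT_sb_6, lT_sb_7, lT_sb_8, lT_sb_9, lT_sb_10, lT_sb_11, map_sub, map_neg, map_smul, sb_nat_mul]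
  try module

theorem lV_lF_aux9 (t q : ℕ) (c : WittVector p k) : lV t q (lF t q (sb 9 c)) = (p : WittVector p k) • (sb 9 c) := by
  simp only [lF_sb_0, lF_sb_1, lF_sb_2, lF_sb_3, lF_sb_4, lF_sb_5, lF_sb_6, lF_sb_7, lF_sb_8, lF_sb_9, lF_sb_10, lF_sb_11,
      lV_sb_0, lV_sb_1, lV_sb_2, lV_sb_3, lV_sb_4, lV_sb_5, lV_sb_6, lV_sb_7, lV_sb_8, lV_sb_9, lV_sb_10, lV_sb_11,
      lT_sb_0, lT_sb_1, lT_sb_2, lT_sb_3, lT_sb_4, lT_sb_5, lT_sb_6, lT_sb_7, lT_sb_8, lT_sb_9, lT_sb_10, lT_sb_11, map_sub, map_neg, map_smul, sb_nat_mul]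
  try module

theorem lV_lF_aux10 (t q : ℕ) (c : WittVector p k) : lV t q (lF t q (sb 10 c)) = (p : WittVector p k) • (sb 10 c) := by
  simp only [lF_sb_0, lF_sb_1, lF_sb_2, lF_sb_3, lF_sb_4, lF_sb_5, lF_sb_6, lF_sb_7, lF_sb_8, lF_sb_9, lF_sb_10, lF_sb_11,
      lV_sb_0, lV_sb_1, lV_sb_2, lV_sb_3, lV_sb_4, lV_sb_5, lV_sb_6, lV_sb_7, lV_sb_8, lV_sb_9, lV_sb_10, lV_sb_11,
      lT_sb_0, lT_sb_1, lT_sb_2, lT_sb_3, lT_sb_4, lT_sb_5, lT_sb_6, lT_sb_7, lT_sb_8, lT_sb_9, lT_sb_10, lT_sb_11, map_sub, map_neg, map_smul, sb_nat_mul]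
  try module

theorem lV_lF_aux11 (t q : ℕ) (c : WittVector p k) : lV t q (lF t q (sb 11 c)) = (p : WittVector p k) • (sb 11 c) := by
  simp only [lF_sb_0, lF_sb_1, lF_sb_2, lF_sb_3, lF_sb_4, lF_sb_5, lF_sb_6, lF_sb_7, lF_sb_8, lF_sb_9, lF_sb_10, lF_sb_11,
      lV_sb_0, lV_sb_1, lV_sb_2, lV_sb_3, lV_sb_4, lV_sb_5, lV_sb_6, lV_sb_7, lV_sb_8, lV_sb_9, lV_sb_10, lV_sb_11,
      lT_sb_0, lT_sb_1, lT_sb_2, lT_sb_3, lT_sb_4, lT_sb_5, lT_sb_6, lT_sb_7, lT_sb_8, lT_sb_9, lT_sb_10, lT_sb_11, map_sub, map_neg, map_smul, sb_nat_mul]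
  try module

theorem lV_lF (t q : ℕ) (x : Fin 12 → WittVector p k) : lV t q (lF t q x) = (p : WittVector p k) • x := by
  refine add_ext (A := fun x => lV t q (lF t q x)) (B := fun x => (p : WittVector p k) • x) ?_ ?_ (fun i c => ?_) x
  · intro x y; simp only [map_add, smul_add]
  · intro x y; simp only [map_add, smul_add]
  · fin_cases i
    · exact lV_lF_aux0 t q c
    · exact lV_lF_aux1 t q c
    · exact lV_lF_aux2 t q c
    · exact lV_lF_aux3 t q c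
    · exact lV_lF_aux4 t q c
    · exact lV_lF_aux5 t q c
    · exact lV_lF_aux6 t q c
    · exact lV_lF_aux7 t q c
    · exact lV_lF_aux8 t q c
    · exact lV_lF_aux9 t q c
    · exact lV_lF_aux10 t q c
    · exact lV_lF_aux11 t q c

theorem lT_lT_aux0 (t q : ℕ) (c : WittVector p k) : lT t q (lT t q (sb 0 c)) = (sb 0 c) := by
  simp only [lF_sb_0, lF_sb_1, lF_sb_2, lF_sb_3, lF_sb_4, lF_sb_5, lF_sb_6, lF_sb_7, lF_sb_8, lF_sb_9, lF_sb_10, lF_sb_11,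
      lV_sb_0, lV_sb_1, lV_sb_2, lV_sb_3, lV_sb_4, lV_sb_5, lV_sb_6, lV_sb_7, lV_sb_8, lV_sb_9, lV_sb_10, lV_sb_11,
      lT_sb_0, lT_sb_1, lT_sb_2, lT_sb_3, lT_sb_4, lT_sb_5, lT_sb_6, lT_sb_7, lT_sb_8, lT_sb_9, lT_sb_10, lT_sb_11, map_sub, map_neg, map_smul, sb_nat_mul]
  try module

theorem lT_lT_aux1 (t q : ℕ) (c : WittVector p k) : lT t q (lT t q (sb 1 c)) = (sb 1 c) := by
  simp only [lF_sb_0, lF_sb_1, lF_sb_2, lF_sb_3, lF_sb_4, lF_sb_5, lF_sb_6, lF_sb_7, lF_sb_8, lF_sb_9, lF_sb_10, lF_sb_11,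
      lV_sb_0, lV_sb_1, lV_sb_2, lV_sb_3, lV_sb_4, lV_sb_5, lV_sb_6, lV_sb_7, lV_sb_8, lV_sb_9, lV_sb_10, lV_sb_11,
      lT_sb_0, lT_sb_1, lT_sb_2, lT_sb_3, lT_sb_4, lT_sb_5, lT_sb_6, lT_sb_7, lT_sb_8, lT_sb_9, lT_sb_10, lT_sb_11, map_sub, map_neg, map_smul, sb_nat_mul]
  try module

theorem lT_lT_aux2 (t q : ℕ) (c : WittVector p k) : lT t q (lT t q (sb 2 c)) = (sb 2 c) := by
  simp only [lF_sb_0, lF_sb_1, lF_sb_2, lF_sb_3, lF_sb_4, lF_sb_5, lF_sb_6, lF_sb_7, lF_sb_8, lF_sb_9, lF_sb_10, lF_sb_11,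
      lV_sb_0, lV_sb_1, lV_sb_2, lV_sb_3, lV_sb_4, lV_sb_5, lV_sb_6, lV_sb_7, lV_sb_8, lV_sb_9, lV_sb_10, lV_sb_11,
      lT_sb_0, lT_sb_1, lT_sb_2, lT_sb_3, lT_sb_4, lT_sb_5, lT_sb_6, lT_sb_7, lT_sb_8, lT_sb_9, lT_sb_10, lT_sb_11, map_sub, map_neg, map_smul, sb_nat_mul]
  try module

theorem lT_lT_aux3 (t q : ℕ) (c : WittVector p k) : lT t q (lT t q (sb 3 c)) = (sb 3 c) := by
  simp only [lF_sb_0, lF_sb_1, lF_sb_2, lF_sb_3, lF_sb_4, lF_sb_5, lF_sb_6, lF_sb_7, lF_sb_8, lF_sb_9, lF_sb_10, lF_sb_11,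
      lV_sb_0, lV_sb_1, lV_sb_2, lV_sb_3, lV_sb_4, lV_sb_5, lV_sb_6, lV_sb_7, lV_sb_8, lV_sb_9, lV_sb_10, lV_sb_11,
      lT_sb_0, lT_sb_1, lT_sb_2, lT_sb_3, lT_sb_4, lT_sb_5, lT_sb_6, lT_sb_7, lT_sb_8, lT_sb_9, lT_sb_10, lT_sb_11, map_sub, map_neg, map_smul, sb_nat_mul]
  try module

theorem lT_lT_aux4 (t q : ℕ) (c : WittVector p k) : lT t q (lT t q (sb 4 c)) = (sb 4 c) := by
  simp only [lF_sb_0, lF_sb_1, lF_sb_2, lF_sb_3, lF_sb_4, lF_sb_5, lF_sb_6, lF_sb_7, lF_sb_8, lF_sb_9, lF_sb_10, lF_sb_11,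
      lV_sb_0, lV_sb_1, lV_sb_2, lV_sb_3, lV_sb_4, lV_sb_5, lV_sb_6, lV_sb_7, lV_sb_8, lV_sb_9, lV_sb_10, lV_sb_11,
      lT_sb_0, lT_sb_1, lT_sb_2, lT_sb_3, lT_sb_4, lT_sb_5, lT_sb_6, lT_sb_7, lT_sb_8, lT_sb_9, lT_sb_10, lT_sb_11, map_sub, map_neg, map_smul, sb_nat_mul]
  try module

theorem lT_lT_aux5 (t q : ℕ) (c : WittVector p k) : lT t q (lT t q (sb 5 c)) = (sb 5 c) := by
  simp only [lF_sb_0, lF_sb_1, lF_sb_2, lF_sb_3, lF_sb_4, lF_sb_5, lF_sb_6, lF_sb_7, lF_sb_8, lF_sb_9, lF_sb_10, lF_sb_11,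
      lV_sb_0, lV_sb_1, lV_sb_2, lV_sb_3, lV_sb_4, lV_sb_5, lV_sb_6, lV_sb_7, lV_sb_8, lV_sb_9, lV_sb_10, lV_sb_11,
      lT_sb_0, lT_sb_1, lT_sb_2, lT_sb_3, lT_sb_4, lT_sb_5, lT_sb_6, lT_sb_7, lT_sb_8, lT_sb_9, lT_sb_10, lT_sb_11, map_sub, map_neg, map_smul, sb_nat_mul]
  try module

theorem lT_lT_aux6 (t q : ℕ) (c : WittVector p k) : lT t q (lT t q (sb 6 c)) = (sb 6 c) := by
  simp only [lF_sb_0, lF_sb_1, lF_sb_2, lF_sb_3, lF_sb_4, lF_sb_5, lF_sb_6, lF_sb_7, lF_sb_8, lF_sb_9, lF_sb_10, lF_sb_11,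
      lV_sb_0, lV_sb_1, lV_sb_2, lV_sb_3, lV_sb_4, lV_sb_5, lV_sb_6, lV_sb_7, lV_sb_8, lV_sb_9, lV_sb_10, lV_sb_11,
      lT_sb_0, lT_sb_1, lT_sb_2, lT_sb_3, lT_sb_4, lT_sb_5, lT_sb_6, lT_sb_7, lT_sb_8, lT_sb_9, lT_sb_10, lT_sb_11, map_sub, map_neg, map_smul, sb_nat_mul]
  try module

theorem lT_lT_aux7 (t q : ℕ) (c : WittVector p k) : lT t q (lT t q (sb 7 c)) = (sb 7 c) := by
  simp only [lF_sb_0, lF_sb_1, lF_sb_2, lF_sb_3, lF_sb_4, lF_sb_5, lF_sb_6, lF_sb_7, lF_sb_8, lF_sb_9, lF_sb_10, lF_sb_11,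
      lV_sb_0, lV_sb_1, lV_sb_2, lV_sb_3, lV_sb_4, lV_sb_5, lV_sb_6, lV_sb_7, lV_sb_8, lV_sb_9, lV_sb_10, lV_sb_11,
      lT_sb_0, lT_sb_1, lT_sb_2, lT_sb_3, lT_sb_4, lT_sb_5, lT_sb_6, lT_sb_7, lT_sb_8, lT_sb_9, lT_sb_10, lT_sb_11, map_sub, map_neg, map_smul, sb_nat_mul]
  try module

theorem lT_lT_aux8 (t q : ℕ) (c : WittVector p k) : lT t q (lT t q (sb 8 c)) = (sb 8 c) := by
  simp only [lF_sb_0, lF_sb_1, lF_sb_2, lF_sb_3, lF_sb_4, lF_sb_5, lF_sb_6, lF_sb_7, lF_sb_8, lF_sb_9, lF_sb_10, lF_sb_11,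
      lV_sb_0, lV_sb_1, lV_sb_2, lV_sb_3, lV_sb_4, lV_sb_5, lV_sb_6, lV_sb_7, lV_sb_8, lV_sb_9, lV_sb_10, lV_sb_11,
      lT_sb_0, lT_sb_1, lT_sb_2, lT_sb_3, lT_sb_4, lT_sb_5, lT_sb_6, lT_sb_7, lT_sb_8, lT_sb_9, lT_sb_10, lT_sb_11, map_sub, map_neg, map_smul, sb_nat_mul]
  try module

theorem lT_lT_aux9 (t q : ℕ) (c : WittVector p k) : lT t q (lT t q (sb 9 c)) = (sb 9 c) := by
  simp only [lF_sb_0, lF_sb_1, lF_sb_2, lF_sb_3, lF_sb_4, lF_sb_5, lF_sb_6, lF_sb_7, lF_sb_8, lF_sb_9, lF_sb_10, lF_sb_11,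
      lV_sb_0, lV_sb_1, lV_sb_2, lV_sb_3, lV_sb_4, lV_sb_5, lV_sb_6, lV_sb_7, lV_sb_8, lV_sb_9, lV_sb_10, lV_sb_11,
      lT_sb_0, lT_sb_1, lT_sb_2, lT_sb_3, lT_sb_4, lT_sb_5, lT_sb_6, lT_sb_7, lT_sb_8, lT_sb_9, lT_sb_10, lT_sb_11, map_sub, map_neg, map_smul, sb_nat_mul]
  try module

theorem lT_lT_aux10 (t q : ℕ) (c : WittVector p k) : lT t q (lT t q (sb 10 c)) = (sb 10 c) := by
  simp only [lF_sb_0, lF_sb_1, lF_sb_2, lF_sb_3, lF_sb_4, lF_sb_5, lF_sb_6, lF_sb_7, lF_sb_8, lF_sb_9, lF_sb_10, lF_sb_11,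
      lV_sb_0, lV_sb_1, lV_sb_2, lV_sb_3, lV_sb_4, lV_sb_5, lV_sb_6, lV_sb_7, lV_sb_8, lV_sb_9, lV_sb_10, lV_sb_11,
      lT_sb_0, lT_sb_1, lT_sb_2, lT_sb_3, lT_sb_4, lT_sb_5, lT_sb_6, lT_sb_7, lT_sb_8, lT_sb_9, lT_sb_10, lT_sb_11, map_sub, map_neg, map_smul, sb_nat_mul]
  try module

theorem lT_lT_aux11 (t q : ℕ) (c : WittVector p k) : lT t q (lT t q (sb 11 c)) = (sb 11 c) := by
  simp only [lF_sb_0, lF_sb_1, lF_sb_2, lF_sb_3, lF_sb_4, lF_sb_5, lF_sb_6, lF_sb_7, lF_sb_8, lF_sb_9, lF_sb_10, lF_sb_11,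
      lV_sb_0, lV_sb_1, lV_sb_2, lV_sb_3, lV_sb_4, lV_sb_5, lV_sb_6, lV_sb_7, lV_sb_8, lV_sb_9, lV_sb_10, lV_sb_11,
      lT_sb_0, lT_sb_1, lT_sb_2, lT_sb_3, lT_sb_4, lT_sb_5, lT_sb_6, lT_sb_7, lT_sb_8, lT_sb_9, lT_sb_10, lT_sb_11, map_sub, map_neg, map_smul, sb_nat_mul]
  try module

theorem lT_lT (t q : ℕ) (x : Fin 12 → WittVector p k) : lT t q (lT t q x) = x := by
  refine add_ext (A := fun x => lT t q (lT t q x)) (B := fun x => x) ?_ ?_ (fun i c => ?_) x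
  · intro x y; simp only [map_add, smul_add]
  · intro x y; simp only [map_add, smul_add]
  · fin_cases i
    · exact lT_lT_aux0 t q c
    · exact lT_lT_aux1 t q c
    · exact lT_lT_aux2 t q c
    · exact lT_lT_aux3 t q c
    · exact lT_lT_aux4 t q c
    · exact lT_lT_aux5 t q c
    · exact lT_lT_aux6 t q c
    · exact lT_lT_aux7 t q c
    · exact lT_lT_aux8 t q c
    · exact lT_lT_aux9 t q c
    · exact lT_lT_aux10 t q c
    · exact lT_lT_aux11 t q c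

theorem lT_lF_aux0 (t q : ℕ) (c : WittVector p k) : lT t q (lF t q (sb 0 c)) = lV t q (lT t q (sb 0 c)) := by
  simp only [lF_sb_0, lF_sb_1, lF_sb_2, lF_sb_3, lF_sb_4, lF_sb_5, lF_sb_6, lF_sb_7, lF_sb_8, lF_sb_9, lF_sb_10, lF_sb_11,
      lV_sb_0, lV_sb_1, lV_sb_2, lV_sb_3, lV_sb_4, lV_sb_5, lV_sb_6, lV_sb_7, lV_sb_8, lV_sb_9, lV_sb_10, lV_sb_11,
      lT_sb_0, lT_sb_1, lT_sb_2, lT_sb_3, lT_sb_4, lT_sb_5, lT_sb_6, lT_sb_7, lT_sb_8, lT_sb_9, lT_sb_10, lT_sb_11, map_sub, map_neg, map_smul, sb_nat_mul]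
  try module

theorem lT_lF_aux1 (t q : ℕ) (c : WittVector p k) : lT t q (lF t q (sb 1 c)) = lV t q (lT t q (sb 1 c)) := by
  simp only [lF_sb_0, lF_sb_1, lF_sb_2, lF_sb_3, lF_sb_4, lF_sb_5, lF_sb_6, lF_sb_7, lF_sb_8, lF_sb_9, lF_sb_10, lF_sb_11,
      lV_sb_0, lV_sb_1, lV_sb_2, lV_sb_3, lV_sb_4, lV_sb_5, lV_sb_6, lV_sb_7, lV_sb_8, lV_sb_9, lV_sb_10, lV_sb_11,
      lT_sb_0, lT_sb_1, lT_sb_2, lT_sb_3, lT_sb_4, lT_sb_5, lT_sb_6, lT_sb_7, lT_sb_8, lT_sb_9, lT_sb_10, lT_sb_11, map_sub, map_neg, map_smul, sb_nat_mul]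
  try module

theorem lT_lF_aux2 (t q : ℕ) (c : WittVector p k) : lT t q (lF t q (sb 2 c)) = lV t q (lT t q (sb 2 c)) := by
  simp only [lF_sb_0, lF_sb_1, lF_sb_2, lF_sb_3, lF_sb_4, lF_sb_5, lF_sb_6, lF_sb_7, lF_sb_8, lF_sb_9, lF_sb_10, lF_sb_11,
      lV_sb_0, lV_sb_1, lV_sb_2, lV_sb_3, lV_sb_4, lV_sb_5, lV_sb_6, lV_sb_7, lV_sb_8, lV_sb_9, lV_sb_10, lV_sb_11,
      lT_sb_0, lT_sb_1, lT_sb_2, lT_sb_3, lT_sb_4, lT_sb_5, lT_sb_6, lT_sb_7, lT_sb_8, lT_sb_9, lT_sb_10, lT_sb_11, map_sub, map_neg, map_smul, sb_nat_mul]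
  try module

theorem lT_lF_aux3 (t q : ℕ) (c : WittVector p k) : lT t q (lF t q (sb 3 c)) = lV t q (lT t q (sb 3 c)) := by
  simp only [lF_sb_0, lF_sb_1, lF_sb_2, lF_sb_3, lF_sb_4, lF_sb_5, lF_sb_6, lF_sb_7, lF_sb_8, lF_sb_9, lF_sb_10, lF_sb_11,
      lV_sb_0, lV_sb_1, lV_sb_2, lV_sb_3, lV_sb_4, lV_sb_5, lV_sb_6, lV_sb_7, lV_sb_8, lV_sb_9, lV_sb_10, lV_sb_11,
      lT_sb_0, lT_sb_1, lT_sb_2, lT_sb_3, lT_sb_4, lT_sb_5, lT_sb_6, lT_sb_7, lT_sb_8, lT_sb_9, lT_sb_10, lT_sb_11, map_sub, map_neg, map_smul, sb_nat_mul]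
  try module

theorem lT_lF_aux4 (t q : ℕ) (c : WittVector p k) : lT t q (lF t q (sb 4 c)) = lV t q (lT t q (sb 4 c)) := by
  simp only [lF_sb_0, lF_sb_1, lF_sb_2, lF_sb_3, lF_sb_4, lF_sb_5, lF_sb_6, lF_sb_7, lF_sb_8, lF_sb_9, lF_sb_10, lF_sb_11,
      lV_sb_0, lV_sb_1, lV_sb_2, lV_sb_3, lV_sb_4, lV_sb_5, lV_sb_6, lV_sb_7, lV_sb_8, lV_sb_9, lV_sb_10, lV_sb_11,
      lT_sb_0, lT_sb_1, lT_sb_2, lT_sb_3, lT_sb_4, lT_sb_5, lT_sb_6, lT_sb_7, lT_sb_8, lT_sb_9, lT_sb_10, lT_sb_11, map_sub, map_neg, map_smul, sb_nat_mul]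
  try module

theorem lT_lF_aux5 (t q : ℕ) (c : WittVector p k) : lT t q (lF t q (sb 5 c)) = lV t q (lT t q (sb 5 c)) := by
  simp only [lF_sb_0, lF_sb_1, lF_sb_2, lF_sb_3, lF_sb_4, lF_sb_5, lF_sb_6, lF_sb_7, lF_sb_8, lF_sb_9, lF_sb_10, lF_sb_11,
      lV_sb_0, lV_sb_1, lV_sb_2, lV_sb_3, lV_sb_4, lV_sb_5, lV_sb_6, lV_sb_7, lV_sb_8, lV_sb_9, lV_sb_10, lV_sb_11,
      lT_sb_0, lT_sb_1, lT_sb_2, lT_sb_3, lT_sb_4, lT_sb_5, lT_sb_6, lT_sb_7, lT_sb_8, lT_sb_9, lT_sb_10, lT_sb_11, map_sub, map_neg, map_smul, sb_nat_mul]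
  try module

theorem lT_lF_aux6 (t q : ℕ) (c : WittVector p k) : lT t q (lF t q (sb 6 c)) = lV t q (lT t q (sb 6 c)) := by
  simp only [lF_sb_0, lF_sb_1, lF_sb_2, lF_sb_3, lF_sb_4, lF_sb_5, lF_sb_6, lF_sb_7, lF_sb_8, lF_sb_9, lF_sb_10, lF_sb_11,
      lV_sb_0, lV_sb_1, lV_sb_2, lV_sb_3, lV_sb_4, lV_sb_5, lV_sb_6, lV_sb_7, lV_sb_8, lV_sb_9, lV_sb_10, lV_sb_11,
      lT_sb_0, lT_sb_1, lT_sb_2, lT_sb_3, lT_sb_4, lT_sb_5, lT_sb_6, lT_sb_7, lT_sb_8, lT_sb_9, lT_sb_10, lT_sb_11, map_sub, map_neg, map_smul, sb_nat_mul]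
  try module

theorem lT_lF_aux7 (t q : ℕ) (c : WittVector p k) : lT t q (lF t q (sb 7 c)) = lV t q (lT t q (sb 7 c)) := by
  simp only [lF_sb_0, lF_sb_1, lF_sb_2, lF_sb_3, lF_sb_4, lF_sb_5, lF_sb_6, lF_sb_7, lF_sb_8, lF_sb_9, lF_sb_10, lF_sb_11,
      lV_sb_0, lV_sb_1, lV_sb_2, lV_sb_3, lV_sb_4, lV_sb_5, lV_sb_6, lV_sb_7, lV_sb_8, lV_sb_9, lV_sb_10, lV_sb_11,
      lT_sb_0, lT_sb_1, lT_sb_2, lT_sb_3, lT_sb_4, lT_sb_5, lT_sb_6, lT_sb_7, lT_sb_8, lT_sb_9, lT_sb_10, lT_sb_11, map_sub, map_neg, map_smul, sb_nat_mul]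
  try module

theorem lT_lF_aux8 (t q : ℕ) (c : WittVector p k) : lT t q (lF t q (sb 8 c)) = lV t q (lT t q (sb 8 c)) := by
  simp only [lF_sb_0, lF_sb_1, lF_sb_2, lF_sb_3, lF_sb_4, lF_sb_5, lF_sb_6, lF_sb_7, lF_sb_8, lF_sb_9, lF_sb_10, lF_sb_11,
      lV_sb_0, lV_sb_1, lV_sb_2, lV_sb_3, lV_sb_4, lV_sb_5, lV_sb_6, lV_sb_7, lV_sb_8, lV_sb_9, lV_sb_10, lV_sb_11,
      lT_sb_0, lT_sb_1, lT_sb_2, lT_sb_3, lT_sb_4, lT_sb_5, lT_sb_6, lT_sb_7, lT_sb_8, lT_sb_9, lT_sb_10, lT_sb_11, map_sub, map_neg, map_smul, sb_nat_mul]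
  try module

theorem lT_lF_aux9 (t q : ℕ) (c : WittVector p k) : lT t q (lF t q (sb 9 c)) = lV t q (lT t q (sb 9 c)) := by
  simp only [lF_sb_0, lF_sb_1, lF_sb_2, lF_sb_3, lF_sb_4, lF_sb_5, lF_sb_6, lF_sb_7, lF_sb_8, lF_sb_9, lF_sb_10, lF_sb_11,
      lV_sb_0, lV_sb_1, lV_sb_2, lV_sb_3, lV_sb_4, lV_sb_5, lV_sb_6, lV_sb_7, lV_sb_8, lV_sb_9, lV_sb_10, lV_sb_11,
      lT_sb_0, lT_sb_1, lT_sb_2, lT_sb_3, lT_sb_4, lT_sb_5, lT_sb_6, lT_sb_7, lT_sb_8, lT_sb_9, lT_sb_10, lT_sb_11, map_sub, map_neg, map_smul, sb_nat_mul]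
  try module

theorem lT_lF_aux10 (t q : ℕ) (c : WittVector p k) : lT t q (lF t q (sb 10 c)) = lV t q (lT t q (sb 10 c)) := by
  simp only [lF_sb_0, lF_sb_1, lF_sb_2, lF_sb_3, lF_sb_4, lF_sb_5, lF_sb_6, lF_sb_7, lF_sb_8, lF_sb_9, lF_sb_10, lF_sb_11,
      lV_sb_0, lV_sb_1, lV_sb_2, lV_sb_3, lV_sb_4, lV_sb_5, lV_sb_6, lV_sb_7, lV_sb_8, lV_sb_9, lV_sb_10, lV_sb_11,
      lT_sb_0, lT_sb_1, lT_sb_2, lT_sb_3, lT_sb_4, lT_sb_5, lT_sb_6, lT_sb_7, lT_sb_8, lT_sb_9, lT_sb_10, lT_sb_11, map_sub, map_neg, map_smul, sb_nat_mul]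
  try module

theorem lT_lF_aux11 (t q : ℕ) (c : WittVector p k) : lT t q (lF t q (sb 11 c)) = lV t q (lT t q (sb 11 c)) := by
  simp only [lF_sb_0, lF_sb_1, lF_sb_2, lF_sb_3, lF_sb_4, lF_sb_5, lF_sb_6, lF_sb_7, lF_sb_8, lF_sb_9, lF_sb_10, lF_sb_11,
      lV_sb_0, lV_sb_1, lV_sb_2, lV_sb_3, lV_sb_4, lV_sb_5, lV_sb_6, lV_sb_7, lV_sb_8, lV_sb_9, lV_sb_10, lV_sb_11,
      lT_sb_0, lT_sb_1, lT_sb_2, lT_sb_3, lT_sb_4, lT_sb_5, lT_sb_6, lT_sb_7, lT_sb_8, lT_sb_9, lT_sb_10, lT_sb_11, map_sub, map_neg, map_smul, sb_nat_mul]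
  try module

theorem lT_lF (t q : ℕ) (x : Fin 12 → WittVector p k) : lT t q (lF t q x) = lV t q (lT t q x) := by
  refine add_ext (A := fun x => lT t q (lF t q x)) (B := fun x => lV t q (lT t q x)) ?_ ?_ (fun i c => ?_) x
  · intro x y; simp only [map_add, smul_add]
  · intro x y; simp only [map_add, smul_add]
  · fin_cases i
    · exact lT_lF_aux0 t q c
    · exact lT_lF_aux1 t q c
    · exact lT_lF_aux2 t q c
    · exact lT_lF_aux3 t q c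
    · exact lT_lF_aux4 t q c
    · exact lT_lF_aux5 t q c
    · exact lT_lF_aux6 t q c
    · exact lT_lF_aux7 t q c
    · exact lT_lF_aux8 t q c
    · exact lT_lF_aux9 t q c
    · exact lT_lF_aux10 t q c
    · exact lT_lF_aux11 t q c

theorem lT_lV (t q : ℕ) (x : Fin 12 → WittVector p k) :
    lT t q (lV t q x) = lF t q (lT t q x) := by
  have h := lT_lF t q (lT t q x)
  rw [lT_lT] at h
  rw [← h, lT_lT]

theorem cS_lF (t q : ℕ) (x : Fin 12 → WittVector p k) : cS (lF t q x) = lF t q (cS x) := by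
  have h : ∀ i c, cS (lF t q (sb i c)) = lF (p := p) (k := k) t q (cS (sb i c)) := by
    intro i c
    fin_cases i
    · change cS (lF t q (sb 0 c)) = lF t q (cS (sb 0 c))
      simp only [lF_sb_0, lF_sb_1, lF_sb_2, lF_sb_3, lF_sb_4, lF_sb_5, lF_sb_6, lF_sb_7, lF_sb_8, lF_sb_9, lF_sb_10, lF_sb_11, cS_sub, cS_neg, cS_sb, map_mul, map_natCast]
    · change cS (lF t q (sb 1 c)) = lF t q (cS (sb 1 c))
      simp only [lF_sb_0, lF_sb_1, lF_sb_2, lF_sb_3, lF_sb_4, lF_sb_5, lF_sb_6, lF_sb_7, lF_sb_8, lF_sb_9, lF_sb_10, lF_sb_11, cS_sub, cS_neg, cS_sb, map_mul, map_natCast]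
    · change cS (lF t q (sb 2 c)) = lF t q (cS (sb 2 c))
      simp only [lF_sb_0, lF_sb_1, lF_sb_2, lF_sb_3, lF_sb_4, lF_sb_5, lF_sb_6, lF_sb_7, lF_sb_8, lF_sb_9, lF_sb_10, lF_sb_11, cS_sub, cS_neg, cS_sb, map_mul, map_natCast]
    · change cS (lF t q (sb 3 c)) = lF t q (cS (sb 3 c))
      simp only [lF_sb_0, lF_sb_1, lF_sb_2, lF_sb_3, lF_sb_4, lF_sb_5, lF_sb_6, lF_sb_7, lF_sb_8, lF_sb_9, lF_sb_10, lF_sb_11, cS_sub, cS_neg, cS_sb, map_mul, map_natCast]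
    · change cS (lF t q (sb 4 c)) = lF t q (cS (sb 4 c))
      simp only [lF_sb_0, lF_sb_1, lF_sb_2, lF_sb_3, lF_sb_4, lF_sb_5, lF_sb_6, lF_sb_7, lF_sb_8, lF_sb_9, lF_sb_10, lF_sb_11, cS_sub, cS_neg, cS_sb, map_mul, map_natCast]
    · change cS (lF t q (sb 5 c)) = lF t q (cS (sb 5 c))
      simp only [lF_sb_0, lF_sb_1, lF_sb_2, lF_sb_3, lF_sb_4, lF_sb_5, lF_sb_6, lF_sb_7, lF_sb_8, lF_sb_9, lF_sb_10, lF_sb_11, cS_sub, cS_neg, cS_sb, map_mul, map_natCast]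
    · change cS (lF t q (sb 6 c)) = lF t q (cS (sb 6 c))
      simp only [lF_sb_0, lF_sb_1, lF_sb_2, lF_sb_3, lF_sb_4, lF_sb_5, lF_sb_6, lF_sb_7, lF_sb_8, lF_sb_9, lF_sb_10, lF_sb_11, cS_sub, cS_neg, cS_sb, map_mul, map_natCast]
    · change cS (lF t q (sb 7 c)) = lF t q (cS (sb 7 c))
      simp only [lF_sb_0, lF_sb_1, lF_sb_2, lF_sb_3, lF_sb_4, lF_sb_5, lF_sb_6, lF_sb_7, lF_sb_8, lF_sb_9, lF_sb_10, lF_sb_11, cS_sub, cS_neg, cS_sb, map_mul, map_natCast]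
    · change cS (lF t q (sb 8 c)) = lF t q (cS (sb 8 c))
      simp only [lF_sb_0, lF_sb_1, lF_sb_2, lF_sb_3, lF_sb_4, lF_sb_5, lF_sb_6, lF_sb_7, lF_sb_8, lF_sb_9, lF_sb_10, lF_sb_11, cS_sub, cS_neg, cS_sb, map_mul, map_natCast]
    · change cS (lF t q (sb 9 c)) = lF t q (cS (sb 9 c))
      simp only [lF_sb_0, lF_sb_1, lF_sb_2, lF_sb_3, lF_sb_4, lF_sb_5, lF_sb_6, lF_sb_7, lF_sb_8, lF_sb_9, lF_sb_10, lF_sb_11, cS_sub, cS_neg, cS_sb, map_mul, map_natCast]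
    · change cS (lF t q (sb 10 c)) = lF t q (cS (sb 10 c))
      simp only [lF_sb_0, lF_sb_1, lF_sb_2, lF_sb_3, lF_sb_4, lF_sb_5, lF_sb_6, lF_sb_7, lF_sb_8, lF_sb_9, lF_sb_10, lF_sb_11, cS_sub, cS_neg, cS_sb, map_mul, map_natCast]
    · change cS (lF t q (sb 11 c)) = lF t q (cS (sb 11 c))
      simp only [lF_sb_0, lF_sb_1, lF_sb_2, lF_sb_3, lF_sb_4, lF_sb_5, lF_sb_6, lF_sb_7, lF_sb_8, lF_sb_9, lF_sb_10, lF_sb_11, cS_sub, cS_neg, cS_sb, map_mul, map_natCast]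
  refine add_ext (A := fun x => cS (lF t q x)) (B := fun x => lF t q (cS x)) ?_ ?_ h x
  · intro x y; simp only [map_add, cS_add]
  · intro x y; simp only [map_add, cS_add]

end Pool.Agent.UA
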