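import Pool.Agent.Lib.MP_381773_ag.Newton
import Pool.Agent.Lib.MP_381773_ag.ANumber

/-!
# The characteristic relation of `lF`, and the ranks of its generalized eigenspaces
-/

set_option autoImplicit false
set_option linter.all false

universe u

namespace Pool.Agent.UA

open WittVector

variable {p : ℕ} [Fact p.Prime] {k : Type u} [Field k] [IsAlgClosed k] [CharP k p]

section Relation

variable (t q : ℕ)

/-- The endomorphism `lF`, as an element of the endomorphism ring. -/
noncomputable abbrev eF : Module.End (WittVector p k) (Fin 12 → WittVector p k) := lF t q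

/-- The endomorphism `lV`, as an element of the endomorphism ring. -/
noncomputable abbrev eV : Module.End (WittVector p k) (Fin 12 → WittVector p k) := lV t q

theorem eF_mul_eV : (eF t q : Module.End (WittVector p k) (Fin 12 → WittVector p k)) * eV t q
    = (p : WittVector p k) • 1 := by
  refine LinearMap.ext fun x => ?_
  exact lF_lV t q x

theorem eV_mul_eF : (eV t q : Module.End (WittVector p k) (Fin 12 → WittVector p k)) * eF t q
    = (p : WittVector p k) • 1 := by
  refine LinearMap.ext fun x => ?_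
  exact lV_lF t q x

theorem eF_comm_eV : Commute (eF t q : Module.End (WittVector p k) (Fin 12 → WittVector p k))
    (eV t q) := by
  rw [Commute, SemiconjBy, eF_mul_eV, eV_mul_eF]

theorem eF_pow_mul_eV_pow (n : ℕ) :
    (eF t q : Module.End (WittVector p k) (Fin 12 → WittVector p k)) ^ n * eV t q ^ n
      = ((p : WittVector p k) ^ n) • 1 := by
  rw [← (eF_comm_eV t q).mul_pow, eF_mul_eV, smul_pow, one_pow]

theorem eV_pow_mul_eF_pow (n : ℕ) :
    (eV t q : Module.End (WittVector p k) (Fin 12 → WittVector p k)) ^ n * eF t q ^ n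
      = ((p : WittVector p k) ^ n) • 1 := by
  rw [← (eF_comm_eV t q).symm.mul_pow, eV_mul_eF, smul_pow, one_pow]

/-- `F^6 + t F^3 + q + t V^3 + V^6`. -/
noncomputable def eTh : Module.End (WittVector p k) (Fin 12 → WittVector p k) :=
  eF t q ^ 6 + (t : WittVector p k) • eF t q ^ 3 + (q : WittVector p k) • 1
    + (t : WittVector p k) • eV t q ^ 3 + eV t q ^ 6

theorem eTh_comm_eF : Commute (eTh t q : Module.End (WittVector p k) (Fin 12 → WittVector p k))
    (eF t q) := by
  unfold eTh
  have h1 : Commute (eF t q : Module.End (WittVector p k) (Fin 12 → WittVector p k))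
    (eF t q) := Commute.refl _
  have h2 := (eF_comm_eV (p := p) (k := k) t q).symm
  exact (((((h1.pow_left 6).add_left ((h1.pow_left 3).smul_left _)).add_left
    ((Commute.one_left _).smul_left _)).add_left ((h2.pow_left 3).smul_left _)).add_left
    (h2.pow_left 6))

theorem eTh_comm_eV : Commute (eTh t q : Module.End (WittVector p k) (Fin 12 → WittVector p k))
    (eV t q) := by
  unfold eTh
  have h1 : Commute (eV t q : Module.End (WittVector p k) (Fin 12 → WittVector p k))
    (eV t q) := Commute.refl _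
  have h2 := (eF_comm_eV (p := p) (k := k) t q)
  exact (((((h2.pow_left 6).add_left ((h2.pow_left 3).smul_left _)).add_left
    ((Commute.one_left _).smul_left _)).add_left ((h1.pow_left 3).smul_left _)).add_left
    (h1.pow_left 6))

theorem eTh_lF_one (y : Fin 12 → WittVector p k) :
    eTh t q (lF t q y) = lF t q (eTh t q y) := by
  have h : (eTh t q * eF t q : Module.End (WittVector p k) (Fin 12 → WittVector p k)) y
      = (eF t q * eTh t q : Module.End (WittVector p k) (Fin 12 → WittVector p k)) y := by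
    rw [(eTh_comm_eF t q).eq]
  rw [Module.End.mul_apply, Module.End.mul_apply] at h
  exact h

theorem eTh_lV_one (y : Fin 12 → WittVector p k) :
    eTh t q (lV t q y) = lV t q (eTh t q y) := by
  have h : (eTh t q * eV t q : Module.End (WittVector p k) (Fin 12 → WittVector p k)) y
      = (eV t q * eTh t q : Module.End (WittVector p k) (Fin 12 → WittVector p k)) y := by
    rw [(eTh_comm_eV t q).eq]
  rw [Module.End.mul_apply, Module.End.mul_apply] at h
  exact h

theorem eTh_lF (n : ℕ) (x : Fin 12 → WittVector p k) :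
    eTh t q ((lF t q)^[n] x) = (lF t q)^[n] (eTh t q x) := by
  induction n with
  | zero => rfl
  | succ n ih =>
    rw [Function.iterate_succ_apply', Function.iterate_succ_apply', ← ih, eTh_lF_one]

theorem eTh_lV (n : ℕ) (x : Fin 12 → WittVector p k) :
    eTh t q ((lV t q)^[n] x) = (lV t q)^[n] (eTh t q x) := by
  induction n with
  | zero => rfl
  | succ n ih =>
    rw [Function.iterate_succ_apply', Function.iterate_succ_apply', ← ih, eTh_lV_one]

theorem eTh_apply (x : Fin 12 → WittVector p k) : eTh t q x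
    = (lF t q) ((lF t q) ((lF t q) ((lF t q) ((lF t q) ((lF t q) x)))))
      + (t : WittVector p k) • (lF t q) ((lF t q) ((lF t q) x))
      + (q : WittVector p k) • x
      + (t : WittVector p k) • (lV t q) ((lV t q) ((lV t q) x))
      + (lV t q) ((lV t q) ((lV t q) ((lV t q) ((lV t q) ((lV t q) x))))) := rfl

theorem eTh_sb_6 (c : WittVector p k) : eTh t q (sb 6 c) = 0 := by
  rw [eTh_apply, lF_sb_6, lF_sb_7, lF_sb_8, lF_sb_9, lF_sb_10, lF_sb_11, lV_sb_6, lV_sb_5,
    lV_sb_4, lV_sb_3, lV_sb_2, lV_sb_1, sb_smul, sb_smul, sb_smul]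
  abel

theorem lF_iter_zero (n : ℕ) : (lF (p := p) (k := k) t q)^[n] 0 = 0 := by
  induction n with
  | zero => rfl
  | succ n ih => rw [Function.iterate_succ_apply', ih, map_zero]

theorem lV_iter_zero (n : ℕ) : (lV (p := p) (k := k) t q)^[n] 0 = 0 := by
  induction n with
  | zero => rfl
  | succ n ih => rw [Function.iterate_succ_apply', ih, map_zero]

theorem eTh_sb (i : Fin 12) (c : WittVector p k) : eTh t q (sb i c) = 0 := by
  have hF : ∀ n : ℕ, eTh t q ((lF t q)^[n] (sb 6 c)) = 0 := by
    intro n; rw [eTh_lF, eTh_sb_6, lF_iter_zero]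
  have hV : ∀ n : ℕ, eTh t q ((lV t q)^[n] (sb 6 c)) = 0 := by
    intro n; rw [eTh_lV, eTh_sb_6, lV_iter_zero]
  have f1 : (lF t q)^[1] (sb 6 c) = sb 7 c := lF_sb_6 t q c
  have f2 : (lF t q)^[2] (sb 6 c) = sb 8 c := by
    rw [Function.iterate_succ_apply', f1, lF_sb_7]
  have f3 : (lF t q)^[3] (sb 6 c) = sb 9 c := by
    rw [Function.iterate_succ_apply', f2, lF_sb_8]
  have f4 : (lF t q)^[4] (sb 6 c) = sb 10 c := by
    rw [Function.iterate_succ_apply', f3, lF_sb_9]
  have f5 : (lF t q)^[5] (sb 6 c) = sb 11 c := by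
    rw [Function.iterate_succ_apply', f4, lF_sb_10]
  have v1 : (lV t q)^[1] (sb 6 c) = sb 5 c := lV_sb_6 t q c
  have v2 : (lV t q)^[2] (sb 6 c) = sb 4 c := by
    rw [Function.iterate_succ_apply', v1, lV_sb_5]
  have v3 : (lV t q)^[3] (sb 6 c) = sb 3 c := by
    rw [Function.iterate_succ_apply', v2, lV_sb_4]
  have v4 : (lV t q)^[4] (sb 6 c) = sb 2 c := by
    rw [Function.iterate_succ_apply', v3, lV_sb_3]
  have v5 : (lV t q)^[5] (sb 6 c) = sb 1 c := by
    rw [Function.iterate_succ_apply', v4, lV_sb_2]
  have v6 : (lV t q)^[6] (sb 6 c) = sb 0 c := by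
    rw [Function.iterate_succ_apply', v5, lV_sb_1]
  fin_cases i
  · have := hV 6; rw [v6] at this; exact this
  · have := hV 5; rw [v5] at this; exact this
  · have := hV 4; rw [v4] at this; exact this
  · have := hV 3; rw [v3] at this; exact this
  · have := hV 2; rw [v2] at this; exact this
  · have := hV 1; rw [v1] at this; exact this
  · exact eTh_sb_6 t q c
  · have := hF 1; rw [f1] at this; exact this
  · have := hF 2; rw [f2] at this; exact this
  · have := hF 3; rw [f3] at this; exact this
  · have := hF 4; rw [f4] at this; exact this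
  · have := hF 5; rw [f5] at this; exact this

theorem eTh_eq_zero :
    (eTh t q : Module.End (WittVector p k) (Fin 12 → WittVector p k)) = 0 := by
  refine LinearMap.ext fun x => ?_
  rw [sum_sb x, map_sum, LinearMap.zero_apply]
  exact Finset.sum_eq_zero fun i _ => eTh_sb t q i _

theorem eF_relation :
    (eF t q : Module.End (WittVector p k) (Fin 12 → WittVector p k)) ^ 12
      + (t : WittVector p k) • eF t q ^ 9 + (q : WittVector p k) • eF t q ^ 6
      + ((t : WittVector p k) * (p : WittVector p k) ^ 3) • eF t q ^ 3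
      + ((p : WittVector p k) ^ 6) • 1 = 0 := by
  have h : eF t q ^ 6 * (eTh t q : Module.End (WittVector p k) (Fin 12 → WittVector p k)) = 0 := by
    rw [eTh_eq_zero, mul_zero]
  unfold eTh at h
  rw [mul_add, mul_add, mul_add, mul_add, mul_smul_comm, mul_smul_comm, mul_smul_comm,
    eF_pow_mul_eV_pow, mul_one, ← pow_add, ← pow_add] at h
  have e : (eF t q : Module.End (WittVector p k) (Fin 12 → WittVector p k)) ^ 6 * eV t q ^ 3
      = ((p : WittVector p k) ^ 3) • eF t q ^ 3 := by
    have : (6 : ℕ) = 3 + 3 := rfl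
    rw [this, pow_add, mul_assoc, eF_pow_mul_eV_pow, mul_smul_comm, mul_one]
  rw [e, smul_smul] at h
  exact h

end Relation

/-! ### Two complementary eigenspaces -/

section Eigen

variable (g : Module.End (WittVector p k) (Fin 12 → WittVector p k)) (μ₁ μ₂ : WittVector p k)

theorem eig_disjoint (hne : μ₁ ≠ μ₂) (x : Fin 12 → WittVector p k)
    (h1 : g x = μ₁ • x) (h2 : g x = μ₂ • x) : x = 0 := by
  have h : (μ₁ - μ₂) • x = 0 := by rw [sub_smul, ← h1, ← h2, sub_self]
  exact (smul_eq_zero.mp h).resolve_left (sub_ne_zero.mpr hne)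

theorem finrank_eig_add (hne : μ₁ ≠ μ₂)
    (hrel : ∀ x, g (g x) = (μ₁ + μ₂) • g x - (μ₁ * μ₂) • x) :
    Module.finrank (WittVector p k) (g.eigenspace μ₁)
      + Module.finrank (WittVector p k) (g.eigenspace μ₂) = 12 := by
  have hm1 : ∀ x, g x - μ₂ • x ∈ g.eigenspace μ₁ := by
    intro x
    rw [Module.End.mem_eigenspace_iff, map_sub, map_smul, hrel]
    module
  have hm2 : ∀ x, g x - μ₁ • x ∈ g.eigenspace μ₂ := by
    intro x
    rw [Module.End.mem_eigenspace_iff, map_sub, map_smul, hrel]
    module
  let A : (Fin 12 → WittVector p k) →ₗ[WittVector p k]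
      (g.eigenspace μ₁ × g.eigenspace μ₂) :=
    LinearMap.prod ((g - μ₂ • LinearMap.id).codRestrict _ hm1)
      ((g - μ₁ • LinearMap.id).codRestrict _ hm2)
  have hA : Function.Injective A := by
    rw [injective_iff_map_eq_zero]
    intro x hx
    have h1 : g x - μ₂ • x = 0 := congrArg (fun y => (y.1 : Fin 12 → WittVector p k)) hx
    have h2 : g x - μ₁ • x = 0 := congrArg (fun y => (y.2 : Fin 12 → WittVector p k)) hx
    exact eig_disjoint g μ₁ μ₂ hne x (sub_eq_zero.mp h2) (sub_eq_zero.mp h1)
  let B : (g.eigenspace μ₁ × g.eigenspace μ₂) →ₗ[WittVector p k] (Fin 12 → WittVector p k) :=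
    LinearMap.coprod (g.eigenspace μ₁).subtype (g.eigenspace μ₂).subtype
  have hB : Function.Injective B := by
    rw [injective_iff_map_eq_zero]
    rintro ⟨⟨x, hx⟩, ⟨y, hy⟩⟩ hxy
    have h1 : x + y = 0 := hxy
    rw [Module.End.mem_eigenspace_iff] at hx hy
    have h2 : x = -y := eq_neg_of_add_eq_zero_left h1
    have h3 : g x = μ₂ • x := by rw [h2, map_neg, hy, smul_neg]
    have h4 := eig_disjoint g μ₁ μ₂ hne x hx h3
    have h5 : y = 0 := by rw [h4, zero_add] at h1; exact h1
    subst h4 h5
    rfl
  have h12 : Module.finrank (WittVector p k) (Fin 12 → WittVector p k) = 12 := by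
    rw [Module.finrank_fin_fun]
  have l1 := LinearMap.finrank_le_finrank_of_injective hA
  have l2 := LinearMap.finrank_le_finrank_of_injective hB
  rw [Module.finrank_prod, h12] at l1 l2
  omega

end Eigen

section Swap

variable (t q : ℕ) (n r₁ r₂ : ℕ) (u : WittVector p k)

theorem lT_eF_pow (n : ℕ) (x : Fin 12 → WittVector p k) :
    lT t q ((eF t q ^ n) x) = (eV t q ^ n) (lT t q x) := by
  induction n with
  | zero => rfl
  | succ n ih =>
    rw [pow_succ', pow_succ']
    change lT t q (lF t q ((eF t q ^ n) x)) = lV t q ((eV t q ^ n) (lT t q x))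
    rw [lT_lF, ih]

theorem lT_maps (hu : u * u = 1) (hr : r₁ + r₂ = n) (x : Fin 12 → WittVector p k)
    (hx : (eF t q ^ n) x = (u * (p : WittVector p k) ^ r₁) • x) :
    (eF t q ^ n) (lT t q x) = (u * (p : WittVector p k) ^ r₂) • lT t q x := by
  have h1 := congrArg (lT t q) hx
  rw [lT_eF_pow, map_smul] at h1
  have h2 := congrArg (eF t q ^ n) h1
  have h3 : (eF t q ^ n) ((eV t q ^ n) (lT t q x)) = ((p : WittVector p k) ^ n) • lT t q x :=
    LinearMap.congr_fun (eF_pow_mul_eV_pow t q n) (lT t q x)
  rw [h3, map_smul] at h2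
  -- cancel `p ^ r₁`
  have h4 : ((p : WittVector p k) ^ r₁) •
      ((eF t q ^ n) (lT t q x) - (u * (p : WittVector p k) ^ r₂) • lT t q x) = 0 := by
    have e1 : ((p : WittVector p k) ^ r₁) • (eF t q ^ n) (lT t q x)
        = u • ((u * (p : WittVector p k) ^ r₁) • (eF t q ^ n) (lT t q x)) := by
      rw [smul_smul, ← mul_assoc, hu, one_mul]
    rw [smul_sub, e1, ← h2, ← hr, smul_smul, smul_smul, ← sub_smul]
    have e2 : u * (p : WittVector p k) ^ (r₁ + r₂)
        - (p : WittVector p k) ^ r₁ * (u * (p : WittVector p k) ^ r₂) = 0 := by ring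
    rw [e2, zero_smul]
  exact sub_eq_zero.mp (natp_smul_cancel (p := p) (k := k) h4)

theorem lT_injective : Function.Injective (lT (p := p) (k := k) t q) := by
  intro x y h
  have := congrArg (lT t q) h
  rwa [lT_lT, lT_lT] at this

theorem finrank_le (hu : u * u = 1) (hr : r₁ + r₂ = n) :
    Module.finrank (WittVector p k)
        ((eF t q ^ n : Module.End (WittVector p k) (Fin 12 → WittVector p k)).eigenspace
          (u * (p : WittVector p k) ^ r₁))
      ≤ Module.finrank (WittVector p k)
        ((eF t q ^ n : Module.End (WittVector p k) (Fin 12 → WittVector p k)).eigenspace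
          (u * (p : WittVector p k) ^ r₂)) := by
  let A : ((eF t q ^ n : Module.End (WittVector p k) (Fin 12 → WittVector p k)).eigenspace
          (u * (p : WittVector p k) ^ r₁)) →ₗ[WittVector p k]
      ((eF t q ^ n : Module.End (WittVector p k) (Fin 12 → WittVector p k)).eigenspace
          (u * (p : WittVector p k) ^ r₂)) :=
    (lT t q).restrict (fun x hx => by
      rw [Module.End.mem_eigenspace_iff] at hx ⊢
      exact lT_maps t q n r₁ r₂ u hu hr x hx)
  refine LinearMap.finrank_le_finrank_of_injective (f := A) ?_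
  intro x y h
  apply Subtype.ext
  apply lT_injective t q
  exact congrArg Subtype.val h

theorem pow_ne_of_lt (hu : u * u = 1) (h : r₁ < r₂) :
    u * (p : WittVector p k) ^ r₁ ≠ u * (p : WittVector p k) ^ r₂ := by
  intro he
  have h1 : (p : WittVector p k) ^ r₁ = (p : WittVector p k) ^ r₂ := by
    have := congrArg (fun z => u * z) he
    simp only [← mul_assoc, hu, one_mul] at this
    exact this
  obtain ⟨m, rfl⟩ := Nat.exists_eq_add_of_lt h
  have h2 : (p : WittVector p k) ^ r₁ * ((p : WittVector p k) * (p : WittVector p k) ^ m - 1)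
      = 0 := by
    rw [add_assoc, pow_add, pow_succ'] at h1
    linear_combination -h1
  have h3 := (mul_eq_zero.mp h2).resolve_left (pow_ne_zero _ (WittVector.p_nonzero p k))
  exact (WittVector.irreducible p (k := k)).not_isUnit (IsUnit.of_mul_eq_one _ (sub_eq_zero.mp h3))

theorem finrank_eig (hu : u * u = 1) (hr : r₁ + r₂ = n) (hlt : r₁ < r₂)
    (hrel : ∀ x : Fin 12 → WittVector p k, (eF t q ^ n) ((eF t q ^ n) x)
      = (u * (p : WittVector p k) ^ r₁ + u * (p : WittVector p k) ^ r₂) • (eF t q ^ n) x
        - ((u * (p : WittVector p k) ^ r₁) * (u * (p : WittVector p k) ^ r₂)) • x) :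
    Module.finrank (WittVector p k)
        ((eF t q ^ n : Module.End (WittVector p k) (Fin 12 → WittVector p k)).eigenspace
          (u * (p : WittVector p k) ^ r₁)) = 6 ∧
    Module.finrank (WittVector p k)
        ((eF t q ^ n : Module.End (WittVector p k) (Fin 12 → WittVector p k)).eigenspace
          (u * (p : WittVector p k) ^ r₂)) = 6 := by
  have h1 := finrank_eig_add (eF t q ^ n) _ _ (pow_ne_of_lt (p := p) (k := k) r₁ r₂ u hu hlt) hrel
  have h2 := finrank_le t q n r₁ r₂ u hu hr
  have h3 := finrank_le t q n r₂ r₁ u hu (by omega)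
  omega

end Swap

end Pool.Agent.UA
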