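import Pool.Agent.Lib.MP_381773_ag.UB

/-!
# For `M(0, p²(1+p²))`: `p² U = {[e, p² c F e]}` and `p³ [e, c F e] = 0`
-/

set_option autoImplicit false
set_option linter.unusedSectionVars false
set_option linter.unusedSimpArgs false

universe u

namespace Pool.Agent.UA

open WittVector

variable {p : ℕ} [Fact p.Prime] {k : Type u} [Field k] [IsAlgClosed k] [CharP k p]

/-- The operator `σ^{-j}(1+σ^6)`. -/
noncomputable def TT (j : ℤ) : WittVector p k →+ WittVector p k :=
  AddMonoidHom.mk' (fun c => sg (-j) (c + sg 6 c)) (by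
    intro a b; simp only [map_add]; ring)

theorem TT_apply (j : ℤ) (c : WittVector p k) : TT j c = sg (-j) (c + sg 6 c) := rfl

theorem TT_nat (j : ℤ) (n : ℕ) (c : WittVector p k) :
    TT j ((n : WittVector p k) * c) = (n : WittVector p k) * TT j c := by
  simp only [TT_apply, map_mul, map_add, sg_natCast]; ring

theorem surj_unit_sub (R : WittVector p k →+ WittVector p k) (a : WittVector p k) :
    ∀ w, ∃ c, (1 + (p : WittVector p k) * a) * c - (p : WittVector p k) * R c = w := by
  let S : WittVector p k →+ WittVector p k :=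
    AddMonoidHom.mk' (fun c => (1 + (p : WittVector p k) * a) * c - (p : WittVector p k) * R c) (by
      intro x y; simp only [map_add]; ring)
  have hS : Function.Surjective S := by
    apply surjective_of_mod_p
    intro w
    refine ⟨w, R w - a * w, ?_⟩
    change w = ((1 + (p : WittVector p k) * a) * w - (p : WittVector p k) * R w)
      + (p : WittVector p k) * (R w - a * w)
    ring
  exact hS

/-- The parameter `q = p²(1+p²)`. -/
def qB (p : ℕ) : ℕ := p ^ 2 * (1 + p ^ 2)

theorem qB_cast : ((qB p : ℕ) : WittVector p k)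
    = (p : WittVector p k) ^ 2 * ((1 + p ^ 2 : ℕ) : WittVector p k) := by
  unfold qB; push_cast; ring

theorem hB9 (w : WittVector p k) : hh 0 (qB p) 9 ((p : WittVector p k) ^ 2 * w) = 0 := by
  obtain ⟨c, rfl⟩ := surj_unit_sub (p := p) (k := k) (TT 3) (p : WittVector p k) w
  have h := star_3 (qB p) c
  rw [← TT_apply, qB_cast] at h
  have e : (p : WittVector p k) ^ 2 * ((1 + (p : WittVector p k) * (p : WittVector p k)) * c
      - (p : WittVector p k) * TT 3 c)
      = ((p : WittVector p k) ^ 2 * ((1 + p ^ 2 : ℕ) : WittVector p k)) * c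
        - (p : WittVector p k) ^ 3 * TT 3 c := by push_cast; ring
  rw [e, map_sub, h, sub_self]

theorem u2_eq : (1 + (p : WittVector p k) * (2 * (p : WittVector p k) + (p : WittVector p k) ^ 3))
    = ((1 + p ^ 2 : ℕ) : WittVector p k) ^ 2 := by push_cast; ring

theorem hB8 (w : WittVector p k) : hh 0 (qB p) 8 ((p : WittVector p k) ^ 2 * w) = 0 := by
  let R : WittVector p k →+ WittVector p k :=
    (AddMonoidHom.mulLeft (p : WittVector p k)).comp ((TT 4).comp (TT 2))
  obtain ⟨c, rfl⟩ := surj_unit_sub (p := p) (k := k) R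
    (2 * (p : WittVector p k) + (p : WittVector p k) ^ 3) w
  have hR : R c = (p : WittVector p k) * TT 4 (TT 2 c) := rfl
  have h1 := star_2 (qB p) (((1 + p ^ 2 : ℕ) : WittVector p k) * c)
  rw [← TT_apply, TT_nat] at h1
  have h2 := star_4 (qB p) (TT 2 c)
  rw [← TT_apply] at h2
  have e1 : (p : WittVector p k) ^ 2 * (((1 + p ^ 2 : ℕ) : WittVector p k) * TT 2 c)
      = ((qB p : ℕ) : WittVector p k) * TT 2 c := by rw [qB_cast]; ring
  rw [e1, h2] at h1
  have e : (p : WittVector p k) ^ 2 * ((1 + (p : WittVector p k) *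
      (2 * (p : WittVector p k) + (p : WittVector p k) ^ 3)) * c - (p : WittVector p k) * R c)
      = ((qB p : ℕ) : WittVector p k) * (((1 + p ^ 2 : ℕ) : WittVector p k) * c)
        - (p : WittVector p k) ^ 4 * TT 4 (TT 2 c) := by
    rw [hR, u2_eq, qB_cast]; ring
  rw [e, map_sub, h1, sub_self]

theorem hB10 (w : WittVector p k) : hh 0 (qB p) 10 ((p : WittVector p k) ^ 2 * w) = 0 := by
  obtain ⟨c, rfl⟩ := surj_unit_sub (p := p) (k := k) 0 (p : WittVector p k) w
  have h := star_4 (qB p) c
  rw [← TT_apply] at h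
  have e1 : (p : WittVector p k) ^ 4 * TT 4 c
      = (p : WittVector p k) ^ 2 * ((p : WittVector p k) ^ 2 * TT 4 c) := by ring
  rw [e1, hB8] at h
  have e : (p : WittVector p k) ^ 2 * ((1 + (p : WittVector p k) * (p : WittVector p k)) * c
      - (p : WittVector p k) * (0 : WittVector p k →+ WittVector p k) c)
      = ((qB p : ℕ) : WittVector p k) * c := by
    rw [qB_cast, AddMonoidHom.zero_apply]; push_cast; ring
  rw [e, h]

theorem hB7 (w : WittVector p k) : hh 0 (qB p) 7 ((p : WittVector p k) ^ 3 * w) = 0 := by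
  let R : WittVector p k →+ WittVector p k :=
    (AddMonoidHom.mulLeft (p : WittVector p k)).comp ((TT 5).comp (TT 1))
  obtain ⟨c, rfl⟩ := surj_unit_sub (p := p) (k := k) R
    (2 * (p : WittVector p k) + (p : WittVector p k) ^ 3) w
  have hR : R c = (p : WittVector p k) * TT 5 (TT 1 c) := rfl
  have h1 := star_1 (qB p) ((p : WittVector p k) * (((1 + p ^ 2 : ℕ) : WittVector p k) * c))
  rw [← TT_apply, TT_nat, TT_nat] at h1
  have h2 := star_5 (qB p) (TT 1 c)
  rw [← TT_apply] at h2
  have e1 : (p : WittVector p k) ^ 1 * ((p : WittVector p k) *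
      (((1 + p ^ 2 : ℕ) : WittVector p k) * TT 1 c))
      = ((qB p : ℕ) : WittVector p k) * TT 1 c := by rw [qB_cast]; ring
  rw [e1, h2] at h1
  have e : (p : WittVector p k) ^ 3 * ((1 + (p : WittVector p k) *
      (2 * (p : WittVector p k) + (p : WittVector p k) ^ 3)) * c - (p : WittVector p k) * R c)
      = ((qB p : ℕ) : WittVector p k) *
          ((p : WittVector p k) * (((1 + p ^ 2 : ℕ) : WittVector p k) * c))
        - (p : WittVector p k) ^ 5 * TT 5 (TT 1 c) := by
    rw [hR, u2_eq, qB_cast]; ring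
  rw [e, map_sub, h1, sub_self]

theorem hB11 (w : WittVector p k) : hh 0 (qB p) 11 ((p : WittVector p k) ^ 2 * w) = 0 := by
  obtain ⟨c, rfl⟩ := surj_unit_sub (p := p) (k := k) 0 (p : WittVector p k) w
  have h := star_5 (qB p) c
  rw [← TT_apply] at h
  have e1 : (p : WittVector p k) ^ 5 * TT 5 c
      = (p : WittVector p k) ^ 3 * ((p : WittVector p k) ^ 2 * TT 5 c) := by ring
  rw [e1, hB7] at h
  have e : (p : WittVector p k) ^ 2 * ((1 + (p : WittVector p k) * (p : WittVector p k)) * c
      - (p : WittVector p k) * (0 : WittVector p k →+ WittVector p k) c)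
      = ((qB p : ℕ) : WittVector p k) * c := by
    rw [qB_cast, AddMonoidHom.zero_apply]; push_cast; ring
  rw [e, h]

/-- `p² U` consists of the elements `[e, p² c F e]`. -/
theorem p2_UB (z : (UU p k 0 (qB p)).carrier) :
    ∃ c : WittVector p k, (p ^ 2) • z = hh 0 (qB p) 7 ((p : WittVector p k) ^ 2 * c) := by
  obtain ⟨y, rfl⟩ := exists_e z
  have h1 : ∀ n : ℕ, n • brM 0 (qB p) (sb 6 1) y
      = brM 0 (qB p) (sb 6 1) ((n : WittVector p k) • y) := by
    intro n
    induction n with
    | zero => rw [zero_smul, Nat.cast_zero, zero_smul, brM_zero_right]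
    | succ n ih => rw [succ_nsmul, ih, Nat.cast_succ, add_smul, one_smul, brM_add_right]
  have h2 : brM 0 (qB p) (sb 6 1) (((p ^ 2 : ℕ) : WittVector p k) • y)
      = ∑ i, hh 0 (qB p) i ((p : WittVector p k) ^ 2 * y i) := by
    conv_lhs => rw [sum_sb (((p ^ 2 : ℕ) : WittVector p k) • y)]
    rw [brM_sum_right]
    refine Finset.sum_congr rfl fun i _ => ?_
    rw [hh_apply, Pi.smul_apply, smul_eq_mul]
    push_cast
    rfl
  rw [h1, h2]
  refine ⟨y 7 - sg 1 (y 5), ?_⟩
  have hs : ∀ f : Fin 12 → (UU p k 0 (qB p)).carrier, ∑ i, f i = f 0 + f 1 + f 2 + f 3 + f 4 + f 5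
      + f 6 + f 7 + f 8 + f 9 + f 10 + f 11 := by
    intro f
    simp only [Fin.sum_univ_succ, Fin.sum_univ_zero]
    norm_num [Fin.succ, add_assoc]
    rfl
  rw [hs]
  have hp : ∀ (n : ℤ) (c : WittVector p k),
      sg n ((p : WittVector p k) ^ 2 * c) = (p : WittVector p k) ^ 2 * sg n c := by
    intro n c; rw [map_mul, map_pow, sg_natCast]
  rw [hh0_zero, hh_neg_5, hh_neg_4, hh_neg_3, hh_neg_2, hh_neg_1, hh_6, hp, hp, hp, hp, hp,
    hB11, hB10, hB9, hB8, hB11, hB10, hB9, hB8, mul_sub, map_sub]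
  abel

end Pool.Agent.UA
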