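import Pool.Agent.Lib.MP_381773_ag.Newton2
import Pool.Agent.Lib.MP_381773_ag.UA1
import Pool.Agent.Lib.MP_381773_ag.UB2

/-!
# The Newton polygons of `M(p + p², p² + p³ + p⁴)` and `M(0, p² + p⁴)`
-/

set_option autoImplicit false
set_option linter.all false

universe u

namespace Pool.Agent.UA

open WittVector

theorem end_pow_add {R : Type u} [CommRing R] {M : Type u} [AddCommGroup M] [Module R M]
    (f : Module.End R M) (a b : ℕ) (x : M) : (f ^ a) ((f ^ b) x) = (f ^ (a + b)) x := by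
  rw [pow_add]; rfl

theorem relA_abs {R : Type u} [CommRing R] {M : Type u} [AddCommGroup M] [Module R M]
    (f : Module.End R M) (c : R)
    (H : f ^ 12 + (c + c ^ 2) • f ^ 9 + (c ^ 2 + c ^ 3 + c ^ 4) • f ^ 6
      + ((c + c ^ 2) * c ^ 3) • f ^ 3 + (c ^ 6) • 1 = 0) (x : M) :
    (f ^ 9) ((f ^ 9) x) = (1 * c ^ 3 + 1 * c ^ 6) • (f ^ 9) x
      - ((1 * c ^ 3) * (1 * c ^ 6)) • x := by
  have h : ∀ y, (f ^ 12) y + (c + c ^ 2) • (f ^ 9) y + (c ^ 2 + c ^ 3 + c ^ 4) • (f ^ 6) y
      + ((c + c ^ 2) * c ^ 3) • (f ^ 3) y + (c ^ 6) • y = 0 := fun y => LinearMap.congr_fun H y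
  have h0 := h x
  have h3 := h ((f ^ 3) x)
  have h6 := h ((f ^ 6) x)
  simp only [end_pow_add, Nat.reduceAdd] at h0 h3 h6 ⊢
  linear_combination (norm := module) h6 - (c + c ^ 2) • h3 + c ^ 3 • h0

theorem relB_abs {R : Type u} [CommRing R] {M : Type u} [AddCommGroup M] [Module R M]
    (f : Module.End R M) (c : R)
    (H : f ^ 12 + (0 : R) • f ^ 9 + (c ^ 2 * (1 + c ^ 2)) • f ^ 6
      + (0 * c ^ 3) • f ^ 3 + (c ^ 6) • 1 = 0) (x : M) :
    (f ^ 6) ((f ^ 6) x) = ((-1) * c ^ 2 + (-1) * c ^ 4) • (f ^ 6) x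
      - (((-1) * c ^ 2) * ((-1) * c ^ 4)) • x := by
  have h : ∀ y, (f ^ 12) y + (0 : R) • (f ^ 9) y + (c ^ 2 * (1 + c ^ 2)) • (f ^ 6) y
      + (0 * c ^ 3) • (f ^ 3) y + (c ^ 6) • y = 0 := fun y => LinearMap.congr_fun H y
  have h0 := h x
  simp only [end_pow_add, Nat.reduceAdd] at h0 ⊢
  linear_combination (norm := module) h0

variable {p : ℕ} [Fact p.Prime] {k : Type u} [Field k] [IsAlgClosed k] [CharP k p]

section Rel

theorem relA (x : Fin 12 → WittVector p k) :
    (eF (tA p) (qA p) ^ 9) ((eF (tA p) (qA p) ^ 9) x)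
      = ((1 : WittVector p k) * (p : WittVector p k) ^ 3 + 1 * (p : WittVector p k) ^ 6) •
          (eF (tA p) (qA p) ^ 9) x
        - (((1 : WittVector p k) * (p : WittVector p k) ^ 3) * (1 * (p : WittVector p k) ^ 6)) • x
    := by
  have ht : ((tA p : ℕ) : WittVector p k) = (p : WittVector p k) + (p : WittVector p k) ^ 2 := by
    unfold tA; push_cast; rfl
  have hq : ((qA p : ℕ) : WittVector p k)
      = (p : WittVector p k) ^ 2 + (p : WittVector p k) ^ 3 + (p : WittVector p k) ^ 4 := by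
    unfold qA; push_cast; rfl
  have h := eF_relation (p := p) (k := k) (tA p) (qA p)
  rw [ht, hq] at h
  exact relA_abs (M := Fin 12 → WittVector p k) (eF (tA p) (qA p)) (p : WittVector p k) h x

theorem relB (x : Fin 12 → WittVector p k) :
    (eF 0 (qB p) ^ 6) ((eF 0 (qB p) ^ 6) x)
      = ((-1 : WittVector p k) * (p : WittVector p k) ^ 2 + (-1) * (p : WittVector p k) ^ 4) •
          (eF 0 (qB p) ^ 6) x
        - (((-1 : WittVector p k) * (p : WittVector p k) ^ 2) *
          ((-1) * (p : WittVector p k) ^ 4)) • x := by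
  have hq : ((qB p : ℕ) : WittVector p k)
      = (p : WittVector p k) ^ 2 * (1 + (p : WittVector p k) ^ 2) := by
    unfold qB; push_cast; ring
  have h := eF_relation (p := p) (k := k) 0 (qB p)
  rw [hq, Nat.cast_zero] at h
  exact relB_abs (M := Fin 12 → WittVector p k) (eF 0 (qB p)) (p : WittVector p k) h x

end Rel

section Poly

variable (t q : ℕ) (n r₁ r₂ : ℕ) (u : WittVector p k)

theorem cS_eF_pow (m : ℕ) (x : Fin 12 → WittVector p k) :
    cS ((eF t q ^ m) x) = (eF t q ^ m) (cS x) := by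
  induction m with
  | zero => rfl
  | succ m ih =>
    rw [pow_succ']
    change cS (lF t q ((eF t q ^ m) x)) = lF t q ((eF t q ^ m) (cS x))
    rw [cS_lF, ih]

theorem cT_eF_pow (m : ℕ) (x : Fin 12 → WittVector p k) :
    cT ((eF t q ^ m) x) = (eF t q ^ m) (cT x) := by
  have h := cS_eF_pow t q m (cT x)
  rw [cS_cT] at h
  rw [← h, cT_cS]

theorem cS_iter_lF (m : ℕ) (y : Fin 12 → WittVector p k) :
    cS^[m] (lF t q y) = lF t q (cS^[m] y) := by
  induction m generalizing y with
  | zero => rfl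
  | succ m ih => rw [Function.iterate_succ_apply, cS_lF, ih, Function.iterate_succ_apply]

theorem modF_iter (m : ℕ) (x : Fin 12 → WittVector p k) :
    (modF p k t q)^[m] x = (eF t q ^ m) (cS^[m] x) := by
  induction m generalizing x with
  | zero => rfl
  | succ m ih =>
    rw [Function.iterate_succ_apply, ih, Function.iterate_succ_apply, modF_eq, pow_succ]
    change (eF t q ^ m) (cS^[m] (lF t q (cS x))) = (eF t q ^ m) (lF t q (cS^[m] (cS x)))
    rw [cS_iter_lF]

variable {n} {u}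

/-- The eigenspace of `F₀^n` for an eigenvalue fixed by `σ`. -/
noncomputable abbrev eig (t q n : ℕ) (μ : WittVector p k) :
    Submodule (WittVector p k) (Fin 12 → WittVector p k) :=
  (eF t q ^ n : Module.End (WittVector p k) (Fin 12 → WittVector p k)).eigenspace μ

theorem cS_mem {μ : WittVector p k} (hμ : frob p k μ = μ) {x : Fin 12 → WittVector p k}
    (hx : x ∈ eig t q n μ) : cS x ∈ eig t q n μ := by
  rw [Module.End.mem_eigenspace_iff] at hx ⊢
  rw [← cS_eF_pow, hx, cS_smul, hμ]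

theorem cT_mem {μ : WittVector p k} (hμ : frob p k μ = μ) {x : Fin 12 → WittVector p k}
    (hx : x ∈ eig t q n μ) : cT x ∈ eig t q n μ := by
  have hμ' : frobInv p k μ = μ := by
    have := congrArg (frobInv p k) hμ
    rw [frobInv_frob] at this
    exact this.symm
  rw [Module.End.mem_eigenspace_iff] at hx ⊢
  rw [← cT_eF_pow, hx, cT_smul, hμ']

theorem cS_iter_mem {μ : WittVector p k} (hμ : frob p k μ = μ) (m : ℕ)
    {x : Fin 12 → WittVector p k} (hx : x ∈ eig t q n μ) : cS^[m] x ∈ eig t q n μ := by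
  induction m with
  | zero => exact hx
  | succ m ih => rw [Function.iterate_succ_apply']; exact cS_mem t q hμ ih

theorem cT_iter_mem {μ : WittVector p k} (hμ : frob p k μ = μ) (m : ℕ)
    {x : Fin 12 → WittVector p k} (hx : x ∈ eig t q n μ) : cT^[m] x ∈ eig t q n μ := by
  induction m with
  | zero => exact hx
  | succ m ih => rw [Function.iterate_succ_apply']; exact cT_mem t q hμ ih

theorem cS_cT_iter (m : ℕ) (x : Fin 12 → WittVector p k) : cS^[m] (cT^[m] x) = x := by
  induction m with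
  | zero => rfl
  | succ m ih =>
    rw [Function.iterate_succ_apply, Function.iterate_succ_apply', cS_cT, ih]

theorem modF_mem_eig {μ : WittVector p k} (hμ : frob p k μ = μ) {x : Fin 12 → WittVector p k}
    (hx : x ∈ eig t q n μ) : modF p k t q x ∈ eig t q n μ := by
  rw [modF_eq]
  have h := cS_mem t q hμ hx
  rw [Module.End.mem_eigenspace_iff] at h ⊢
  have e : (eF t q ^ n) (lF t q (cS x)) = lF t q ((eF t q ^ n) (cS x)) := by
    have h1 : (eF t q ^ n) (lF t q (cS x)) = (eF t q ^ (n + 1)) (cS x) := by rw [pow_succ]; rfl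
    have h2 : lF t q ((eF t q ^ n) (cS x)) = (eF t q ^ (n + 1)) (cS x) := by rw [pow_succ']; rfl
    rw [h1, h2]
  rw [e, h, map_smul]

theorem slope_fwd (hu : u * u = 1) (hσ : frob p k u = u) (r : ℕ) {x : Fin 12 → WittVector p k}
    (hx : x ∈ eig t q n (u * (p : WittVector p k) ^ r)) :
    ∃ y ∈ eig t q n (u * (p : WittVector p k) ^ r),
      (modF p k t q)^[n] x = ((p : WittVector p k) ^ r) • y := by
  have hμ : frob p k (u * (p : WittVector p k) ^ r) = u * (p : WittVector p k) ^ r := by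
    rw [map_mul, hσ, map_pow, map_natCast]
  have h := cS_iter_mem t q hμ n hx
  refine ⟨u • cS^[n] x, Submodule.smul_mem _ _ h, ?_⟩
  rw [modF_iter, (Module.End.mem_eigenspace_iff.mp h), smul_smul, mul_comm]

theorem slope_bwd (hu : u * u = 1) (hσ : frob p k u = u) (r : ℕ) {y : Fin 12 → WittVector p k}
    (hy : y ∈ eig t q n (u * (p : WittVector p k) ^ r)) :
    ∃ x ∈ eig t q n (u * (p : WittVector p k) ^ r),
      (modF p k t q)^[n] x = ((p : WittVector p k) ^ r) • y := by
  have hμ : frob p k (u * (p : WittVector p k) ^ r) = u * (p : WittVector p k) ^ r := by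
    rw [map_mul, hσ, map_pow, map_natCast]
  have h : cT^[n] (u • y) ∈ eig t q n (u * (p : WittVector p k) ^ r) :=
    cT_iter_mem t q hμ n (Submodule.smul_mem _ _ hy)
  refine ⟨cT^[n] (u • y), h, ?_⟩
  have hy' : u • y ∈ eig t q n (u * (p : WittVector p k) ^ r) := Submodule.smul_mem _ _ hy
  rw [modF_iter, cS_cT_iter, (Module.End.mem_eigenspace_iff.mp hy'), smul_smul]
  congr 1
  linear_combination ((p : WittVector p k) ^ r) * hu

/-- The slope decomposition. -/
noncomputable def NN (t q n r₁ r₂ : ℕ) (u : WittVector p k) (l : ℚ) :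
    Submodule (WittVector p k) (Fin 12 → WittVector p k) :=
  if l = 1 / 3 then eig t q n (u * (p : WittVector p k) ^ r₁)
  else if l = 2 / 3 then eig t q n (u * (p : WittVector p k) ^ r₂) else ⊥

variable {t q r₁ r₂}

theorem NN_le₁ {l : ℚ} (h : l ≠ 2 / 3) :
    NN t q n r₁ r₂ u l ≤ eig t q n (u * (p : WittVector p k) ^ r₁) := by
  unfold NN
  split_ifs
  · exact le_rfl
  · exact bot_le

theorem NN_le₂ {l : ℚ} (h : l ≠ 1 / 3) :
    NN t q n r₁ r₂ u l ≤ eig t q n (u * (p : WittVector p k) ^ r₂) := by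
  unfold NN
  rw [if_neg h]
  split_ifs
  · exact le_rfl
  · exact bot_le

theorem NN_indep (hu : u * u = 1) (hlt : r₁ < r₂) : iSupIndep (NN t q n r₁ r₂ u) := by
  have hne := pow_ne_of_lt (p := p) (k := k) r₁ r₂ u hu hlt
  have hd : Disjoint (eig t q n (u * (p : WittVector p k) ^ r₁))
      (eig t q n (u * (p : WittVector p k) ^ r₂)) := by
    rw [Submodule.disjoint_def]
    intro x hx hy
    rw [Module.End.mem_eigenspace_iff] at hx hy
    exact eig_disjoint _ _ _ hne x hx hy
  intro l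
  by_cases h1 : l = 1 / 3
  · subst h1
    refine Disjoint.mono (NN_le₁ (by norm_num)) ?_ hd
    exact iSup₂_le fun j hj => NN_le₂ hj
  · by_cases h2 : l = 2 / 3
    · subst h2
      refine Disjoint.mono (NN_le₂ (by norm_num)) ?_ hd.symm
      exact iSup₂_le fun j hj => NN_le₁ hj
    · have : NN t q n r₁ r₂ u l = ⊥ := by
        unfold NN
        rw [if_neg h1, if_neg h2]
      rw [this]
      exact disjoint_bot_left

theorem NN_cover (hu : u * u = 1) (hlt : r₁ < r₂)
    (hrel : ∀ x : Fin 12 → WittVector p k, (eF t q ^ n) ((eF t q ^ n) x)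
      = (u * (p : WittVector p k) ^ r₁ + u * (p : WittVector p k) ^ r₂) • (eF t q ^ n) x
        - ((u * (p : WittVector p k) ^ r₁) * (u * (p : WittVector p k) ^ r₂)) • x)
    (x : Fin 12 → WittVector p k) :
    ((p : WittVector p k) ^ r₁) • x ∈ ⨆ l, NN t q n r₁ r₂ u l := by
  obtain ⟨m, rfl⟩ := Nat.exists_eq_add_of_lt hlt
  have hunit : IsUnit (1 - (p : WittVector p k) ^ (m + 1)) := by
    apply IsLocalRing.isUnit_one_sub_self_of_mem_nonunits
    rw [mem_nonunits_iff]
    intro h
    rw [pow_succ] at h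
    exact (WittVector.irreducible p (k := k)).not_isUnit (isUnit_of_mul_isUnit_right h)
  obtain ⟨v, hv⟩ := hunit.exists_right_inv
  have hm1 : (eF t q ^ n) x - (u * (p : WittVector p k) ^ (r₁ + m + 1)) • x
      ∈ eig t q n (u * (p : WittVector p k) ^ r₁) := by
    rw [Module.End.mem_eigenspace_iff, map_sub, map_smul, hrel]
    module
  have hm2 : (eF t q ^ n) x - (u * (p : WittVector p k) ^ r₁) • x
      ∈ eig t q n (u * (p : WittVector p k) ^ (r₁ + m + 1)) := by
    rw [Module.End.mem_eigenspace_iff, map_sub, map_smul, hrel]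
    module
  have e1 : NN t q n r₁ (r₁ + m + 1) u (1 / 3) = eig t q n (u * (p : WittVector p k) ^ r₁) := by
    unfold NN; rw [if_pos rfl]
  have e2 : NN t q n r₁ (r₁ + m + 1) u (2 / 3)
      = eig t q n (u * (p : WittVector p k) ^ (r₁ + m + 1)) := by
    unfold NN; rw [if_neg (by norm_num), if_pos rfl]
  have h1 : (eF t q ^ n) x - (u * (p : WittVector p k) ^ (r₁ + m + 1)) • x
      ∈ ⨆ l, NN t q n r₁ (r₁ + m + 1) u l :=
    le_iSup (NN t q n r₁ (r₁ + m + 1) u) (1 / 3) (by rw [e1]; exact hm1)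
  have h2 : (eF t q ^ n) x - (u * (p : WittVector p k) ^ r₁) • x
      ∈ ⨆ l, NN t q n r₁ (r₁ + m + 1) u l :=
    le_iSup (NN t q n r₁ (r₁ + m + 1) u) (2 / 3) (by rw [e2]; exact hm2)
  have h3 := Submodule.smul_mem _ (v * u) (Submodule.sub_mem _ h1 h2)
  have e3 : (v * u) • (((eF t q ^ n) x - (u * (p : WittVector p k) ^ (r₁ + m + 1)) • x)
      - ((eF t q ^ n) x - (u * (p : WittVector p k) ^ r₁) • x)) = ((p : WittVector p k) ^ r₁) • x
      := by
    have e4 : ((eF t q ^ n) x - (u * (p : WittVector p k) ^ (r₁ + m + 1)) • x)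
      - ((eF t q ^ n) x - (u * (p : WittVector p k) ^ r₁) • x)
      = (u * (p : WittVector p k) ^ r₁ - u * (p : WittVector p k) ^ (r₁ + m + 1)) • x := by
      rw [sub_smul]; abel
    rw [e4, smul_smul]
    congr 1
    have e5 : v * u * (u * (p : WittVector p k) ^ r₁ - u * (p : WittVector p k) ^ (r₁ + m + 1))
        = (u * u) * ((1 - (p : WittVector p k) ^ (m + 1)) * v) * (p : WittVector p k) ^ r₁ := by
      ring
    rw [e5, hu, hv, one_mul, one_mul]
  rw [e3] at h3
  exact h3

theorem hasNP (hu : u * u = 1) (hσ : frob p k u = u) (hr : r₁ + r₂ = n) (hlt : r₁ < r₂)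
    (h1 : n = 3 * r₁) (hn : 0 < n)
    (hrel : ∀ x : Fin 12 → WittVector p k, (eF t q ^ n) ((eF t q ^ n) x)
      = (u * (p : WittVector p k) ^ r₁ + u * (p : WittVector p k) ^ r₂) • (eF t q ^ n) x
        - ((u * (p : WittVector p k) ^ r₁) * (u * (p : WittVector p k) ^ r₂)) • x) :
    (modM p k t q).HasNewtonPolygon (Finsupp.single (1 / 3) 6 + Finsupp.single (2 / 3) 6) := by
  have hrk := finrank_eig t q n r₁ r₂ u hu hr hlt hrel
  have hμ : ∀ r : ℕ, frob p k (u * (p : WittVector p k) ^ r) = u * (p : WittVector p k) ^ r := by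
    intro r
    rw [map_mul, hσ, map_pow, map_natCast]
  have e1 : NN t q n r₁ r₂ u (1 / 3) = eig t q n (u * (p : WittVector p k) ^ r₁) := by
    unfold NN; rw [if_pos rfl]
  have e2 : NN t q n r₁ r₂ u (2 / 3) = eig t q n (u * (p : WittVector p k) ^ r₂) := by
    unfold NN; rw [if_neg (by norm_num), if_pos rfl]
  have e3 : ∀ l : ℚ, l ≠ 1 / 3 → l ≠ 2 / 3 → NN t q n r₁ r₂ u l = ⊥ := by
    intro l h1 h2
    unfold NN; rw [if_neg h1, if_neg h2]
  have hF : ∀ l : ℚ, ∀ x ∈ NN t q n r₁ r₂ u l, modF p k t q x ∈ NN t q n r₁ r₂ u l := by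
    intro l x hx
    by_cases h1 : l = 1 / 3
    · subst h1
      rw [e1] at hx ⊢
      exact modF_mem_eig t q (hμ _) hx
    · by_cases h2 : l = 2 / 3
      · subst h2
        rw [e2] at hx ⊢
        exact modF_mem_eig t q (hμ _) hx
      · rw [e3 l h1 h2] at hx ⊢
        rw [(Submodule.mem_bot _).mp hx, map_zero]
        exact Submodule.zero_mem _
  have hfr : ∀ l : ℚ, Module.finrank (WittVector p k) (NN t q n r₁ r₂ u l)
      = (Finsupp.single (1 / 3 : ℚ) 6 + Finsupp.single (2 / 3 : ℚ) 6 : ℚ →₀ ℕ) l := by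
    intro l
    rw [Finsupp.add_apply, Finsupp.single_apply, Finsupp.single_apply]
    by_cases h1 : l = 1 / 3
    · subst h1
      rw [e1, if_pos rfl, if_neg (by norm_num)]
      exact hrk.1
    · by_cases h2 : l = 2 / 3
      · subst h2
        rw [e2, if_pos rfl, if_neg (by norm_num)]
        exact hrk.2
      · rw [e3 l h1 h2, if_neg (fun h => h1 h.symm), if_neg (fun h => h2 h.symm)]
        exact finrank_bot _ _
  have hsl : ∀ l : ℚ, (Finsupp.single (1 / 3 : ℚ) 6 + Finsupp.single (2 / 3 : ℚ) 6 : ℚ →₀ ℕ) l ≠ 0 →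
      ∃ r s : ℕ, 0 < s ∧ l = (r : ℚ) / (s : ℚ) ∧
      (∀ x ∈ NN t q n r₁ r₂ u l, ∃ y ∈ NN t q n r₁ r₂ u l,
        (modF p k t q)^[s] x = ((p : WittVector p k) ^ r) • y) ∧
      (∀ y ∈ NN t q n r₁ r₂ u l, ∃ x ∈ NN t q n r₁ r₂ u l,
        (modF p k t q)^[s] x = ((p : WittVector p k) ^ r) • y) := by
    intro l hl
    rw [Finsupp.add_apply, Finsupp.single_apply, Finsupp.single_apply] at hl
    have hn0 : (n : ℚ) ≠ 0 := by exact_mod_cast hn.ne'
    by_cases hl1 : l = 1 / 3
    · subst hl1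
      refine ⟨r₁, n, hn, ?_, ?_, ?_⟩
      · rw [eq_div_iff hn0, h1]; push_cast; ring
      · rw [e1]
        intro x hx
        exact slope_fwd t q hu hσ r₁ hx
      · rw [e1]
        intro y hy
        exact slope_bwd t q hu hσ r₁ hy
    · by_cases hl2 : l = 2 / 3
      · subst hl2
        refine ⟨r₂, n, hn, ?_, ?_, ?_⟩
        · have h2 : r₂ = 2 * r₁ := by omega
          rw [eq_div_iff hn0, h1, h2]; push_cast; ring
        · rw [e2]
          intro x hx
          exact slope_fwd t q hu hσ r₂ hx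
        · rw [e2]
          intro y hy
          exact slope_bwd t q hu hσ r₂ hy
      · exfalso
        apply hl
        rw [if_neg (fun h => hl1 h.symm), if_neg (fun h => hl2 h.symm), add_zero]
  exact ⟨NN t q n r₁ r₂ u, hF, NN_indep hu hlt, ⟨r₁, NN_cover hu hlt hrel⟩, hfr, hsl⟩

end Poly

theorem np_A : (modM p k (tA p) (qA p)).HasNewtonPolygon
    (Finsupp.single (1 / 3) 6 + Finsupp.single (2 / 3) 6) :=
  hasNP (n := 9) (r₁ := 3) (r₂ := 6) (u := 1) (by ring) (map_one _) rfl (by norm_num) rfl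
    (by norm_num) relA

theorem np_B : (modM p k 0 (qB p)).HasNewtonPolygon
    (Finsupp.single (1 / 3) 6 + Finsupp.single (2 / 3) 6) :=
  hasNP (n := 6) (r₁ := 2) (r₂ := 4) (u := -1) (by ring) (by rw [map_neg, map_one]) rfl
    (by norm_num) rfl (by norm_num) relB

theorem abelian_np : IsAbelianNewtonPolygon 6
    (Finsupp.single (1 / 3) 6 + Finsupp.single (2 / 3) 6) := by
  have hv : ∀ l : ℚ, (Finsupp.single (1 / 3 : ℚ) 6 + Finsupp.single (2 / 3 : ℚ) 6 : ℚ →₀ ℕ) l
      = if l = 1 / 3 then 6 else if l = 2 / 3 then 6 else 0 := by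
    intro l
    rw [Finsupp.add_apply, Finsupp.single_apply, Finsupp.single_apply]
    by_cases h1 : l = 1 / 3
    · subst h1; norm_num
    · by_cases h2 : l = 2 / 3
      · subst h2; norm_num
      · rw [if_neg (fun h => h1 h.symm), if_neg (fun h => h2 h.symm), if_neg h1, if_neg h2,
          add_zero]
  refine ⟨?_, ?_, ?_, ?_⟩
  · intro l hl
    rw [Finsupp.mem_support_iff, hv] at hl
    split_ifs at hl with h1 h2
    · subst h1; norm_num
    · subst h2; norm_num
    · exact absurd rfl hl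
  · intro l
    rw [hv, hv]
    by_cases h1 : l = 1 / 3
    · subst h1; norm_num
    · by_cases h2 : l = 2 / 3
      · subst h2; norm_num
      · have h3 : ¬ (1 - l = 1 / 3) := fun h => h2 (by linarith)
        have h4 : ¬ (1 - l = 2 / 3) := fun h => h1 (by linarith)
        rw [if_neg h1, if_neg h2, if_neg h3, if_neg h4]
  · rw [Finsupp.sum_add_index' (fun _ => rfl) (fun _ _ _ => rfl), Finsupp.sum_single_index rfl,
      Finsupp.sum_single_index rfl]
  · intro l
    rw [hv]
    split_ifs with h1 h2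
    · subst h1; exact ⟨2, by norm_num⟩
    · subst h2; exact ⟨4, by norm_num⟩
    · exact ⟨0, by norm_num⟩

end Pool.Agent.UA
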