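import Pool.Agent.Lib.MP_381773_ag.Inv
import Pool.Agent.Lib.MP_381773_ag.UB2

/-!
# `U` for `M(0, p²(1+p²))` does not have two independent `W₃`-characters
-/

set_option autoImplicit false
set_option linter.unusedSectionVars false

universe u

namespace Pool.Agent.UA

open WittVector

variable {p : ℕ} [Fact p.Prime] {k : Type u} [Field k] [IsAlgClosed k] [CharP k p]

/-- Polynomial functions `k → k`. -/
def polyFun (k : Type u) [Field k] : Subalgebra k (k → k) where
  carrier := {f | ∃ P : Polynomial k, ∀ t, f t = P.eval t}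
  mul_mem' := by
    rintro f g ⟨P, hP⟩ ⟨Q, hQ⟩
    exact ⟨P * Q, fun t => by rw [Pi.mul_apply, hP, hQ, Polynomial.eval_mul]⟩
  add_mem' := by
    rintro f g ⟨P, hP⟩ ⟨Q, hQ⟩
    exact ⟨P + Q, fun t => by rw [Pi.add_apply, hP, hQ, Polynomial.eval_add]⟩
  algebraMap_mem' := fun r => ⟨Polynomial.C r, fun t => by simp⟩

theorem teich_regW : RegW (polyFun k) (fun t : k => WittVector.teichmuller p t) := by
  intro n
  rcases Nat.eq_zero_or_pos n with rfl | hn
  · exact ⟨Polynomial.X, fun t => by
      change (WittVector.teichmuller p t).coeff 0 = _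
      rw [WittVector.teichmuller_coeff_zero, Polynomial.eval_X]⟩
  · exact ⟨0, fun t => by
      change (WittVector.teichmuller p t).coeff n = _
      rw [WittVector.teichmuller_coeff_pos _ _ _ hn, Polynomial.eval_zero]⟩

/-- Regular functions restricted to a curve `t ↦ (a [t]) z` are perfect-polynomial functions. -/
theorem regular_on_curve {L : Type u} [AddCommGroup L] [Module (WittVector p k) L]
    (a : WittVector p k) (z : L) {F : L → k} (hF : F ∈ regularFunctions p L) :
    ∃ (m : ℕ) (P : Polynomial k), ∀ t : k,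
      F ((a * WittVector.teichmuller p t) • z) ^ p ^ m = P.eval t := by
  unfold regularFunctions at hF
  induction hF using Algebra.adjoin_induction with
  | mem F hF =>
    obtain ⟨l, n, m, h⟩ := hF
    have h1 : RegW (polyFun k) (fun t : k => (a * WittVector.teichmuller p t) * l z) :=
      ((RegW.const a).mul teich_regW).mul (RegW.const (l z))
    obtain ⟨P, hP⟩ := h1 n
    refine ⟨m, P, fun t => ?_⟩
    rw [h, map_smul, smul_eq_mul]
    exact hP t
  | algebraMap r =>
    refine ⟨0, Polynomial.C r, fun t => ?_⟩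
    simp
  | add F G _ _ hF hG =>
    obtain ⟨m, P, hP⟩ := hF
    obtain ⟨n, Q, hQ⟩ := hG
    refine ⟨m + n, P ^ p ^ n + Q ^ p ^ m, fun t => ?_⟩
    rw [Pi.add_apply, add_pow_char_pow, Polynomial.eval_add, Polynomial.eval_pow,
      Polynomial.eval_pow, ← hP, ← hQ, ← pow_mul, ← pow_mul, ← pow_add, ← pow_add,
      add_comm n m]
  | mul F G _ _ hF hG =>
    obtain ⟨m, P, hP⟩ := hF
    obtain ⟨n, Q, hQ⟩ := hG
    refine ⟨m + n, P ^ p ^ n * Q ^ p ^ m, fun t => ?_⟩
    rw [Pi.mul_apply, mul_pow, Polynomial.eval_mul, Polynomial.eval_pow,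
      Polynomial.eval_pow, ← hP, ← hQ, ← pow_mul, ← pow_mul, ← pow_add, ← pow_add,
      add_comm n m]

theorem exists_relation (P : Fin 2 → Polynomial k) :
    ∃ Q : MvPolynomial (Fin 2) k, Q ≠ 0 ∧ ∀ t : k,
      MvPolynomial.eval (fun i => (P i).eval t) Q = 0 := by
  have h : ¬ AlgebraicIndependent k P := by
    intro h
    have h1 := h.lift_cardinalMk_le_trdeg
    rw [Polynomial.trdeg_of_isDomain] at h1
    simp at h1
  rw [algebraicIndependent_iff] at h
  push Not at h
  obtain ⟨Q, hQ, hQ0⟩ := h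
  refine ⟨Q, hQ0, fun t => ?_⟩
  have h2 : Polynomial.eval t (MvPolynomial.aeval P Q) = 0 := by rw [hQ, Polynomial.eval_zero]
  have h3 := MvPolynomial.hom_eval₂ Q (algebraMap k (Polynomial k)) (Polynomial.evalRingHom t) P
  have h4 : (Polynomial.evalRingHom t).comp (algebraMap k (Polynomial k)) = RingHom.id k := by
    ext r; simp
  rw [h4] at h3
  rw [MvPolynomial.aeval_def] at h2
  change (Polynomial.evalRingHom t) _ = 0 at h2
  rw [← h2, h3]
  rfl

theorem dvd_chi_nsmul {G : FunGroup k} {χ : G.carrier → WittVector p k}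
    (h : ∀ x y, (p : WittVector p k) ^ 3 ∣ χ (x + y) - χ x - χ y) (n : ℕ) (x : G.carrier) :
    (p : WittVector p k) ^ 3 ∣ χ (n • x) - (n : WittVector p k) * χ x := by
  induction n with
  | zero =>
    have h0 := h 0 0
    rw [add_zero, sub_self, zero_sub, dvd_neg] at h0
    simpa using h0
  | succ n ih =>
    have h1 := h (n • x) x
    rw [succ_nsmul]
    have : χ (n • x + x) - ((n + 1 : ℕ) : WittVector p k) * χ x
        = (χ (n • x + x) - χ (n • x) - χ x) + (χ (n • x) - (n : WittVector p k) * χ x) := by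
      push_cast; ring
    rw [this]
    exact dvd_add h1 ih

theorem coeff_two_p2 (w : WittVector p k) :
    ((p : WittVector p k) ^ 2 * w).coeff 2 = w.coeff 0 ^ p ^ 2 := by
  rw [mul_comm]
  exact WittVector.mul_pow_charP_coeff_succ (m := 0) (n := 2) w

theorem not_hasTwo_UB : ¬ HasTwo p (UU p k 0 (qB p)) := by
  rintro ⟨χ, h1, h2, h3⟩
  -- the curve
  let γ : Fin 2 → k → k := fun i t =>
    (χ i (hh 0 (qB p) 7 ((p : WittVector p k) ^ 2 * WittVector.teichmuller p t))).coeff 2
  have hγ : ∀ i, ∃ (m : ℕ) (P : Polynomial k), ∀ t, γ i t ^ p ^ m = P.eval t := by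
    intro i
    have hreg := h1 i 2
    obtain ⟨m, P, hP⟩ := regular_on_curve (p := p) (k := k)
      (L := ⋀[WittVector p k]^2 (modM p k 0 (qB p)).carrier)
      ((p : WittVector p k) ^ 2)
      (wedge p k (N := (modM p k 0 (qB p)).carrier) (sb 6 1 : Fin 12 → WittVector p k)
        (sb 7 1 : Fin 12 → WittVector p k)) hreg
    refine ⟨m, P, fun t => ?_⟩
    rw [← hP t]
    have hcurve : hh 0 (qB p) 7 ((p : WittVector p k) ^ 2 * WittVector.teichmuller p t)
        = QuotientAddGroup.mk (s := boundary (wedgeSq (modM p k 0 (qB p))))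
          (((p : WittVector p k) ^ 2 * WittVector.teichmuller p t) •
            (wedge p k (N := (modM p k 0 (qB p)).carrier)
              (sb 6 1 : Fin 12 → WittVector p k) (sb 7 1 : Fin 12 → WittVector p k))) := by
      rw [hh_apply, sb_eq_smul 7 ((p : WittVector p k) ^ 2 * WittVector.teichmuller p t)]
      exact congrArg (QuotientAddGroup.mk (s := boundary (wedgeSq (modM p k 0 (qB p)))))
        (wedge_smul_right (N := (modM p k 0 (qB p)).carrier)
          ((p : WittVector p k) ^ 2 * WittVector.teichmuller p t)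
          (sb 6 1 : Fin 12 → WittVector p k) (sb 7 1 : Fin 12 → WittVector p k))
    change ((χ i (hh 0 (qB p) 7 ((p : WittVector p k) ^ 2 *
      WittVector.teichmuller p t))).coeff 2) ^ p ^ m = _
    rw [hcurve]
    rfl
  choose m P hP using hγ
  obtain ⟨Q, hQ0, hQ⟩ := exists_relation (fun i => P i ^ p ^ (m 0 + m 1 - m i))
  -- values of χ mod p on every point
  have hval : ∀ x, ∃ t : k, ∀ i, ((χ i x).coeff 0) ^ p ^ (2 + (m 0 + m 1))
      = (P i ^ p ^ (m 0 + m 1 - m i)).eval t := by
    intro x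
    obtain ⟨c, hc⟩ := p2_UB x
    obtain ⟨c', hc'⟩ : ∃ c', c = WittVector.teichmuller p (c.coeff 0) + (p : WittVector p k) * c' := by
      have : (c - WittVector.teichmuller p (c.coeff 0)).coeff 0 = 0 := by
        rw [sub_coeff_zero', WittVector.teichmuller_coeff_zero, sub_self]
      obtain ⟨d, hd⟩ := Ideal.mem_span_singleton.mp
        ((WittVector.mem_span_p_iff_coeff_zero_eq_zero _).mpr this)
      exact ⟨d, by rw [← hd]; ring⟩
    refine ⟨c.coeff 0, fun i => ?_⟩
    have h4 : (p ^ 2) • x = hh 0 (qB p) 7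
        ((p : WittVector p k) ^ 2 * WittVector.teichmuller p (c.coeff 0)) := by
      rw [hc]
      conv_lhs => rw [hc', mul_add, map_add]
      have : (p : WittVector p k) ^ 2 * ((p : WittVector p k) * c')
          = (p : WittVector p k) ^ 3 * c' := by ring
      rw [this, hB7, add_zero]
    have h5 := dvd_chi_nsmul (h2 i) (p ^ 2) x
    have h6 := coeff_eq_of_dvd h5 (m := 2) (by norm_num)
    rw [h4] at h6
    have h7 : (((p ^ 2 : ℕ) : WittVector p k) * χ i x).coeff 2 = (χ i x).coeff 0 ^ p ^ 2 := by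
      push_cast
      exact coeff_two_p2 _
    rw [h7] at h6
    have h8 : γ i (c.coeff 0) = (χ i x).coeff 0 ^ p ^ 2 := h6
    rw [pow_add, pow_mul, ← h8, Polynomial.eval_pow, ← hP i, ← pow_mul, ← pow_add]
    congr 2
    have : m i ≤ m 0 + m 1 := by
      fin_cases i
      · exact Nat.le_add_right _ _
      · exact Nat.le_add_left _ _
    omega
  -- conclude
  have h9 := h3 (MvPolynomial.expand (p ^ (2 + (m 0 + m 1))) Q) (by
    intro x
    obtain ⟨t, ht⟩ := hval x
    have h10 := hQ t
    rw [← h10, MvPolynomial.eval_expand]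
    congr 2
    ext i
    rw [Pi.pow_apply, ht i])
  exact hQ0 ((MvPolynomial.expand_eq_zero (Nat.pos_of_ne_zero
    (pow_ne_zero _ (Fact.out : p.Prime).ne_zero))).mp h9)

end Pool.Agent.UA
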