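import Pool.Agent.Lib.MP_381773_ag.UA1

/-!
# The boundary cases for the forms of `PA2`
-/

set_option autoImplicit false
set_option linter.unusedSectionVars false
set_option linter.unusedSimpArgs false

universe u

namespace Pool.Agent.UA

open WittVector

variable {p : ℕ} [Fact p.Prime] {k : Type u} [Field k] [IsAlgClosed k] [CharP k p]

variable (a b : WittVector p k)

theorem pa2_0_11 : (p : WittVector p k) ^ 3 ∣
    bet (Bf PA2) (sb 0 a) (modF p k (tA p) (qA p) (sb 11 b))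
      - bet (Bf PA2) (modV p k (tA p) (qA p) (sb 0 a)) (sb 11 b) := by
  have ht : ((tA p : ℕ) : WittVector p k) = (p : WittVector p k) + (p : WittVector p k) ^ 2 := by
    unfold tA; push_cast; ring
  have hq : ((qA p : ℕ) : WittVector p k) = (p : WittVector p k) ^ 2 + (p : WittVector p k) ^ 3 + (p : WittVector p k) ^ 4 := by
    unfold qA; push_cast; ring
  rw [modF_sb_11, modV_sb_0]
  simp only [bet_sub_left, bet_sub_right, bet_neg_left, bet_neg_right, bet_sb, frob_eq,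
    frobInv_eq, ht, hq, Bf_0_0, Bf_0_3, Bf_0_6, Bf_0_9, Bf_2_11, Bf_5_11, Bf_8_11, Bf_11_11, PA2_3, PA2_6, PA2_9,
    map_mul, map_add, map_pow, map_natCast, sg_sg, mul_zero, neg_zero, sub_zero]
  refine ⟨0, ?_⟩
  norm_num <;> ring

theorem pa2_1_11 : (p : WittVector p k) ^ 3 ∣
    bet (Bf PA2) (sb 1 a) (modF p k (tA p) (qA p) (sb 11 b))
      - bet (Bf PA2) (modV p k (tA p) (qA p) (sb 1 a)) (sb 11 b) := by
  have ht : ((tA p : ℕ) : WittVector p k) = (p : WittVector p k) + (p : WittVector p k) ^ 2 := by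
    unfold tA; push_cast; ring
  have hq : ((qA p : ℕ) : WittVector p k) = (p : WittVector p k) ^ 2 + (p : WittVector p k) ^ 3 + (p : WittVector p k) ^ 4 := by
    unfold qA; push_cast; ring
  rw [modF_sb_11, modV_sb_1]
  simp only [bet_sub_left, bet_sub_right, bet_neg_left, bet_neg_right, bet_sb, frob_eq,
    frobInv_eq, ht, hq, Bf_0_11, Bf_1_0, Bf_1_3, Bf_1_6, Bf_1_9, PA2_1, PA2_2, PA2_5, PA2_8, PA2_11,
    map_mul, map_add, map_pow, map_natCast, sg_sg, mul_zero, neg_zero, sub_zero]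
  refine ⟨(1) * (p : WittVector p k) ^ 2 * (sg 2 a * sg 3 b) + (1) * (p : WittVector p k) ^ 0 * (sg 5 a * sg 6 b), ?_⟩
  norm_num <;> ring

theorem pa2_2_11 : (p : WittVector p k) ^ 3 ∣
    bet (Bf PA2) (sb 2 a) (modF p k (tA p) (qA p) (sb 11 b))
      - bet (Bf PA2) (modV p k (tA p) (qA p) (sb 2 a)) (sb 11 b) := by
  have ht : ((tA p : ℕ) : WittVector p k) = (p : WittVector p k) + (p : WittVector p k) ^ 2 := by
    unfold tA; push_cast; ring
  have hq : ((qA p : ℕ) : WittVector p k) = (p : WittVector p k) ^ 2 + (p : WittVector p k) ^ 3 + (p : WittVector p k) ^ 4 := by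
    unfold qA; push_cast; ring
  rw [modF_sb_11, modV_sb_2]
  simp only [bet_sub_left, bet_sub_right, bet_neg_left, bet_neg_right, bet_sb, frob_eq,
    frobInv_eq, ht, hq, Bf_1_11, Bf_2_0, Bf_2_3, Bf_2_6, Bf_2_9, PA2_1, PA2_2, PA2_4, PA2_7, PA2_10,
    map_mul, map_add, map_pow, map_natCast, sg_sg, mul_zero, neg_zero, sub_zero]
  refine ⟨(1) * (p : WittVector p k) ^ 2 * (sg (-3) a * sg (-2) b) + (1) * (p : WittVector p k) ^ 2 * (sg 0 a * sg 1 b) + (1) * (p : WittVector p k) ^ 2 * (sg 3 a * sg 4 b) + (1) * (p : WittVector p k) ^ 1 * (sg 6 a * sg 7 b) + (1) * (p : WittVector p k) ^ 2 * (sg 6 a * sg 7 b) + (1) * (p : WittVector p k) ^ 0 * (sg 9 a * sg 10 b) + (1) * (p : WittVector p k) ^ 1 * (sg 9 a * sg 10 b) + (1) * (p : WittVector p k) ^ 2 * (sg 9 a * sg 10 b), ?_⟩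
  norm_num <;> ring

theorem pa2_3_11 : (p : WittVector p k) ^ 3 ∣
    bet (Bf PA2) (sb 3 a) (modF p k (tA p) (qA p) (sb 11 b))
      - bet (Bf PA2) (modV p k (tA p) (qA p) (sb 3 a)) (sb 11 b) := by
  have ht : ((tA p : ℕ) : WittVector p k) = (p : WittVector p k) + (p : WittVector p k) ^ 2 := by
    unfold tA; push_cast; ring
  have hq : ((qA p : ℕ) : WittVector p k) = (p : WittVector p k) ^ 2 + (p : WittVector p k) ^ 3 + (p : WittVector p k) ^ 4 := by
    unfold qA; push_cast; ring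
  rw [modF_sb_11, modV_sb_3]
  simp only [bet_sub_left, bet_sub_right, bet_neg_left, bet_neg_right, bet_sb, frob_eq,
    frobInv_eq, ht, hq, Bf_2_11, Bf_3_0, Bf_3_3, Bf_3_6, Bf_3_9, PA2_3, PA2_6, PA2_9,
    map_mul, map_add, map_pow, map_natCast, sg_sg, mul_zero, neg_zero, sub_zero]
  refine ⟨0, ?_⟩
  norm_num <;> ring

theorem pa2_4_11 : (p : WittVector p k) ^ 3 ∣
    bet (Bf PA2) (sb 4 a) (modF p k (tA p) (qA p) (sb 11 b))
      - bet (Bf PA2) (modV p k (tA p) (qA p) (sb 4 a)) (sb 11 b) := by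
  have ht : ((tA p : ℕ) : WittVector p k) = (p : WittVector p k) + (p : WittVector p k) ^ 2 := by
    unfold tA; push_cast; ring
  have hq : ((qA p : ℕ) : WittVector p k) = (p : WittVector p k) ^ 2 + (p : WittVector p k) ^ 3 + (p : WittVector p k) ^ 4 := by
    unfold qA; push_cast; ring
  rw [modF_sb_11, modV_sb_4]
  simp only [bet_sub_left, bet_sub_right, bet_neg_left, bet_neg_right, bet_sb, frob_eq,
    frobInv_eq, ht, hq, Bf_3_11, Bf_4_0, Bf_4_3, Bf_4_6, Bf_4_9, PA2_1, PA2_2, PA2_4, PA2_5, PA2_8,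
    map_mul, map_add, map_pow, map_natCast, sg_sg, mul_zero, neg_zero, sub_zero]
  refine ⟨(-1) * (p : WittVector p k) ^ 0 * (sg 2 a * sg 3 b) + (-1) * (p : WittVector p k) ^ 1 * (sg 2 a * sg 3 b) + (-1) * (p : WittVector p k) ^ 0 * (sg 5 a * sg 6 b) + (-1) * (p : WittVector p k) ^ 0 * (sg 8 a * sg 9 b) + (-1) * (p : WittVector p k) ^ 0 * (sg 11 a * sg 12 b), ?_⟩
  norm_num <;> ring

theorem pa2_5_11 : (p : WittVector p k) ^ 3 ∣
    bet (Bf PA2) (sb 5 a) (modF p k (tA p) (qA p) (sb 11 b))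
      - bet (Bf PA2) (modV p k (tA p) (qA p) (sb 5 a)) (sb 11 b) := by
  have ht : ((tA p : ℕ) : WittVector p k) = (p : WittVector p k) + (p : WittVector p k) ^ 2 := by
    unfold tA; push_cast; ring
  have hq : ((qA p : ℕ) : WittVector p k) = (p : WittVector p k) ^ 2 + (p : WittVector p k) ^ 3 + (p : WittVector p k) ^ 4 := by
    unfold qA; push_cast; ring
  rw [modF_sb_11, modV_sb_5]
  simp only [bet_sub_left, bet_sub_right, bet_neg_left, bet_neg_right, bet_sb, frob_eq,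
    frobInv_eq, ht, hq, Bf_4_11, Bf_5_0, Bf_5_3, Bf_5_6, Bf_5_9, PA2_1, PA2_2, PA2_4, PA2_5, PA2_7,
    map_mul, map_add, map_pow, map_natCast, sg_sg, mul_zero, neg_zero, sub_zero]
  refine ⟨(1) * (p : WittVector p k) ^ 0 * (sg (-6) a * sg (-5) b) + (1) * (p : WittVector p k) ^ 0 * (sg (-3) a * sg (-2) b) + (1) * (p : WittVector p k) ^ 0 * (sg 0 a * sg 1 b) + (2) * (p : WittVector p k) ^ 0 * (sg 3 a * sg 4 b) + (1) * (p : WittVector p k) ^ 0 * (sg 6 a * sg 7 b), ?_⟩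
  norm_num <;> ring

theorem pa2_6_11 : (p : WittVector p k) ^ 3 ∣
    bet (Bf PA2) (sb 6 a) (modF p k (tA p) (qA p) (sb 11 b))
      - bet (Bf PA2) (modV p k (tA p) (qA p) (sb 6 a)) (sb 11 b) := by
  have ht : ((tA p : ℕ) : WittVector p k) = (p : WittVector p k) + (p : WittVector p k) ^ 2 := by
    unfold tA; push_cast; ring
  have hq : ((qA p : ℕ) : WittVector p k) = (p : WittVector p k) ^ 2 + (p : WittVector p k) ^ 3 + (p : WittVector p k) ^ 4 := by
    unfold qA; push_cast; ring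
  rw [modF_sb_11, modV_sb_6]
  simp only [bet_sub_left, bet_sub_right, bet_neg_left, bet_neg_right, bet_sb, frob_eq,
    frobInv_eq, ht, hq, Bf_5_11, Bf_6_0, Bf_6_3, Bf_6_6, Bf_6_9, PA2_3, PA2_6,
    map_mul, map_add, map_pow, map_natCast, sg_sg, mul_zero, neg_zero, sub_zero]
  refine ⟨0, ?_⟩
  norm_num <;> ring

theorem pa2_7_11 : (p : WittVector p k) ^ 3 ∣
    bet (Bf PA2) (sb 7 a) (modF p k (tA p) (qA p) (sb 11 b))
      - bet (Bf PA2) (modV p k (tA p) (qA p) (sb 7 a)) (sb 11 b) := by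
  have ht : ((tA p : ℕ) : WittVector p k) = (p : WittVector p k) + (p : WittVector p k) ^ 2 := by
    unfold tA; push_cast; ring
  have hq : ((qA p : ℕ) : WittVector p k) = (p : WittVector p k) ^ 2 + (p : WittVector p k) ^ 3 + (p : WittVector p k) ^ 4 := by
    unfold qA; push_cast; ring
  rw [modF_sb_11, modV_sb_7]
  simp only [bet_sub_left, bet_sub_right, bet_neg_left, bet_neg_right, bet_sb, frob_eq,
    frobInv_eq, ht, hq, Bf_6_11, Bf_7_0, Bf_7_3, Bf_7_6, Bf_7_9, PA2_1, PA2_2, PA2_4, PA2_5, PA2_7,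
    map_mul, map_add, map_pow, map_natCast, sg_sg, mul_zero, neg_zero, sub_zero]
  refine ⟨(-1) * (p : WittVector p k) ^ 0 * (sg (-4) a * sg (-3) b) + (-2) * (p : WittVector p k) ^ 0 * (sg (-1) a * sg 0 b) + (-1) * (p : WittVector p k) ^ 0 * (sg 2 a * sg 3 b) + (-1) * (p : WittVector p k) ^ 0 * (sg 5 a * sg 6 b) + (-1) * (p : WittVector p k) ^ 0 * (sg 8 a * sg 9 b), ?_⟩
  norm_num <;> ring

theorem pa2_8_11 : (p : WittVector p k) ^ 3 ∣
    bet (Bf PA2) (sb 8 a) (modF p k (tA p) (qA p) (sb 11 b))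
      - bet (Bf PA2) (modV p k (tA p) (qA p) (sb 8 a)) (sb 11 b) := by
  have ht : ((tA p : ℕ) : WittVector p k) = (p : WittVector p k) + (p : WittVector p k) ^ 2 := by
    unfold tA; push_cast; ring
  have hq : ((qA p : ℕ) : WittVector p k) = (p : WittVector p k) ^ 2 + (p : WittVector p k) ^ 3 + (p : WittVector p k) ^ 4 := by
    unfold qA; push_cast; ring
  rw [modF_sb_11, modV_sb_8]
  simp only [bet_sub_left, bet_sub_right, bet_neg_left, bet_neg_right, bet_sb, frob_eq,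
    frobInv_eq, ht, hq, Bf_7_11, Bf_8_0, Bf_8_3, Bf_8_6, Bf_8_9, PA2_1, PA2_2, PA2_4, PA2_5, PA2_8,
    map_mul, map_add, map_pow, map_natCast, sg_sg, mul_zero, neg_zero, sub_zero]
  refine ⟨(1) * (p : WittVector p k) ^ 0 * (sg (-9) a * sg (-8) b) + (1) * (p : WittVector p k) ^ 0 * (sg (-6) a * sg (-5) b) + (1) * (p : WittVector p k) ^ 0 * (sg (-3) a * sg (-2) b) + (1) * (p : WittVector p k) ^ 0 * (sg 0 a * sg 1 b) + (1) * (p : WittVector p k) ^ 1 * (sg 0 a * sg 1 b), ?_⟩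
  norm_num <;> ring

theorem pa2_9_11 : (p : WittVector p k) ^ 3 ∣
    bet (Bf PA2) (sb 9 a) (modF p k (tA p) (qA p) (sb 11 b))
      - bet (Bf PA2) (modV p k (tA p) (qA p) (sb 9 a)) (sb 11 b) := by
  have ht : ((tA p : ℕ) : WittVector p k) = (p : WittVector p k) + (p : WittVector p k) ^ 2 := by
    unfold tA; push_cast; ring
  have hq : ((qA p : ℕ) : WittVector p k) = (p : WittVector p k) ^ 2 + (p : WittVector p k) ^ 3 + (p : WittVector p k) ^ 4 := by
    unfold qA; push_cast; ring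
  rw [modF_sb_11, modV_sb_9]
  simp only [bet_sub_left, bet_sub_right, bet_neg_left, bet_neg_right, bet_sb, frob_eq,
    frobInv_eq, ht, hq, Bf_8_11, Bf_9_0, Bf_9_3, Bf_9_6, Bf_9_9, PA2_3, PA2_6, PA2_9,
    map_mul, map_add, map_pow, map_natCast, sg_sg, mul_zero, neg_zero, sub_zero]
  refine ⟨0, ?_⟩
  norm_num <;> ring

theorem pa2_10_11 : (p : WittVector p k) ^ 3 ∣
    bet (Bf PA2) (sb 10 a) (modF p k (tA p) (qA p) (sb 11 b))
      - bet (Bf PA2) (modV p k (tA p) (qA p) (sb 10 a)) (sb 11 b) := by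
  have ht : ((tA p : ℕ) : WittVector p k) = (p : WittVector p k) + (p : WittVector p k) ^ 2 := by
    unfold tA; push_cast; ring
  have hq : ((qA p : ℕ) : WittVector p k) = (p : WittVector p k) ^ 2 + (p : WittVector p k) ^ 3 + (p : WittVector p k) ^ 4 := by
    unfold qA; push_cast; ring
  rw [modF_sb_11, modV_sb_10]
  simp only [bet_sub_left, bet_sub_right, bet_neg_left, bet_neg_right, bet_sb, frob_eq,
    frobInv_eq, ht, hq, Bf_9_11, Bf_10_0, Bf_10_3, Bf_10_6, Bf_10_9, PA2_1, PA2_2, PA2_4, PA2_7, PA2_10,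
    map_mul, map_add, map_pow, map_natCast, sg_sg, mul_zero, neg_zero, sub_zero]
  refine ⟨(-1) * (p : WittVector p k) ^ 0 * (sg (-7) a * sg (-6) b) + (-1) * (p : WittVector p k) ^ 1 * (sg (-7) a * sg (-6) b) + (-1) * (p : WittVector p k) ^ 2 * (sg (-7) a * sg (-6) b) + (-1) * (p : WittVector p k) ^ 1 * (sg (-4) a * sg (-3) b) + (-1) * (p : WittVector p k) ^ 2 * (sg (-4) a * sg (-3) b) + (-1) * (p : WittVector p k) ^ 2 * (sg (-1) a * sg 0 b) + (-1) * (p : WittVector p k) ^ 2 * (sg 2 a * sg 3 b) + (-1) * (p : WittVector p k) ^ 2 * (sg 5 a * sg 6 b), ?_⟩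
  norm_num <;> ring

theorem pa2_11_11 : (p : WittVector p k) ^ 3 ∣
    bet (Bf PA2) (sb 11 a) (modF p k (tA p) (qA p) (sb 11 b))
      - bet (Bf PA2) (modV p k (tA p) (qA p) (sb 11 a)) (sb 11 b) := by
  have ht : ((tA p : ℕ) : WittVector p k) = (p : WittVector p k) + (p : WittVector p k) ^ 2 := by
    unfold tA; push_cast; ring
  have hq : ((qA p : ℕ) : WittVector p k) = (p : WittVector p k) ^ 2 + (p : WittVector p k) ^ 3 + (p : WittVector p k) ^ 4 := by
    unfold qA; push_cast; ring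
  rw [modF_sb_11, modV_sb_11]
  simp only [bet_sub_left, bet_sub_right, bet_neg_left, bet_neg_right, bet_sb, frob_eq,
    frobInv_eq, ht, hq, Bf_10_11, Bf_11_0, Bf_11_3, Bf_11_6, Bf_11_9, PA2_1, PA2_2, PA2_5, PA2_8, PA2_11,
    map_mul, map_add, map_pow, map_natCast, sg_sg, mul_zero, neg_zero, sub_zero]
  refine ⟨(-1) * (p : WittVector p k) ^ 0 * (sg (-3) a * sg (-2) b) + (-1) * (p : WittVector p k) ^ 2 * (sg 0 a * sg 1 b), ?_⟩
  norm_num <;> ring

theorem pa2_0_0 : (p : WittVector p k) ^ 3 ∣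
    bet (Bf PA2) (sb 0 a) (modF p k (tA p) (qA p) (sb 0 b))
      - bet (Bf PA2) (modV p k (tA p) (qA p) (sb 0 a)) (sb 0 b) := by
  have ht : ((tA p : ℕ) : WittVector p k) = (p : WittVector p k) + (p : WittVector p k) ^ 2 := by
    unfold tA; push_cast; ring
  have hq : ((qA p : ℕ) : WittVector p k) = (p : WittVector p k) ^ 2 + (p : WittVector p k) ^ 3 + (p : WittVector p k) ^ 4 := by
    unfold qA; push_cast; ring
  rw [modF_sb_0, modV_sb_0]
  simp only [bet_sub_left, bet_sub_right, bet_neg_left, bet_neg_right, bet_sb, frob_eq,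
    frobInv_eq, ht, hq, Bf_0_1, Bf_2_0, Bf_5_0, Bf_8_0, Bf_11_0, PA2_1, PA2_2, PA2_5, PA2_8, PA2_11,
    map_mul, map_add, map_pow, map_natCast, sg_sg, mul_zero, neg_zero, sub_zero]
  refine ⟨(1) * (p : WittVector p k) ^ 3 * (sg 2 a * sg 3 b) + (1) * (p : WittVector p k) ^ 1 * (sg 5 a * sg 6 b), ?_⟩
  norm_num <;> ring

theorem pa2_0_1 : (p : WittVector p k) ^ 3 ∣
    bet (Bf PA2) (sb 0 a) (modF p k (tA p) (qA p) (sb 1 b))
      - bet (Bf PA2) (modV p k (tA p) (qA p) (sb 0 a)) (sb 1 b) := by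
  have ht : ((tA p : ℕ) : WittVector p k) = (p : WittVector p k) + (p : WittVector p k) ^ 2 := by
    unfold tA; push_cast; ring
  have hq : ((qA p : ℕ) : WittVector p k) = (p : WittVector p k) ^ 2 + (p : WittVector p k) ^ 3 + (p : WittVector p k) ^ 4 := by
    unfold qA; push_cast; ring
  rw [modF_sb_1, modV_sb_0]
  simp only [bet_sub_left, bet_sub_right, bet_neg_left, bet_neg_right, bet_sb, frob_eq,
    frobInv_eq, ht, hq, Bf_0_2, Bf_2_1, Bf_5_1, Bf_8_1, Bf_11_1, PA2_1, PA2_2, PA2_4, PA2_7, PA2_10,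
    map_mul, map_add, map_pow, map_natCast, sg_sg, mul_zero, neg_zero, sub_zero]
  refine ⟨(1) * (p : WittVector p k) ^ 3 * (sg (-3) a * sg (-2) b) + (1) * (p : WittVector p k) ^ 3 * (sg 0 a * sg 1 b) + (1) * (p : WittVector p k) ^ 3 * (sg 3 a * sg 4 b) + (1) * (p : WittVector p k) ^ 2 * (sg 6 a * sg 7 b) + (1) * (p : WittVector p k) ^ 3 * (sg 6 a * sg 7 b) + (1) * (p : WittVector p k) ^ 1 * (sg 9 a * sg 10 b) + (1) * (p : WittVector p k) ^ 2 * (sg 9 a * sg 10 b) + (1) * (p : WittVector p k) ^ 3 * (sg 9 a * sg 10 b), ?_⟩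
  norm_num <;> ring

theorem pa2_0_2 : (p : WittVector p k) ^ 3 ∣
    bet (Bf PA2) (sb 0 a) (modF p k (tA p) (qA p) (sb 2 b))
      - bet (Bf PA2) (modV p k (tA p) (qA p) (sb 0 a)) (sb 2 b) := by
  have ht : ((tA p : ℕ) : WittVector p k) = (p : WittVector p k) + (p : WittVector p k) ^ 2 := by
    unfold tA; push_cast; ring
  have hq : ((qA p : ℕ) : WittVector p k) = (p : WittVector p k) ^ 2 + (p : WittVector p k) ^ 3 + (p : WittVector p k) ^ 4 := by
    unfold qA; push_cast; ring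
  rw [modF_sb_2, modV_sb_0]
  simp only [bet_sub_left, bet_sub_right, bet_neg_left, bet_neg_right, bet_sb, frob_eq,
    frobInv_eq, ht, hq, Bf_0_3, Bf_2_2, Bf_5_2, Bf_8_2, Bf_11_2, PA2_3, PA2_6, PA2_9,
    map_mul, map_add, map_pow, map_natCast, sg_sg, mul_zero, neg_zero, sub_zero]
  refine ⟨0, ?_⟩
  norm_num <;> ring

theorem pa2_0_3 : (p : WittVector p k) ^ 3 ∣
    bet (Bf PA2) (sb 0 a) (modF p k (tA p) (qA p) (sb 3 b))
      - bet (Bf PA2) (modV p k (tA p) (qA p) (sb 0 a)) (sb 3 b) := by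
  have ht : ((tA p : ℕ) : WittVector p k) = (p : WittVector p k) + (p : WittVector p k) ^ 2 := by
    unfold tA; push_cast; ring
  have hq : ((qA p : ℕ) : WittVector p k) = (p : WittVector p k) ^ 2 + (p : WittVector p k) ^ 3 + (p : WittVector p k) ^ 4 := by
    unfold qA; push_cast; ring
  rw [modF_sb_3, modV_sb_0]
  simp only [bet_sub_left, bet_sub_right, bet_neg_left, bet_neg_right, bet_sb, frob_eq,
    frobInv_eq, ht, hq, Bf_0_4, Bf_2_3, Bf_5_3, Bf_8_3, Bf_11_3, PA2_1, PA2_2, PA2_4, PA2_5, PA2_8,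
    map_mul, map_add, map_pow, map_natCast, sg_sg, mul_zero, neg_zero, sub_zero]
  refine ⟨(-1) * (p : WittVector p k) ^ 1 * (sg 2 a * sg 3 b) + (-1) * (p : WittVector p k) ^ 2 * (sg 2 a * sg 3 b) + (-1) * (p : WittVector p k) ^ 1 * (sg 5 a * sg 6 b) + (-1) * (p : WittVector p k) ^ 1 * (sg 8 a * sg 9 b) + (-1) * (p : WittVector p k) ^ 1 * (sg 11 a * sg 12 b), ?_⟩
  norm_num <;> ring

theorem pa2_0_4 : (p : WittVector p k) ^ 3 ∣
    bet (Bf PA2) (sb 0 a) (modF p k (tA p) (qA p) (sb 4 b))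
      - bet (Bf PA2) (modV p k (tA p) (qA p) (sb 0 a)) (sb 4 b) := by
  have ht : ((tA p : ℕ) : WittVector p k) = (p : WittVector p k) + (p : WittVector p k) ^ 2 := by
    unfold tA; push_cast; ring
  have hq : ((qA p : ℕ) : WittVector p k) = (p : WittVector p k) ^ 2 + (p : WittVector p k) ^ 3 + (p : WittVector p k) ^ 4 := by
    unfold qA; push_cast; ring
  rw [modF_sb_4, modV_sb_0]
  simp only [bet_sub_left, bet_sub_right, bet_neg_left, bet_neg_right, bet_sb, frob_eq,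
    frobInv_eq, ht, hq, Bf_0_5, Bf_2_4, Bf_5_4, Bf_8_4, Bf_11_4, PA2_1, PA2_2, PA2_4, PA2_5, PA2_7,
    map_mul, map_add, map_pow, map_natCast, sg_sg, mul_zero, neg_zero, sub_zero]
  refine ⟨(1) * (p : WittVector p k) ^ 1 * (sg (-6) a * sg (-5) b) + (1) * (p : WittVector p k) ^ 1 * (sg (-3) a * sg (-2) b) + (1) * (p : WittVector p k) ^ 1 * (sg 0 a * sg 1 b) + (2) * (p : WittVector p k) ^ 1 * (sg 3 a * sg 4 b) + (1) * (p : WittVector p k) ^ 1 * (sg 6 a * sg 7 b), ?_⟩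
  norm_num <;> ring

theorem pa2_0_5 : (p : WittVector p k) ^ 3 ∣
    bet (Bf PA2) (sb 0 a) (modF p k (tA p) (qA p) (sb 5 b))
      - bet (Bf PA2) (modV p k (tA p) (qA p) (sb 0 a)) (sb 5 b) := by
  have ht : ((tA p : ℕ) : WittVector p k) = (p : WittVector p k) + (p : WittVector p k) ^ 2 := by
    unfold tA; push_cast; ring
  have hq : ((qA p : ℕ) : WittVector p k) = (p : WittVector p k) ^ 2 + (p : WittVector p k) ^ 3 + (p : WittVector p k) ^ 4 := by
    unfold qA; push_cast; ring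
  rw [modF_sb_5, modV_sb_0]
  simp only [bet_sub_left, bet_sub_right, bet_neg_left, bet_neg_right, bet_sb, frob_eq,
    frobInv_eq, ht, hq, Bf_0_6, Bf_2_5, Bf_5_5, Bf_8_5, Bf_11_5, PA2_3, PA2_6,
    map_mul, map_add, map_pow, map_natCast, sg_sg, mul_zero, neg_zero, sub_zero]
  refine ⟨0, ?_⟩
  norm_num <;> ring

theorem pa2_0_6 : (p : WittVector p k) ^ 3 ∣
    bet (Bf PA2) (sb 0 a) (modF p k (tA p) (qA p) (sb 6 b))
      - bet (Bf PA2) (modV p k (tA p) (qA p) (sb 0 a)) (sb 6 b) := by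
  have ht : ((tA p : ℕ) : WittVector p k) = (p : WittVector p k) + (p : WittVector p k) ^ 2 := by
    unfold tA; push_cast; ring
  have hq : ((qA p : ℕ) : WittVector p k) = (p : WittVector p k) ^ 2 + (p : WittVector p k) ^ 3 + (p : WittVector p k) ^ 4 := by
    unfold qA; push_cast; ring
  rw [modF_sb_6, modV_sb_0]
  simp only [bet_sub_left, bet_sub_right, bet_neg_left, bet_neg_right, bet_sb, frob_eq,
    frobInv_eq, ht, hq, Bf_0_7, Bf_2_6, Bf_5_6, Bf_8_6, Bf_11_6, PA2_1, PA2_2, PA2_4, PA2_5, PA2_7,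
    map_mul, map_add, map_pow, map_natCast, sg_sg, mul_zero, neg_zero, sub_zero]
  refine ⟨(-1) * (p : WittVector p k) ^ 0 * (sg (-4) a * sg (-3) b) + (-2) * (p : WittVector p k) ^ 0 * (sg (-1) a * sg 0 b) + (-1) * (p : WittVector p k) ^ 0 * (sg 2 a * sg 3 b) + (-1) * (p : WittVector p k) ^ 0 * (sg 5 a * sg 6 b) + (-1) * (p : WittVector p k) ^ 0 * (sg 8 a * sg 9 b), ?_⟩
  norm_num <;> ring

theorem pa2_0_7 : (p : WittVector p k) ^ 3 ∣
    bet (Bf PA2) (sb 0 a) (modF p k (tA p) (qA p) (sb 7 b))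
      - bet (Bf PA2) (modV p k (tA p) (qA p) (sb 0 a)) (sb 7 b) := by
  have ht : ((tA p : ℕ) : WittVector p k) = (p : WittVector p k) + (p : WittVector p k) ^ 2 := by
    unfold tA; push_cast; ring
  have hq : ((qA p : ℕ) : WittVector p k) = (p : WittVector p k) ^ 2 + (p : WittVector p k) ^ 3 + (p : WittVector p k) ^ 4 := by
    unfold qA; push_cast; ring
  rw [modF_sb_7, modV_sb_0]
  simp only [bet_sub_left, bet_sub_right, bet_neg_left, bet_neg_right, bet_sb, frob_eq,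
    frobInv_eq, ht, hq, Bf_0_8, Bf_2_7, Bf_5_7, Bf_8_7, Bf_11_7, PA2_1, PA2_2, PA2_4, PA2_5, PA2_8,
    map_mul, map_add, map_pow, map_natCast, sg_sg, mul_zero, neg_zero, sub_zero]
  refine ⟨(1) * (p : WittVector p k) ^ 0 * (sg (-9) a * sg (-8) b) + (1) * (p : WittVector p k) ^ 0 * (sg (-6) a * sg (-5) b) + (1) * (p : WittVector p k) ^ 0 * (sg (-3) a * sg (-2) b) + (1) * (p : WittVector p k) ^ 0 * (sg 0 a * sg 1 b) + (1) * (p : WittVector p k) ^ 1 * (sg 0 a * sg 1 b), ?_⟩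
  norm_num <;> ring

theorem pa2_0_8 : (p : WittVector p k) ^ 3 ∣
    bet (Bf PA2) (sb 0 a) (modF p k (tA p) (qA p) (sb 8 b))
      - bet (Bf PA2) (modV p k (tA p) (qA p) (sb 0 a)) (sb 8 b) := by
  have ht : ((tA p : ℕ) : WittVector p k) = (p : WittVector p k) + (p : WittVector p k) ^ 2 := by
    unfold tA; push_cast; ring
  have hq : ((qA p : ℕ) : WittVector p k) = (p : WittVector p k) ^ 2 + (p : WittVector p k) ^ 3 + (p : WittVector p k) ^ 4 := by
    unfold qA; push_cast; ring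
  rw [modF_sb_8, modV_sb_0]
  simp only [bet_sub_left, bet_sub_right, bet_neg_left, bet_neg_right, bet_sb, frob_eq,
    frobInv_eq, ht, hq, Bf_0_9, Bf_2_8, Bf_5_8, Bf_8_8, Bf_11_8, PA2_3, PA2_6, PA2_9,
    map_mul, map_add, map_pow, map_natCast, sg_sg, mul_zero, neg_zero, sub_zero]
  refine ⟨0, ?_⟩
  norm_num <;> ring

theorem pa2_0_9 : (p : WittVector p k) ^ 3 ∣
    bet (Bf PA2) (sb 0 a) (modF p k (tA p) (qA p) (sb 9 b))
      - bet (Bf PA2) (modV p k (tA p) (qA p) (sb 0 a)) (sb 9 b) := by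
  have ht : ((tA p : ℕ) : WittVector p k) = (p : WittVector p k) + (p : WittVector p k) ^ 2 := by
    unfold tA; push_cast; ring
  have hq : ((qA p : ℕ) : WittVector p k) = (p : WittVector p k) ^ 2 + (p : WittVector p k) ^ 3 + (p : WittVector p k) ^ 4 := by
    unfold qA; push_cast; ring
  rw [modF_sb_9, modV_sb_0]
  simp only [bet_sub_left, bet_sub_right, bet_neg_left, bet_neg_right, bet_sb, frob_eq,
    frobInv_eq, ht, hq, Bf_0_10, Bf_2_9, Bf_5_9, Bf_8_9, Bf_11_9, PA2_1, PA2_2, PA2_4, PA2_7, PA2_10,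
    map_mul, map_add, map_pow, map_natCast, sg_sg, mul_zero, neg_zero, sub_zero]
  refine ⟨(-1) * (p : WittVector p k) ^ 0 * (sg (-7) a * sg (-6) b) + (-1) * (p : WittVector p k) ^ 1 * (sg (-7) a * sg (-6) b) + (-1) * (p : WittVector p k) ^ 2 * (sg (-7) a * sg (-6) b) + (-1) * (p : WittVector p k) ^ 1 * (sg (-4) a * sg (-3) b) + (-1) * (p : WittVector p k) ^ 2 * (sg (-4) a * sg (-3) b) + (-1) * (p : WittVector p k) ^ 2 * (sg (-1) a * sg 0 b) + (-1) * (p : WittVector p k) ^ 2 * (sg 2 a * sg 3 b) + (-1) * (p : WittVector p k) ^ 2 * (sg 5 a * sg 6 b), ?_⟩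
  norm_num <;> ring

theorem pa2_0_10 : (p : WittVector p k) ^ 3 ∣
    bet (Bf PA2) (sb 0 a) (modF p k (tA p) (qA p) (sb 10 b))
      - bet (Bf PA2) (modV p k (tA p) (qA p) (sb 0 a)) (sb 10 b) := by
  have ht : ((tA p : ℕ) : WittVector p k) = (p : WittVector p k) + (p : WittVector p k) ^ 2 := by
    unfold tA; push_cast; ring
  have hq : ((qA p : ℕ) : WittVector p k) = (p : WittVector p k) ^ 2 + (p : WittVector p k) ^ 3 + (p : WittVector p k) ^ 4 := by
    unfold qA; push_cast; ring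
  rw [modF_sb_10, modV_sb_0]
  simp only [bet_sub_left, bet_sub_right, bet_neg_left, bet_neg_right, bet_sb, frob_eq,
    frobInv_eq, ht, hq, Bf_0_11, Bf_2_10, Bf_5_10, Bf_8_10, Bf_11_10, PA2_1, PA2_2, PA2_5, PA2_8, PA2_11,
    map_mul, map_add, map_pow, map_natCast, sg_sg, mul_zero, neg_zero, sub_zero]
  refine ⟨(-1) * (p : WittVector p k) ^ 0 * (sg (-3) a * sg (-2) b) + (-1) * (p : WittVector p k) ^ 2 * (sg 0 a * sg 1 b), ?_⟩
  norm_num <;> ring

end Pool.Agent.UA
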