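import Pool.Agent.Lib.MP_381773_ag.UA2
import Pool.Agent.Lib.MP_381773_ag.BrM

/-!
# The group `U` of `∧² M(p + p², p² + p³ + p⁴)` has two independent `W₃`-valued characters
-/

set_option autoImplicit false
set_option linter.unusedSectionVars false

universe u

namespace Pool.Agent.UA

open WittVector

variable {p : ℕ} [Fact p.Prime] {k : Type u} [Field k] [IsAlgClosed k] [CharP k p]

/-! ### From basis vectors to all vectors -/

section Cond

variable (B : Fin 12 → Fin 12 → WittVector p k →+ WittVector p k) (t q : ℕ)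

theorem bet_sum_left {ι : Type} (s : Finset ι) (f : ι → Fin 12 → WittVector p k)
    (y : Fin 12 → WittVector p k) : bet B (∑ i ∈ s, f i) y = ∑ i ∈ s, bet B (f i) y := by
  classical
  induction s using Finset.induction_on with
  | empty =>
    have := bet_add_left B 0 0 y
    rw [add_zero] at this
    simpa using this
  | insert a s ha ih => rw [Finset.sum_insert ha, Finset.sum_insert ha, bet_add_left, ih]

theorem bet_sum_right {ι : Type} (s : Finset ι) (f : ι → Fin 12 → WittVector p k)
    (x : Fin 12 → WittVector p k) : bet B x (∑ i ∈ s, f i) = ∑ i ∈ s, bet B x (f i) := by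
  classical
  induction s using Finset.induction_on with
  | empty =>
    have := bet_add_right B x 0 0
    rw [add_zero] at this
    simpa using this
  | insert a s ha ih => rw [Finset.sum_insert ha, Finset.sum_insert ha, bet_add_right, ih]

theorem cond_of_basis
    (h : ∀ (i j : Fin 12) (a b : WittVector p k), (p : WittVector p k) ^ 3 ∣
      bet B (sb i a) (modF p k t q (sb j b)) - bet B (modV p k t q (sb i a)) (sb j b))
    (x y : Fin 12 → WittVector p k) :
    (p : WittVector p k) ^ 3 ∣ bet B x (modF p k t q y) - bet B (modV p k t q x) y := by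
  rw [sum_sb x, sum_sb y, map_sum, map_sum]
  have h1 : bet B (∑ i, sb i (x i)) (∑ j, modF p k t q (sb j (y j)))
      = ∑ i, ∑ j, bet B (sb i (x i)) (modF p k t q (sb j (y j))) := by
    rw [bet_sum_left]
    exact Finset.sum_congr rfl fun i _ => bet_sum_right B _ _ _
  have h2 : bet B (∑ i, modV p k t q (sb i (x i))) (∑ j, sb j (y j))
      = ∑ i, ∑ j, bet B (modV p k t q (sb i (x i))) (sb j (y j)) := by
    rw [bet_sum_left]
    exact Finset.sum_congr rfl fun i _ => bet_sum_right B _ _ _
  rw [h1, h2, ← Finset.sum_sub_distrib]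
  refine Finset.dvd_sum fun i _ => ?_
  rw [← Finset.sum_sub_distrib]
  exact Finset.dvd_sum fun j _ => h i j _ _

theorem cond_PA1 (i j : Fin 12) (a b : WittVector p k) : (p : WittVector p k) ^ 3 ∣
    bet (Bf PA1) (sb i a) (modF p k (tA p) (qA p) (sb j b))
      - bet (Bf PA1) (modV p k (tA p) (qA p) (sb i a)) (sb j b) := by
  by_cases hj : j.val + 1 < 12
  · by_cases hi : 0 < i.val
    · rw [generic_case PA1 (tA p) (qA p) i j hi hj a b]
      exact dvd_zero _
    · have hi0 : i = 0 := by ext; change i.val = 0; omega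
      subst hi0
      fin_cases j
      · exact pa1_0_0 a b
      · exact pa1_0_1 a b
      · exact pa1_0_2 a b
      · exact pa1_0_3 a b
      · exact pa1_0_4 a b
      · exact pa1_0_5 a b
      · exact pa1_0_6 a b
      · exact pa1_0_7 a b
      · exact pa1_0_8 a b
      · exact pa1_0_9 a b
      · exact pa1_0_10 a b
      · exact pa1_0_11 a b
  · have hj0 : j = 11 := by ext; change j.val = 11; omega
    subst hj0
    fin_cases i
    · exact pa1_0_11 a b
    · exact pa1_1_11 a b
    · exact pa1_2_11 a b
    · exact pa1_3_11 a b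
    · exact pa1_4_11 a b
    · exact pa1_5_11 a b
    · exact pa1_6_11 a b
    · exact pa1_7_11 a b
    · exact pa1_8_11 a b
    · exact pa1_9_11 a b
    · exact pa1_10_11 a b
    · exact pa1_11_11 a b

theorem cond_PA2 (i j : Fin 12) (a b : WittVector p k) : (p : WittVector p k) ^ 3 ∣
    bet (Bf PA2) (sb i a) (modF p k (tA p) (qA p) (sb j b))
      - bet (Bf PA2) (modV p k (tA p) (qA p) (sb i a)) (sb j b) := by
  by_cases hj : j.val + 1 < 12
  · by_cases hi : 0 < i.val
    · rw [generic_case PA2 (tA p) (qA p) i j hi hj a b]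
      exact dvd_zero _
    · have hi0 : i = 0 := by ext; change i.val = 0; omega
      subst hi0
      fin_cases j
      · exact pa2_0_0 a b
      · exact pa2_0_1 a b
      · exact pa2_0_2 a b
      · exact pa2_0_3 a b
      · exact pa2_0_4 a b
      · exact pa2_0_5 a b
      · exact pa2_0_6 a b
      · exact pa2_0_7 a b
      · exact pa2_0_8 a b
      · exact pa2_0_9 a b
      · exact pa2_0_10 a b
      · exact pa2_0_11 a b
  · have hj0 : j = 11 := by ext; change j.val = 11; omega
    subst hj0
    fin_cases i
    · exact pa2_0_11 a b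
    · exact pa2_1_11 a b
    · exact pa2_2_11 a b
    · exact pa2_3_11 a b
    · exact pa2_4_11 a b
    · exact pa2_5_11 a b
    · exact pa2_6_11 a b
    · exact pa2_7_11 a b
    · exact pa2_8_11 a b
    · exact pa2_9_11 a b
    · exact pa2_10_11 a b
    · exact pa2_11_11 a b

theorem p_dvd_tA : p ∣ tA p := ⟨1 + p, by unfold tA; ring⟩

end Cond

/-! ### Regularity -/

section RegS

variable {X : Type u} {A : Subalgebra k (X → k)}

/-- All Witt components of all `σ^n x`, `n ∈ ℤ`, belong to the algebra `A`. -/
def RegS (A : Subalgebra k (X → k)) (x : X → WittVector p k) : Prop :=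
  ∀ n : ℤ, RegW A (fun g => sg n (x g))

theorem RegS.regW {x : X → WittVector p k} (hx : RegS A x) : RegW A x := by
  have := hx 0
  simpa only [sg_zero] using this

theorem RegS.sgA {x : X → WittVector p k} (hx : RegS A x) (m : ℤ) :
    RegS A (fun g => Pool.Agent.UA.sgA m (x g)) := by
  intro n
  simpa only [sgA_apply, sg_sg] using hx (n + m)

theorem RegS.const (a : WittVector p k) : RegS A (fun _ => a) := fun n => RegW.const _

theorem RegS.const_mul {x : X → WittVector p k} (hx : RegS A x) (a : WittVector p k) :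
    RegS A (fun g => a * x g) := by
  intro n
  simpa only [map_mul] using (RegW.const (sg n a)).mul (hx n)

theorem RegS.add {x y : X → WittVector p k} (hx : RegS A x) (hy : RegS A y) :
    RegS A (fun g => x g + y g) := by
  intro n
  simpa only [map_add] using (hx n).add (hy n)

theorem RegS.neg {x : X → WittVector p k} (hx : RegS A x) :
    RegS A (fun g => - x g) := by
  intro n
  have := (RegW.const (A := A) (0 : WittVector p k)).sub (hx n)
  simpa only [map_neg, zero_sub] using this

theorem RegS.sum {ι : Type} (s : Finset ι) {x : ι → X → WittVector p k}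
    (hx : ∀ i ∈ s, RegS A (x i)) : RegS A (fun g => ∑ i ∈ s, x i g) := by
  classical
  induction s using Finset.induction_on with
  | empty => simpa using RegS.const (0 : WittVector p k)
  | insert a s ha ih =>
    simp only [Finset.sum_insert ha]
    exact (hx a (Finset.mem_insert_self a s)).add
      (ih fun i hi => hx i (Finset.mem_insert_of_mem hi))

/-- Additive maps preserving strong regularity. -/
def PresReg (e : WittVector p k →+ WittVector p k) : Prop :=
  ∀ (X : Type u) (A : Subalgebra k (X → k)) (x : X → WittVector p k), RegS A x →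
    RegS A (fun g => e (x g))

theorem PresReg.zero : PresReg (0 : WittVector p k →+ WittVector p k) := fun _ _ _ _ =>
  RegS.const 0

theorem PresReg.sgA (m : ℤ) : PresReg (Pool.Agent.UA.sgA m : WittVector p k →+ WittVector p k) :=
  fun _ _ _ hx => hx.sgA m

theorem PresReg.mulLeft (a : WittVector p k) : PresReg (AddMonoidHom.mulLeft a) :=
  fun _ _ _ hx => hx.const_mul a

theorem PresReg.comp {e f : WittVector p k →+ WittVector p k} (he : PresReg e) (hf : PresReg f) :
    PresReg (e.comp f) := fun X A _ hx => he X A _ (hf X A _ hx)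

theorem PresReg.add {e f : WittVector p k →+ WittVector p k} (he : PresReg e) (hf : PresReg f) :
    PresReg (e + f) := fun X A _ hx => (he X A _ hx).add (hf X A _ hx)

theorem PresReg.neg {e : WittVector p k →+ WittVector p k} (he : PresReg e) :
    PresReg (-e) := fun X A _ hx => (he X A _ hx).neg

theorem presReg_PA1 (n : ℕ) : PresReg (PA1 n : WittVector p k →+ WittVector p k) := by
  unfold PA1
  split
  · exact PresReg.sgA 0
  · exact (PresReg.mulLeft _).comp ((PresReg.sgA 0).add (PresReg.sgA (-3)))
  · exact (PresReg.mulLeft _).comp (PresReg.sgA (-3))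
  · exact PresReg.zero

theorem presReg_PA2 (n : ℕ) : PresReg (PA2 n : WittVector p k →+ WittVector p k) := by
  unfold PA2
  split
  · exact PresReg.sgA 0
  · exact (PresReg.mulLeft _).comp (((((PresReg.sgA 5).add (PresReg.sgA 2)).add
      (PresReg.sgA (-1))).add (PresReg.sgA (-4))).add (PresReg.sgA (-7)))
  · exact (PresReg.mulLeft _).comp ((PresReg.sgA 0).add (PresReg.sgA (-3)))
  · exact (PresReg.mulLeft _).comp ((((PresReg.sgA 2).add
      (PresReg.sgA (-1))).add (PresReg.sgA (-4))).add (PresReg.sgA (-7)))
  · exact (PresReg.mulLeft _).comp (PresReg.sgA (-3))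
  · exact PresReg.zero

theorem presReg_Bf (P : ℕ → WittVector p k →+ WittVector p k) (hP : ∀ n, PresReg (P n))
    (i j : Fin 12) : PresReg (Bf P i j) := by
  unfold Bf Bpos
  split_ifs
  · exact (PresReg.mulLeft _).comp ((hP _).comp (PresReg.sgA _))
  · exact ((PresReg.mulLeft _).comp ((hP _).comp (PresReg.sgA _))).neg
  · exact PresReg.zero

theorem sg_natCast_coeff (n : ℕ) (w : WittVector p k) (m : ℕ) :
    (sg (n : ℤ) w).coeff m = (w.coeff m) ^ p ^ n := by
  induction n generalizing w with
  | zero => simp [sg_zero]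
  | succ n ih =>
    have h : sg ((n + 1 : ℕ) : ℤ) w = sg (n : ℤ) (sg 1 w) := by
      rw [sg_sg]; push_cast; rfl
    rw [h, ih, sg_one]
    change (WittVector.frobenius w).coeff m ^ p ^ n = _
    rw [WittVector.coeff_frobenius_charP, ← pow_mul, pow_succ']

theorem regS_linear (L : Type u) [AddCommGroup L] [Module (WittVector p k) L]
    (l : L →ₗ[WittVector p k] WittVector p k) :
    RegS (regularFunctions p (k := k) L) (fun z => l z) := by
  intro n m
  rcases Int.eq_nat_or_neg n with ⟨a, rfl | rfl⟩
  · have h : (fun z => (sg (a : ℤ) (l z)).coeff m) = (fun z => (l z).coeff m) ^ p ^ a := by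
      ext z
      exact sg_natCast_coeff a (l z) m
    rw [h]
    have h0 : (fun z => (l z).coeff m) ∈ regularFunctions p (k := k) L :=
      Algebra.subset_adjoin ⟨l, m, 0, fun x => by simp⟩
    exact Subalgebra.pow_mem _ h0 _
  · refine Algebra.subset_adjoin ⟨l, m, a, fun x => ?_⟩
    rw [← sg_natCast_coeff a, sg_sg, add_neg_cancel, sg_zero]

theorem regS_chiOf (B : Fin 12 → Fin 12 → WittVector p k →+ WittVector p k)
    (hB : ∀ i j, PresReg (B i j)) :
    RegS (regularFunctions p (k := k) (⋀[WittVector p k]^2 (Fin 12 → WittVector p k)))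
      (fun z => chiOf B z) := by
  have h : (fun z => chiOf B z) = (fun z => ∑ i, ∑ j, if i < j then B i j (ell i j z) else 0) := by
    ext1 z
    exact chiOf_apply B z
  rw [h]
  refine RegS.sum _ fun i _ => RegS.sum _ fun j _ => ?_
  split_ifs
  · exact hB i j _ _ _ (regS_linear _ (ell i j))
  · exact RegS.const 0

end RegS

/-! ### The two characters of `U` -/

section Two

theorem tr3_eq_of_dvd {a b : WittVector p k} (h : (p : WittVector p k) ^ 3 ∣ a - b) :
    tr3 a = tr3 b := by
  ext n
  rw [tr3_coeff, tr3_coeff]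
  split_ifs with hn
  · exact coeff_eq_of_dvd h hn
  · rfl

theorem tr3_regW {X : Type u} {A : Subalgebra k (X → k)} {x : X → WittVector p k}
    (hx : RegW A x) : RegW A (fun g => tr3 (x g)) := by
  intro n
  by_cases hn : n < 3
  · have : (fun g => (tr3 (x g)).coeff n) = fun g => (x g).coeff n := by
      ext g; rw [tr3_coeff, if_pos hn]
    rw [this]
    exact hx n
  · have : (fun g => (tr3 (x g)).coeff n) = fun _ => 0 := by
      ext g; rw [tr3_coeff, if_neg hn]
    rw [this]
    exact A.zero_mem

/-- The projection `∧² M → U`. -/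
noncomputable def prU (t q : ℕ) (z : ⋀[WittVector p k]^2 (Fin 12 → WittVector p k)) :
    (UU p k t q).carrier :=
  QuotientAddGroup.mk (s := boundary (wedgeSq (modM p k t q))) z

theorem prU_surj (t q : ℕ) : Function.Surjective (prU (p := p) (k := k) t q) :=
  QuotientAddGroup.mk_surjective (s := boundary (wedgeSq (modM p k t q)))

theorem prU_add (t q : ℕ) (z z' : ⋀[WittVector p k]^2 (Fin 12 → WittVector p k)) :
    prU t q (z + z') = prU t q z + prU t q z' := rfl

theorem prU_eq (t q : ℕ) (z z' : ⋀[WittVector p k]^2 (Fin 12 → WittVector p k))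
    (h : prU t q z = prU t q z') :
    ∃ x y : ⋀[WittVector p k]^2 (Fin 12 → WittVector p k),
      extMap (frob p k) 2 (modF p k t q) x = (p : WittVector p k) • y ∧ -z + z' = y - x := by
  have h1 := (QuotientAddGroup.eq (s := boundary (wedgeSq (modM p k t q)))).mp h
  exact h1

/-- The character of `U` with values in `W/p³` (represented by truncated Witt vectors) attached
to `B`. -/
noncomputable def chiU (B : Fin 12 → Fin 12 → WittVector p k →+ WittVector p k) (t q : ℕ)
    (x : (UU p k t q).carrier) : WittVector p k :=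
  tr3 (chiOf B (Classical.choose (prU_surj t q x)))

variable {t : ℕ}

theorem chiU_pr (B : Fin 12 → Fin 12 → WittVector p k →+ WittVector p k) (q : ℕ) (ht : p ∣ t)
    (hB : ∀ i j, B j i = - B i j) (hB0 : ∀ i, B i i = 0)
    (hc : ∀ x y, (p : WittVector p k) ^ 3 ∣ bet B x (modF p k t q y) - bet B (modV p k t q x) y)
    (z : ⋀[WittVector p k]^2 (Fin 12 → WittVector p k)) :
    chiU B t q (prU t q z) = tr3 (chiOf B z) := by
  unfold chiU
  apply tr3_eq_of_dvd
  have h := Classical.choose_spec (prU_surj t q (prU (p := p) (k := k) t q z))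
  obtain ⟨x, y, h1, h2⟩ := prU_eq t q _ _ h
  have h3 := chi_boundary q ht B hB hB0 hc x y h1
  rw [← map_sub, ← h2, map_add, map_neg] at h3
  have h4 := (dvd_neg).mpr h3
  convert h4 using 1
  ring

theorem prU_wedge (t q : ℕ) (x y : Fin 12 → WittVector p k) :
    prU t q (wedge p k x y) = brM t q x y := rfl

theorem hasTwo_of_forms (B : Fin 2 → Fin 12 → Fin 12 → WittVector p k →+ WittVector p k) (q : ℕ)
    (ht : p ∣ t) (hB : ∀ l i j, B l j i = - B l i j) (hB0 : ∀ l i, B l i i = 0)
    (hc : ∀ l x y, (p : WittVector p k) ^ 3 ∣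
      bet (B l) x (modF p k t q y) - bet (B l) (modV p k t q x) y)
    (hreg : ∀ l i j, PresReg (B l i j))
    (hd : ∀ a : Fin 2 → WittVector p k, ∃ z : ⋀[WittVector p k]^2 (Fin 12 → WittVector p k),
      ∀ l, chiOf (B l) z = a l) : HasTwo p (UU p k t q) := by
  have hpr : ∀ l z, chiU (B l) t q (prU t q z) = tr3 (chiOf (B l) z) := fun l z =>
    chiU_pr (B l) q ht (hB l) (hB0 l) (hc l) z
  refine ⟨fun l => chiU (B l) t q, ?_, ?_, ?_⟩
  · intro l n
    have h1 : RegW (regularFunctions p (k := k) (⋀[WittVector p k]^2 (Fin 12 → WittVector p k)))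
        (fun z => tr3 (chiOf (B l) z)) := tr3_regW (regS_chiOf (B l) (hreg l)).regW
    have h2 := h1 n
    have h3 : (fun z => (tr3 (chiOf (B l) z)).coeff n)
        = fun z => (chiU (B l) t q (prU t q z)).coeff n := by
      ext1 z
      rw [hpr]
    rw [h3] at h2
    exact h2
  · intro l x y
    obtain ⟨z, rfl⟩ := prU_surj t q x
    obtain ⟨z', rfl⟩ := prU_surj t q y
    rw [← prU_add]
    change (p : WittVector p k) ^ 3 ∣ chiU (B l) t q (prU t q (z + z'))
      - chiU (B l) t q (prU t q z) - chiU (B l) t q (prU t q z')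
    rw [hpr, hpr, hpr, map_add]
    have h1 := tr3_dvd (chiOf (B l) z + chiOf (B l) z')
    have h2 := tr3_dvd (chiOf (B l) z)
    have h3 := tr3_dvd (chiOf (B l) z')
    have h4 := dvd_sub (dvd_sub h1 h2) h3
    convert h4 using 1
    ring
  · intro P hP
    apply MvPolynomial.funext
    intro a
    rw [map_zero]
    obtain ⟨z, hz⟩ := hd (fun l => WittVector.teichmuller p (a l))
    have := hP (prU t q z)
    have e : (fun i => (chiU (B i) t q (prU t q z)).coeff 0) = a := by
      ext1 l
      rw [hpr, tr3_coeff, if_pos (by norm_num), hz, WittVector.teichmuller_coeff_zero]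
    rw [← e]
    exact this

theorem hasTwo_UA : HasTwo p (UU p k (tA p) (qA p)) := by
  refine hasTwo_of_forms (fun l => if l = 0 then Bf PA1 else Bf PA2) (qA p) p_dvd_tA
    ?_ ?_ ?_ ?_ ?_
  · intro l i j
    split_ifs
    · exact Bf_antisymm _ _ _
    · exact Bf_antisymm _ _ _
  · intro l i
    split_ifs
    · exact Bf_self _ _
    · exact Bf_self _ _
  · intro l x y
    split_ifs
    · exact cond_of_basis _ _ _ cond_PA1 x y
    · exact cond_of_basis _ _ _ cond_PA2 x y
  · intro l i j
    split_ifs
    · exact presReg_Bf _ presReg_PA1 i j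
    · exact presReg_Bf _ presReg_PA2 i j
  · intro a
    refine ⟨wedge p k (sb 6 (a 0)) (sb 7 1) + wedge p k (sb 6 (a 1)) (sb 8 1), ?_⟩
    intro l
    fin_cases l
    · change chiOf (Bf PA1) _ = a 0
      rw [map_add, chiOf_wedge _ (Bf_antisymm _) (Bf_self _),
        chiOf_wedge _ (Bf_antisymm _) (Bf_self _), bet_sb, bet_sb, Bf_6_7, Bf_6_8, PA1_1, PA1_2,
        sg_zero]
      ring
    · change chiOf (Bf PA2) _ = a 1
      rw [map_add, chiOf_wedge _ (Bf_antisymm _) (Bf_self _),
        chiOf_wedge _ (Bf_antisymm _) (Bf_self _), bet_sb, bet_sb, Bf_6_7, Bf_6_8, PA2_1, PA2_2,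
        sg_zero]
      ring

end Two

end Pool.Agent.UA
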