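import Pool.Agent.Lib.MP_381773_ag.BrM

/-!
# The group `U` for `M(0, p²(1+p²))`: `p² U` is a one-parameter group killed by `p`
-/

set_option autoImplicit false
set_option linter.unusedSectionVars false
set_option linter.unusedSimpArgs false

universe u

namespace Pool.Agent.UA

open WittVector

variable {p : ℕ} [Fact p.Prime] {k : Type u} [Field k] [IsAlgClosed k] [CharP k p]

section Gen
variable (t q : ℕ) (c : WittVector p k)

theorem hh_neg_1 : hh t q 5 c = - hh t q 7 (sg 1 c) := by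
  have h := brM_e_V (t := t) (q := q) 1 (sg 1 c)
  rw [itV_6_1, sg_sg, itF_6_1, map_one, sb_smul, mul_one] at h
  rw [hh_apply, hh_apply, ← h]
  norm_num [sg_zero]

theorem hh_neg_2 : hh t q 4 c = - hh t q 8 (sg 2 c) := by
  have h := brM_e_V (t := t) (q := q) 2 (sg 2 c)
  rw [itV_6_2, sg_sg, itF_6_2, map_one, sb_smul, mul_one] at h
  rw [hh_apply, hh_apply, ← h]
  norm_num [sg_zero]

theorem hh_neg_3 : hh t q 3 c = - hh t q 9 (sg 3 c) := by
  have h := brM_e_V (t := t) (q := q) 3 (sg 3 c)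
  rw [itV_6_3, sg_sg, itF_6_3, map_one, sb_smul, mul_one] at h
  rw [hh_apply, hh_apply, ← h]
  norm_num [sg_zero]

theorem hh_neg_4 : hh t q 2 c = - hh t q 10 (sg 4 c) := by
  have h := brM_e_V (t := t) (q := q) 4 (sg 4 c)
  rw [itV_6_4, sg_sg, itF_6_4, map_one, sb_smul, mul_one] at h
  rw [hh_apply, hh_apply, ← h]
  norm_num [sg_zero]

theorem hh_neg_5 : hh t q 1 c = - hh t q 11 (sg 5 c) := by
  have h := brM_e_V (t := t) (q := q) 5 (sg 5 c)
  rw [itV_6_5, sg_sg, itF_6_5, map_one, sb_smul, mul_one] at h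
  rw [hh_apply, hh_apply, ← h]
  norm_num [sg_zero]

end Gen

section T0
variable (q : ℕ) (c : WittVector p k)

theorem F6_sb6 : (modF p k 0 q)^[6] (sb 6 c)
    = -sb 0 (sg 6 c) - sb 6 ((q : WittVector p k) * sg 6 c) := by
  have h : (modF p k 0 q)^[6] (sb 6 c) = modF p k 0 q ((modF p k 0 q)^[5] (sb 6 c)) :=
    Function.iterate_succ_apply' _ _ _
  rw [h, itF_6_5, modF_sb_11, frob_eq, sg_sg]
  norm_num [sb_zero]

theorem hh0_zero : hh 0 q 0 c = 0 := by
  obtain ⟨d, rfl⟩ := oneSub6_surj c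
  have h := brM_e_V (t := 0) (q := q) 6 (sg 6 d)
  rw [itV_6_6, sg_sg, F6_sb6, map_one, smul_sub, smul_neg, sb_smul, sb_smul, mul_one, mul_one,
    brM_sub_right, brM_neg_right] at h
  have h6 := hh_6 (t := 0) (q := q) (sg 6 d * (q : WittVector p k))
  rw [hh_apply] at h6
  rw [h6, sub_zero, neg_neg] at h
  change hh 0 q 0 (d - sg 6 d) = 0
  rw [map_sub, hh_apply, hh_apply, ← h]
  norm_num [sg_zero]

theorem F6_sb7 : (modF p k 0 q)^[6] (sb 7 c)
    = -sb 1 ((p : WittVector p k) ^ 1 * sg 6 c) - sb 7 ((q : WittVector p k) * sg 6 c) := by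
  have h : (modF p k 0 q)^[6] (sb 7 c)
      = (modF p k 0 q)^[1] (modF p k 0 q ((modF p k 0 q)^[4] (sb 7 c))) := rfl
  rw [h, itF_7_4, modF_sb_11, frob_eq, sg_sg, iterate_map_sub, iterate_map_sub, iterate_map_sub,
    iterate_map_neg]
  simp only [Nat.cast_zero, zero_mul, sb_zero, iterate_map_zero, sub_zero]
  rw [itF_0_1, itF_6_1]
  simp only [map_mul, sg_natCast, sg_sg]
  norm_num

theorem V6_sb7 (t : ℕ) : (modV p k t q)^[6] (sb 7 c)
    = sb 1 ((p : WittVector p k) ^ 1 * sg (-6) c) := by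
  rw [itV_7_6]

theorem F6_sb8 : (modF p k 0 q)^[6] (sb 8 c)
    = -sb 2 ((p : WittVector p k) ^ 2 * sg 6 c) - sb 8 ((q : WittVector p k) * sg 6 c) := by
  have h : (modF p k 0 q)^[6] (sb 8 c)
      = (modF p k 0 q)^[2] (modF p k 0 q ((modF p k 0 q)^[3] (sb 8 c))) := rfl
  rw [h, itF_8_3, modF_sb_11, frob_eq, sg_sg, iterate_map_sub, iterate_map_sub, iterate_map_sub,
    iterate_map_neg]
  simp only [Nat.cast_zero, zero_mul, sb_zero, iterate_map_zero, sub_zero]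
  rw [itF_0_2, itF_6_2]
  simp only [map_mul, sg_natCast, sg_sg]
  norm_num

theorem V6_sb8 (t : ℕ) : (modV p k t q)^[6] (sb 8 c)
    = sb 2 ((p : WittVector p k) ^ 2 * sg (-6) c) := by
  rw [itV_8_6]

theorem F6_sb9 : (modF p k 0 q)^[6] (sb 9 c)
    = -sb 3 ((p : WittVector p k) ^ 3 * sg 6 c) - sb 9 ((q : WittVector p k) * sg 6 c) := by
  have h : (modF p k 0 q)^[6] (sb 9 c)
      = (modF p k 0 q)^[3] (modF p k 0 q ((modF p k 0 q)^[2] (sb 9 c))) := rfl
  rw [h, itF_9_2, modF_sb_11, frob_eq, sg_sg, iterate_map_sub, iterate_map_sub, iterate_map_sub,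
    iterate_map_neg]
  simp only [Nat.cast_zero, zero_mul, sb_zero, iterate_map_zero, sub_zero]
  rw [itF_0_3, itF_6_3]
  simp only [map_mul, sg_natCast, sg_sg]
  norm_num

theorem V6_sb9 (t : ℕ) : (modV p k t q)^[6] (sb 9 c)
    = sb 3 ((p : WittVector p k) ^ 3 * sg (-6) c) := by
  rw [itV_9_6]

theorem F6_sb10 : (modF p k 0 q)^[6] (sb 10 c)
    = -sb 4 ((p : WittVector p k) ^ 4 * sg 6 c) - sb 10 ((q : WittVector p k) * sg 6 c) := by
  have h : (modF p k 0 q)^[6] (sb 10 c)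
      = (modF p k 0 q)^[4] (modF p k 0 q ((modF p k 0 q)^[1] (sb 10 c))) := rfl
  rw [h, itF_10_1, modF_sb_11, frob_eq, sg_sg, iterate_map_sub, iterate_map_sub, iterate_map_sub,
    iterate_map_neg]
  simp only [Nat.cast_zero, zero_mul, sb_zero, iterate_map_zero, sub_zero]
  rw [itF_0_4, itF_6_4]
  simp only [map_mul, sg_natCast, sg_sg]
  norm_num

theorem V6_sb10 (t : ℕ) : (modV p k t q)^[6] (sb 10 c)
    = sb 4 ((p : WittVector p k) ^ 4 * sg (-6) c) := by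
  rw [itV_10_6]

theorem F6_sb11 : (modF p k 0 q)^[6] (sb 11 c)
    = -sb 5 ((p : WittVector p k) ^ 5 * sg 6 c) - sb 11 ((q : WittVector p k) * sg 6 c) := by
  have h : (modF p k 0 q)^[6] (sb 11 c)
      = (modF p k 0 q)^[5] (modF p k 0 q ((modF p k 0 q)^[0] (sb 11 c))) := rfl
  rw [h, itF_11_0, modF_sb_11, frob_eq, iterate_map_sub, iterate_map_sub, iterate_map_sub,
    iterate_map_neg]
  simp only [Nat.cast_zero, zero_mul, sb_zero, iterate_map_zero, sub_zero]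
  rw [itF_0_5, itF_6_5]
  simp only [map_mul, sg_natCast, sg_sg]
  norm_num

theorem V6_sb11 (t : ℕ) : (modV p k t q)^[6] (sb 11 c)
    = sb 5 ((p : WittVector p k) ^ 5 * sg (-6) c) := by
  rw [itV_11_6]

theorem theta0 : (modV p k 0 q)^[6] (sb 6 1) + (q : WittVector p k) • sb 6 1
      + (modF p k 0 q)^[6] (sb 6 1) = 0 := by
  rw [itV_6_6, F6_sb6, map_one, map_one, sb_smul]
  abel

/-- The relation `q h_j(c) = p^j h_{6-j}(σ^{-j}(1+σ^6) c)`. -/
theorem star_aux (y : Fin 12 → WittVector p k) :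
    brM 0 q (sb 6 1) ((modF p k 0 q)^[6] y) + brM 0 q (sb 6 1) ((q : WittVector p k) • y)
      + brM 0 q (sb 6 1) ((modV p k 0 q)^[6] y) = 0 :=
  theta_rel 6 y (theta0 q)

theorem star_1 : hh 0 q 7 ((q : WittVector p k) * c)
    = hh 0 q 11 ((p : WittVector p k) ^ 1 * sg (-1) (c + sg 6 c)) := by
  obtain ⟨d, rfl⟩ := oneSub6_surj c
  have h := star_aux q (sb 7 d)
  rw [F6_sb7, V6_sb7, sb_smul, brM_sub_right, brM_neg_right] at h
  rw [← hh_apply, ← hh_apply, ← hh_apply, ← hh_apply, hh_neg_5, hh_neg_5] at h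
  change hh 0 q 7 ((q : WittVector p k) * (d - sg 6 d)) = hh 0 q 11 ((p : WittVector p k) ^ 1 *
    sg (-1) ((d - sg 6 d) + sg 6 (d - sg 6 d)))
  simp only [map_mul, map_pow, map_add, map_sub, sg_natCast, sg_sg, mul_sub, mul_add] at h ⊢
  norm_num at h ⊢
  rw [← sub_eq_zero, ← h]
  abel

theorem star_2 : hh 0 q 8 ((q : WittVector p k) * c)
    = hh 0 q 10 ((p : WittVector p k) ^ 2 * sg (-2) (c + sg 6 c)) := by
  obtain ⟨d, rfl⟩ := oneSub6_surj c
  have h := star_aux q (sb 8 d)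
  rw [F6_sb8, V6_sb8, sb_smul, brM_sub_right, brM_neg_right] at h
  rw [← hh_apply, ← hh_apply, ← hh_apply, ← hh_apply, hh_neg_4, hh_neg_4] at h
  change hh 0 q 8 ((q : WittVector p k) * (d - sg 6 d)) = hh 0 q 10 ((p : WittVector p k) ^ 2 *
    sg (-2) ((d - sg 6 d) + sg 6 (d - sg 6 d)))
  simp only [map_mul, map_pow, map_add, map_sub, sg_natCast, sg_sg, mul_sub, mul_add] at h ⊢
  norm_num at h ⊢
  rw [← sub_eq_zero, ← h]
  abel

theorem star_3 : hh 0 q 9 ((q : WittVector p k) * c)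
    = hh 0 q 9 ((p : WittVector p k) ^ 3 * sg (-3) (c + sg 6 c)) := by
  obtain ⟨d, rfl⟩ := oneSub6_surj c
  have h := star_aux q (sb 9 d)
  rw [F6_sb9, V6_sb9, sb_smul, brM_sub_right, brM_neg_right] at h
  rw [← hh_apply, ← hh_apply, ← hh_apply, ← hh_apply, hh_neg_3, hh_neg_3] at h
  change hh 0 q 9 ((q : WittVector p k) * (d - sg 6 d)) = hh 0 q 9 ((p : WittVector p k) ^ 3 *
    sg (-3) ((d - sg 6 d) + sg 6 (d - sg 6 d)))
  simp only [map_mul, map_pow, map_add, map_sub, sg_natCast, sg_sg, mul_sub, mul_add] at h ⊢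
  norm_num at h ⊢
  rw [← sub_eq_zero, ← h]
  abel

theorem star_4 : hh 0 q 10 ((q : WittVector p k) * c)
    = hh 0 q 8 ((p : WittVector p k) ^ 4 * sg (-4) (c + sg 6 c)) := by
  obtain ⟨d, rfl⟩ := oneSub6_surj c
  have h := star_aux q (sb 10 d)
  rw [F6_sb10, V6_sb10, sb_smul, brM_sub_right, brM_neg_right] at h
  rw [← hh_apply, ← hh_apply, ← hh_apply, ← hh_apply, hh_neg_2, hh_neg_2] at h
  change hh 0 q 10 ((q : WittVector p k) * (d - sg 6 d)) = hh 0 q 8 ((p : WittVector p k) ^ 4 *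
    sg (-4) ((d - sg 6 d) + sg 6 (d - sg 6 d)))
  simp only [map_mul, map_pow, map_add, map_sub, sg_natCast, sg_sg, mul_sub, mul_add] at h ⊢
  norm_num at h ⊢
  rw [← sub_eq_zero, ← h]
  abel

theorem star_5 : hh 0 q 11 ((q : WittVector p k) * c)
    = hh 0 q 7 ((p : WittVector p k) ^ 5 * sg (-5) (c + sg 6 c)) := by
  obtain ⟨d, rfl⟩ := oneSub6_surj c
  have h := star_aux q (sb 11 d)
  rw [F6_sb11, V6_sb11, sb_smul, brM_sub_right, brM_neg_right] at h
  rw [← hh_apply, ← hh_apply, ← hh_apply, ← hh_apply, hh_neg_1, hh_neg_1] at h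
  change hh 0 q 11 ((q : WittVector p k) * (d - sg 6 d)) = hh 0 q 7 ((p : WittVector p k) ^ 5 *
    sg (-5) ((d - sg 6 d) + sg 6 (d - sg 6 d)))
  simp only [map_mul, map_pow, map_add, map_sub, sg_natCast, sg_sg, mul_sub, mul_add] at h ⊢
  norm_num at h ⊢
  rw [← sub_eq_zero, ← h]
  abel

end T0

end Pool.Agent.UA
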